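import Pool.Agent.Lib.P07318w.Defs

/-!
# P07318w.AlgRed: the ring of functions with poles only at infinity on the curve `X Y^p - X Y = a X^2 + b`

Pure algebra in `MvPolynomial (Fin 2) F` (`X = X 0`, `Y = X 1`), nothing else of the package is used. `NG p k` says that
`k` is not a gap; `mon F p k = X^(k/p) Y^(k%p)` has pole order `k` at infinity; `cc p a b` is the equation of the curve;
`Lp F p w` is the span of the `mon F p k` with `NG p k`, `k ≤ w`; `LL p a b w` is `Lp F p w` plus the ideal of the curve.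

PROOFS.
`mon_mem`: `Submodule.mem_sup_left (Submodule.subset_span _)`.
`ll_mul`: write `f = f1 + f2`, `g = g1 + g2` with `f1 ∈ Lp w`, `g1 ∈ Lp w'`, `f2, g2` in the ideal `I`; everything with `f2` or
`g2` is in `I`; so it remains to see `f1 * g1 ∈ LL (w + w')`, and by bilinearity (`Submodule.span_induction` twice, or
`Submodule.mul_le` / `Submodule.span_mul_span`) that `mon j * mon k ∈ LL (j + k)` for `NG p j`, `NG p k`. If `j = 0` or `k = 0` this
is clear (`mon 0 = 1`). Otherwise `j / p ≥ 1`, `k / p ≥ 1`. If `j % p + k % p < p` then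
`mon j * mon k = mon (j + k)` (`(j + k) / p = j / p + k / p`, `(j + k) % p = j % p + k % p`). If `j % p + k % p = p + s`, `0 ≤ s ≤ p - 2`, and
`i = j / p + k / p ≥ 2`, then `mon j * mon k = X^i Y^(p+s) = X^(i-1) Y^s (X Y^p)` and
`X^i Y^(p+s) - (X^i Y^(s+1) + a X^(i+1) Y^s + b X^(i-1) Y^s) = X^(i-1) Y^s * cc` is in `I`; the three monomials are
`mon (p i + s + 1)`, `mon (p (i+1) + s)`, `mon (p (i-1) + s)` (here `s + 1 < p`, `i - 1 ≥ 1`), with indices at most
`p (i + 1) + s = j + k`, all `≥ p`.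
`ll_pow`: induction with `ll_mul`, `1 = mon 0 ∈ LL 0`.
`shift_mem`: the map is an algebra homomorphism with `X ↦ X`, `Y ↦ Y + t`; by linearity (`Submodule.span_induction`) it is enough that
`X^i (Y + t)^j` (`k = p i + j`, `j < p`) is in `Lp w`: `add_pow`, the terms are multiples of `X^i Y^j' = mon (p i + j')`,
`j' ≤ j`; these indices are `≥ p` if `i ≥ 1`, and if `i = 0` then `k = 0` (as `k` is no gap and `k < p`) and `j = 0`.
`ng_card`: `{k ≤ w : k = 0 or p ≤ k}` has `1 + (w + 1 - p)` elements.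
`exists_ker`: let `q : MvPolynomial → MvPolynomial / I` be the quotient map (as an `F`-linear map); the image `V` of `LL w` under `q` is
the image of `Lp w` (the ideal goes to `0`), so it is the span of the finite set of the `q (mon k)`, `k ∈ (range (w+1)).filter NG`,
hence `finrank F V ≤ w + 2 - p` by `ng_card` (`finrank_span_finset_le_card` or `finrank_range_le_card`). The linear map
`d ↦ ∑ i, d i • q (v i)` from `ι → F` (dimension `card ι > w + 2 - p`) to `V` has a nonzero kernel element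
(`LinearMap.exists_ne_zero_of_finrank_lt` or `LinearMap.ker_ne_bot_of_finrank_lt`), and `q (∑ C (d i) * v i) = 0`
means membership in the ideal (`Ideal.Quotient.eq_zero_iff_mem`).
`coeffs`: `Submodule.mem_span_image_iff_exists_fun` / `Submodule.span_induction`.
-/

set_option autoImplicit false

open MvPolynomial

namespace Pool.Agent.P07318w

/-- `k` is a nonnegative integer that is a pole order. -/
def NG (p k : ℕ) : Prop := k = 0 ∨ p ≤ k

instance (p k : ℕ) : Decidable (NG p k) := by unfold NG; infer_instance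

/-- `X^(k/p) Y^(k%p)` -/
noncomputable def mon (F : Type) [Field F] (p k : ℕ) : MvPolynomial (Fin 2) F := X 0 ^ (k / p) * X 1 ^ (k % p)

/-- the equation of the curve -/
noncomputable def cc {F : Type} [Field F] (p : ℕ) (a b : F) : MvPolynomial (Fin 2) F :=
  X 0 * X 1 ^ p - X 0 * X 1 - C a * X 0 ^ 2 - C b

/-- the space spanned by the monomials of pole order at most `w` -/
noncomputable def Lp (F : Type) [Field F] (p w : ℕ) : Submodule F (MvPolynomial (Fin 2) F) :=
  Submodule.span F {m | ∃ k : ℕ, NG p k ∧ k ≤ w ∧ m = mon F p k}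

/-- the same plus the ideal of the curve -/
noncomputable def LL {F : Type} [Field F] (p : ℕ) (a b : F) (w : ℕ) : Submodule F (MvPolynomial (Fin 2) F) :=
  Lp F p w ⊔ (Ideal.span {cc p a b}).restrictScalars F

variable {F : Type} [Field F]

theorem mon_mem {p k w : ℕ} (a b : F) (hk : NG p k) (hkw : k ≤ w) : mon F p k ∈ LL p a b w :=
  Submodule.mem_sup_left (Submodule.subset_span ⟨k, hk, hkw, rfl⟩)

namespace AlgRedAux

theorem mon_zero (p : ℕ) : mon F p 0 = 1 := by
  simp [mon]

theorem mon_eq {p c : ℕ} (i : ℕ) (hc : c < p) : mon F p (p * i + c) = X 0 ^ i * X 1 ^ c := by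
  unfold mon
  rw [Nat.mul_add_div (by omega), Nat.div_eq_of_lt hc, Nat.mul_add_mod, Nat.mod_eq_of_lt hc,
    add_zero]

theorem ideal_mem {p : ℕ} {a b : F} {f : MvPolynomial (Fin 2) F} (w : ℕ)
    (hf : f ∈ Ideal.span {cc p a b}) : f ∈ LL p a b w :=
  Submodule.mem_sup_right ((Submodule.restrictScalars_mem F _ _).2 hf)

theorem mon_mul {p : ℕ} (hp : 2 ≤ p) (a b : F) {j k : ℕ} (hj : NG p j) (hk : NG p k) :
    mon F p j * mon F p k ∈ LL p a b (j + k) := by
  by_cases hj0 : j = 0
  · rw [hj0, mon_zero, one_mul, zero_add]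
    exact mon_mem a b hk le_rfl
  by_cases hk0 : k = 0
  · rw [hk0, mon_zero, mul_one, add_zero]
    exact mon_mem a b hj le_rfl
  have hjp : p ≤ j := hj.resolve_left hj0
  have hkp : p ≤ k := hk.resolve_left hk0
  obtain ⟨i1, j1, hj1, rfl⟩ : ∃ i1 j1, j1 < p ∧ j = p * i1 + j1 :=
    ⟨j / p, j % p, Nat.mod_lt _ (by omega), (Nat.div_add_mod j p).symm⟩
  obtain ⟨i2, k1, hk1, rfl⟩ : ∃ i2 k1, k1 < p ∧ k = p * i2 + k1 :=
    ⟨k / p, k % p, Nat.mod_lt _ (by omega), (Nat.div_add_mod k p).symm⟩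
  have hi1 : 1 ≤ i1 := by
    by_contra h
    have : i1 = 0 := by omega
    rw [this] at hjp
    omega
  have hi2 : 1 ≤ i2 := by
    by_contra h
    have : i2 = 0 := by omega
    rw [this] at hkp
    omega
  rw [mon_eq i1 hj1, mon_eq i2 hk1]
  by_cases hlt : j1 + k1 < p
  · have e1 : (X 0 ^ i1 * X 1 ^ j1 * (X 0 ^ i2 * X 1 ^ k1) : MvPolynomial (Fin 2) F) =
        mon F p (p * (i1 + i2) + (j1 + k1)) := by
      rw [mon_eq _ hlt]
      ring
    rw [e1]
    have e2 : p * (i1 + i2) + (j1 + k1) = p * i1 + j1 + (p * i2 + k1) := by ring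
    rw [e2]
    exact mon_mem a b (Or.inr (by omega)) le_rfl
  · obtain ⟨s, hs⟩ : ∃ s, j1 + k1 = p + s := ⟨j1 + k1 - p, by omega⟩
    obtain ⟨m, hm⟩ : ∃ m, i1 + i2 = m + 1 := ⟨i1 + i2 - 1, by omega⟩
    have hm1 : 1 ≤ m := by omega
    have e1 : (X 0 ^ i1 * X 1 ^ j1 * (X 0 ^ i2 * X 1 ^ k1) : MvPolynomial (Fin 2) F) =
        mon F p (p * (m + 1) + (s + 1)) + a • mon F p (p * (m + 2) + s) +
          b • mon F p (p * m + s) + X 0 ^ m * X 1 ^ s * cc p a b := by
      rw [mon_eq _ (by omega), mon_eq _ (by omega), mon_eq _ (by omega), ← C_mul', ← C_mul']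
      have e2 : (X 0 ^ i1 * X 1 ^ j1 * (X 0 ^ i2 * X 1 ^ k1) : MvPolynomial (Fin 2) F) =
          X 0 ^ (i1 + i2) * X 1 ^ (j1 + k1) := by ring
      rw [e2, hs, hm]
      unfold cc
      ring
    rw [e1]
    have hidx : p * i1 + j1 + (p * i2 + k1) = p * (m + 2) + s := by
      have : p * i1 + j1 + (p * i2 + k1) = p * (i1 + i2) + (j1 + k1) := by ring
      rw [this, hs, hm]
      ring
    rw [hidx]
    have hpm : p ≤ p * m := Nat.le_mul_of_pos_right p hm1
    have q1 : p * (m + 1) = p * m + p := by ring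
    have q2 : p * (m + 2) = p * m + p + p := by ring
    refine Submodule.add_mem _ (Submodule.add_mem _ (Submodule.add_mem _ ?_ ?_) ?_) ?_
    · exact mon_mem a b (Or.inr (by omega)) (by omega)
    · exact Submodule.smul_mem _ _ (mon_mem a b (Or.inr (by omega)) (by omega))
    · exact Submodule.smul_mem _ _ (mon_mem a b (Or.inr (by omega)) (by omega))
    · exact ideal_mem _ (Ideal.mul_mem_left _ _ (Ideal.mem_span_singleton_self _))

theorem lp_mul {p : ℕ} (hp : 2 ≤ p) (a b : F) {w w' : ℕ} {f g : MvPolynomial (Fin 2) F}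
    (hf : f ∈ Lp F p w) (hg : g ∈ Lp F p w') : f * g ∈ LL p a b (w + w') := by
  have h1 := Submodule.mul_mem_mul hf hg
  unfold Lp at h1
  rw [Submodule.span_mul_span] at h1
  refine Submodule.span_le.2 ?_ h1
  rintro _ ⟨_, ⟨j, hj, hjw, rfl⟩, _, ⟨k, hk, hkw, rfl⟩, rfl⟩
  have h2 := mon_mul hp a b hj hk
  have hmono : LL p a b (j + k) ≤ LL p a b (w + w') := by
    unfold LL
    refine sup_le_sup (Submodule.span_mono ?_) le_rfl
    rintro _ ⟨i, hi, hiw, rfl⟩
    exact ⟨i, hi, by omega, rfl⟩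
  exact hmono h2

theorem one_mem_LL (p : ℕ) (a b : F) (w : ℕ) : (1 : MvPolynomial (Fin 2) F) ∈ LL p a b w := by
  rw [← mon_zero p]
  exact mon_mem a b (Or.inl rfl) (Nat.zero_le _)

end AlgRedAux

open AlgRedAux

theorem ll_mul {p : ℕ} (hp : 2 ≤ p) {a b : F} {w w' : ℕ} {f g : MvPolynomial (Fin 2) F} (hf : f ∈ LL p a b w)
    (hg : g ∈ LL p a b w') : f * g ∈ LL p a b (w + w') := by
  obtain ⟨f1, hf1, f2, hf2, rfl⟩ := Submodule.mem_sup.1 hf
  obtain ⟨g1, hg1, g2, hg2, rfl⟩ := Submodule.mem_sup.1 hg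
  rw [Submodule.restrictScalars_mem] at hf2 hg2
  have e1 : (f1 + f2) * (g1 + g2) = f1 * g1 + ((f1 + f2) * g2 + f2 * g1) := by ring
  rw [e1]
  refine Submodule.add_mem _ (lp_mul hp a b hf1 hg1) (ideal_mem _ ?_)
  exact Ideal.add_mem _ (Ideal.mul_mem_left _ _ hg2) (Ideal.mul_mem_right _ _ hf2)

theorem ll_pow {p : ℕ} (hp : 2 ≤ p) {a b : F} {w : ℕ} {f : MvPolynomial (Fin 2) F} (hf : f ∈ LL p a b w) (n : ℕ) :
    f ^ n ∈ LL p a b (n * w) := by
  induction n with
  | zero =>
    rw [pow_zero]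
    exact one_mem_LL _ _ _ _
  | succ n ih =>
    rw [pow_succ, add_one_mul]
    exact ll_mul hp ih hf

theorem shift_mem {p : ℕ} (hp : 2 ≤ p) (t : F) {w : ℕ} {f : MvPolynomial (Fin 2) F} (hf : f ∈ Lp F p w) :
    aeval ![(X 0 : MvPolynomial (Fin 2) F), X 1 + C t] f ∈ Lp F p w := by
  unfold Lp at hf
  induction hf using Submodule.span_induction with
  | mem x hx =>
    obtain ⟨k, hk, hkw, rfl⟩ := hx
    by_cases hk0 : k = 0
    · rw [hk0, mon_zero, map_one, ← mon_zero p]
      exact Submodule.subset_span ⟨0, Or.inl rfl, Nat.zero_le _, rfl⟩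
    · have hkp : p ≤ k := hk.resolve_left hk0
      have hdm := Nat.div_add_mod k p
      have hlt : k % p < p := Nat.mod_lt _ (by omega)
      have h1 : 1 ≤ k / p := (Nat.one_le_div_iff (by omega)).2 hkp
      have h2 : p ≤ p * (k / p) := Nat.le_mul_of_pos_right p h1
      have e1 : aeval ![(X 0 : MvPolynomial (Fin 2) F), X 1 + C t] (mon F p k) =
          ∑ m ∈ Finset.range (k % p + 1),
            (t ^ (k % p - m) * ((k % p).choose m : F)) • mon F p (p * (k / p) + m) := by
        have e2 : aeval ![(X 0 : MvPolynomial (Fin 2) F), X 1 + C t] (mon F p k) =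
            X 0 ^ (k / p) * (X 1 + C t) ^ (k % p) := by
          unfold mon
          simp
        rw [e2, add_pow, Finset.mul_sum]
        refine Finset.sum_congr rfl fun m hm => ?_
        rw [Finset.mem_range] at hm
        rw [mon_eq _ (by omega), ← C_mul', C_mul, C_pow, map_natCast]
        ring
      rw [e1]
      refine Submodule.sum_mem _ fun m hm => ?_
      rw [Finset.mem_range] at hm
      exact Submodule.smul_mem _ _ (Submodule.subset_span
        ⟨p * (k / p) + m, Or.inr (by omega), by omega, rfl⟩)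
  | zero =>
    rw [map_zero]
    exact Submodule.zero_mem _
  | add x y _ _ hx hy =>
    rw [map_add]
    exact Submodule.add_mem _ hx hy
  | smul c x _ hx =>
    rw [map_smul]
    exact Submodule.smul_mem _ _ hx

theorem ng_card {p w : ℕ} (hp : 1 ≤ p) (hw : p ≤ w) : ((Finset.range (w + 1)).filter (NG p)).card = w + 2 - p := by
  have h1 : (Finset.range (w + 1)).filter (NG p) = insert 0 (Finset.Icc p w) := by
    ext k
    simp only [Finset.mem_filter, Finset.mem_range, Finset.mem_insert, Finset.mem_Icc, NG]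
    omega
  rw [h1, Finset.card_insert_of_notMem (by rw [Finset.mem_Icc]; omega), Nat.card_Icc]
  omega

theorem exists_ker {p : ℕ} (hp : 2 ≤ p) {a b : F} {w : ℕ} (hw : p ≤ w) {ι : Type} [Fintype ι]
    (v : ι → MvPolynomial (Fin 2) F) (hv : ∀ i, v i ∈ LL p a b w) (hι : w + 2 - p < Fintype.card ι) :
    ∃ d : ι → F, d ≠ 0 ∧ ∑ i, C (d i) * v i ∈ Ideal.span {cc p a b} := by
  classical
  set I : Ideal (MvPolynomial (Fin 2) F) := Ideal.span {cc p a b} with hI
  set q : MvPolynomial (Fin 2) F →ₗ[F] (MvPolynomial (Fin 2) F ⧸ I) :=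
    (Ideal.Quotient.mkₐ F I).toLinearMap with hq
  set T : Finset (MvPolynomial (Fin 2) F ⧸ I) :=
    ((Finset.range (w + 1)).filter (NG p)).image fun k => q (mon F p k) with hT
  have hcard : T.card ≤ w + 2 - p := by
    rw [← ng_card (by omega : 1 ≤ p) hw]
    exact Finset.card_image_le
  set V : Submodule F (MvPolynomial (Fin 2) F ⧸ I) := Submodule.span F (T : Set _) with hV
  have hVfin : FiniteDimensional F V := FiniteDimensional.span_finset F T
  have hrank : Module.finrank F V ≤ w + 2 - p := (finrank_span_finset_le_card T).trans hcard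
  have hmem : ∀ i, q (v i) ∈ V := by
    intro i
    obtain ⟨y, hy, z, hz, hyz⟩ := Submodule.mem_sup.1 (hv i)
    rw [Submodule.restrictScalars_mem] at hz
    have hz0 : q z = 0 := by
      rw [hq]
      exact Ideal.Quotient.eq_zero_iff_mem.2 hz
    rw [← hyz, map_add, hz0, add_zero]
    have h1 : q y ∈ Submodule.map q (Lp F p w) := Submodule.mem_map_of_mem hy
    unfold Lp at h1
    rw [Submodule.map_span] at h1
    refine Submodule.span_mono ?_ h1
    rintro _ ⟨_, ⟨k, hk, hkw, rfl⟩, rfl⟩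
    rw [hT, Finset.mem_coe, Finset.mem_image]
    exact ⟨k, Finset.mem_filter.2 ⟨Finset.mem_range.2 (by omega), hk⟩, rfl⟩
  set φ : (ι → F) →ₗ[F] V := Fintype.linearCombination F (fun i => (⟨q (v i), hmem i⟩ : V)) with hφ
  have hker : LinearMap.ker φ ≠ ⊥ := by
    apply LinearMap.ker_ne_bot_of_finrank_lt
    rw [Module.finrank_fintype_fun_eq_card]
    omega
  obtain ⟨d, hd, hd0⟩ := Submodule.exists_mem_ne_zero_of_ne_bot hker
  refine ⟨d, hd0, ?_⟩
  rw [LinearMap.mem_ker, hφ, Fintype.linearCombination_apply] at hd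
  have h2 : q (∑ i, C (d i) * v i) = 0 := by
    have h3 := congrArg (fun x : V => (x : MvPolynomial (Fin 2) F ⧸ I)) hd
    simp only [Submodule.coe_sum, Submodule.coe_smul, Submodule.coe_zero] at h3
    rw [map_sum, ← h3]
    refine Finset.sum_congr rfl fun i _ => ?_
    rw [C_mul', map_smul]
  exact Ideal.Quotient.eq_zero_iff_mem.1 h2

theorem coeffs {p w : ℕ} {f : MvPolynomial (Fin 2) F} (hf : f ∈ Lp F p w) :
    ∃ γ : ℕ → F, f = ∑ k ∈ (Finset.range (w + 1)).filter (NG p), C (γ k) * mon F p k := by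
  classical
  unfold Lp at hf
  induction hf using Submodule.span_induction with
  | mem x hx =>
    obtain ⟨k, hk, hkw, rfl⟩ := hx
    refine ⟨fun j => if j = k then 1 else 0, ?_⟩
    rw [Finset.sum_eq_single k]
    · simp
    · intro j _ hjk
      simp [hjk]
    · intro h
      exact absurd (Finset.mem_filter.2 ⟨Finset.mem_range.2 (by omega), hk⟩) h
  | zero =>
    exact ⟨0, by simp⟩
  | add x y _ _ hx hy =>
    obtain ⟨γ, hγ⟩ := hx
    obtain ⟨δ, hδ⟩ := hy
    refine ⟨γ + δ, ?_⟩
    conv_lhs => rw [hγ, hδ]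
    rw [← Finset.sum_add_distrib]
    refine Finset.sum_congr rfl fun k _ => ?_
    rw [Pi.add_apply, C_add]
    ring
  | smul c x _ hx =>
    obtain ⟨γ, hγ⟩ := hx
    refine ⟨fun k => c * γ k, ?_⟩
    conv_lhs => rw [hγ]
    rw [Finset.smul_sum]
    refine Finset.sum_congr rfl fun k _ => ?_
    rw [← C_mul', C_mul]
    ring

end Pool.Agent.P07318w
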