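import Pool.Agent.Lib.P07318m.BHarm

/-!
# P07318w.BRange: harmonic sums over `b ≤ X`, `(a, b) = 1`, with the weight `(E - log b)^j`

Model: `P07318m.BHarm` (`b_harm` is the case `E = log X`, `j ≥ 1`; its auxiliary lemmas `sum_moebius_div`, `indicator_eq`, ... can be used).

PROOF. By Möbius the sum is `∑_{d | a} μ(d)/d ∑_{m ≤ X/d} (1/m) (E_d - log m)^j`, `E_d = E - log d`. For `d ≤ X` all the values `E_d - log m = E - log(d m)`, `1 ≤ d m ≤ X`, lie between `E` and `E - log X`, so are at most `M` in absolute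
value, and by comparison with the integral (`f(t) = (E_d - log t)^j / t`, `|f'(t)| ≤ (M^j + j M^(j-1))/t^2`, so `|∑_{m ≤ y} f(m) - ∫_1^y f| ≤ |f(1)| + ∫_1^y |f'| ≤ (j+2) M^j`)
`∑_{m ≤ X/d} = (E_d^(j+1) - (E - log X)^(j+1))/(j+1) + O((j+2) M^j)`, and `|E^(j+1) - E_d^(j+1)|/(j+1) ≤ log d M^j`. For `d > X` the inner sum is empty and
`|E^(j+1) - (E - log X)^(j+1)|/(j+1) ≤ log X M^j ≤ log d M^j`. So the total error is at most
`∑_{d | a} (1/d)((j+2) + log d) M^j ≤ (j+2) Ea(a) M^j`, and `∑_{d | a} μ(d)/d = φ(a)/a` (`sum_moebius_div`).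
-/

set_option autoImplicit false

namespace Pool.Agent.P07318w

open Pool.Agent.P07318m (Ea)

namespace BRangeAux

theorem pow_diff (j : ℕ) {u v M : ℝ} (hM : 1 ≤ M) (hu : |u| ≤ M) (hv : |v| ≤ M) :
    |u ^ (j + 1) - v ^ (j + 1)| ≤ (j + 1) * (M ^ j * |u - v|) := by
  have hM0 : 0 ≤ M := by linarith
  induction j with
  | zero => simp
  | succ j ih =>
    have h1 : u ^ (j + 1 + 1) - v ^ (j + 1 + 1) =
        v * (u ^ (j + 1) - v ^ (j + 1)) + u ^ (j + 1) * (u - v) := by ring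
    rw [h1]
    have h2 : |v * (u ^ (j + 1) - v ^ (j + 1))| ≤ M * ((j + 1) * (M ^ j * |u - v|)) := by
      rw [abs_mul]
      exact mul_le_mul hv ih (abs_nonneg _) hM0
    have h3 : |u ^ (j + 1) * (u - v)| ≤ M ^ (j + 1) * |u - v| := by
      rw [abs_mul, abs_pow]
      exact mul_le_mul_of_nonneg_right (pow_le_pow_left₀ (abs_nonneg _) hu _) (abs_nonneg _)
    refine (abs_add_le _ _).trans ((add_le_add h2 h3).trans (le_of_eq ?_))
    push_cast
    ring

theorem pow_diff2 (j : ℕ) {u v M : ℝ} (hM : 1 ≤ M) (hu : |u| ≤ M) (hv : |v| ≤ M) :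
    |u ^ (j + 1) - v ^ (j + 1) - (j + 1) * (u ^ j * (u - v))| ≤
      (j + 1) * (j * (M ^ j * (u - v) ^ 2)) := by
  have hM0 : 0 ≤ M := by linarith
  induction j with
  | zero => simp
  | succ j ih =>
    have h1 : u ^ (j + 1 + 1) - v ^ (j + 1 + 1) - ((j + 1 : ℕ) + 1) * (u ^ (j + 1) * (u - v)) =
        v * (u ^ (j + 1) - v ^ (j + 1) - (j + 1) * (u ^ j * (u - v))) +
          -((j + 1) * (u ^ j * (u - v) ^ 2)) := by
      push_cast
      ring
    rw [h1]
    have h2 : |v * (u ^ (j + 1) - v ^ (j + 1) - (j + 1) * (u ^ j * (u - v)))| ≤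
        M * ((j + 1) * (j * (M ^ j * (u - v) ^ 2))) := by
      rw [abs_mul]
      exact mul_le_mul hv ih (abs_nonneg _) hM0
    have hj : (0 : ℝ) ≤ j := Nat.cast_nonneg j
    have h3 : |-(((j : ℝ) + 1) * (u ^ j * (u - v) ^ 2))| ≤ (j + 1) * (M ^ (j + 1) * (u - v) ^ 2) := by
      rw [abs_neg, abs_mul, abs_mul, abs_pow, abs_of_nonneg (by positivity : (0 : ℝ) ≤ (u - v) ^ 2),
        abs_of_nonneg (by positivity : (0 : ℝ) ≤ (j : ℝ) + 1)]
      refine mul_le_mul_of_nonneg_left (mul_le_mul_of_nonneg_right ?_ (by positivity)) (by positivity)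
      exact (pow_le_pow_left₀ (abs_nonneg _) hu _).trans (pow_le_pow_right₀ hM (Nat.le_succ j))
    refine (abs_add_le _ _).trans ((add_le_add h2 h3).trans ?_)
    have h4 : 0 ≤ M ^ (j + 1) * (u - v) ^ 2 := by positivity
    have e : M * (((j : ℝ) + 1) * (j * (M ^ j * (u - v) ^ 2))) +
        (j + 1) * (M ^ (j + 1) * (u - v) ^ 2) = (j + 1) * (j + 1) * (M ^ (j + 1) * (u - v) ^ 2) := by
      ring
    rw [e]
    push_cast
    nlinarith [mul_nonneg (by positivity : (0 : ℝ) ≤ (j : ℝ) + 1) h4]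

/-- the summand -/
noncomputable def gg (j : ℕ) (E : ℝ) (m : ℕ) : ℝ := (1 / (m : ℝ)) * (E - Real.log m) ^ j

theorem between {E y M : ℝ} (h1 : |E| ≤ M) (h2 : |E - Real.log y| ≤ M) {x : ℝ} (hx : 1 ≤ x)
    (hxy : x ≤ y) : |E - Real.log x| ≤ M := by
  have h3 : 0 ≤ Real.log x := Real.log_nonneg hx
  have h4 : Real.log x ≤ Real.log y := Real.log_le_log (by linarith) hxy
  rw [abs_le] at *
  constructor <;> linarith [h1.1, h1.2, h2.1, h2.2]

theorem partial_sums (j : ℕ) {E y M : ℝ} (hM : 1 ≤ M) (h1 : |E| ≤ M) (h2 : |E - Real.log y| ≤ M)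
    (N : ℕ) (hN : 1 ≤ N) (hNy : (N : ℝ) ≤ y) :
    |∑ m ∈ Finset.Icc 1 N, gg j E m - gg j E N -
      (E ^ (j + 1) - (E - Real.log N) ^ (j + 1)) / (j + 1)| ≤
      (2 * j + 1) * M ^ j * (1 - 1 / (N : ℝ)) := by
  have hj : (0 : ℝ) < (j : ℝ) + 1 := by positivity
  have hj0 : (0 : ℝ) ≤ j := Nat.cast_nonneg j
  have hMj : 0 ≤ M ^ j := by positivity
  induction N, hN using Nat.le_induction with
  | base => simp
  | succ N hN ih =>
    push_cast at hNy
    have hN0 : (0 : ℝ) < N := by exact_mod_cast hN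
    have hN1 : (1 : ℝ) ≤ N := by exact_mod_cast hN
    have ih' := ih (by linarith)
    set u : ℝ := E - Real.log N with hu
    set v : ℝ := E - Real.log ((N + 1 : ℕ) : ℝ) with hv
    have hu' : |u| ≤ M := between h1 h2 hN1 (by linarith)
    have hv' : |v| ≤ M := between h1 h2 (by push_cast; linarith) (by push_cast; exact hNy)
    have huv : u - v = Real.log (((N : ℝ) + 1) / N) := by
      rw [hu, hv, Real.log_div (by positivity) hN0.ne']
      push_cast
      ring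
    obtain ⟨hs1, hs2⟩ := Pool.Agent.P07318m.BHarmAux.log_step hN
    have hd0 : 0 ≤ u - v := by rw [huv]; exact le_trans (by positivity) hs1
    have hd1 : u - v ≤ 1 / N := by rw [huv]; exact hs2
    have hd2 : 1 / ((N : ℝ) + 1) ≤ u - v := by rw [huv]; exact hs1
    have hD := pow_diff2 j hM hu' hv'
    have hD' : |(u ^ (j + 1) - v ^ (j + 1)) / (j + 1) - u ^ j * (u - v)| ≤
        j * (M ^ j * (u - v) ^ 2) := by
      have e : (u ^ (j + 1) - v ^ (j + 1)) / ((j : ℝ) + 1) - u ^ j * (u - v) =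
          (u ^ (j + 1) - v ^ (j + 1) - (j + 1) * (u ^ j * (u - v))) / (j + 1) := by
        field_simp
      rw [e, abs_div, abs_of_pos hj, div_le_iff₀ hj]
      linarith
    have hsq : (u - v) ^ 2 ≤ 2 * (1 / (N : ℝ) - 1 / (N + 1)) := by
      have h3 : (u - v) ^ 2 ≤ (1 / (N : ℝ)) ^ 2 := pow_le_pow_left₀ hd0 hd1 2
      have h4 : (1 / (N : ℝ)) ^ 2 ≤ 2 * (1 / (N : ℝ) - 1 / (N + 1)) := by
        have e : 2 * (1 / (N : ℝ) - 1 / (N + 1)) - (1 / (N : ℝ)) ^ 2 =
            (N - 1) / ((N : ℝ) ^ 2 * (N + 1)) := by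
          field_simp
          ring
        have : 0 ≤ ((N : ℝ) - 1) / ((N : ℝ) ^ 2 * (N + 1)) := by
          apply div_nonneg (by linarith) (by positivity)
        linarith
      linarith
    have hE2 : |u ^ j * (u - v) - gg j E N| ≤ M ^ j * (1 / (N : ℝ) - 1 / (N + 1)) := by
      have e : u ^ j * (u - v) - gg j E N = u ^ j * ((u - v) - 1 / N) := by
        unfold gg
        rw [← hu]
        ring
      rw [e, abs_mul, abs_pow]
      refine mul_le_mul (pow_le_pow_left₀ (abs_nonneg _) hu' _) ?_ (abs_nonneg _) hMj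
      rw [abs_le]
      constructor <;> linarith
    have hsum : ∑ m ∈ Finset.Icc 1 (N + 1), gg j E m =
        ∑ m ∈ Finset.Icc 1 N, gg j E m + gg j E (N + 1) := Finset.sum_Icc_succ_top (by omega) _
    have e : ∑ m ∈ Finset.Icc 1 (N + 1), gg j E m - gg j E (N + 1) -
        (E ^ (j + 1) - v ^ (j + 1)) / ((j : ℝ) + 1) =
        (∑ m ∈ Finset.Icc 1 N, gg j E m - gg j E N - (E ^ (j + 1) - u ^ (j + 1)) / ((j : ℝ) + 1)) +
        -((u ^ (j + 1) - v ^ (j + 1)) / ((j : ℝ) + 1) - u ^ j * (u - v)) +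
        -(u ^ j * (u - v) - gg j E N) := by
      rw [hsum]
      field_simp
      ring
    rw [e]
    refine (abs_add_three _ _ _).trans ?_
    rw [abs_neg, abs_neg]
    have h5 : (j : ℝ) * (M ^ j * (u - v) ^ 2) ≤ j * (M ^ j * (2 * (1 / (N : ℝ) - 1 / (N + 1)))) :=
      mul_le_mul_of_nonneg_left (mul_le_mul_of_nonneg_left hsq hMj) hj0
    have h6 : (2 * (j : ℝ) + 1) * M ^ j * (1 - 1 / ((N + 1 : ℕ) : ℝ)) =
        (2 * (j : ℝ) + 1) * M ^ j * (1 - 1 / (N : ℝ)) +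
        (2 * (j : ℝ) + 1) * M ^ j * (1 / (N : ℝ) - 1 / (N + 1)) := by
      push_cast
      ring
    rw [h6]
    linarith

/-- the full sum -/
theorem T_bound (j : ℕ) {E y M : ℝ} (hy : 1 ≤ y) (hM : 1 ≤ M) (h1 : |E| ≤ M)
    (h2 : |E - Real.log y| ≤ M) :
    |∑ m ∈ Finset.Icc 1 ⌊y⌋₊, gg j E m - (E ^ (j + 1) - (E - Real.log y) ^ (j + 1)) / (j + 1)| ≤
      (2 * j + 3) * M ^ j := by
  have hN : 1 ≤ ⌊y⌋₊ := Nat.one_le_floor_iff _ |>.2 hy
  have hNy : (⌊y⌋₊ : ℝ) ≤ y := Nat.floor_le (by linarith)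
  have h3 := partial_sums j hM h1 h2 ⌊y⌋₊ hN hNy
  set N := ⌊y⌋₊ with hNdef
  have hN0 : (0 : ℝ) < N := by exact_mod_cast hN
  have hN1 : (1 : ℝ) ≤ N := by exact_mod_cast hN
  have hj : (0 : ℝ) < (j : ℝ) + 1 := by positivity
  have hj0 : (0 : ℝ) ≤ j := Nat.cast_nonneg j
  have hMj : 0 ≤ M ^ j := by positivity
  have hu : |E - Real.log N| ≤ M := between h1 h2 hN1 hNy
  have h4 : |gg j E N| ≤ M ^ j := by
    unfold gg
    rw [abs_mul, abs_pow, abs_of_pos (by positivity : (0 : ℝ) < 1 / N)]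
    have h5 : 1 / (N : ℝ) ≤ 1 := by
      rw [div_le_one hN0]
      exact hN1
    calc 1 / (N : ℝ) * |E - Real.log N| ^ j ≤ 1 * M ^ j :=
          mul_le_mul h5 (pow_le_pow_left₀ (abs_nonneg _) hu _) (by positivity) (by norm_num)
      _ = M ^ j := one_mul _
  have h5 : |((E - Real.log N) ^ (j + 1) - (E - Real.log y) ^ (j + 1)) / ((j : ℝ) + 1)| ≤ M ^ j := by
    rw [abs_div, abs_of_pos hj, div_le_iff₀ hj]
    refine (pow_diff j hM hu h2).trans ?_
    have h6 : |E - Real.log N - (E - Real.log y)| ≤ 1 := by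
      have e : E - Real.log N - (E - Real.log y) = Real.log (y / N) := by
        rw [Real.log_div (by linarith) hN0.ne']
        ring
      have hle : Real.log (y / N) ≤ 1 / N := by
        refine le_trans (Real.log_le_log (by positivity) ?_)
          (Pool.Agent.P07318m.BHarmAux.log_step hN).2
        exact div_le_div_of_nonneg_right (Nat.lt_floor_add_one y).le hN0.le
      have h7 : 0 ≤ Real.log (y / N) := by
        apply Real.log_nonneg
        rw [le_div_iff₀ hN0]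
        linarith
      have h8 : 1 / (N : ℝ) ≤ 1 := by
        rw [div_le_one hN0]
        exact hN1
      rw [e, abs_of_nonneg h7]
      linarith
    have h7 : M ^ j * |E - Real.log N - (E - Real.log y)| ≤ M ^ j * 1 :=
      mul_le_mul_of_nonneg_left h6 hMj
    nlinarith
  have e : ∑ m ∈ Finset.Icc 1 N, gg j E m -
      (E ^ (j + 1) - (E - Real.log y) ^ (j + 1)) / ((j : ℝ) + 1) =
      (∑ m ∈ Finset.Icc 1 N, gg j E m - gg j E N -
        (E ^ (j + 1) - (E - Real.log N) ^ (j + 1)) / ((j : ℝ) + 1)) + gg j E N +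
      -(((E - Real.log N) ^ (j + 1) - (E - Real.log y) ^ (j + 1)) / ((j : ℝ) + 1)) := by
    field_simp
    ring
  rw [e]
  refine (abs_add_three _ _ _).trans ?_
  rw [abs_neg]
  have h6 : (2 * (j : ℝ) + 1) * M ^ j * (1 - 1 / (N : ℝ)) ≤ (2 * (j : ℝ) + 1) * M ^ j := by
    have : 0 ≤ (2 * (j : ℝ) + 1) * M ^ j * (1 / (N : ℝ)) := by positivity
    nlinarith
  linarith

/-- the sum over the multiples of `d` -/
theorem mult_sum (j : ℕ) (E : ℝ) {X : ℝ} {d : ℕ} (hd : 1 ≤ d) :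
    ∑ b ∈ (Finset.Icc 1 ⌊X⌋₊).filter (fun b => d ∣ b), gg j E b =
      (1 / (d : ℝ)) * ∑ m ∈ Finset.Icc 1 ⌊X / d⌋₊, gg j (E - Real.log d) m := by
  have hd0 : (0 : ℝ) < d := by exact_mod_cast hd
  rw [Finset.mul_sum]
  symm
  refine Finset.sum_nbij (fun m => d * m) ?_ ?_ ?_ ?_
  · intro m hm
    rw [Finset.mem_Icc] at hm
    rw [Finset.mem_filter, Finset.mem_Icc]
    refine ⟨⟨Nat.mul_pos hd hm.1, ?_⟩, dvd_mul_right _ _⟩
    rw [Nat.floor_div_natCast] at hm
    calc d * m ≤ d * (⌊X⌋₊ / d) := Nat.mul_le_mul_left _ hm.2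
      _ ≤ ⌊X⌋₊ := Nat.mul_div_le _ _
  · intro a _ b _ hab
    exact Nat.eq_of_mul_eq_mul_left hd hab
  · intro b hb
    rw [Finset.mem_coe, Finset.mem_filter, Finset.mem_Icc] at hb
    obtain ⟨⟨h1, h2⟩, m, rfl⟩ := hb
    refine ⟨m, ?_, rfl⟩
    rw [Finset.mem_coe, Finset.mem_Icc, Nat.floor_div_natCast, Nat.le_div_iff_mul_le hd]
    refine ⟨Nat.pos_of_ne_zero ?_, by rw [mul_comm]; exact h2⟩
    rintro rfl
    omega
  · intro m hm
    rw [Finset.mem_Icc] at hm
    have hm0 : (0 : ℝ) < m := by exact_mod_cast hm.1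
    unfold gg
    push_cast
    have e : Real.log ((d : ℝ) * m) = Real.log d + Real.log m := Real.log_mul hd0.ne' hm0.ne'
    have e2 : 1 / ((d : ℝ) * m) = 1 / d * (1 / m) := by rw [one_div_mul_one_div]
    rw [e, e2, sub_sub]
    ring

/-- the error of one divisor -/
theorem one_div_bound (j : ℕ) {E X M : ℝ} (hX : 1 ≤ X) (hM : 1 ≤ M) (h1 : |E| ≤ M)
    (h2 : |E - Real.log X| ≤ M) {d : ℕ} (hd : 1 ≤ d) :
    |∑ m ∈ Finset.Icc 1 ⌊X / d⌋₊, gg j (E - Real.log d) m -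
      (E ^ (j + 1) - (E - Real.log X) ^ (j + 1)) / (j + 1)| ≤
      (2 * j + 3) * ((1 + Real.log d) * M ^ j) := by
  have hd0 : (0 : ℝ) < d := by exact_mod_cast hd
  have hd1 : (1 : ℝ) ≤ d := by exact_mod_cast hd
  have hL : 0 ≤ Real.log X := Real.log_nonneg hX
  have hld : 0 ≤ Real.log d := Real.log_nonneg hd1
  have hj : (0 : ℝ) < (j : ℝ) + 1 := by positivity
  have hj0 : (0 : ℝ) ≤ j := Nat.cast_nonneg j
  have hMj : 0 ≤ M ^ j := by positivity
  by_cases hdX : (d : ℝ) ≤ X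
  · have hy : 1 ≤ X / d := by rw [le_div_iff₀ hd0]; linarith
    have e : Real.log (X / d) = Real.log X - Real.log d := Real.log_div (by linarith) hd0.ne'
    have h3 : |E - Real.log d| ≤ M := between h1 h2 hd1 hdX
    have e2 : E - Real.log d - Real.log (X / d) = E - Real.log X := by rw [e]; ring
    have h4 := T_bound j hy hM h3 (by rw [e2]; exact h2)
    rw [e2] at h4
    have h5 : |((E - Real.log d) ^ (j + 1) - E ^ (j + 1)) / ((j : ℝ) + 1)| ≤
        M ^ j * Real.log d := by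
      rw [abs_div, abs_of_pos hj, div_le_iff₀ hj]
      refine (pow_diff j hM h3 h1).trans (le_of_eq ?_)
      have : |E - Real.log d - E| = Real.log d := by
        rw [sub_sub_cancel_left, abs_neg, abs_of_nonneg hld]
      rw [this]
      ring
    have e3 : ∑ m ∈ Finset.Icc 1 ⌊X / d⌋₊, gg j (E - Real.log d) m -
        (E ^ (j + 1) - (E - Real.log X) ^ (j + 1)) / ((j : ℝ) + 1) =
        (∑ m ∈ Finset.Icc 1 ⌊X / d⌋₊, gg j (E - Real.log d) m -
          ((E - Real.log d) ^ (j + 1) - (E - Real.log X) ^ (j + 1)) / ((j : ℝ) + 1)) +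
        ((E - Real.log d) ^ (j + 1) - E ^ (j + 1)) / ((j : ℝ) + 1) := by
      field_simp
      ring
    rw [e3]
    refine (abs_add_le _ _).trans ((add_le_add h4 h5).trans ?_)
    have h6 : 0 ≤ M ^ j * Real.log d := mul_nonneg hMj hld
    have h7 : 0 ≤ (j : ℝ) * (M ^ j * Real.log d) := mul_nonneg hj0 h6
    nlinarith
  · push Not at hdX
    have h0 : ⌊X / d⌋₊ = 0 := by
      rw [Nat.floor_eq_zero, div_lt_one hd0]
      exact hdX
    rw [h0]
    simp only [Finset.Icc_eq_empty_of_lt (by norm_num : (0 : ℕ) < 1), Finset.sum_empty, zero_sub,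
      abs_neg]
    have h3 : Real.log X ≤ Real.log d := Real.log_le_log (by linarith) hdX.le
    have h5 : |(E ^ (j + 1) - (E - Real.log X) ^ (j + 1)) / ((j : ℝ) + 1)| ≤
        M ^ j * Real.log X := by
      rw [abs_div, abs_of_pos hj, div_le_iff₀ hj]
      refine (pow_diff j hM h1 h2).trans (le_of_eq ?_)
      have : |E - (E - Real.log X)| = Real.log X := by
        rw [sub_sub_cancel, abs_of_nonneg hL]
      rw [this]
      ring
    refine h5.trans ?_
    have h6 : M ^ j * Real.log X ≤ M ^ j * Real.log d := mul_le_mul_of_nonneg_left h3 hMj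
    have h7 : 0 ≤ M ^ j * Real.log d := mul_nonneg hMj hld
    have h8 : 0 ≤ (j : ℝ) * (M ^ j * Real.log d) := mul_nonneg hj0 h7
    have h9 : 0 ≤ (j : ℝ) * M ^ j := mul_nonneg hj0 hMj
    nlinarith

end BRangeAux

open BRangeAux in
theorem b_range (j : ℕ) : ∃ C : ℝ, 0 < C ∧ ∀ (a : ℕ) (X E M : ℝ), 1 ≤ a → 1 ≤ X → 1 ≤ M → |E| ≤ M → |E - Real.log X| ≤ M →
    |∑ b ∈ (Finset.Icc 1 ⌊X⌋₊).filter (fun b => b.Coprime a), (1 / (b : ℝ)) * (E - Real.log b) ^ j -
      (a.totient : ℝ) / a * ((E ^ (j + 1) - (E - Real.log X) ^ (j + 1)) / (j + 1))| ≤ C * Ea a * M ^ j := by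
  refine ⟨2 * j + 3, by positivity, fun a X E M ha hX hM hE1 hE2 => ?_⟩
  have h1 : ∑ b ∈ (Finset.Icc 1 ⌊X⌋₊).filter (fun b => b.Coprime a),
      (1 / (b : ℝ)) * (E - Real.log b) ^ j =
      ∑ d ∈ a.divisors, ((ArithmeticFunction.moebius d : ℤ) : ℝ) / d *
        ∑ m ∈ Finset.Icc 1 ⌊X / d⌋₊, gg j (E - Real.log d) m := by
    have h2 : ∑ b ∈ (Finset.Icc 1 ⌊X⌋₊).filter (fun b => b.Coprime a),
        (1 / (b : ℝ)) * (E - Real.log b) ^ j =
        ∑ b ∈ Finset.Icc 1 ⌊X⌋₊, ∑ d ∈ a.divisors,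
          if d ∣ b then ((ArithmeticFunction.moebius d : ℤ) : ℝ) * gg j E b else 0 := by
      rw [Finset.sum_filter]
      refine Finset.sum_congr rfl fun b _ => ?_
      have h3 : (if b.Coprime a then (1 / (b : ℝ)) * (E - Real.log b) ^ j else 0) =
          (if b.Coprime a then (1 : ℝ) else 0) * gg j E b := by
        unfold gg
        split_ifs <;> simp
      rw [h3, Pool.Agent.P07318m.BHarmAux.indicator_eq ha, Finset.sum_mul]
      refine Finset.sum_congr rfl fun d _ => ?_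
      split_ifs <;> simp
    rw [h2, Finset.sum_comm]
    refine Finset.sum_congr rfl fun d hd => ?_
    have hd1 : 1 ≤ d := Nat.pos_of_mem_divisors hd
    rw [← Finset.sum_filter, ← Finset.mul_sum, mult_sum j E hd1]
    ring
  rw [h1, ← Pool.Agent.P07318m.BHarmAux.sum_moebius_div ha, Finset.sum_mul,
    ← Finset.sum_sub_distrib]
  refine (Finset.abs_sum_le_sum_abs _ _).trans ?_
  unfold Ea
  rw [mul_assoc, Finset.sum_mul, Finset.mul_sum]
  refine Finset.sum_le_sum fun d hd => ?_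
  have hd1 : 1 ≤ d := Nat.pos_of_mem_divisors hd
  have hd0 : (0 : ℝ) < d := by exact_mod_cast hd1
  have hld : 0 ≤ Real.log d := Real.log_nonneg (by exact_mod_cast hd1)
  rw [← mul_sub, abs_mul]
  have h2 := one_div_bound j hX hM hE1 hE2 hd1
  have h3 : |((ArithmeticFunction.moebius d : ℤ) : ℝ) / d| ≤ 1 / d := by
    rw [abs_div, abs_of_pos hd0]
    apply div_le_div_of_nonneg_right _ hd0.le
    have := ArithmeticFunction.abs_moebius_le_one (n := d)
    exact_mod_cast this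
  calc |((ArithmeticFunction.moebius d : ℤ) : ℝ) / d| *
        |∑ m ∈ Finset.Icc 1 ⌊X / d⌋₊, gg j (E - Real.log d) m -
          (E ^ (j + 1) - (E - Real.log X) ^ (j + 1)) / (j + 1)|
      ≤ 1 / d * ((2 * j + 3) * ((1 + Real.log d) * M ^ j)) :=
        mul_le_mul h3 h2 (abs_nonneg _) (by positivity)
    _ = (2 * j + 3) * ((1 + Real.log d) / d * M ^ j) := by ring

end Pool.Agent.P07318w
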