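import Pool.Agent.Lib.P07318w.BombDefs

/-!
# P07318w.BombCnt: counting the zeros

Elementary. PROOF. Some `γ k0 ≠ 0`, `k0 ∈ ngs p w` (otherwise the function is `0`). For `j < p` let `h_j = ∑_{k ∈ ngs p w, k % p = j} C (γ k) X^(k/p) ∈ F[X]`; for `j0 = k0 % p` it is not `0` (its coefficient at `k0 / p` is `γ k0`, since
`k` is determined by `k/p` and `k%p`) and has degree at most `w / p`. Fix `x0 ∈ S` and `y ∈ K` as in the hypothesis. The polynomial `P(Z) = ∑_{j<p} h_j(x0) Z^j ∈ K[Z]` has degree `< p` and vanishes at the `p` distinct points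
`y + c`, `c` in the image of `ZMod p` (the map `ZMod p → K` is injective), since `P(y + c) = f(x0, y + c)` (group the monomials `x0^(k/p) (y+c)^(k%p)` by `k % p`). So `P = 0` (`Polynomial.eq_zero_of_natDegree_lt_card_of_eval_eq_zero`)
and `h_{j0}(x0) = 0`. So all elements of `S` are roots of `h_{j0}`: `card S ≤ w/p` (`Polynomial.card_le_degree_of_subset_roots`), and `p (w/p) ≤ w`.
-/

set_option autoImplicit false

open MvPolynomial

namespace Pool.Agent.P07318w

theorem bomb_cnt {F K : Type} [Field F] [Field K] [Algebra F K] {p : ℕ} [Fact p.Prime] [CharP K p] {w : ℕ} {γ : ℕ → F}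
    (hf : ∑ k ∈ ngs p w, C (γ k) * mon F p k ≠ 0) (S : Finset F)
    (hS : ∀ x0 ∈ S, ∃ y : K, ∀ c : ZMod p,
      aeval ![algebraMap F K x0, y + ZMod.castHom (dvd_refl p) K c] (∑ k ∈ ngs p w, C (γ k) * mon F p k) = 0) :
    p * S.card ≤ w := by
  classical
  have hp : p.Prime := Fact.out
  have hp0 : 0 < p := hp.pos
  obtain ⟨k0, hk0, hγ⟩ : ∃ k0 ∈ ngs p w, γ k0 ≠ 0 := by
    by_contra hc
    push Not at hc
    apply hf
    apply Finset.sum_eq_zero
    intro k hk
    rw [hc k hk]
    simp
  set H : Polynomial F := ∑ k ∈ (ngs p w).filter (fun k => k % p = k0 % p),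
    Polynomial.C (γ k) * Polynomial.X ^ (k / p) with hH
  have hHc : H.coeff (k0 / p) = γ k0 := by
    rw [hH, Polynomial.finsetSum_coeff]
    rw [Finset.sum_eq_single k0]
    · simp [Polynomial.coeff_X_pow]
    · intro k hk hne
      rw [Finset.mem_filter] at hk
      rw [Polynomial.coeff_C_mul, Polynomial.coeff_X_pow, if_neg, mul_zero]
      intro h
      apply hne
      rw [← Nat.div_add_mod k p, ← Nat.div_add_mod k0 p, hk.2, h]
    · intro h
      exact (h (Finset.mem_filter.2 ⟨hk0, rfl⟩)).elim
  have hH0 : H ≠ 0 := by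
    intro h
    rw [h, Polynomial.coeff_zero] at hHc
    exact hγ hHc.symm
  have hHd : H.natDegree ≤ w / p := by
    rw [hH]
    apply Polynomial.natDegree_sum_le_of_forall_le
    intro k hk
    rw [Finset.mem_filter] at hk
    have hkw : k ≤ w := by
      have := (Finset.mem_filter.1 hk.1).1
      rw [Finset.mem_range] at this
      omega
    exact (Polynomial.natDegree_C_mul_X_pow_le _ _).trans (Nat.div_le_div_right hkw)
  have hroot : ∀ x0 ∈ S, H.eval x0 = 0 := by
    intro x0 hx0
    obtain ⟨y, hy⟩ := hS x0 hx0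
    set P : Polynomial K := ∑ k ∈ ngs p w,
      Polynomial.C (algebraMap F K (γ k) * algebraMap F K x0 ^ (k / p)) * Polynomial.X ^ (k % p)
      with hP
    have hPd : P.natDegree < p := by
      have : P.natDegree ≤ p - 1 := by
        rw [hP]
        apply Polynomial.natDegree_sum_le_of_forall_le
        intro k _
        refine (Polynomial.natDegree_C_mul_X_pow_le _ _).trans ?_
        have := Nat.mod_lt k hp0
        omega
      omega
    have hPe : ∀ c : ZMod p, P.eval (y + ZMod.castHom (dvd_refl p) K c) = 0 := by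
      intro c
      rw [← hy c, hP, Polynomial.eval_finsetSum, map_sum]
      apply Finset.sum_congr rfl
      intro k _
      simp only [mon, map_mul, map_pow, aeval_C, aeval_X, Polynomial.eval_mul, Polynomial.eval_C,
        Polynomial.eval_pow, Polynomial.eval_X, Matrix.cons_val_zero, Matrix.cons_val_one]
      ring
    have hinj : Function.Injective (fun c : ZMod p => y + ZMod.castHom (dvd_refl p) K c) := by
      intro c c' h
      exact (ZMod.castHom_injective K) (add_left_cancel h)
    have hP0 : P = 0 := Polynomial.eq_zero_of_natDegree_lt_card_of_eval_eq_zero P hinj hPe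
      (by rw [ZMod.card]; exact hPd)
    have hc : P.coeff (k0 % p) = algebraMap F K (H.eval x0) := by
      rw [hP, hH, Polynomial.finsetSum_coeff, Polynomial.eval_finsetSum, map_sum, Finset.sum_filter]
      apply Finset.sum_congr rfl
      intro k _
      rw [Polynomial.coeff_C_mul, Polynomial.coeff_X_pow]
      by_cases h : k % p = k0 % p
      · rw [if_pos h.symm, if_pos h]
        simp
      · rw [if_neg (fun h' => h h'.symm), if_neg h, mul_zero]
    rw [hP0, Polynomial.coeff_zero] at hc
    exact (map_eq_zero (algebraMap F K)).1 hc.symm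
  have hcard : S.card ≤ w / p := by
    refine le_trans ?_ hHd
    apply Polynomial.card_le_degree_of_subset_roots
    intro x hx
    rw [Polynomial.mem_roots hH0]
    exact hroot x hx
  calc p * S.card ≤ p * (w / p) := Nat.mul_le_mul_left _ hcard
    _ ≤ w := Nat.mul_div_le w p

end Pool.Agent.P07318w
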