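import Pool.Agent.Lib.P07318w.Defs

/-!
# P07318w.Laur: the point at infinity of the curve `X Y^p - X Y = a X^2 + b`

Independent of the rest of the package. `LaurentSeries F = HahnSeries ℤ F`, a field, `HahnSeries.order_mul`, ....

PROOF. Let `u` be the variable. Find a power series `v ∈ F[[u]]` with constant coefficient `a⁻¹` and
`a v^2 - (1 - u^(p-1)) v + b u^(2p) = 0`: Hensel's lemma for the simple root `a⁻¹` of the reduction `a v^2 - v` (derivative `2 a v - 1 = 1` at
`v = a⁻¹`; `p - 1 ≥ 1`, in every characteristic).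
Then put `y = u⁻¹` (`HahnSeries.single (-1) 1`, order `-1`) and `x = u^(-p) v` (order `-p` as `v` has nonzero constant coefficient):
`x y^p - x y - a x^2 - b = u^(-2p) (v - u^(p-1) v - a v^2 - b u^(2p)) = 0`.
-/

set_option autoImplicit false

namespace Pool.Agent.P07318w

theorem laur_poly {R : Type*} [CommRing R] (B D : R) : ∃ f : Polynomial R, f.Monic ∧
      (∀ z : R, f.eval z = z ^ 2 - (B * z - D)) ∧ (∀ z : R, f.derivative.eval z = 2 * z - B) := by
  refine ⟨Polynomial.X ^ 2 - (Polynomial.C B * Polynomial.X - Polynomial.C D), ?_, ?_, ?_⟩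
  · refine Polynomial.monic_X_pow_sub ?_
    refine lt_of_le_of_lt ((Polynomial.degree_sub_le _ _).trans
      (max_le (Polynomial.degree_C_mul_X_le _) (Polynomial.degree_C_le.trans ?_))) ?_
    · exact_mod_cast (by norm_num : (0 : WithBot ℕ) ≤ 1)
    · exact_mod_cast (by norm_num : (1 : WithBot ℕ) < 2)
  · intro z
    simp
  · intro z
    simp only [Polynomial.derivative_sub, Polynomial.derivative_mul, Polynomial.derivative_C,
      Polynomial.derivative_X, Polynomial.derivative_X_pow, Polynomial.eval_sub,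
      Polynomial.eval_mul, Polynomial.eval_C, Polynomial.eval_X, Polynomial.eval_pow,
      Polynomial.eval_zero, Polynomial.eval_one, Polynomial.eval_add]
    push_cast
    ring

open PowerSeries in
/-- Hensel's lemma for the quadratic equation over the power series ring. -/
theorem laur_hensel {F : Type} [Field F] {p : ℕ} (hp : 2 ≤ p) {a b : F} (ha : a ≠ 0) :
    ∃ v : PowerSeries F, constantCoeff v = a⁻¹ ∧
      C a * v ^ 2 - (1 - X ^ (p - 1)) * v + C b * X ^ (2 * p) = 0 := by
  let I : Ideal (PowerSeries F) := Ideal.span {X}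
  have : HenselianRing (PowerSeries F) I := IsAdicComplete.henselianRing _ _
  let B : PowerSeries F := C a⁻¹ * (1 - X ^ (p - 1))
  let D : PowerSeries F := C (a⁻¹ * b) * X ^ (2 * p)
  obtain ⟨f, hmon, hfe, hfd⟩ : ∃ f : Polynomial (PowerSeries F), f.Monic ∧
      (∀ z : PowerSeries F, f.eval z = z ^ 2 - (B * z - D)) ∧
      (∀ z : PowerSeries F, f.derivative.eval z = 2 * z - B) := laur_poly B D
  have hXI : (X : PowerSeries F) ∈ I := Ideal.subset_span rfl
  have hXp : ((X : PowerSeries F) ^ (p - 1)) ∈ I := Ideal.pow_mem_of_mem _ hXI _ (by omega)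
  have hX2 : ((X : PowerSeries F) ^ (2 * p)) ∈ I := Ideal.pow_mem_of_mem _ hXI _ (by omega)
  have h1 : f.eval (C a⁻¹) ∈ I := by
    rw [hfe]
    have : (C a⁻¹ : PowerSeries F) ^ 2 - (B * C a⁻¹ - D) =
        (C a⁻¹) ^ 2 * X ^ (p - 1) + C (a⁻¹ * b) * X ^ (2 * p) := by
      simp only [B, D]; ring
    rw [this]
    exact I.add_mem (I.mul_mem_left _ hXp) (I.mul_mem_left _ hX2)
  have h2 : IsUnit (Ideal.Quotient.mk I (f.derivative.eval (C a⁻¹))) := by
    rw [hfd]
    have hX0 : Ideal.Quotient.mk I ((X : PowerSeries F) ^ (p - 1)) = 0 :=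
      Ideal.Quotient.eq_zero_iff_mem.2 hXp
    have : Ideal.Quotient.mk I (2 * C a⁻¹ - B) = Ideal.Quotient.mk I (C a⁻¹) := by
      have h : (2 * C a⁻¹ - B : PowerSeries F) = C a⁻¹ + C a⁻¹ * X ^ (p - 1) := by
        simp only [B]; ring
      rw [h, map_add, map_mul, hX0, mul_zero, add_zero]
    rw [this]
    refine IsUnit.map _ ?_
    exact (IsUnit.mk0 _ (inv_ne_zero ha)).map (C (R := F))
  obtain ⟨v, hv, hva⟩ := HenselianRing.is_henselian f hmon (C a⁻¹) h1 h2
  refine ⟨v, ?_, ?_⟩
  · have hd : (X : PowerSeries F) ∣ v - C a⁻¹ := Ideal.mem_span_singleton.1 hva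
    have h0 := X_dvd_iff.1 hd
    rw [map_sub, constantCoeff_C, sub_eq_zero] at h0
    exact h0
  · have h0 : v ^ 2 - (B * v - D) = 0 := by
      rw [← hfe]; exact hv
    have hC : (C a : PowerSeries F) * C a⁻¹ = 1 := by
      rw [← map_mul, mul_inv_cancel₀ ha, map_one]
    have hCb : (C a : PowerSeries F) * C (a⁻¹ * b) = C b := by
      rw [map_mul, ← mul_assoc, hC, one_mul]
    have h3 : C a * (v ^ 2 - (B * v - D)) =
        C a * v ^ 2 - (C a * C a⁻¹) * (1 - X ^ (p - 1)) * v + (C a * C (a⁻¹ * b)) * X ^ (2 * p) := by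
      simp only [B, D]; ring
    rw [h0, mul_zero, hC, hCb, one_mul] at h3
    exact h3.symm

theorem laur {F : Type} [Field F] {p : ℕ} (hp : 2 ≤ p) {a b : F} (ha : a ≠ 0) :
    ∃ x y : LaurentSeries F, x ≠ 0 ∧ y ≠ 0 ∧ x.order = -(p : ℤ) ∧ y.order = -1 ∧
      x * y ^ p - x * y = algebraMap F (LaurentSeries F) a * x ^ 2 + algebraMap F (LaurentSeries F) b := by
  obtain ⟨v, hv0, hv⟩ := laur_hensel (b := b) hp ha
  let φ : PowerSeries F →+* LaurentSeries F := HahnSeries.ofPowerSeries ℤ F
  let u : LaurentSeries F := HahnSeries.single 1 1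
  let y : LaurentSeries F := HahnSeries.single (-1) 1
  have hφX : φ PowerSeries.X = u := HahnSeries.ofPowerSeries_X
  have hφC : ∀ c : F, φ (PowerSeries.C c) = algebraMap F (LaurentSeries F) c := by
    intro c
    rw [HahnSeries.algebraMap_apply']
    rfl
  have huy : u * y = 1 := by
    simp [u, y, HahnSeries.single_mul_single]
  have hy0 : y ≠ 0 := fun h => by rw [h, mul_zero] at huy; exact zero_ne_one huy
  have hu0 : u ≠ 0 := fun h => by rw [h, zero_mul] at huy; exact zero_ne_one huy
  have hyo : y.order = -1 := HahnSeries.order_single one_ne_zero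
  have hvc : (φ v).coeff 0 = a⁻¹ := by
    have := HahnSeries.ofPowerSeries_apply_coeff (Γ := ℤ) v 0
    simp only [Nat.cast_zero] at this
    rw [show (φ v).coeff 0 = (HahnSeries.ofPowerSeries ℤ F v).coeff 0 from rfl, this]
    simpa using hv0
  have hφv0 : φ v ≠ 0 := by
    intro h
    rw [h] at hvc
    simp at hvc
    exact ha hvc.symm
  have hφvo : (φ v).order = 0 := by
    apply le_antisymm
    · refine HahnSeries.order_le_of_coeff_ne_zero ?_
      rw [hvc]; exact inv_ne_zero ha
    · by_contra hlt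
      push Not at hlt
      have hc : (φ v).coeff (φ v).order = 0 := by
        have h := PowerSeries.coeff_coe v (φ v).order
        rw [if_pos hlt] at h
        exact h
      exact (HahnSeries.coeff_order_eq_zero.not.2 hφv0) hc
  have hypo : (y ^ p).order = -(p : ℤ) := by
    rw [HahnSeries.order_pow, hyo]; simp
  refine ⟨y ^ p * φ v, y, mul_ne_zero (pow_ne_zero _ hy0) hφv0, hy0, ?_, hyo, ?_⟩
  · rw [HahnSeries.order_mul (pow_ne_zero _ hy0) hφv0, hypo, hφvo, add_zero]
  · have h1 := congrArg φ hv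
    simp only [map_add, map_sub, map_mul, map_pow, map_one, map_zero, hφX, hφC] at h1
    have hyu : ∀ k : ℕ, y ^ k * u ^ k = 1 := by
      intro k
      rw [← mul_pow, mul_comm y u, huy, one_pow]
    have h2 : y ^ p * u ^ (p - 1) = y := by
      obtain ⟨m, rfl⟩ : ∃ m, p = m + 1 := ⟨p - 1, by omega⟩
      simp only [Nat.add_sub_cancel]
      rw [pow_succ, mul_right_comm, hyu, one_mul]
    have h3 := hyu (2 * p)
    have h4 : y ^ (2 * p) = y ^ p * y ^ p := by rw [two_mul, pow_add]
    have h5 : y ^ p * φ v * y ^ p - y ^ p * φ v * y -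
        (algebraMap F (LaurentSeries F) a * (y ^ p * φ v) ^ 2 + algebraMap F (LaurentSeries F) b) =
        - y ^ (2 * p) * (algebraMap F (LaurentSeries F) a * φ v ^ 2 - (1 - u ^ (p - 1)) * φ v +
          algebraMap F (LaurentSeries F) b * u ^ (2 * p))
        + y ^ p * φ v * (y ^ p * u ^ (p - 1) - y)
        + algebraMap F (LaurentSeries F) b * (y ^ (2 * p) * u ^ (2 * p) - 1) := by
      rw [h4]; ring
    rw [h1, h2, h3, mul_zero, sub_self, sub_self, mul_zero, mul_zero, add_zero, add_zero] at h5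
    exact sub_eq_zero.1 h5

end Pool.Agent.P07318w
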