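import Pool.Agent.Lib.P07318w.BombDefs
import Pool.Agent.Lib.P07318w.Laur

/-!
# P07318w.BombNZ: the auxiliary function is not zero on the curve

The pole orders at infinity of its terms are distinct.
-/

set_option autoImplicit false

open MvPolynomial

namespace Pool.Agent.P07318w

theorem order_term {F : Type} [Field F] {p : ℕ} (hp : 2 ≤ p) {Q : ℕ} {x y : LaurentSeries F}
    (hx : x ≠ 0) (hy : y ≠ 0) (hxo : x.order = -(p : ℤ)) (hyo : y.order = -1) {c : F} (hc : c ≠ 0)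
    (e k : ℕ) :
    (algebraMap F (LaurentSeries F) c * (x ^ (e / p) * y ^ (e % p)) *
      (x ^ (k / p) * y ^ (k % p)) ^ Q) ≠ 0 ∧
    (algebraMap F (LaurentSeries F) c * (x ^ (e / p) * y ^ (e % p)) *
      (x ^ (k / p) * y ^ (k % p)) ^ Q).order = -((e + Q * k : ℕ) : ℤ) := by
  have h0 : algebraMap F (LaurentSeries F) c ≠ 0 :=
    (map_ne_zero (algebraMap F (LaurentSeries F))).2 hc
  have h0o : (algebraMap F (LaurentSeries F) c).order = 0 := by
    have h1 : algebraMap F (LaurentSeries F) c = (HahnSeries.C c : HahnSeries ℤ F) :=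
      LaurentSeries.algebraMap_apply F c
    rw [h1, HahnSeries.order_C]
  have hm : ∀ j : ℕ, x ^ (j / p) * y ^ (j % p) ≠ 0 ∧
      (x ^ (j / p) * y ^ (j % p)).order = -(j : ℤ) := by
    intro j
    refine ⟨mul_ne_zero (pow_ne_zero _ hx) (pow_ne_zero _ hy), ?_⟩
    rw [HahnSeries.order_mul (pow_ne_zero _ hx) (pow_ne_zero _ hy), HahnSeries.order_pow,
      HahnSeries.order_pow, hxo, hyo]
    have h1 : p * (j / p) + j % p = j := Nat.div_add_mod j p
    have h2 : (p : ℤ) * ((j / p : ℕ) : ℤ) + ((j % p : ℕ) : ℤ) = (j : ℤ) := by exact_mod_cast h1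
    rw [nsmul_eq_mul, nsmul_eq_mul]
    linear_combination -h2
  have hk := hm k
  have he := hm e
  have hne1 := mul_ne_zero h0 he.1
  have hne2 := pow_ne_zero Q hk.1
  refine ⟨mul_ne_zero hne1 hne2, ?_⟩
  rw [HahnSeries.order_mul hne1 hne2, HahnSeries.order_mul h0 he.1, HahnSeries.order_pow, h0o, he.2,
    hk.2, nsmul_eq_mul]
  push_cast
  ring

theorem bomb_nz {F : Type} [Field F] {p : ℕ} (hp : 2 ≤ p) {Q l m : ℕ} (hl : l < Q) {a b : F} (ha : a ≠ 0) {d : ℕ → ℕ → F}
    (hd : ∃ e ∈ ngs p l, ∃ k ∈ ngs p m, d e k ≠ 0) {G' : MvPolynomial (Fin 2) F}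
    (hG : GD p Q l m d - G' ∈ Ideal.span {cc p a b}) : G' ≠ 0 := by
  rintro rfl
  classical
  obtain ⟨x, y, hx, hy, hxo, hyo, hxy⟩ := laur (F := F) hp (b := b) ha
  have hcc : aeval ![x, y] (cc p a b) = 0 := by
    unfold cc
    simp only [map_sub, map_mul, map_pow, aeval_X, algHom_C, Matrix.cons_val_zero,
      Matrix.cons_val_one]
    rw [hxy]
    ring
  have hGD : aeval ![x, y] (GD p Q l m d) = 0 := by
    rw [sub_zero, Ideal.mem_span_singleton] at hG
    obtain ⟨H, hH⟩ := hG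
    rw [hH, map_mul, hcc, zero_mul]
  set T : ℕ × ℕ → LaurentSeries F := fun ek =>
    algebraMap F (LaurentSeries F) (d ek.1 ek.2 ^ Q) * (x ^ (ek.1 / p) * y ^ (ek.1 % p)) *
      (x ^ (ek.2 / p) * y ^ (ek.2 % p)) ^ Q with hT
  have hsum : aeval ![x, y] (GD p Q l m d) = ∑ ek ∈ ngs p l ×ˢ ngs p m, T ek := by
    rw [Finset.sum_product]
    unfold GD
    rw [map_sum]
    refine Finset.sum_congr rfl (fun e _ => ?_)
    rw [map_sum]
    refine Finset.sum_congr rfl (fun k _ => ?_)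
    simp only [hT, mon, map_mul, map_pow, aeval_X, algHom_C, Matrix.cons_val_zero,
      Matrix.cons_val_one]
  have hQ : Q ≠ 0 := by omega
  set S := (ngs p l ×ˢ ngs p m).filter (fun ek => d ek.1 ek.2 ≠ 0) with hS
  have hSne : S.Nonempty := by
    obtain ⟨e, he, k, hk, h⟩ := hd
    exact ⟨(e, k), by rw [hS, Finset.mem_filter, Finset.mem_product]; exact ⟨⟨he, hk⟩, h⟩⟩
  obtain ⟨⟨e0, k0⟩, h0S, hmax⟩ := Finset.exists_max_image S (fun ek => ek.1 + Q * ek.2) hSne
  rw [hS, Finset.mem_filter, Finset.mem_product] at h0S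
  obtain ⟨⟨he0, hk0⟩, hd0⟩ := h0S
  have hle : ∀ e ∈ ngs p l, e < Q := by
    intro e he
    rw [ngs, Finset.mem_filter, Finset.mem_range] at he
    omega
  have hcoef : (∑ ek ∈ ngs p l ×ˢ ngs p m, T ek).coeff (-((e0 + Q * k0 : ℕ) : ℤ)) =
      (T (e0, k0)).coeff (-((e0 + Q * k0 : ℕ) : ℤ)) := by
    rw [HahnSeries.coeff_sum]
    refine Finset.sum_eq_single_of_mem (e0, k0) (Finset.mem_product.2 ⟨he0, hk0⟩) ?_
    rintro ⟨e, k⟩ hek hne
    rw [Finset.mem_product] at hek
    by_cases hdek : d e k = 0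
    · have : T (e, k) = 0 := by
        simp only [hT, hdek, zero_pow hQ, map_zero, zero_mul]
      rw [this, HahnSeries.coeff_zero]
    · have h1 := (order_term hp (Q := Q) hx hy hxo hyo (pow_ne_zero Q hdek) e k).2
      have h2 := hmax (e, k) (by
        rw [hS, Finset.mem_filter, Finset.mem_product]
        exact ⟨hek, hdek⟩)
      have h3 : e + Q * k ≠ e0 + Q * k0 := by
        intro h
        apply hne
        have h4 : (e + Q * k) % Q = (e0 + Q * k0) % Q := by rw [h]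
        rw [Nat.add_mul_mod_self_left, Nat.add_mul_mod_self_left, Nat.mod_eq_of_lt (hle e hek.1),
          Nat.mod_eq_of_lt (hle e0 he0)] at h4
        subst h4
        have h5 : Q * k = Q * k0 := by omega
        have h6 := Nat.eq_of_mul_eq_mul_left (Nat.pos_of_ne_zero hQ) h5
        rw [h6]
      have h7 : e + Q * k < e0 + Q * k0 := lt_of_le_of_ne h2 h3
      apply HahnSeries.coeff_eq_zero_of_lt_order
      show -((e0 + Q * k0 : ℕ) : ℤ) < (algebraMap F (LaurentSeries F) (d e k ^ Q) *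
        (x ^ (e / p) * y ^ (e % p)) * (x ^ (k / p) * y ^ (k % p)) ^ Q).order
      rw [h1]
      have h8 : ((e + Q * k : ℕ) : ℤ) < ((e0 + Q * k0 : ℕ) : ℤ) := by exact_mod_cast h7
      omega
  have h9 := order_term hp (Q := Q) hx hy hxo hyo (pow_ne_zero Q hd0) e0 k0
  have h10 : (T (e0, k0)).coeff (-((e0 + Q * k0 : ℕ) : ℤ)) ≠ 0 := by
    rw [← h9.2]
    intro h
    exact h9.1 (HahnSeries.coeff_order_eq_zero.1 h)
  rw [← hsum, hGD, HahnSeries.coeff_zero] at hcoef
  exact h10 hcoef.symm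

end Pool.Agent.P07318w
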