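import Pool.Agent.Lib.P07318w.BombPt
import Pool.Agent.Lib.P07318w.BombNZ
import Pool.Agent.Lib.P07318w.BombCnt

/-!
# P07318w.Bomb: Bombieri's form of Stepanov's method for `y^p - y = a x + b / x`

Black boxes: `AlgRed` (`mon_mem`, `ll_mul`, `ll_pow`, `shift_mem`, `ng_card`, `exists_ker`, `coeffs`), `bomb_pt`, `bomb_nz`, `bomb_cnt`.

PROOF. If there is no `x` in the set there is nothing to prove. Put `Q = p^μ` (`Q > p^2` as `μ ≥ 3`), `l = Q - 1`, `m = Q + 2p - 2`; `ngs p l` has `Q + 1 - p` and `ngs p m` has `Q + p` elements (`ng_card`). For `(e,k) ∈ ngs p l × ngs p m` let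
`v(e,k) = (mon e)^Q * τ(mon k)`, `τ = aeval ![X 0, X 1 + C t]`. By `ll_pow`, `shift_mem` (with `Lp ≤ LL`), `ll_mul` it is in `LL (Q l + m)` (`LL` is monotone in the index: from the definition), and
`(Q l + m) + 2 - p = Q^2 + p < (Q + 1 - p)(Q + p) = Q^2 + Q + p - p^2`. By `exists_ker` (index type: the subtype of the product finset) there is `d ≠ 0` with `DD p Q l m t d ∈ (cc)` (extend `d` by `0` to `ℕ → ℕ → F`).
`GD ∈ LL w`, `w = l + Q m = Q^2 + (2p-1) Q - 1` (`mon_mem`, `ll_pow`, `ll_mul`; scalars). So `GD = G' + G''` with `G' ∈ Lp w`, `G''` in the ideal (`Submodule.mem_sup`), `G' = ∑_{ngs p w} C (γ k) mon k` (`coeffs`), `G' ≠ 0` (`bomb_nz`).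
Let `K = AlgebraicClosure F`, `S` the image in `F` of the set of units in the statement. For `x0 ∈ S` choose `y ∈ K` with `y^p - y = a x0 + b/x0` (`IsAlgClosed.exists_root` for `Z^p - Z - c`, degree `p ≥ 2`); for every `c ∈ ZMod p` also `y + c` has this
property (`(y + c)^p = y^p + c^p = y^p + c`, `ZMod.pow_card`). So `bomb_pt` gives `GD(x0, y + c) = 0`, and `G'' (x0, y + c) = 0` as the point is on the curve, so `G'(x0, y + c) = 0`. `bomb_cnt` gives
`p card S ≤ w ≤ Q^2 + 2 p Q`.
-/

set_option autoImplicit false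

open MvPolynomial

namespace Pool.Agent.P07318w

theorem bomb {F : Type} [Field F] [Fintype F] [DecidableEq F] {p : ℕ} [Fact p.Prime] [CharP F p] {μ : ℕ} (hμ : 3 ≤ μ)
    (hF : Fintype.card F = (p ^ μ) ^ 2) {a b : F} (ha : a ≠ 0) (hb : b ≠ 0) (t : F) :
    p * (Finset.univ.filter (fun x : Fˣ =>
      ∑ i ∈ Finset.range (2 * μ), (a * (x : F) + b * ((x⁻¹ : Fˣ) : F)) ^ p ^ i = t)).card ≤ (p ^ μ) ^ 2 + 2 * p * p ^ μ := by
  classical
  have hpp : p.Prime := Fact.out
  have hp : 2 ≤ p := hpp.two_le
  have hQ : p ^ 2 < p ^ μ := Nat.pow_lt_pow_right (by omega) (by omega)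
  set Q : ℕ := p ^ μ with hQdef
  have hpQ : 2 * p ≤ Q := by nlinarith
  obtain ⟨l, hl⟩ : ∃ l, Q = l + 1 := ⟨Q - 1, by omega⟩
  obtain ⟨m, hm⟩ : ∃ m, m + 2 = Q + 2 * p := ⟨Q + 2 * p - 2, by omega⟩
  have hcl : (ngs p l).card + p = Q + 1 := by
    have := ng_card (p := p) (w := l) (by omega) (by omega)
    unfold ngs
    omega
  have hcm : (ngs p m).card = Q + p := by
    have := ng_card (p := p) (w := m) (by omega) (by omega)
    unfold ngs
    omega
  -- the members of the big space
  have hmonLp : ∀ w k : ℕ, k ∈ ngs p w → mon F p k ∈ Lp F p w := by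
    intro w k hk
    unfold ngs at hk
    rw [Finset.mem_filter, Finset.mem_range] at hk
    exact Submodule.subset_span ⟨k, hk.2, by omega, rfl⟩
  have hmonLL : ∀ w k : ℕ, k ∈ ngs p w → mon F p k ∈ LL p a b w := fun w k hk =>
    Submodule.mem_sup_left (hmonLp w k hk)
  let ι : Type := {x : ℕ × ℕ // x ∈ ngs p l ×ˢ ngs p m}
  let v : ι → MvPolynomial (Fin 2) F := fun i =>
    (mon F p i.1.1) ^ Q * aeval ![(X 0 : MvPolynomial (Fin 2) F), X 1 + C t] (mon F p i.1.2)
  have hv : ∀ i, v i ∈ LL p a b (Q * l + m) := by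
    intro i
    have hi := Finset.mem_product.1 i.2
    exact ll_mul hp (ll_pow hp (hmonLL l _ hi.1) Q)
      (Submodule.mem_sup_left (shift_mem hp t (hmonLp m _ hi.2)))
  have hι : Q * l + m + 2 - p < Fintype.card ι := by
    have h1 : Fintype.card ι = (ngs p l).card * (ngs p m).card := by
      rw [← Finset.card_product]
      exact Fintype.card_coe _
    rw [h1, hcm]
    obtain ⟨n, hn⟩ : ∃ n, (ngs p l).card = n := ⟨_, rfl⟩
    rw [hn] at hcl ⊢
    have h2 : Q * l + m + 2 - p = Q * l + Q + p := by omega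
    rw [h2]
    have h3 : Q * l + Q = Q * Q := by
      conv_rhs => rw [hl, mul_add, mul_one, ← hl]
    rw [h3]
    have h4 : n = Q + 1 - p := by omega
    obtain ⟨r, hr⟩ : ∃ r, Q = r + p := ⟨Q - p, by omega⟩
    have h5 : n = r + 1 := by omega
    rw [h5, hr]
    rw [hr] at hQ
    nlinarith
  obtain ⟨d, hd0, hd⟩ := exists_ker hp (by nlinarith : p ≤ Q * l + m) v hv hι
  set d' : ℕ → ℕ → F := fun e k =>
    if h : (e, k) ∈ ngs p l ×ˢ ngs p m then d ⟨(e, k), h⟩ else 0 with hd'
  have hdd : ∀ i : ι, d' i.1.1 i.1.2 = d i := by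
    rintro ⟨⟨e, k⟩, hi⟩
    simp only [hd']
    rw [dif_pos hi]
  have hDD : DD p Q l m t d' ∈ Ideal.span {cc p a b} := by
    have h1 : DD p Q l m t d' = ∑ i : ι, C (d i) * v i := by
      unfold DD
      rw [← Finset.sum_product', ← Finset.sum_coe_sort]
      apply Finset.sum_congr rfl
      intro i _
      rw [← hdd i, ← mul_assoc]
    rw [h1]
    exact hd
  have hne : ∃ e ∈ ngs p l, ∃ k ∈ ngs p m, d' e k ≠ 0 := by
    obtain ⟨i, hi⟩ : ∃ i, d i ≠ 0 := by
      by_contra hc
      push Not at hc
      exact hd0 (funext hc)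
    have hi' := Finset.mem_product.1 i.2
    exact ⟨i.1.1, hi'.1, i.1.2, hi'.2, by rw [hdd i]; exact hi⟩
  have hGD : GD p Q l m d' ∈ LL p a b (l + Q * m) := by
    unfold GD
    apply Submodule.sum_mem
    intro e he
    apply Submodule.sum_mem
    intro k hk
    rw [mul_assoc, ← MvPolynomial.smul_eq_C_mul]
    exact Submodule.smul_mem _ _ (ll_mul hp (hmonLL l e he) (ll_pow hp (hmonLL m k hk) Q))
  obtain ⟨G', hG', G'', hG'', hsum⟩ := Submodule.mem_sup.1 hGD
  obtain ⟨γ, hγ⟩ := coeffs hG'
  have hG'0 : G' ≠ 0 := by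
    apply bomb_nz hp (by omega : l < Q) ha hne
    rw [← hsum, add_sub_cancel_left]
    exact hG''
  let K := AlgebraicClosure F
  have : CharP K p := charP_of_injective_algebraMap (algebraMap F K).injective p
  set S : Finset F := (Finset.univ.filter (fun x : Fˣ =>
      ∑ i ∈ Finset.range (2 * μ), (a * (x : F) + b * ((x⁻¹ : Fˣ) : F)) ^ p ^ i = t)).image
        (fun x : Fˣ => (x : F)) with hS
  have hScard : S.card = (Finset.univ.filter (fun x : Fˣ =>
      ∑ i ∈ Finset.range (2 * μ), (a * (x : F) + b * ((x⁻¹ : Fˣ) : F)) ^ p ^ i = t)).card := by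
    rw [hS]
    apply Finset.card_image_of_injective
    exact Units.val_injective
  rw [← hScard]
  have hmain : p * S.card ≤ l + Q * m := by
    refine bomb_cnt (F := F) (K := K) (γ := γ) (w := l + Q * m) ?_ S ?_
    · have : ∑ k ∈ ngs p (l + Q * m), C (γ k) * mon F p k = G' := hγ.symm
      rw [this]
      exact hG'0
    · intro x0 hx0
      rw [hS, Finset.mem_image] at hx0
      obtain ⟨x, hx, rfl⟩ := hx0
      rw [Finset.mem_filter] at hx
      have hxt := hx.2
      have hxne : (x : F) ≠ 0 := x.ne_zero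
      rw [Units.val_inv_eq_inv_val] at hxt
      set f : F := a * (x : F) + b * (x : F)⁻¹ with hf
      obtain ⟨y, hy⟩ : ∃ y : K, y ^ p - y = algebraMap F K f := by
        have hdeg : (Polynomial.X ^ p - Polynomial.X - Polynomial.C (algebraMap F K f)).degree ≠ 0 := by
          rw [sub_sub, Polynomial.degree_sub_eq_left_of_degree_lt]
          · rw [Polynomial.degree_X_pow]
            exact_mod_cast (by omega : p ≠ 0)
          · rw [Polynomial.degree_X_pow]
            refine lt_of_le_of_lt (Polynomial.degree_add_le _ _) ?_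
            rw [max_lt_iff]
            constructor
            · rw [Polynomial.degree_X]
              exact_mod_cast (by omega : 1 < p)
            · refine lt_of_le_of_lt Polynomial.degree_C_le ?_
              exact_mod_cast (by omega : 0 < p)
        obtain ⟨y, hy⟩ := IsAlgClosed.exists_root _ hdeg
        refine ⟨y, ?_⟩
        rw [Polynomial.IsRoot.def] at hy
        simp only [Polynomial.eval_sub, Polynomial.eval_pow, Polynomial.eval_X,
          Polynomial.eval_C] at hy
        exact sub_eq_zero.1 hy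
      refine ⟨y, fun c => ?_⟩
      have hyc : (y + ZMod.castHom (dvd_refl p) K c) ^ p - (y + ZMod.castHom (dvd_refl p) K c) =
          algebraMap F K f := by
        rw [add_pow_char, ← map_pow, ZMod.pow_card, ← hy]
        ring
      set z : K := y + ZMod.castHom (dvd_refl p) K c with hz
      have h1 : aeval ![algebraMap F K (x : F), z] (GD p Q l m d') = 0 :=
        bomb_pt hF hxne hxt hyc d' hDD
      have h2 : aeval ![algebraMap F K (x : F), z] G'' = 0 := by
        have hG3 : G'' ∈ Ideal.span {cc p a b} := hG''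
        rw [Ideal.mem_span_singleton] at hG3
        obtain ⟨g, hg⟩ := hG3
        rw [hg, map_mul]
        have : aeval ![algebraMap F K (x : F), z] (cc p a b) = 0 := by
          unfold cc
          simp only [map_sub, map_mul, map_pow, aeval_C, aeval_X, Matrix.cons_val_zero,
            Matrix.cons_val_one]
          have h3 : algebraMap F K (x : F) * z ^ p - algebraMap F K (x : F) * z =
              algebraMap F K (x : F) * algebraMap F K f := by
            rw [← hyc]; ring
          rw [h3, hf, ← map_mul, ← map_pow, ← map_mul, ← map_sub, ← map_sub]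
          have : (x : F) * (a * (x : F) + b * (x : F)⁻¹) - a * (x : F) ^ 2 - b = 0 := by
            field_simp
            ring
          rw [this, map_zero]
        rw [this, zero_mul]
      have h3 : ∑ k ∈ ngs p (l + Q * m), C (γ k) * mon F p k = G' := hγ.symm
      rw [h3]
      have h4 : G' = GD p Q l m d' - G'' := by rw [← hsum]; ring
      rw [h4, map_sub, h1, h2, sub_zero]
  refine hmain.trans ?_
  have h1 : Q * m + 2 * Q = Q * Q + 2 * p * Q := by
    have : Q * (m + 2) = Q * (Q + 2 * p) := by rw [hm]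
    nlinarith
  nlinarith

end Pool.Agent.P07318w
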