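import Pool.Agent.Lib.P07318w.AlgRed

/-!
# The two auxiliary functions of Bombieri's argument
-/

set_option autoImplicit false

open MvPolynomial

namespace Pool.Agent.P07318w

/-- The indices `0` and `p, ..., w`. -/
def ngs (p w : ℕ) : Finset ℕ := (Finset.range (w + 1)).filter (NG p)

variable {F : Type} [Field F]

/-- `∑ d(e,k) (mon e)^Q (mon k)(X, Y + t)` -/
noncomputable def DD (p Q l m : ℕ) (t : F) (d : ℕ → ℕ → F) : MvPolynomial (Fin 2) F :=
  ∑ e ∈ ngs p l, ∑ k ∈ ngs p m, C (d e k) * (mon F p e) ^ Q * aeval ![(X 0 : MvPolynomial (Fin 2) F), X 1 + C t] (mon F p k)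

/-- `∑ d(e,k)^Q (mon e) (mon k)^Q` -/
noncomputable def GD (p Q l m : ℕ) (d : ℕ → ℕ → F) : MvPolynomial (Fin 2) F :=
  ∑ e ∈ ngs p l, ∑ k ∈ ngs p m, C (d e k ^ Q) * mon F p e * (mon F p k) ^ Q

end Pool.Agent.P07318w
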