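import Pool.Agent.Lib.P07318w.BombDefs

/-!
# P07318w.BombPt: the auxiliary function vanishes at the points with trace `t`

PROOF. Let `Q = p^μ`, `f = a x0 + b x0⁻¹ ∈ F`, `y ∈ K` with `y^p - y = f`, `x = algebraMap x0`. By induction on `n`, `y^(p^n) = y + ∑_{i<n} f^(p^i)` (`add_pow_char_pow`, `CharP K p`: `charP_of_injective_algebraMap`), so
`y^(Q^2) = y + t` (`Q^2 = p^(2μ)`). The point `(x, y)` is on the curve: `x y^p - x y - a x^2 - b = x f - a x^2 - b = 0` (`x0 ≠ 0`), so `aeval ![x, y]` kills `cc` and the ideal it spans, hence `DD(x, y) = 0`.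
For `c ∈ F`: `c^(Q^2) = c` (`FiniteField.pow_card`, `card F = Q^2`). `z ↦ z^Q` is additive in `K` (`sum_pow_char_pow`, `Q = p^μ`). So
`GD(x,y)^Q = ∑ d(e,k)^(Q^2) mon_e(x,y)^Q mon_k(x,y)^(Q^2) = ∑ d(e,k) mon_e(x,y)^Q mon_k(x, y + t) = DD(x, y) = 0`, because `mon_k(x,y)^(Q^2) = mon_k(x^(Q^2), y^(Q^2))` (a monomial) and `x^(Q^2) = x`. Hence `GD(x,y) = 0`.
-/

set_option autoImplicit false

open MvPolynomial

namespace Pool.Agent.P07318w

theorem bomb_pt {F K : Type} [Field F] [Fintype F] [Field K] [Algebra F K] {p : ℕ} [Fact p.Prime] [CharP F p] {μ l m : ℕ}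
    (hF : Fintype.card F = (p ^ μ) ^ 2) {a b t x0 : F} (hx0 : x0 ≠ 0)
    (ht : ∑ i ∈ Finset.range (2 * μ), (a * x0 + b * x0⁻¹) ^ p ^ i = t) {y : K}
    (hy : y ^ p - y = algebraMap F K (a * x0 + b * x0⁻¹)) (d : ℕ → ℕ → F)
    (hd : DD p (p ^ μ) l m t d ∈ Ideal.span {cc p a b}) :
    aeval ![algebraMap F K x0, y] (GD p (p ^ μ) l m d) = 0 := by
  have : CharP K p := charP_of_injective_algebraMap (algebraMap F K).injective p
  have hp : p.Prime := Fact.out
  set f := a * x0 + b * x0⁻¹ with hf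
  set x := algebraMap F K x0 with hx
  have h1 : ∀ n : ℕ, y ^ p ^ n = y + ∑ i ∈ Finset.range n, algebraMap F K (f ^ p ^ i) := by
    intro n
    induction n with
    | zero => simp
    | succ n ih =>
      have e : y ^ p ^ (n + 1) = (y ^ p) ^ p ^ n := by
        rw [← pow_mul, pow_succ, mul_comm]
      have e2 : y ^ p = y + algebraMap F K f := by rw [← hy]; ring
      rw [e, e2, add_pow_char_pow, ih, Finset.sum_range_succ, map_pow]
      ring
  have h2 : y ^ (p ^ μ) ^ 2 = y + algebraMap F K t := by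
    rw [← pow_mul, mul_comm μ 2, h1, ← map_sum, ht]
  have hc : ∀ c : F, (algebraMap F K c) ^ (p ^ μ) ^ 2 = algebraMap F K c := by
    intro c
    rw [← map_pow, ← hF, FiniteField.pow_card]
  have hcc : aeval ![x, y] (cc p a b) = 0 := by
    have e2 : y ^ p = y + algebraMap F K f := by rw [← hy]; ring
    have e3 : algebraMap F K f * x = algebraMap F K a * x ^ 2 + algebraMap F K b := by
      rw [hx, hf, ← map_mul, ← map_pow, ← map_mul, ← map_add]
      congr 1
      field_simp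
    simp only [cc, map_sub, map_mul, map_pow, aeval_X, aeval_C, Matrix.cons_val_zero,
      Matrix.cons_val_one]
    rw [e2]
    linear_combination e3
  have hDD : aeval ![x, y] (DD p (p ^ μ) l m t d) = 0 := by
    obtain ⟨g, hg⟩ := Ideal.mem_span_singleton.1 hd
    rw [hg, map_mul, hcc, zero_mul]
  have hsh : ∀ g : MvPolynomial (Fin 2) F,
      aeval ![x, y] (aeval ![(X 0 : MvPolynomial (Fin 2) F), X 1 + C t] g) =
        aeval ![x, y + algebraMap F K t] g := by
    intro g
    have : (aeval ![x, y]).comp (aeval ![(X 0 : MvPolynomial (Fin 2) F), X 1 + C t]) =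
        (aeval ![x, y + algebraMap F K t] : MvPolynomial (Fin 2) F →ₐ[F] K) := by
      apply MvPolynomial.algHom_ext
      intro i
      fin_cases i <;> simp
    rw [← this]
    rfl
  have hQ : (aeval ![x, y] (GD p (p ^ μ) l m d)) ^ p ^ μ =
      aeval ![x, y] (DD p (p ^ μ) l m t d) := by
    unfold GD DD
    rw [map_sum, map_sum, sum_pow_char_pow]
    refine Finset.sum_congr rfl fun e _ => ?_
    rw [map_sum, map_sum, sum_pow_char_pow]
    refine Finset.sum_congr rfl fun k _ => ?_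
    rw [map_mul, map_mul, map_mul, map_mul, hsh]
    simp only [mon, map_mul, map_pow, aeval_X, aeval_C, Matrix.cons_val_zero,
      Matrix.cons_val_one, mul_pow]
    have e1 : ((algebraMap F K (d e k)) ^ p ^ μ) ^ p ^ μ = algebraMap F K (d e k) := by
      rw [← pow_mul, ← sq, hc]
    have e2 : ((x ^ (k / p)) ^ p ^ μ) ^ p ^ μ = x ^ (k / p) := by
      rw [← pow_mul (x ^ (k / p)), ← sq, ← pow_mul, mul_comm, pow_mul, hx, hc]
    have e3 : ((y ^ (k % p)) ^ p ^ μ) ^ p ^ μ = (y + algebraMap F K t) ^ (k % p) := by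
      rw [← pow_mul (y ^ (k % p)), ← sq, ← pow_mul, mul_comm, pow_mul, h2]
    rw [e1, e2, e3]
  rw [hDD] at hQ
  exact pow_eq_zero_iff (pow_pos hp.pos μ).ne' |>.1 hQ

end Pool.Agent.P07318w
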