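import Pool.Agent.Lib.P07318w.Defs
import Pool.Agent.Lib.P07318m.CSum

/-!
# P07318w.CSumN: crude sums over the second region

Models: `csum1` to `csum5` in `P07318m/CSum.lean` (with `m_bound`-type lemmas); `e_sum` of `P07318m.ESum`, `hh_le` of `P07318m.DAux`.

PROOFS. On `RN M Y` (`Y ≥ 1`): `1 ≤ a, b ≤ Y`, `Y < a^2`, `a^5 ≤ Y^3` (from `a^2 ≤ b^2 Y` and `a^3 b^2 ≤ Y^2`), `b ≤ Y a^(-3/2)`, `a b ≤ Y` (`(ab)^2 = a^3 b^2 / a ≤ Y^2`). Put `w = log(Y/b) - log a/2`; since `a^(3/2) b ≤ Y`: `w ≥ log a ≥ 0`, `w ≤ log Y`,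
so `0 ≤ (17/40) log^2 a ≤ Qn ≤ log^2 Y`. With `hh a ≤ C Y^ε'`, `log^2 Y ≤ C Y^ε'`:
`cn1`: `∑ |cn| ≤ C Y^ε ∑_a a^(-1/2) ∑_{b ≤ Y a^(-3/2)} b^(-1/2) ≤ C Y^ε ∑_a a^(-1/2) 2 Y^(1/2) a^(-3/4) ≤ C Y^(1/2 + ε)` (`∑ a^(-5/4)` converges);
`cn2`: `∑ |cn| (a/b)^(1/2) ≤ C Y^ε ∑_{a ≤ Y^(3/5)} ∑_{b ≤ Y} 1/b ≤ C Y^(3/5 + 2 ε)`;
`cn3`: `∑ |cn| a^(1/2) ≤ C Y^ε ∑_a ∑_b b^(-1/2) ≤ C Y^ε Y^(1/2) ∑_{a ≤ Y^(3/5)} a^(-3/4) ≤ C Y^(1/2 + 3/20 + ε) ≤ C Y^(3/4 + ε)`;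
`cn4`: `∑ (hh/a) Qn b^(-1/2) ≤ C Y^ε ∑_a a^(-1) Y^(1/2) a^(-3/4) ≤ C Y^(1/2 + ε)`;
`cn5`: `∑ hh^2/(ab) Qn (1 + dl) ≤ log^2 Y (1 + log Y) ∑_{a ≤ Y} hh^2/a (1 + dl) ≤ C (1 + log Y)^7` (`e_sum`);
`cn6`: `∑ (hh/a) Qn a^(3/2) ≤ C Y^ε ∑_a a^(1/2) #{b ≤ Y a^(-3/2)} ≤ C Y^ε Y ∑_{a ≤ Y} 1/a ≤ C Y^(1 + 2ε)`.
-/

set_option autoImplicit false

namespace Pool.Agent.P07318w

open Pool.Agent.P07318m (hh dl Ea e_sum hh_le)
open Pool.Agent.P07318m.ESumAux (hh_nonneg harm)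

theorem mem_rn {M : ℕ} {Y : ℝ} (hY : 1 ≤ Y) {p : ℕ × ℕ} (hp : p ∈ RN M Y) : 1 ≤ p.1 ∧ 1 ≤ p.2 ∧ p.1.Coprime p.2 ∧
    (p.1 : ℝ) ≤ Y ∧ (p.2 : ℝ) ≤ Y ∧ (p.1 : ℝ) * (p.2 : ℝ) ≤ Y ∧ Y < (p.1 : ℝ) ^ 2 ∧ (p.1 : ℝ) ^ 2 ≤ Y * (p.2 : ℝ) ^ 2 ∧
    Sfl M p.1 ∧ Real.log p.1 ≤ Real.log (Y / p.2) - Real.log p.1 / 2 ∧ 0 ≤ Qn Y p.1 p.2 ∧
    Qn Y p.1 p.2 ≤ Real.log Y ^ 2 := by
  classical
  unfold RN at hp
  rw [Finset.mem_filter, Finset.mem_product, Finset.mem_Icc, Finset.mem_Icc] at hp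
  obtain ⟨⟨⟨h1, h2⟩, h3, h4⟩, h5, h6, h7, h8, h9⟩ := hp
  have hY0 : 0 < Y := by linarith
  have a1 : (1:ℝ) ≤ p.1 := by exact_mod_cast h1
  have b1 : (1:ℝ) ≤ p.2 := by exact_mod_cast h3
  have aY : (p.1 : ℝ) ≤ Y := (Nat.le_floor_iff hY0.le).mp h2
  have bY : (p.2 : ℝ) ≤ Y := (Nat.le_floor_iff hY0.le).mp h4
  have a0 : (0:ℝ) < p.1 := by linarith
  have b0 : (0:ℝ) < p.2 := by linarith
  have hab : (p.1 : ℝ) * (p.2 : ℝ) ≤ Y := by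
    have h10 : ((p.1 : ℝ) * p.2) ^ 2 ≤ Y ^ 2 := by
      refine le_trans ?_ h8
      have : ((p.1 : ℝ) * p.2) ^ 2 = 1 * ((p.1 : ℝ) ^ 2 * (p.2 : ℝ) ^ 2) := by ring
      rw [this]
      have h11 : (p.1 : ℝ) ^ 3 * (p.2 : ℝ) ^ 2 = p.1 * ((p.1 : ℝ) ^ 2 * (p.2 : ℝ) ^ 2) := by ring
      rw [h11]
      exact mul_le_mul_of_nonneg_right a1 (by positivity)
    exact (pow_le_pow_iff_left₀ (by positivity) hY0.le (by norm_num)).mp h10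
  have hlog : Real.log p.1 ≤ Real.log (Y / p.2) - Real.log p.1 / 2 := by
    have h10 := Real.log_le_log (by positivity) h8
    rw [Real.log_mul (by positivity) (by positivity), Real.log_pow, Real.log_pow, Real.log_pow] at h10
    push_cast at h10
    rw [Real.log_div hY0.ne' b0.ne']
    linarith
  have hla : 0 ≤ Real.log p.1 := Real.log_nonneg a1
  have hlb : 0 ≤ Real.log p.2 := Real.log_nonneg b1
  have hw : Real.log (Y / p.2) - Real.log p.1 / 2 ≤ Real.log Y := by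
    rw [Real.log_div hY0.ne' b0.ne']
    linarith
  refine ⟨h1, h3, h5, aY, bY, hab, h6, by linarith, h9, hlog, ?_, ?_⟩
  · unfold Qn
    nlinarith
  · unfold Qn
    nlinarith

namespace CSumNAux

lemma a_le {M : ℕ} {Y : ℝ} (hY : 1 ≤ Y) {p : ℕ × ℕ} (hp : p ∈ RN M Y) :
    (p.1 : ℝ) ≤ Y ^ (3 / 5 : ℝ) ∧ (p.2 : ℝ) ≤ Y / (p.1 * Real.sqrt p.1) := by
  classical
  obtain ⟨h1, h3, _, _, _, _, _, h7, _, _, _, _⟩ := mem_rn hY hp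
  unfold RN at hp
  rw [Finset.mem_filter] at hp
  obtain ⟨_, _, _, _, h8, _⟩ := hp
  have hY0 : 0 < Y := by linarith
  have a0 : (0:ℝ) < p.1 := by exact_mod_cast h1
  have b0 : (0:ℝ) < p.2 := by exact_mod_cast h3
  constructor
  · have h9 : (p.1 : ℝ) ^ 5 ≤ Y ^ 3 := by
      have h10 : (p.1 : ℝ) ^ 3 * (p.1 : ℝ) ^ 2 ≤ (p.1 : ℝ) ^ 3 * (Y * (p.2 : ℝ) ^ 2) :=
        mul_le_mul_of_nonneg_left h7 (by positivity)
      have h11 : (p.1 : ℝ) ^ 3 * (Y * (p.2 : ℝ) ^ 2) = Y * ((p.1 : ℝ) ^ 3 * (p.2 : ℝ) ^ 2) := by ring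
      have h12 : Y * ((p.1 : ℝ) ^ 3 * (p.2 : ℝ) ^ 2) ≤ Y * Y ^ 2 := mul_le_mul_of_nonneg_left h8 hY0.le
      calc (p.1 : ℝ) ^ 5 = (p.1 : ℝ) ^ 3 * (p.1 : ℝ) ^ 2 := by ring
        _ ≤ Y * Y ^ 2 := by rw [h11] at h10; exact h10.trans h12
        _ = Y ^ 3 := by ring
    have h13 : (Y ^ (3 / 5 : ℝ)) ^ 5 = Y ^ 3 := by
      rw [← Real.rpow_natCast (Y ^ (3 / 5 : ℝ)) 5, ← Real.rpow_mul hY0.le, ← Real.rpow_natCast Y 3]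
      congr 1
      push_cast
      norm_num
    rw [← h13] at h9
    exact (pow_le_pow_iff_left₀ (by positivity) (by positivity) (by norm_num)).mp h9
  · have s0 : 0 < Real.sqrt p.1 := Real.sqrt_pos.2 a0
    rw [le_div_iff₀ (by positivity)]
    have h9 : ((p.2 : ℝ) * (p.1 * Real.sqrt p.1)) ^ 2 ≤ Y ^ 2 := by
      have h10 : ((p.2 : ℝ) * (p.1 * Real.sqrt p.1)) ^ 2 = (p.1 : ℝ) ^ 3 * (p.2 : ℝ) ^ 2 := by
        rw [mul_pow, mul_pow, Real.sq_sqrt a0.le]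
        ring
      rw [h10]
      exact h8
    exact (pow_le_pow_iff_left₀ (by positivity) hY0.le (by norm_num)).mp h9

lemma rn_sum_le {M : ℕ} {Y : ℝ} (hY : 1 ≤ Y) (f : ℕ → ℕ → ℝ) (hf : ∀ a b, 0 ≤ f a b) :
    ∑ p ∈ RN M Y, f p.1 p.2 ≤
      ∑ a ∈ Finset.Icc 1 ⌊Y ^ (3 / 5 : ℝ)⌋₊, ∑ b ∈ Finset.Icc 1 ⌊Y / (a * Real.sqrt a)⌋₊, f a b := by
  classical
  have hY0 : 0 < Y := by linarith
  rw [Finset.sum_sigma']
  have h : (RN M Y).image (fun p : ℕ × ℕ => (⟨p.1, p.2⟩ : Σ _ : ℕ, ℕ)) ⊆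
      (Finset.Icc 1 ⌊Y ^ (3 / 5 : ℝ)⌋₊).sigma (fun a => Finset.Icc 1 ⌊Y / (a * Real.sqrt a)⌋₊) := by
    intro x hx
    rw [Finset.mem_image] at hx
    obtain ⟨p, hp, rfl⟩ := hx
    obtain ⟨h1, h3, _⟩ := mem_rn hY hp
    obtain ⟨h4, h5⟩ := a_le hY hp
    rw [Finset.mem_sigma, Finset.mem_Icc, Finset.mem_Icc]
    exact ⟨⟨h1, Nat.le_floor h4⟩, h3, Nat.le_floor h5⟩
  have h2 : ∑ p ∈ RN M Y, f p.1 p.2 =
      ∑ x ∈ (RN M Y).image (fun p : ℕ × ℕ => (⟨p.1, p.2⟩ : Σ _ : ℕ, ℕ)), f x.1 x.2 := by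
    rw [Finset.sum_image]
    intro p _ q _ hpq
    simp only [Sigma.mk.injEq, heq_eq_eq] at hpq
    exact Prod.ext hpq.1 hpq.2
  rw [h2]
  exact Finset.sum_le_sum_of_subset_of_nonneg h (fun x _ _ => hf _ _)

lemma sqrt_sum_nat (n : ℕ) : ∑ b ∈ Finset.Icc 1 n, (b : ℝ) ^ (-(1 / 2) : ℝ) ≤ 2 * Real.sqrt n := by
  induction n with
  | zero => simp
  | succ n ih =>
    rw [Finset.sum_Icc_succ_top (by omega)]
    have h1 : ((n + 1 : ℕ) : ℝ) ^ (-(1 / 2) : ℝ) = 1 / Real.sqrt ((n + 1 : ℕ) : ℝ) := by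
      rw [Real.rpow_neg (Nat.cast_nonneg _), ← Real.sqrt_eq_rpow, one_div]
    have hn : (0 : ℝ) ≤ n := Nat.cast_nonneg n
    have hpos : 0 < Real.sqrt ((n + 1 : ℕ) : ℝ) := Real.sqrt_pos.2 (by positivity)
    have h2 : Real.sqrt ((n + 1 : ℕ) : ℝ) ^ 2 = n + 1 := by
      rw [Real.sq_sqrt (by positivity)]; push_cast; ring
    have h3 : Real.sqrt (n : ℝ) ^ 2 = n := Real.sq_sqrt hn
    have h4 : 0 ≤ Real.sqrt (n : ℝ) := Real.sqrt_nonneg _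
    rw [h1]
    have h5 : 1 / Real.sqrt ((n + 1 : ℕ) : ℝ) ≤ 2 * (Real.sqrt ((n + 1 : ℕ) : ℝ) - Real.sqrt n) := by
      rw [div_le_iff₀ hpos]
      nlinarith [sq_nonneg (Real.sqrt ((n + 1 : ℕ) : ℝ) - Real.sqrt n)]
    linarith

lemma sqrt_sum {x : ℝ} (hx : 0 ≤ x) : ∑ b ∈ Finset.Icc 1 ⌊x⌋₊, (b : ℝ) ^ (-(1 / 2) : ℝ) ≤ 2 * Real.sqrt x :=
  (sqrt_sum_nat _).trans (by
    have := Real.sqrt_le_sqrt (Nat.floor_le hx)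
    linarith)

lemma z_ge {Y : ℝ} (hY : 1 ≤ Y) : 1 ≤ Y ^ (3 / 5 : ℝ) := Real.one_le_rpow hY (by norm_num)

lemma log_z {Y : ℝ} (hY : 1 ≤ Y) : Real.log (Y ^ (3 / 5 : ℝ)) ≤ Real.log Y := by
  rw [Real.log_rpow (by linarith)]
  have := Real.log_nonneg hY
  linarith

lemma harmA {Y : ℝ} (hY : 1 ≤ Y) :
    ∑ a ∈ Finset.Icc 1 ⌊Y ^ (3 / 5 : ℝ)⌋₊, (1 / (a : ℝ)) ≤ 1 + Real.log Y :=
  (harm (z_ge hY)).trans (by linarith [log_z hY])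

lemma le_mul_sqrt {a : ℕ} (ha : 1 ≤ a) : (a : ℝ) ≤ a * Real.sqrt a := by
  have a1 : (1:ℝ) ≤ a := by exact_mod_cast ha
  have : 1 ≤ Real.sqrt a := by rw [Real.one_le_sqrt]; exact a1
  nlinarith

lemma harmB {Y : ℝ} (hY : 1 ≤ Y) {a : ℕ} (ha : 1 ≤ a) :
    ∑ b ∈ Finset.Icc 1 ⌊Y / (a * Real.sqrt a)⌋₊, (1 / (b : ℝ)) ≤ 1 + Real.log Y := by
  have a1 : (1:ℝ) ≤ a := by exact_mod_cast ha
  have h0 := le_mul_sqrt ha
  have h1 : Finset.Icc 1 ⌊Y / (a * Real.sqrt a)⌋₊ ⊆ Finset.Icc 1 ⌊Y⌋₊ :=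
    Finset.Icc_subset_Icc_right (Nat.floor_mono (div_le_self (by linarith) (by linarith)))
  exact (Finset.sum_le_sum_of_subset_of_nonneg h1 fun b _ _ => by positivity).trans (harm hY)

lemma m_bound (ε : ℝ) (hε : 0 < ε) : ∃ C : ℝ, 0 < C ∧ ∀ (M : ℕ) (Y : ℝ), 1 ≤ Y → ∀ p ∈ RN M Y,
    hh p.1 * Qn Y p.1 p.2 ≤ C * Y ^ ε := by
  obtain ⟨K, hK, hKle⟩ := hh_le (ε / 2) (by positivity)
  refine ⟨K * (1 / (ε / 4)) ^ 2, by positivity, fun M Y hY p hp => ?_⟩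
  obtain ⟨m1, m2, _, m4, _, _, _, _, _, _, b1, b2⟩ := mem_rn hY hp
  have hY0 : 0 < Y := by linarith
  have a1 : (1:ℝ) ≤ p.1 := by exact_mod_cast m1
  have h1 : hh p.1 ≤ K * Y ^ (ε / 2) := (hKle p.1 m1).trans
    (mul_le_mul_of_nonneg_left (Real.rpow_le_rpow (by positivity) m4 (by positivity)) (by linarith))
  have h2 : Real.log Y ≤ Y ^ (ε / 4) / (ε / 4) := Real.log_le_rpow_div hY0.le (by positivity)
  have hL : 0 ≤ Real.log Y := Real.log_nonneg hY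
  have h3 : Real.log Y ^ 2 ≤ (1 / (ε / 4)) ^ 2 * Y ^ (ε / 2) := by
    calc Real.log Y ^ 2 ≤ (Y ^ (ε / 4) / (ε / 4)) ^ 2 := pow_le_pow_left₀ hL h2 2
      _ = (1 / (ε / 4)) ^ 2 * (Y ^ (ε / 4)) ^ 2 := by ring
      _ = _ := by
        rw [← Real.rpow_natCast (Y ^ (ε / 4)) 2, ← Real.rpow_mul hY0.le]
        congr 2
        push_cast
        ring
  have h4 : Y ^ ε = Y ^ (ε / 2) * Y ^ (ε / 2) := by
    rw [← Real.rpow_add hY0]; congr 1; ring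
  calc hh p.1 * Qn Y p.1 p.2 ≤ (K * Y ^ (ε / 2)) * ((1 / (ε / 4)) ^ 2 * Y ^ (ε / 2)) := by
        apply mul_le_mul h1 (by linarith) b1 (by positivity)
    _ = _ := by rw [h4]; ring

lemma logfac (ε : ℝ) (hε : 0 < ε) {Y : ℝ} (hY : 1 ≤ Y) : 1 + Real.log Y ≤ (1 + 1 / ε) * Y ^ ε := by
  have h1 : Real.log Y ≤ Y ^ ε / ε := Real.log_le_rpow_div (by linarith) hε
  have h2 : 1 ≤ Y ^ ε := Real.one_le_rpow hY hε.le
  have : (1 + 1 / ε) * Y ^ ε = Y ^ ε + Y ^ ε / ε := by ring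
  rw [this]
  linarith

lemma cn_abs {M : ℕ} {Y : ℝ} (hY : 1 ≤ Y) {p : ℕ × ℕ} (hp : p ∈ RN M Y) :
    |cn Y p| = hh p.1 * Qn Y p.1 p.2 / Real.sqrt ((p.1 : ℝ) * (p.2 : ℝ)) := by
  obtain ⟨_, _, _, _, _, _, _, _, _, _, b1, _⟩ := mem_rn hY hp
  have h2 := hh_nonneg p.1
  unfold cn
  rw [abs_of_nonneg (by positivity)]

lemma rpow_mhalf {x : ℝ} (hx : 0 ≤ x) : x ^ (-(1 / 2) : ℝ) = 1 / Real.sqrt x := by
  rw [Real.rpow_neg hx, ← Real.sqrt_eq_rpow, one_div]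

/-- Sums with the factor `b ^ (-1/2)`. -/
lemma half_sum {M : ℕ} {Y : ℝ} (hY : 1 ≤ Y) (u : ℕ → ℝ) (hu : ∀ a, 0 ≤ u a) :
    ∑ p ∈ RN M Y, u p.1 * (p.2 : ℝ) ^ (-(1 / 2) : ℝ) ≤
      ∑ a ∈ Finset.Icc 1 ⌊Y ^ (3 / 5 : ℝ)⌋₊, u a * (2 * (Real.sqrt Y / Real.sqrt (a * Real.sqrt a))) := by
  have hY0 : 0 < Y := by linarith
  refine (rn_sum_le hY (fun a b => u a * (b : ℝ) ^ (-(1 / 2) : ℝ))
    (fun a b => mul_nonneg (hu a) (by positivity))).trans ?_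
  refine Finset.sum_le_sum (fun a ha => ?_)
  rw [← Finset.mul_sum]
  refine mul_le_mul_of_nonneg_left ?_ (hu a)
  have h := sqrt_sum (x := Y / (a * Real.sqrt a)) (by positivity)
  rwa [Real.sqrt_div hY0.le] at h

lemma sqrt_ge {a : ℕ} (ha : 1 ≤ a) : Real.sqrt a ≤ Real.sqrt (a * Real.sqrt a) ∧
    0 < Real.sqrt a ∧ 1 ≤ Real.sqrt a ∧ Real.sqrt a * Real.sqrt a = a := by
  have a1 : (1:ℝ) ≤ a := by exact_mod_cast ha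
  have h1 : 1 ≤ Real.sqrt a := by rw [Real.one_le_sqrt]; exact a1
  exact ⟨Real.sqrt_le_sqrt (le_mul_sqrt ha), by linarith, h1, Real.mul_self_sqrt (by linarith)⟩

end CSumNAux

open CSumNAux

theorem cn1 (ε : ℝ) (hε : 0 < ε) : ∃ C : ℝ, 0 < C ∧ ∀ (M : ℕ) (Y : ℝ), 1 ≤ Y →
    ∑ p ∈ RN M Y, |cn Y p| ≤ C * Y ^ (1 / 2 + ε) := by
  obtain ⟨C, hC, h⟩ := m_bound (ε / 2) (by positivity)
  refine ⟨C * (2 * (1 + 1 / (ε / 2))), by positivity, fun M Y hY => ?_⟩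
  have hY0 : 0 < Y := by linarith
  set K : ℝ := C * Y ^ (ε / 2) with hK
  have hK0 : 0 ≤ K := by positivity
  have h1 : ∀ p ∈ RN M Y, |cn Y p| ≤ (K * (p.1 : ℝ) ^ (-(1 / 2) : ℝ)) * (p.2 : ℝ) ^ (-(1 / 2) : ℝ) := by
    intro p hp
    obtain ⟨m1, m2, _⟩ := mem_rn hY hp
    have a0 : (0:ℝ) < p.1 := by exact_mod_cast m1
    have b0 : (0:ℝ) < p.2 := by exact_mod_cast m2
    rw [cn_abs hY hp, rpow_mhalf a0.le, rpow_mhalf b0.le, Real.sqrt_mul a0.le, mul_assoc,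
      div_mul_div_comm, one_mul, mul_one_div]
    exact div_le_div_of_nonneg_right (h M Y hY p hp) (by positivity)
  refine (Finset.sum_le_sum h1).trans ?_
  refine (half_sum hY (fun a => K * (a : ℝ) ^ (-(1 / 2) : ℝ)) (fun a => by positivity)).trans ?_
  have h2 : ∀ a ∈ Finset.Icc 1 ⌊Y ^ (3 / 5 : ℝ)⌋₊,
      K * (a : ℝ) ^ (-(1 / 2) : ℝ) * (2 * (Real.sqrt Y / Real.sqrt (a * Real.sqrt a))) ≤
      K * (2 * Real.sqrt Y) * (1 / (a : ℝ)) := by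
    intro a ha
    rw [Finset.mem_Icc] at ha
    have a0 : (0:ℝ) < a := by exact_mod_cast ha.1
    obtain ⟨e1, e2, e3, e4⟩ := sqrt_ge ha.1
    rw [rpow_mhalf a0.le]
    calc K * (1 / Real.sqrt a) * (2 * (Real.sqrt Y / Real.sqrt (a * Real.sqrt a)))
        ≤ K * (1 / Real.sqrt a) * (2 * (Real.sqrt Y / Real.sqrt a)) := by gcongr
      _ = K * (2 * Real.sqrt Y) * (1 / (Real.sqrt a * Real.sqrt a)) := by field_simp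
      _ = _ := by rw [e4]
  refine (Finset.sum_le_sum h2).trans ?_
  rw [← Finset.mul_sum]
  have h3 := (harmA hY).trans (logfac (ε / 2) (by positivity) hY)
  have h4 : Y ^ (1 / 2 + ε) = Real.sqrt Y * Y ^ (ε / 2) * Y ^ (ε / 2) := by
    rw [Real.sqrt_eq_rpow, ← Real.rpow_add hY0, ← Real.rpow_add hY0]; congr 1; ring
  calc K * (2 * Real.sqrt Y) * ∑ a ∈ Finset.Icc 1 ⌊Y ^ (3 / 5 : ℝ)⌋₊, (1 / (a : ℝ))
      ≤ K * (2 * Real.sqrt Y) * ((1 + 1 / (ε / 2)) * Y ^ (ε / 2)) := by gcongr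
    _ = _ := by rw [h4, hK]; ring

theorem cn2 (ε : ℝ) (hε : 0 < ε) : ∃ C : ℝ, 0 < C ∧ ∀ (M : ℕ) (Y : ℝ), 1 ≤ Y →
    ∑ p ∈ RN M Y, |cn Y p| * ((p.1 : ℝ) / p.2) ^ (1 / 2 : ℝ) ≤ C * Y ^ (3 / 5 + ε) := by
  obtain ⟨C, hC, h⟩ := m_bound (ε / 2) (by positivity)
  refine ⟨C * (1 + 1 / (ε / 2)), by positivity, fun M Y hY => ?_⟩
  have hY0 : 0 < Y := by linarith
  set K : ℝ := C * Y ^ (ε / 2) with hK
  have hK0 : 0 ≤ K := by positivity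
  have h1 : ∀ p ∈ RN M Y, |cn Y p| * ((p.1 : ℝ) / p.2) ^ (1 / 2 : ℝ) ≤ K * (1 / (p.2 : ℝ)) := by
    intro p hp
    obtain ⟨m1, m2, _⟩ := mem_rn hY hp
    have a0 : (0:ℝ) < p.1 := by exact_mod_cast m1
    have b0 : (0:ℝ) < p.2 := by exact_mod_cast m2
    have s1 : 0 < Real.sqrt p.1 := Real.sqrt_pos.2 a0
    have s2 : 0 < Real.sqrt p.2 := Real.sqrt_pos.2 b0
    have s3 : Real.sqrt p.2 * Real.sqrt p.2 = p.2 := Real.mul_self_sqrt b0.le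
    rw [cn_abs hY hp, ← Real.sqrt_eq_rpow, Real.sqrt_mul a0.le, Real.sqrt_div a0.le]
    have e1 : hh p.1 * Qn Y p.1 p.2 / (Real.sqrt p.1 * Real.sqrt p.2) * (Real.sqrt p.1 / Real.sqrt p.2) =
        hh p.1 * Qn Y p.1 p.2 * (1 / (Real.sqrt p.2 * Real.sqrt p.2)) := by field_simp
    rw [e1, s3]
    exact mul_le_mul_of_nonneg_right (h M Y hY p hp) (by positivity)
  refine (Finset.sum_le_sum h1).trans ?_
  refine (rn_sum_le hY (fun a b => K * (1 / (b : ℝ))) (fun a b => by positivity)).trans ?_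
  have h2 : ∀ a ∈ Finset.Icc 1 ⌊Y ^ (3 / 5 : ℝ)⌋₊,
      ∑ b ∈ Finset.Icc 1 ⌊Y / (a * Real.sqrt a)⌋₊, K * (1 / (b : ℝ)) ≤ K * (1 + Real.log Y) := by
    intro a ha
    rw [Finset.mem_Icc] at ha
    rw [← Finset.mul_sum]
    exact mul_le_mul_of_nonneg_left (harmB hY ha.1) hK0
  refine (Finset.sum_le_sum h2).trans ?_
  rw [Finset.sum_const, nsmul_eq_mul, Nat.card_Icc, Nat.add_sub_cancel]
  have hfl : ((⌊Y ^ (3 / 5 : ℝ)⌋₊ : ℕ) : ℝ) ≤ Y ^ (3 / 5 : ℝ) := Nat.floor_le (by positivity)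
  have h4 : Y ^ (3 / 5 + ε) = Y ^ (3 / 5 : ℝ) * Y ^ (ε / 2) * Y ^ (ε / 2) := by
    rw [← Real.rpow_add hY0, ← Real.rpow_add hY0]; congr 1; ring
  have hL : 0 ≤ Real.log Y := Real.log_nonneg hY
  calc ((⌊Y ^ (3 / 5 : ℝ)⌋₊ : ℕ) : ℝ) * (K * (1 + Real.log Y))
      ≤ Y ^ (3 / 5 : ℝ) * (K * ((1 + 1 / (ε / 2)) * Y ^ (ε / 2))) := by
        apply mul_le_mul hfl _ (by positivity) (by positivity)
        exact mul_le_mul_of_nonneg_left (logfac (ε / 2) (by positivity) hY) hK0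
    _ = _ := by rw [h4, hK]; ring

theorem cn3 (ε : ℝ) (hε : 0 < ε) : ∃ C : ℝ, 0 < C ∧ ∀ (M : ℕ) (Y : ℝ), 1 ≤ Y →
    ∑ p ∈ RN M Y, |cn Y p| * (p.1 : ℝ) ^ (1 / 2 : ℝ) ≤ C * Y ^ (3 / 4 + ε) := by
  obtain ⟨C, hC, h⟩ := m_bound (ε / 2) (by positivity)
  refine ⟨C * (2 * (1 + 1 / (ε / 2))), by positivity, fun M Y hY => ?_⟩
  have hY0 : 0 < Y := by linarith
  set K : ℝ := C * Y ^ (ε / 2) with hK
  have hK0 : 0 ≤ K := by positivity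
  have h1 : ∀ p ∈ RN M Y, |cn Y p| * (p.1 : ℝ) ^ (1 / 2 : ℝ) ≤ K * (p.2 : ℝ) ^ (-(1 / 2) : ℝ) := by
    intro p hp
    obtain ⟨m1, m2, _⟩ := mem_rn hY hp
    have a0 : (0:ℝ) < p.1 := by exact_mod_cast m1
    have b0 : (0:ℝ) < p.2 := by exact_mod_cast m2
    have s1 : 0 < Real.sqrt p.1 := Real.sqrt_pos.2 a0
    have s2 : 0 < Real.sqrt p.2 := Real.sqrt_pos.2 b0
    rw [cn_abs hY hp, ← Real.sqrt_eq_rpow, Real.sqrt_mul a0.le, rpow_mhalf b0.le]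
    have e1 : hh p.1 * Qn Y p.1 p.2 / (Real.sqrt p.1 * Real.sqrt p.2) * Real.sqrt p.1 =
        hh p.1 * Qn Y p.1 p.2 * (1 / Real.sqrt p.2) := by field_simp
    rw [e1]
    exact mul_le_mul_of_nonneg_right (h M Y hY p hp) (by positivity)
  refine (Finset.sum_le_sum h1).trans ?_
  refine (half_sum hY (fun _ => K) (fun _ => hK0)).trans ?_
  have h2 : ∀ a ∈ Finset.Icc 1 ⌊Y ^ (3 / 5 : ℝ)⌋₊,
      K * (2 * (Real.sqrt Y / Real.sqrt (a * Real.sqrt a))) ≤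
      K * (2 * Real.sqrt Y * Y ^ (3 / 20 : ℝ)) * (1 / (a : ℝ)) := by
    intro a ha
    rw [Finset.mem_Icc] at ha
    have a0 : (0:ℝ) < a := by exact_mod_cast ha.1
    have haz : (a : ℝ) ≤ Y ^ (3 / 5 : ℝ) := (Nat.le_floor_iff (by positivity)).mp ha.2
    obtain ⟨e1, e2, e3, e4⟩ := sqrt_ge ha.1
    have e5 : 0 < Real.sqrt (a * Real.sqrt a) := by linarith
    have e6 : (a : ℝ) ^ (1 / 4 : ℝ) * Real.sqrt (a * Real.sqrt a) = a := by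
      rw [Real.sqrt_eq_rpow, Real.sqrt_eq_rpow, Real.mul_rpow a0.le (by positivity), ← Real.rpow_mul a0.le,
        ← Real.rpow_add a0, ← Real.rpow_add a0]
      norm_num
    have e7 : (a : ℝ) ^ (1 / 4 : ℝ) ≤ Y ^ (3 / 20 : ℝ) := by
      refine (Real.rpow_le_rpow a0.le haz (by norm_num)).trans (le_of_eq ?_)
      rw [← Real.rpow_mul hY0.le]
      norm_num
    have e8 : 1 / Real.sqrt (a * Real.sqrt a) ≤ Y ^ (3 / 20 : ℝ) * (1 / (a : ℝ)) := by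
      rw [mul_one_div, div_le_div_iff₀ e5 a0, one_mul]
      calc (a : ℝ) = (a : ℝ) ^ (1 / 4 : ℝ) * Real.sqrt (a * Real.sqrt a) := e6.symm
        _ ≤ _ := mul_le_mul_of_nonneg_right e7 e5.le
    calc K * (2 * (Real.sqrt Y / Real.sqrt (a * Real.sqrt a)))
        = K * (2 * Real.sqrt Y) * (1 / Real.sqrt (a * Real.sqrt a)) := by ring
      _ ≤ K * (2 * Real.sqrt Y) * (Y ^ (3 / 20 : ℝ) * (1 / (a : ℝ))) :=
          mul_le_mul_of_nonneg_left e8 (by positivity)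
      _ = _ := by ring
  refine (Finset.sum_le_sum h2).trans ?_
  rw [← Finset.mul_sum]
  have h3 := (harmA hY).trans (logfac (ε / 2) (by positivity) hY)
  have h4 : Real.sqrt Y * Y ^ (3 / 20 : ℝ) * Y ^ (ε / 2) * Y ^ (ε / 2) ≤ Y ^ (3 / 4 + ε) := by
    rw [Real.sqrt_eq_rpow, ← Real.rpow_add hY0, ← Real.rpow_add hY0, ← Real.rpow_add hY0]
    exact Real.rpow_le_rpow_of_exponent_le hY (by linarith)
  calc K * (2 * Real.sqrt Y * Y ^ (3 / 20 : ℝ)) * ∑ a ∈ Finset.Icc 1 ⌊Y ^ (3 / 5 : ℝ)⌋₊, (1 / (a : ℝ))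
      ≤ K * (2 * Real.sqrt Y * Y ^ (3 / 20 : ℝ)) * ((1 + 1 / (ε / 2)) * Y ^ (ε / 2)) := by gcongr
    _ = C * (2 * (1 + 1 / (ε / 2))) * (Real.sqrt Y * Y ^ (3 / 20 : ℝ) * Y ^ (ε / 2) * Y ^ (ε / 2)) := by
        rw [hK]; ring
    _ ≤ _ := mul_le_mul_of_nonneg_left h4 (by positivity)

theorem cn4 (ε : ℝ) (hε : 0 < ε) : ∃ C : ℝ, 0 < C ∧ ∀ (M : ℕ) (Y : ℝ), 1 ≤ Y →
    ∑ p ∈ RN M Y, hh p.1 / p.1 * Qn Y p.1 p.2 * (p.2 : ℝ) ^ (-(1 / 2) : ℝ) ≤ C * Y ^ (1 / 2 + ε) := by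
  obtain ⟨C, hC, h⟩ := m_bound (ε / 2) (by positivity)
  refine ⟨C * (2 * (1 + 1 / (ε / 2))), by positivity, fun M Y hY => ?_⟩
  have hY0 : 0 < Y := by linarith
  set K : ℝ := C * Y ^ (ε / 2) with hK
  have hK0 : 0 ≤ K := by positivity
  have h1 : ∀ p ∈ RN M Y, hh p.1 / p.1 * Qn Y p.1 p.2 * (p.2 : ℝ) ^ (-(1 / 2) : ℝ) ≤
      (K * (1 / (p.1 : ℝ))) * (p.2 : ℝ) ^ (-(1 / 2) : ℝ) := by
    intro p hp
    obtain ⟨m1, m2, _⟩ := mem_rn hY hp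
    have a0 : (0:ℝ) < p.1 := by exact_mod_cast m1
    have b0 : (0:ℝ) < p.2 := by exact_mod_cast m2
    have e1 : hh p.1 / p.1 * Qn Y p.1 p.2 = (hh p.1 * Qn Y p.1 p.2) * (1 / (p.1 : ℝ)) := by ring
    rw [e1]
    exact mul_le_mul_of_nonneg_right (mul_le_mul_of_nonneg_right (h M Y hY p hp) (by positivity))
      (by positivity)
  refine (Finset.sum_le_sum h1).trans ?_
  refine (half_sum hY (fun a => K * (1 / (a : ℝ))) (fun a => by positivity)).trans ?_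
  have h2 : ∀ a ∈ Finset.Icc 1 ⌊Y ^ (3 / 5 : ℝ)⌋₊,
      K * (1 / (a : ℝ)) * (2 * (Real.sqrt Y / Real.sqrt (a * Real.sqrt a))) ≤
      K * (2 * Real.sqrt Y) * (1 / (a : ℝ)) := by
    intro a ha
    rw [Finset.mem_Icc] at ha
    have a0 : (0:ℝ) < a := by exact_mod_cast ha.1
    obtain ⟨e1, e2, e3, e4⟩ := sqrt_ge ha.1
    have e5 : Real.sqrt Y / Real.sqrt (a * Real.sqrt a) ≤ Real.sqrt Y :=
      div_le_self (Real.sqrt_nonneg _) (by linarith)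
    calc K * (1 / (a : ℝ)) * (2 * (Real.sqrt Y / Real.sqrt (a * Real.sqrt a)))
        ≤ K * (1 / (a : ℝ)) * (2 * Real.sqrt Y) :=
          mul_le_mul_of_nonneg_left (by linarith) (by positivity)
      _ = _ := by ring
  refine (Finset.sum_le_sum h2).trans ?_
  rw [← Finset.mul_sum]
  have h3 := (harmA hY).trans (logfac (ε / 2) (by positivity) hY)
  have h4 : Y ^ (1 / 2 + ε) = Real.sqrt Y * Y ^ (ε / 2) * Y ^ (ε / 2) := by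
    rw [Real.sqrt_eq_rpow, ← Real.rpow_add hY0, ← Real.rpow_add hY0]; congr 1; ring
  calc K * (2 * Real.sqrt Y) * ∑ a ∈ Finset.Icc 1 ⌊Y ^ (3 / 5 : ℝ)⌋₊, (1 / (a : ℝ))
      ≤ K * (2 * Real.sqrt Y) * ((1 + 1 / (ε / 2)) * Y ^ (ε / 2)) := by gcongr
    _ = _ := by rw [h4, hK]; ring

theorem cn5 : ∃ C : ℝ, 0 < C ∧ ∀ (M : ℕ) (Y : ℝ), 1 ≤ Y →
    ∑ p ∈ RN M Y, hh p.1 ^ 2 / ((p.1 : ℝ) * p.2) * Qn Y p.1 p.2 * (1 + dl p.1) ≤ C * (1 + Real.log Y) ^ 7 := by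
  obtain ⟨C, hC, h⟩ := e_sum
  refine ⟨C, hC, fun M Y hY => ?_⟩
  have hY0 : 0 < Y := by linarith
  have hL : 0 ≤ Real.log Y := Real.log_nonneg hY
  have h1 : ∀ p ∈ RN M Y, hh p.1 ^ 2 / ((p.1 : ℝ) * p.2) * Qn Y p.1 p.2 * (1 + dl p.1) ≤
      (Real.log Y ^ 2) * ((hh p.1 ^ 2 / p.1 * (1 + Ea p.1 + dl p.1)) * (1 / (p.2 : ℝ))) := by
    intro p hp
    obtain ⟨m1, m2, _, _, _, _, _, _, _, _, c1, c2⟩ := mem_rn hY hp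
    have a0 : (0:ℝ) < p.1 := by exact_mod_cast m1
    have b0 : (0:ℝ) < p.2 := by exact_mod_cast m2
    have d0 := Pool.Agent.P07318m.dl_nonneg p.1
    have e0 := Pool.Agent.P07318m.S2UpAux.Ea_nonneg p.1
    have e1 : hh p.1 ^ 2 / ((p.1 : ℝ) * p.2) * Qn Y p.1 p.2 * (1 + dl p.1) =
        Qn Y p.1 p.2 * ((hh p.1 ^ 2 / p.1 * (1 + dl p.1)) * (1 / (p.2 : ℝ))) := by
      field_simp
    rw [e1]
    apply mul_le_mul c2 _ (by positivity) (by positivity)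
    gcongr
    linarith
  refine (Finset.sum_le_sum h1).trans ?_
  refine (rn_sum_le hY (fun a b => (Real.log Y ^ 2) * ((hh a ^ 2 / a * (1 + Ea a + dl a)) * (1 / (b : ℝ))))
    (fun a b => by
      have d0 := Pool.Agent.P07318m.dl_nonneg a
      have e0 := Pool.Agent.P07318m.S2UpAux.Ea_nonneg a
      positivity)).trans ?_
  have h2 : ∀ a ∈ Finset.Icc 1 ⌊Y ^ (3 / 5 : ℝ)⌋₊, ∑ b ∈ Finset.Icc 1 ⌊Y / (a * Real.sqrt a)⌋₊,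
      (Real.log Y ^ 2) * ((hh a ^ 2 / a * (1 + Ea a + dl a)) * (1 / (b : ℝ))) ≤
      (Real.log Y ^ 2) * (1 + Real.log Y) * (hh a ^ 2 / a * (1 + Ea a + dl a)) := by
    intro a ha
    rw [Finset.mem_Icc] at ha
    rw [← Finset.mul_sum, ← Finset.mul_sum]
    have d0 := Pool.Agent.P07318m.dl_nonneg a
    have e0 := Pool.Agent.P07318m.S2UpAux.Ea_nonneg a
    calc (Real.log Y ^ 2) * ((hh a ^ 2 / a * (1 + Ea a + dl a)) *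
          ∑ b ∈ Finset.Icc 1 ⌊Y / (a * Real.sqrt a)⌋₊, (1 / (b : ℝ)))
        ≤ (Real.log Y ^ 2) * ((hh a ^ 2 / a * (1 + Ea a + dl a)) * (1 + Real.log Y)) := by
          apply mul_le_mul_of_nonneg_left _ (by positivity)
          exact mul_le_mul_of_nonneg_left (harmB hY ha.1) (by positivity)
      _ = _ := by ring
  refine (Finset.sum_le_sum h2).trans ?_
  rw [← Finset.mul_sum]
  have h3 := h (Y ^ (3 / 5 : ℝ)) (z_ge hY)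
  have hsl : 0 ≤ Real.log (Y ^ (3 / 5 : ℝ)) := Real.log_nonneg (z_ge hY)
  have h4 : C * (1 + Real.log (Y ^ (3 / 5 : ℝ))) ^ 4 ≤ C * (1 + Real.log Y) ^ 4 := by
    have := log_z hY
    gcongr
  calc (Real.log Y ^ 2) * (1 + Real.log Y) *
        ∑ a ∈ Finset.Icc 1 ⌊Y ^ (3 / 5 : ℝ)⌋₊, hh a ^ 2 / a * (1 + Ea a + dl a)
      ≤ (Real.log Y ^ 2) * (1 + Real.log Y) * (C * (1 + Real.log Y) ^ 4) :=
        mul_le_mul_of_nonneg_left (h3.trans h4) (by positivity)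
    _ ≤ ((1 + Real.log Y) ^ 2) * (1 + Real.log Y) * (C * (1 + Real.log Y) ^ 4) := by
        gcongr
        linarith
    _ = _ := by ring

theorem cn6 (ε : ℝ) (hε : 0 < ε) : ∃ C : ℝ, 0 < C ∧ ∀ (M : ℕ) (Y : ℝ), 1 ≤ Y →
    ∑ p ∈ RN M Y, hh p.1 / p.1 * Qn Y p.1 p.2 * (p.1 : ℝ) ^ (3 / 2 : ℝ) ≤ C * Y ^ (1 + ε) := by
  obtain ⟨C, hC, h⟩ := m_bound (ε / 2) (by positivity)
  refine ⟨C * (1 + 1 / (ε / 2)), by positivity, fun M Y hY => ?_⟩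
  have hY0 : 0 < Y := by linarith
  set K : ℝ := C * Y ^ (ε / 2) with hK
  have hK0 : 0 ≤ K := by positivity
  have h1 : ∀ p ∈ RN M Y, hh p.1 / p.1 * Qn Y p.1 p.2 * (p.1 : ℝ) ^ (3 / 2 : ℝ) ≤
      K * Real.sqrt p.1 := by
    intro p hp
    obtain ⟨m1, m2, _⟩ := mem_rn hY hp
    have a0 : (0:ℝ) < p.1 := by exact_mod_cast m1
    have e2 : (p.1 : ℝ) ^ (3 / 2 : ℝ) = p.1 * Real.sqrt p.1 := by
      have : (3 / 2 : ℝ) = 1 + 1 / 2 := by norm_num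
      rw [this, Real.rpow_add a0, Real.rpow_one, ← Real.sqrt_eq_rpow]
    have e1 : hh p.1 / p.1 * Qn Y p.1 p.2 * (p.1 : ℝ) ^ (3 / 2 : ℝ) =
        (hh p.1 * Qn Y p.1 p.2) * Real.sqrt p.1 := by
      rw [e2]
      field_simp
    rw [e1]
    exact mul_le_mul_of_nonneg_right (h M Y hY p hp) (by positivity)
  refine (Finset.sum_le_sum h1).trans ?_
  refine (rn_sum_le hY (fun a _ => K * Real.sqrt a) (fun a b => by positivity)).trans ?_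
  have h2 : ∀ a ∈ Finset.Icc 1 ⌊Y ^ (3 / 5 : ℝ)⌋₊,
      ∑ b ∈ Finset.Icc 1 ⌊Y / (a * Real.sqrt a)⌋₊, K * Real.sqrt a ≤ K * Y * (1 / (a : ℝ)) := by
    intro a ha
    rw [Finset.mem_Icc] at ha
    have a0 : (0:ℝ) < a := by exact_mod_cast ha.1
    obtain ⟨e1, e2, e3, e4⟩ := sqrt_ge ha.1
    rw [Finset.sum_const, nsmul_eq_mul, Nat.card_Icc, Nat.add_sub_cancel]
    have hfl : ((⌊Y / (a * Real.sqrt a)⌋₊ : ℕ) : ℝ) ≤ Y / (a * Real.sqrt a) := Nat.floor_le (by positivity)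
    calc ((⌊Y / (a * Real.sqrt a)⌋₊ : ℕ) : ℝ) * (K * Real.sqrt a)
        ≤ Y / (a * Real.sqrt a) * (K * Real.sqrt a) := mul_le_mul_of_nonneg_right hfl (by positivity)
      _ = _ := by field_simp
  refine (Finset.sum_le_sum h2).trans ?_
  rw [← Finset.mul_sum]
  have h3 := (harmA hY).trans (logfac (ε / 2) (by positivity) hY)
  have h4 : Y ^ (1 + ε) = Y * Y ^ (ε / 2) * Y ^ (ε / 2) := by
    rw [mul_assoc, ← Real.rpow_add hY0, Real.rpow_add hY0, Real.rpow_one]; congr 2; ring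
  calc K * Y * ∑ a ∈ Finset.Icc 1 ⌊Y ^ (3 / 5 : ℝ)⌋₊, (1 / (a : ℝ))
      ≤ K * Y * ((1 + 1 / (ε / 2)) * Y ^ (ε / 2)) := by gcongr
    _ = _ := by rw [h4, hK]; ring

end Pool.Agent.P07318w
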