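import Pool.Agent.Lib.P07318m.MeanSq

/-!
# P07318w.CrossN: the cross term, for fractions with `(a/b)^2 ≤ P`
-/

set_option autoImplicit false

open MeasureTheory Complex

namespace Pool.Agent.P07318w

open Pool.Agent.P07318m
open Pool.Agent.P4f18dfS (wt XF)

open MeanSqAux in
open Pool.Agent.P4f18dfS.MVAux (wt_integrable wt_integrableC norm_exp_I gauss_int) in
theorem cross_n : ∃ C : ℝ, 0 < C ∧ ∀ (S : Finset (ℕ × ℕ)) (c : ℕ × ℕ → ℝ) (P τ Δ : ℝ), 1 ≤ Δ → 1 ≤ P →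
    4 * Real.pi * P ≤ τ → (∀ p ∈ S, 1 ≤ p.1 ∧ 1 ≤ p.2 ∧ (p.1 : ℝ) ^ 2 ≤ P * (p.2 : ℝ) ^ 2) →
    (Integrable fun t : ℝ => (wt τ Δ t : ℂ) * XF (1 / 2 - t * I) * As S c t ^ 2) ∧
    ‖∫ t : ℝ, (wt τ Δ t : ℂ) * XF (1 / 2 - t * I) * As S c t ^ 2‖ ≤
      C * ((1 + P / Δ) / Δ + Real.exp (-((τ / Δ) ^ 2 / 4))) *
        (∑ p ∈ S, |c p| * ((p.1 : ℝ) / p.2) ^ (1 / 2 : ℝ)) ^ 2 := by
  obtain ⟨C, hC, hwf⟩ := wf_cmp
  refine ⟨C + 4 * Real.pi, by positivity, fun S c P τ Δ hΔ hP hτ hS => ?_⟩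
  have hΔ0 : 0 < Δ := by linarith
  have hpi := Real.pi_pos
  have hτ0 : 0 < τ := lt_of_lt_of_le (by positivity) hτ
  have hiX : ∀ f : ℝ → ℂ, Continuous f → ∀ M : ℝ, (∀ t, ‖f t‖ ≤ M) →
      Integrable (fun t : ℝ => (wt τ Δ t : ℂ) * XF (1 / 2 - t * I) * f t) := by
    intro f hf M hM
    have hM0 : 0 ≤ M := (norm_nonneg _).trans (hM 0)
    refine ((wt_integrableC hΔ0 τ).mul_const (M : ℂ)).mono ?_
      (Filter.Eventually.of_forall fun t => ?_)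
    · exact ((wt_integrableC hΔ0 τ).aestronglyMeasurable.mul
        xf_cont.aestronglyMeasurable).mul hf.aestronglyMeasurable
    · rw [norm_mul, norm_mul, norm_mul, Complex.norm_real M, Real.norm_of_nonneg hM0]
      calc ‖(wt τ Δ t : ℂ)‖ * ‖XF (1 / 2 - t * I)‖ * ‖f t‖ ≤ ‖(wt τ Δ t : ℂ)‖ * 1 * M := by
            have h1 := xf_norm_le t
            have h2 := hM t
            gcongr
        _ = _ := by ring
  refine ⟨hiX (fun t => As S c t ^ 2) ((As_continuous S c).pow 2) ((∑ p ∈ S, |c p|) ^ 2)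
    (fun t => by rw [norm_pow]; exact pow_le_pow_left₀ (norm_nonneg _) (As_norm_le S c t) 2), ?_⟩
  -- the value of one term
  have hterm : ∀ p ∈ S, ∀ p' ∈ S,
      ‖∫ t : ℝ, (wt τ Δ t : ℂ) * XF (1 / 2 - t * I) * cexp (-(I * ((lf p + lf p' : ℝ) : ℂ) * t))‖ ≤
        ((p.1 : ℝ) / p.2) ^ (1 / 2 : ℝ) * ((p'.1 : ℝ) / p'.2) ^ (1 / 2 : ℝ) *
          ((C + 4 * Real.pi) * ((1 + P / Δ) / Δ + Real.exp (-((τ / Δ) ^ 2 / 4)))) := by
    intro p hp p' hp'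
    obtain ⟨h1, h2, h3⟩ := hS p hp
    obtain ⟨h1', h2', h3'⟩ := hS p' hp'
    have g1 : (1 : ℝ) ≤ p.1 := by exact_mod_cast h1
    have g2 : (1 : ℝ) ≤ p.2 := by exact_mod_cast h2
    have g1' : (1 : ℝ) ≤ p'.1 := by exact_mod_cast h1'
    have g2' : (1 : ℝ) ≤ p'.2 := by exact_mod_cast h2'
    set Y : ℝ := ((p.1 : ℝ) / p.2) * ((p'.1 : ℝ) / p'.2) with hY
    have hY0 : 0 < Y := by positivity
    have hYP : Y ≤ P := by
      have h4 : ((p.1 : ℝ) / p.2) ^ 2 ≤ P := by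
        rw [div_pow, div_le_iff₀ (by positivity)]
        exact h3
      have h5 : ((p'.1 : ℝ) / p'.2) ^ 2 ≤ P := by
        rw [div_pow, div_le_iff₀ (by positivity)]
        exact h3'
      nlinarith [sq_nonneg ((p.1 : ℝ) / p.2 - (p'.1 : ℝ) / p'.2)]
    have hlog : lf p + lf p' = Real.log Y := by
      rw [hY, Real.log_mul (by positivity) (by positivity), Real.log_div (by positivity)
        (by positivity), Real.log_div (by positivity) (by positivity)]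
      rfl
    have hint : (∫ t : ℝ, (wt τ Δ t : ℂ) * XF (1 / 2 - t * I) *
        cexp (-(I * ((lf p + lf p' : ℝ) : ℂ) * t))) = (Y ^ (1 / 2 : ℝ) : ℝ) * Wf τ Δ Y := by
      unfold Wf
      rw [← integral_const_mul]
      refine integral_congr_ae (Filter.Eventually.of_forall fun t => ?_)
      simp only
      have h7 : cexp (-(I * ((lf p + lf p' : ℝ) : ℂ) * t)) =
          ((Y ^ (1 / 2 : ℝ) : ℝ) : ℂ) * (Y : ℂ) ^ (-(1 / 2 + (t : ℂ) * I)) := by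
        have hYne : (Y : ℂ) ≠ 0 := by exact_mod_cast hY0.ne'
        rw [Complex.ofReal_cpow hY0.le, ← Complex.cpow_add _ _ hYne, Complex.cpow_def_of_ne_zero hYne,
          ← Complex.ofReal_log hY0.le, hlog]
        congr 1
        push_cast
        ring
      rw [h7]
      ring
    rw [hint, norm_mul, Complex.norm_real, Real.norm_of_nonneg (by positivity), hY,
      Real.mul_rpow (by positivity) (by positivity), ← hY]
    have hW := hwf τ Δ Y hΔ hτ0.le hY0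
    have hG : GG τ Δ Y ≤ Real.exp (-((τ / Δ) ^ 2 / 4)) := by
      unfold GG
      apply Real.exp_le_exp.mpr
      have h8 : τ / 2 ≤ τ - 2 * Real.pi * Y := by nlinarith
      have h9 : (τ / Δ) / 2 ≤ (τ - 2 * Real.pi * Y) / Δ := by
        rw [div_right_comm]
        gcongr
      have h10 : ((τ / Δ) / 2) ^ 2 ≤ ((τ - 2 * Real.pi * Y) / Δ) ^ 2 :=
        pow_le_pow_left₀ (by positivity) h9 2
      have h11 : ((2 * Real.pi * Y - τ) / Δ) ^ 2 = ((τ - 2 * Real.pi * Y) / Δ) ^ 2 := by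
        ring
      rw [h11]
      nlinarith
    have hE : Real.exp (-(τ / Δ) ^ 2) ≤ Real.exp (-((τ / Δ) ^ 2 / 4)) := by
      apply Real.exp_le_exp.mpr
      nlinarith [sq_nonneg (τ / Δ)]
    have hee : ‖ee (-Y)‖ = 1 := by
      unfold ee
      have : (2 * (Real.pi : ℂ) * ((-Y : ℝ) : ℂ) * I) = ((2 * Real.pi * (-Y) : ℝ) : ℂ) * I := by
        push_cast
        ring
      rw [this, Complex.norm_exp_ofReal_mul_I]
    have hmain : ‖2 * (Real.pi : ℂ) * ee (-Y) * (GG τ Δ Y : ℂ)‖ ≤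
        2 * Real.pi * Real.exp (-((τ / Δ) ^ 2 / 4)) := by
      have hGG : 0 ≤ GG τ Δ Y := (Real.exp_pos _).le
      rw [norm_mul, norm_mul, hee, mul_one, Complex.norm_real, Real.norm_of_nonneg hGG]
      have h12 : ‖(2 * (Real.pi : ℂ))‖ = 2 * Real.pi := by
        rw [norm_mul, Complex.norm_real, Real.norm_of_nonneg hpi.le]
        norm_num
      rw [h12]
      gcongr
    have hWn : ‖Wf τ Δ Y‖ ≤ (C + 4 * Real.pi) * ((1 + P / Δ) / Δ + Real.exp (-((τ / Δ) ^ 2 / 4))) := by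
      have h13 : ‖Wf τ Δ Y‖ ≤ ‖Wf τ Δ Y - 2 * Real.pi * ee (-Y) * (GG τ Δ Y : ℂ)‖ +
          ‖2 * (Real.pi : ℂ) * ee (-Y) * (GG τ Δ Y : ℂ)‖ := by
        have := norm_add_le (Wf τ Δ Y - 2 * Real.pi * ee (-Y) * (GG τ Δ Y : ℂ))
          (2 * (Real.pi : ℂ) * ee (-Y) * (GG τ Δ Y : ℂ))
        rwa [sub_add_cancel] at this
      have h14 : C * ((1 + Y / Δ) / Δ) ≤ C * ((1 + P / Δ) / Δ) := by gcongr
      have h15 : 0 ≤ 4 * Real.pi * ((1 + P / Δ) / Δ) := by positivity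
      have h16 : 0 ≤ C * Real.exp (-((τ / Δ) ^ 2 / 4)) := by positivity
      nlinarith
    gcongr
  have hexp : ∀ t : ℝ, (wt τ Δ t : ℂ) * XF (1 / 2 - t * I) * As S c t ^ 2 =
      ∑ p ∈ S, ∑ p' ∈ S, ((c p * c p' : ℝ) : ℂ) * ((wt τ Δ t : ℂ) * XF (1 / 2 - t * I) *
        cexp (-(I * ((lf p + lf p' : ℝ) : ℂ) * t))) := by
    intro t
    rw [sq_expand2, Finset.mul_sum]
    refine Finset.sum_congr rfl fun p _ => ?_
    rw [Finset.mul_sum]
    exact Finset.sum_congr rfl fun p' _ => by ring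
  have hint : ∀ p ∈ S, ∀ p' ∈ S, Integrable (fun t : ℝ => ((c p * c p' : ℝ) : ℂ) *
      ((wt τ Δ t : ℂ) * XF (1 / 2 - t * I) * cexp (-(I * ((lf p + lf p' : ℝ) : ℂ) * t)))) := by
    intro p _ p' _
    refine (hiX (fun t => cexp (-(I * ((lf p + lf p' : ℝ) : ℂ) * t))) (by fun_prop) 1
      (fun t => ?_)).const_mul _
    rw [norm_exp_I]
  simp_rw [hexp]
  rw [integral_finsetSum _ (fun p hp => integrable_finsetSum _ (hint p hp))]
  refine (norm_sum_le _ _).trans ?_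
  have h6 : (C + 4 * Real.pi) * ((1 + P / Δ) / Δ + Real.exp (-((τ / Δ) ^ 2 / 4))) *
      (∑ p ∈ S, |c p| * ((p.1 : ℝ) / p.2) ^ (1 / 2 : ℝ)) ^ 2 =
      ∑ p ∈ S, ∑ p' ∈ S, |c p| * |c p'| * (((p.1 : ℝ) / p.2) ^ (1 / 2 : ℝ) *
        ((p'.1 : ℝ) / p'.2) ^ (1 / 2 : ℝ) *
          ((C + 4 * Real.pi) * ((1 + P / Δ) / Δ + Real.exp (-((τ / Δ) ^ 2 / 4))))) := by
    rw [sq (∑ p ∈ S, |c p| * ((p.1 : ℝ) / p.2) ^ (1 / 2 : ℝ)), Finset.sum_mul_sum, Finset.mul_sum]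
    refine Finset.sum_congr rfl fun p _ => ?_
    rw [Finset.mul_sum]
    exact Finset.sum_congr rfl fun p' _ => by ring
  rw [h6]
  refine Finset.sum_le_sum fun p hp => ?_
  rw [integral_finsetSum _ (hint p hp)]
  refine (norm_sum_le _ _).trans (Finset.sum_le_sum fun p' hp' => ?_)
  rw [integral_const_mul, norm_mul, Complex.norm_real, Real.norm_eq_abs, abs_mul]
  exact mul_le_mul_of_nonneg_left (hterm p hp p' hp') (by positivity)

end Pool.Agent.P07318w
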