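import Pool.Agent.Lib.P07318m.DSum
import Pool.Agent.Lib.P07318m.Mom

/-!
# P07318w.DMom: the moments with the weight `sg`, from both sides

Notation `g(a) = hh(a)^2 φ(a)/a^2`, `L = log x`. `P07318m.d_sum` is the upper bound `∑_{a ≤ x} g(a) sg(a) ≤ (a3/180 + ε) L^6`. Its proof (`DSum.lean`: `c1`, `Cj`, `cj_lim`, `unif`, `g_mul_le`, `main_ineq`) is
the model for the lower bound.

PROOF of `d_low`. `sg(a) = ∑_{p | a} log^2 p`; keep only the `a = p m` with `p ∤ m`: `g(p m) = g(p) g(m)`,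
`g(p) = (2 - 1/p)^2 (1 - 1/p)/p ≥ (4/p)(1 - 2/p)`. So with `G(y) = ∑_{m ≤ y} g(m)`:
`∑_{a ≤ x} g(a) sg(a) ≥ ∑_{p ≤ x} log^2 p (4/p)(1 - 2/p) (G(x/p) - ∑_{m ≤ x/p, p | m} g(m))`, and `∑_{m ≤ x/p, p | m} g(m) ≤ (4/p) G(x)` (`g_mul_le`). The corrections are at most
`∑_p log^2 p (24/p^2) G(x) = O(L^4)`. For the main part `4 ∑_p (log^2 p / p) G(x/p)` use `G(y) ≥ (a3/24 - ε') log^4 y - K` for `y ≥ 1` (`unif`), `∑_p (log^2 p/p) (L - log p)^4` expanded with `Cj 1, ..., Cj 5` and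
`cj_lim` exactly as in the proof of `d_sum`: the limit of `∑/L^6` is `1/2 - 4/3 + 6/4 - 4/5 + 1/6 = 1/30`, `4 (a3/24)/30 = a3/180`.
PROOF of `ds_mom`: `d_sum` and `d_low` give `∑_{a ≤ x} g(a) sg(a) / L^6 → a3/180`; then `MomAux.moments` (the lemma behind `g_mom`) with exponent `6`:
the limit of the `j`-th moment is `6 (a3/180)/(j + 6) = a3/(30 (j+6))`.
-/

set_option autoImplicit false

open Filter Topology

namespace Pool.Agent.P07318w

open Pool.Agent.P07318m (hh sg a3)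

open Pool.Agent.P07318m.DSumAux Pool.Agent.P07318m.MomAux Pool.Agent.P07318m.ESumAux

namespace DMomAux

/-- The weight `log² p / p²` on the primes. -/
noncomputable def c2 (k : ℕ) : ℝ := if k.Prime then Real.log k ^ 2 / (k : ℝ) ^ 2 else 0

lemma c2_nonneg (k : ℕ) : 0 ≤ c2 k := by
  unfold c2
  split_ifs <;> positivity

lemma c2_sum : ∃ B : ℝ, 0 ≤ B ∧ ∀ n, ∑ k ∈ Finset.Icc 1 n, c2 k ≤ B := by
  have hs : Summable fun k : ℕ => 16 * (k : ℝ) ^ (-(3 / 2 : ℝ)) :=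
    (Real.summable_nat_rpow.mpr (by norm_num)).mul_left _
  have h0 : ∀ k : ℕ, 0 ≤ 16 * (k : ℝ) ^ (-(3 / 2 : ℝ)) := fun k => by positivity
  refine ⟨∑' k : ℕ, 16 * (k : ℝ) ^ (-(3 / 2 : ℝ)), tsum_nonneg h0, fun n => ?_⟩
  refine le_trans (Finset.sum_le_sum fun k hk => ?_) (hs.sum_le_tsum (Finset.Icc 1 n)
    fun k _ => h0 k)
  unfold c2
  split_ifs with hp
  · have hk0 : (0 : ℝ) < k := by exact_mod_cast hp.pos
    have h1 : Real.log k ≤ (k : ℝ) ^ (1 / 4 : ℝ) / (1 / 4) :=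
      Real.log_le_rpow_div hk0.le (by norm_num)
    have h2 : 0 ≤ Real.log k := Real.log_natCast_nonneg k
    have h3 : Real.log k ^ 2 ≤ ((k : ℝ) ^ (1 / 4 : ℝ) / (1 / 4)) ^ 2 := pow_le_pow_left₀ h2 h1 2
    have h4 : ((k : ℝ) ^ (1 / 4 : ℝ) / (1 / 4)) ^ 2 = 16 * (k : ℝ) ^ (1 / 2 : ℝ) := by
      rw [div_pow, ← Real.rpow_natCast, ← Real.rpow_mul hk0.le]
      norm_num
      ring
    have h5 : (k : ℝ) ^ (-(3 / 2 : ℝ)) = (k : ℝ) ^ (1 / 2 : ℝ) / (k : ℝ) ^ 2 := by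
      rw [← Real.rpow_natCast (k : ℝ) 2, ← Real.rpow_sub hk0]
      norm_num
    rw [h5, ← mul_div_assoc]
    apply div_le_div_of_nonneg_right _ (by positivity)
    rw [← h4]
    exact h3
  · exact h0 k

lemma g_prime_mul {p m : ℕ} (hp : p.Prime) (hm : m ≠ 0) (hpm : ¬ p ∣ m) :
    4 / (p : ℝ) * (1 - 2 / p) * g m ≤ g (p * m) := by
  have hp0 : (0 : ℝ) < p := by exact_mod_cast hp.pos
  have hm0 : (0 : ℝ) < m := by exact_mod_cast Nat.pos_of_ne_zero hm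
  have hco : p.Coprime m := (Nat.Prime.coprime_iff_not_dvd hp).2 hpm
  have h1 : hh p = 2 - 1 / p := by
    unfold hh
    rw [hp.primeFactors, Finset.prod_singleton, hp.factorization_self]
    push_cast
    ring
  have h2 : hh (p * m) = (2 - 1 / p) * hh m := by
    rw [Pool.Agent.P07318m.GSumAux.hh_mul hco, h1]
  have h3 : ((p * m).totient : ℝ) = (p - 1) * (m.totient : ℝ) := by
    rw [Nat.totient_mul hco, Nat.totient_prime hp]
    push_cast [hp.one_lt.le]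
    ring
  have h4 : g (p * m) = (2 - 1 / (p : ℝ)) ^ 2 * (1 / p - (1 / p) ^ 2) * g m := by
    unfold g
    rw [h2, h3]
    push_cast
    field_simp
  rw [h4]
  apply mul_le_mul_of_nonneg_right _ (g_nonneg m)
  obtain ⟨u, hu⟩ : ∃ u : ℝ, u = 1 / p := ⟨_, rfl⟩
  have hu0 : 0 < u := by rw [hu]; positivity
  have hu1 : u ≤ 1 := by
    rw [hu, div_le_one hp0]
    exact_mod_cast hp.one_lt.le
  have e1 : 4 / (p : ℝ) = 4 * u := by rw [hu]; ring
  have e2 : 2 / (p : ℝ) = 2 * u := by rw [hu]; ring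
  rw [e1, e2, ← hu]
  have : (2 - u) ^ 2 * (u - u ^ 2) - 4 * u * (1 - 2 * u) = u ^ 3 * (5 - u) := by ring
  have h5 : 0 ≤ u ^ 3 * (5 - u) := mul_nonneg (by positivity) (by linarith)
  linarith

/-- the summatory function -/
noncomputable def GG (y : ℝ) : ℝ := ∑ m ∈ Finset.Icc 1 ⌊y⌋₊, g m

lemma GG_nonneg (y : ℝ) : 0 ≤ GG y := Finset.sum_nonneg fun m _ => g_nonneg m

lemma GG_mono {y z : ℝ} (h : y ≤ z) : GG y ≤ GG z := by
  unfold GG
  apply Finset.sum_le_sum_of_subset_of_nonneg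
  · exact Finset.Icc_subset_Icc_right (Nat.floor_le_floor h)
  · exact fun m _ _ => g_nonneg m

lemma prime_low {x : ℝ} (hx : 1 ≤ x) {p : ℕ} (hp : p.Prime) :
    4 / (p : ℝ) * GG (x / p) - 24 / (p : ℝ) ^ 2 * GG x ≤
      ∑ m ∈ (Finset.Icc 1 ⌊x / p⌋₊).filter (fun m => ¬ p ∣ m), g (p * m) := by
  have hp0 : (0 : ℝ) < p := by exact_mod_cast hp.pos
  have hp2 : (2 : ℝ) ≤ p := by exact_mod_cast hp.two_le
  have hxp : x / p ≤ x := by
    rw [div_le_iff₀ hp0]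
    nlinarith
  have h1 : ∑ m ∈ (Finset.Icc 1 ⌊x / p⌋₊).filter (fun m => p ∣ m), g m ≤ 4 / p * GG x := by
    unfold GG
    rw [Finset.mul_sum]
    refine sum_le_of_inj _ _ _ (fun m => 4 / (p : ℝ) * g m) (fun m => m / p) ?_ ?_ ?_ ?_
    · intro m hm
      rw [Finset.mem_filter, Finset.mem_Icc] at hm
      obtain ⟨⟨h1, h2⟩, h3⟩ := hm
      rw [Finset.mem_Icc]
      refine ⟨Nat.div_pos (Nat.le_of_dvd h1 h3) hp.pos, ?_⟩
      exact (Nat.div_le_self m p).trans (h2.trans (Nat.floor_le_floor hxp))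
    · intro m hm m' hm' h
      rw [Finset.mem_coe, Finset.mem_filter] at hm hm'
      rw [← Nat.mul_div_cancel' hm.2, ← Nat.mul_div_cancel' hm'.2]
      simp only at h
      rw [h]
    · intro m _
      have := g_nonneg m
      positivity
    · intro m hm
      rw [Finset.mem_filter, Finset.mem_Icc] at hm
      obtain ⟨⟨h1, h2⟩, h3⟩ := hm
      have h4 : m / p ≠ 0 := (Nat.div_pos (Nat.le_of_dvd h1 h3) hp.pos).ne'
      have h5 := g_mul_le hp h4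
      rwa [Nat.mul_div_cancel' h3] at h5
  have h2 : GG (x / p) - 4 / p * GG x ≤
      ∑ m ∈ (Finset.Icc 1 ⌊x / p⌋₊).filter (fun m => ¬ p ∣ m), g m := by
    have h3 := Finset.sum_filter_add_sum_filter_not (Finset.Icc 1 ⌊x / p⌋₊)
      (fun m => p ∣ m) g
    change _ = GG (x / p) at h3
    linarith
  have hc : 0 ≤ 4 / (p : ℝ) * (1 - 2 / p) := by
    have : 2 / (p : ℝ) ≤ 1 := by
      rw [div_le_one hp0]
      exact hp2
    exact mul_nonneg (by positivity) (by linarith)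
  have h3 : 4 / (p : ℝ) * (1 - 2 / p) * (GG (x / p) - 4 / p * GG x) ≤
      ∑ m ∈ (Finset.Icc 1 ⌊x / p⌋₊).filter (fun m => ¬ p ∣ m), g (p * m) := by
    refine (mul_le_mul_of_nonneg_left h2 hc).trans ?_
    rw [Finset.mul_sum]
    refine Finset.sum_le_sum fun m hm => ?_
    rw [Finset.mem_filter, Finset.mem_Icc] at hm
    exact g_prime_mul hp (by omega) hm.2
  refine le_trans ?_ h3
  have h4 := GG_mono hxp
  have h5 := GG_nonneg x
  have h6 := GG_nonneg (x / p)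
  obtain ⟨u, hu⟩ : ∃ u : ℝ, u = 1 / p := ⟨_, rfl⟩
  have hu0 : 0 < u := by rw [hu]; positivity
  have e1 : 4 / (p : ℝ) = 4 * u := by rw [hu]; ring
  have e2 : 2 / (p : ℝ) = 2 * u := by rw [hu]; ring
  have e3 : 24 / (p : ℝ) ^ 2 = 24 * u ^ 2 := by rw [hu]; ring
  rw [e1, e2, e3]
  have e4 : 4 * u * (1 - 2 * u) * (GG (x / p) - 4 * u * GG x) -
      (4 * u * GG (x / p) - 24 * u ^ 2 * GG x) =
      8 * u ^ 2 * (GG x - GG (x / p)) + 32 * u ^ 3 * GG x := by ring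
  have h7 : 0 ≤ 8 * u ^ 2 * (GG x - GG (x / p)) := mul_nonneg (by positivity) (by linarith)
  have h8 : 0 ≤ 32 * u ^ 3 * GG x := by positivity
  linarith

/-- The main inequality. -/
lemma low_ineq {x : ℝ} (hx : 1 ≤ x) :
    ∑ k ∈ Finset.Icc 1 ⌊x⌋₊, (4 * (c1 k * Real.log k) * GG (x / k) - 24 * c2 k * GG x) ≤
      ∑ a ∈ Finset.Icc 1 ⌊x⌋₊, g a * sg a := by
  have h1 : ∀ k ∈ Finset.Icc 1 ⌊x⌋₊,
      4 * (c1 k * Real.log k) * GG (x / k) - 24 * c2 k * GG x ≤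
      ∑ m ∈ if k.Prime then (Finset.Icc 1 ⌊x / k⌋₊).filter (fun m => ¬ k ∣ m) else ∅,
        g (k * m) * Real.log k ^ 2 := by
    intro k hk
    by_cases hp : k.Prime
    · rw [if_pos hp, ← Finset.sum_mul]
      have h2 := mul_le_mul_of_nonneg_right (prime_low hx hp) (sq_nonneg (Real.log k))
      refine le_trans (le_of_eq ?_) h2
      unfold c1 c2
      rw [if_pos hp, if_pos hp]
      ring
    · rw [if_neg hp, Finset.sum_empty]
      unfold c1 c2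
      rw [if_neg hp, if_neg hp]
      simp
  refine (Finset.sum_le_sum h1).trans ?_
  have e1 : ∀ a : ℕ, g a * sg a = ∑ p ∈ a.primeFactors, g a * Real.log p ^ 2 := by
    intro a
    unfold sg
    rw [Finset.mul_sum]
  rw [Finset.sum_congr rfl (fun a _ => e1 a), Finset.sum_sigma', Finset.sum_sigma']
  refine sum_le_of_inj _ _ _ (fun q : (_ : ℕ) × ℕ => g q.1 * Real.log q.2 ^ 2)
    (fun s : (_ : ℕ) × ℕ => (⟨s.1 * s.2, s.1⟩ : (_ : ℕ) × ℕ)) ?_ ?_ ?_ ?_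
  · rintro ⟨k, m⟩ hs
    rw [Finset.mem_sigma, Finset.mem_Icc] at hs
    obtain ⟨⟨h1, h2⟩, h3⟩ := hs
    simp only at h1 h2 h3
    split_ifs at h3 with hp
    · rw [Finset.mem_filter, Finset.mem_Icc] at h3
      obtain ⟨⟨h4, h5⟩, h6⟩ := h3
      have hk0 : (0 : ℝ) < k := by exact_mod_cast hp.pos
      have hm : (m : ℝ) ≤ x / k := by
        refine (Nat.cast_le.mpr h5).trans (Nat.floor_le ?_)
        positivity
      rw [Finset.mem_sigma, Finset.mem_Icc]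
      refine ⟨⟨Nat.mul_pos hp.pos h4, ?_⟩, ?_⟩
      · apply Nat.le_floor
        push_cast
        rw [le_div_iff₀ hk0] at hm
        linarith
      · rw [Nat.mem_primeFactors]
        exact ⟨hp, Dvd.intro m rfl, (Nat.mul_pos hp.pos h4).ne'⟩
    · exact absurd h3 (Finset.notMem_empty _)
  · rintro ⟨k, m⟩ hs ⟨k', m'⟩ hs' heq
    rw [Finset.mem_coe, Finset.mem_sigma, Finset.mem_Icc] at hs
    simp only [Sigma.mk.injEq, heq_eq_eq] at heq
    obtain ⟨h1, rfl⟩ := heq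
    have hk : 0 < k := hs.1.1
    have := Nat.eq_of_mul_eq_mul_left hk h1
    rw [this]
  · rintro ⟨a, p⟩ _
    exact mul_nonneg (g_nonneg a) (sq_nonneg _)
  · rintro ⟨k, m⟩ _
    exact le_rfl

end DMomAux

open DMomAux

theorem d_low (ε : ℝ) (hε : 0 < ε) : ∀ᶠ x : ℝ in atTop, (a3 / 180 - ε) * Real.log x ^ 6 ≤
    ∑ a ∈ Finset.Icc 1 ⌊x⌋₊, hh a ^ 2 * (a.totient : ℝ) / (a : ℝ) ^ 2 * sg a := by
  obtain ⟨K, hK0, hK⟩ := unif 4 g (a3 / 24) Pool.Agent.P07318m.g_sum hε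
  obtain ⟨B, hB0, hB⟩ := c2_sum
  -- the limit of the minorant
  have hlog4 : Tendsto (fun x : ℝ => 1 / Real.log x ^ 4) atTop (𝓝 0) := by
    have h := ((tendsto_pow_atTop (α := ℝ) (n := 4) (by norm_num)).comp
      Real.tendsto_log_atTop).const_div_atTop 1
    exact h
  have hlog2 : Tendsto (fun x : ℝ => 1 / Real.log x ^ 2) atTop (𝓝 0) := by
    have h := ((tendsto_pow_atTop (α := ℝ) (n := 2) (by norm_num)).comp
      Real.tendsto_log_atTop).const_div_atTop 1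
    exact h
  have hT := (((((cj_lim 1).const_mul 1).sub ((cj_lim 2).const_mul 4)).add
    ((cj_lim 3).const_mul 6)).sub ((cj_lim 4).const_mul 4)).add ((cj_lim 5).const_mul 1)
  have hS := (cj_lim 1).mul hlog4
  have hG : Tendsto (fun x : ℝ => GG x / Real.log x ^ 4 * (1 / Real.log x ^ 2)) atTop
      (𝓝 (a3 / 24 * 0)) := Pool.Agent.P07318m.g_sum.mul hlog2
  have hall := ((hT.const_mul (4 * (a3 / 24 - ε))).sub (hS.const_mul (4 * K))).sub
    (hG.const_mul (24 * B))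
  have hlt : a3 / 180 - ε < 4 * (a3 / 24 - ε) * (1 * (1 / (((1 : ℕ) : ℝ) + 1)) -
      4 * (1 / (((2 : ℕ) : ℝ) + 1)) +
      6 * (1 / (((3 : ℕ) : ℝ) + 1)) - 4 * (1 / (((4 : ℕ) : ℝ) + 1)) +
      1 * (1 / (((5 : ℕ) : ℝ) + 1))) - 4 * K * (1 / (((1 : ℕ) : ℝ) + 1) * 0) -
      24 * B * (a3 / 24 * 0) := by
    push_cast
    norm_num
    linarith
  filter_upwards [hall.eventually (eventually_gt_nhds hlt), eventually_gt_atTop (1 : ℝ)]
    with x hx hx1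
  have hL : 0 < Real.log x := Real.log_pos hx1
  have hL6 : 0 < Real.log x ^ 6 := pow_pos hL 6
  have h1 := low_ineq hx1.le
  have h2 : ∑ k ∈ Finset.Icc 1 ⌊x⌋₊, (4 * (c1 k * Real.log k) *
      ((a3 / 24 - ε) * (Real.log x - Real.log k) ^ 4 - K) - 24 * c2 k * GG x) ≤
      ∑ k ∈ Finset.Icc 1 ⌊x⌋₊, (4 * (c1 k * Real.log k) * GG (x / k) - 24 * c2 k * GG x) := by
    refine Finset.sum_le_sum fun k hk => ?_
    obtain ⟨hk1, hk2⟩ := Finset.mem_Icc.mp hk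
    have hk1' : (1 : ℝ) ≤ k := by exact_mod_cast hk1
    have hk2' : (k : ℝ) ≤ x := (Nat.cast_le.mpr hk2).trans (Nat.floor_le (by linarith))
    have hq : 1 ≤ x / k := by
      rw [le_div_iff₀ (by linarith)]
      linarith
    have h3 := (abs_le.mp (hK (x / k) hq)).1
    rw [Real.log_div (by linarith) (by linarith)] at h3
    change -(K + ε * (Real.log x - Real.log k) ^ 4) ≤
      GG (x / k) - a3 / 24 * (Real.log x - Real.log k) ^ 4 at h3
    apply sub_le_sub_right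
    apply mul_le_mul_of_nonneg_left _
      (mul_nonneg (by norm_num) (mul_nonneg (c1_nonneg k) (Real.log_natCast_nonneg k)))
    linarith
  have h3 : ∑ k ∈ Finset.Icc 1 ⌊x⌋₊, (4 * (c1 k * Real.log k) *
        ((a3 / 24 - ε) * (Real.log x - Real.log k) ^ 4 - K) - 24 * c2 k * GG x) =
      4 * (a3 / 24 - ε) * (Real.log x ^ 4 * Cj 1 x - 4 * Real.log x ^ 3 * Cj 2 x +
        6 * Real.log x ^ 2 * Cj 3 x - 4 * Real.log x * Cj 4 x + Cj 5 x) - 4 * K * Cj 1 x -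
        24 * (∑ k ∈ Finset.Icc 1 ⌊x⌋₊, c2 k) * GG x := by
    unfold Cj
    simp only [Finset.mul_sum, Finset.sum_mul, ← Finset.sum_add_distrib,
      ← Finset.sum_sub_distrib]
    refine Finset.sum_congr rfl fun k _ => ?_
    ring
  have h4 : 4 * (a3 / 24 - ε) * (Real.log x ^ 4 * Cj 1 x - 4 * Real.log x ^ 3 * Cj 2 x +
        6 * Real.log x ^ 2 * Cj 3 x - 4 * Real.log x * Cj 4 x + Cj 5 x) - 4 * K * Cj 1 x -
        24 * B * GG x =
      (4 * (a3 / 24 - ε) * (1 * (Cj 1 x / Real.log x ^ (1 + 1)) -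
        4 * (Cj 2 x / Real.log x ^ (2 + 1)) + 6 * (Cj 3 x / Real.log x ^ (3 + 1)) -
        4 * (Cj 4 x / Real.log x ^ (4 + 1)) + 1 * (Cj 5 x / Real.log x ^ (5 + 1))) -
        4 * K * (Cj 1 x / Real.log x ^ (1 + 1) * (1 / Real.log x ^ 4)) -
        24 * B * (GG x / Real.log x ^ 4 * (1 / Real.log x ^ 2))) * Real.log x ^ 6 := by
    simp only [Nat.reduceAdd]
    field_simp
  have h5 : (∑ k ∈ Finset.Icc 1 ⌊x⌋₊, c2 k) * GG x ≤ B * GG x :=
    mul_le_mul_of_nonneg_right (hB _) (GG_nonneg x)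
  have h6 := mul_le_mul_of_nonneg_right (le_of_lt hx) hL6.le
  rw [← h4] at h6
  rw [h3] at h2
  change _ ≤ ∑ a ∈ Finset.Icc 1 ⌊x⌋₊, g a * sg a
  linarith

theorem ds_mom (j : ℕ) : Tendsto (fun x : ℝ =>
    (∑ a ∈ Finset.Icc 1 ⌊x⌋₊, hh a ^ 2 * (a.totient : ℝ) / (a : ℝ) ^ 2 * sg a * Real.log a ^ j) / Real.log x ^ (j + 6))
    atTop (𝓝 (a3 / (30 * (j + 6)))) := by
  have h0 : Tendsto (fun x : ℝ => (∑ a ∈ Finset.Icc 1 ⌊x⌋₊, g a * sg a) / Real.log x ^ 6)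
      atTop (𝓝 (a3 / 180)) := by
    rw [Metric.tendsto_nhds]
    intro ε hε
    filter_upwards [d_low (ε / 2) (half_pos hε), Pool.Agent.P07318m.d_sum (ε / 2) (half_pos hε),
      eventually_gt_atTop (1 : ℝ)] with x h1 h2 hx1
    have hL6 : 0 < Real.log x ^ 6 := pow_pos (Real.log_pos hx1) 6
    change _ ≤ ∑ a ∈ Finset.Icc 1 ⌊x⌋₊, g a * sg a at h1
    change ∑ a ∈ Finset.Icc 1 ⌊x⌋₊, g a * sg a ≤ _ at h2
    rw [← le_div_iff₀ hL6] at h1
    rw [← div_le_iff₀ hL6] at h2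
    rw [Real.dist_eq, abs_lt]
    constructor <;> linarith
  have h := moments 6 (by norm_num) (fun a : ℕ => g a * sg a) (by simp [g]) _ h0 j
  have e : ((6 : ℕ) : ℝ) * (a3 / 180) / ((j : ℝ) + (6 : ℕ)) = a3 / (30 * (j + 6)) := by
    push_cast
    field_simp
    ring
  rw [e] at h
  exact h

end Pool.Agent.P07318w
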