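import Mathlib
import Pool.Agent.Lib.P07318m.Defs

/-!
# The sixth moment of zeta, second stage: definitions

The test function is now supported on two sets of reduced fractions `a/b`: `a^2 ≤ Y`, `a b ≤ Y` (as before, with new
weights `Pw`) and `Y < a^2`, `a^2 ≤ b^2 Y`, `a^3 b^2 ≤ Y^2` (weights `Qn`), where Weil's bound for Kloosterman sums
is used.
-/

set_option autoImplicit false

open MeasureTheory Complex

namespace Pool.Agent.P07318w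

open Pool.Agent.P07318m (d3 rho hh sg GG lp PS)

/-! ### Moduli -/

/-- `a = s r` with `s ≤ M`, `r` squarefree, coprime to `s`. -/
def Sfl (M a : ℕ) : Prop := ∃ s : ℕ, s ≤ M ∧ s ∣ a ∧ s.Coprime (a / s) ∧ Squarefree (a / s)

/-! ### Exponential sums -/

/-- The ternary sum `∑_{r,s,t mod a} e((- b r s t + k r + l s + m t) / a)`. -/
noncomputable def TT (a : ℕ) [NeZero a] (b k l m : ZMod a) : ℂ :=
  ∑ r : ZMod a, ∑ s : ZMod a, ∑ t : ZMod a, ZMod.stdAddChar (-(b * r * s * t) + k * r + l * s + m * t)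

/-- The Kloosterman sum `∑_x e((u x + v x⁻¹) / p)`. -/
noncomputable def Kloo (p : ℕ) [Fact p.Prime] (u v : ZMod p) : ℂ :=
  ∑ x : (ZMod p)ˣ, ZMod.stdAddChar (u * (x : ZMod p) + v * ((x⁻¹ : (ZMod p)ˣ) : ZMod p))

/-! ### The analytic part -/

/-- The deviation of `e(-b n / a)` from its average over the residues `b` prime to `a`. -/
noncomputable def ff (a : ℕ) [NeZero a] (b n : ZMod a) : ℂ :=
  ZMod.stdAddChar (-(b * n)) - (1 / (a.totient : ℂ)) * ∑ u : (ZMod a)ˣ, ZMod.stdAddChar (-((u : ZMod a) * n))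

/-- The indicator of the class `r` minus its mean value. -/
noncomputable def dlt (a : ℕ) [NeZero a] (r : ZMod a) : ZMod a → ℂ := fun n => (if n = r then 1 else 0) - 1 / (a : ℂ)

/-- The L-function of `dlt a r`. -/
noncomputable def RR (a : ℕ) [NeZero a] (r : ZMod a) (z : ℂ) : ℂ := ZMod.LFunction (dlt a r) z

/-- The continuation of `∑ d3(n) (e(-n b / a) - rho a n) n^{-z}`. -/
noncomputable def Hf (a : ℕ) [NeZero a] (b : ZMod a) (z : ℂ) : ℂ :=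
  ∑ r : ZMod a, ∑ s : ZMod a, ∑ t : ZMod a, ff a b (r * s * t) * RR a r z * RR a s z * RR a t z

/-- The bump, corrected so that it vanishes at `0`. -/
noncomputable def Gt (τ Δ y : ℝ) : ℝ := GG τ Δ y - GG τ Δ 0 * Real.exp (-y)

/-- Its Mellin transform. -/
noncomputable def Gth (τ Δ : ℝ) (z : ℂ) : ℂ := mellin (fun y : ℝ => (Gt τ Δ y : ℂ)) z

/-! ### Weights and coefficients -/

/-- The weight on the first region. -/
noncomputable def Pw (Y D : ℝ) (a b : ℕ) : ℝ :=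
  93 / 200 * (lp (Y / (a * b))) ^ 2 +
    119 / 200 * Real.log a * ((lp (Y / (a * b))) ^ 2 - (lp (Y * Real.exp (-D) / (a * b))) ^ 2) / (2 * D)

/-- The weight on the second region. -/
noncomputable def Qn (Y : ℝ) (a b : ℕ) : ℝ :=
  ((Real.log (Y / b) - Real.log a / 2) ^ 2 - 3 / 20 * Real.log a ^ 2) / 2

open Classical in
/-- The second region. -/
noncomputable def RN (M : ℕ) (Y : ℝ) : Finset (ℕ × ℕ) :=
  ((Finset.Icc 1 ⌊Y⌋₊) ×ˢ (Finset.Icc 1 ⌊Y⌋₊)).filter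
    (fun p => p.1.Coprime p.2 ∧ Y < (p.1 : ℝ) ^ 2 ∧ (p.1 : ℝ) ^ 2 ≤ (p.2 : ℝ) ^ 2 * Y ∧
      (p.1 : ℝ) ^ 3 * (p.2 : ℝ) ^ 2 ≤ Y ^ 2 ∧ Sfl M p.1)

/-- The coefficients on the first region. -/
noncomputable def cw (Y D : ℝ) (p : ℕ × ℕ) : ℝ :=
  hh p.1 * Pw Y D p.1 p.2 / Real.sqrt ((p.1 : ℝ) * (p.2 : ℝ))

/-- The coefficients on the second region. -/
noncomputable def cn (Y : ℝ) (p : ℕ × ℕ) : ℝ :=
  hh p.1 * Qn Y p.1 p.2 / Real.sqrt ((p.1 : ℝ) * (p.2 : ℝ))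

/-- The main functional `(log (Y/b) - log a / 2)^2 / 2 - 3/8 σ(a)`. -/
noncomputable def KY (Y : ℝ) (a b : ℕ) : ℝ :=
  ((Real.log (Y / b) - Real.log a / 2) ^ 2 - 3 / 4 * sg a) / 2

/-- The four diagonal sums. -/
noncomputable def Sw1 (Y D : ℝ) : ℝ :=
  ∑ p ∈ PS Y, hh p.1 ^ 2 / ((p.1 : ℝ) * (p.2 : ℝ)) * Pw Y D p.1 p.2 * KY Y p.1 p.2

noncomputable def Sw2 (Y D : ℝ) : ℝ :=
  ∑ p ∈ PS Y, hh p.1 ^ 2 / ((p.1 : ℝ) * (p.2 : ℝ)) * Pw Y D p.1 p.2 ^ 2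

noncomputable def Sn1 (M : ℕ) (Y : ℝ) : ℝ :=
  ∑ p ∈ RN M Y, hh p.1 ^ 2 / ((p.1 : ℝ) * (p.2 : ℝ)) * Qn Y p.1 p.2 * KY Y p.1 p.2

noncomputable def Sn2 (M : ℕ) (Y : ℝ) : ℝ :=
  ∑ p ∈ RN M Y, hh p.1 ^ 2 / ((p.1 : ℝ) * (p.2 : ℝ)) * Qn Y p.1 p.2 ^ 2

end Pool.Agent.P07318w
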