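import Pool.Agent.Lib.P07318m.NumLow
import Pool.Agent.Lib.P07318w.Defs

/-!
# P07318w.GenNum: lower bound for the numerator, for a general finite set of fractions and general weights
-/

set_option autoImplicit false

open MeasureTheory Complex

namespace Pool.Agent.P07318w

open Pool.Agent.P07318m
open Pool.Agent.P4f18dfS (wt XF)

/-- The coefficient with weight `P`. -/
noncomputable def cP (P : ℕ → ℕ → ℝ) (p : ℕ × ℕ) : ℝ := hh p.1 * P p.1 p.2 / Real.sqrt ((p.1 : ℝ) * (p.2 : ℝ))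

/-- The contribution of the principal part. -/
theorem gen_pr (ε η : ℝ) (hε : 0 < ε) (hη : 0 < η) : ∃ C : ℝ, 0 < C ∧ ∀ (τ Δ Y : ℝ) (S : Finset (ℕ × ℕ))
    (P : ℕ → ℕ → ℝ), 1 ≤ Δ → 1 ≤ τ → τ ^ η ≤ τ / Δ → 1 ≤ Y → Y ≤ τ →
    (∀ p ∈ S, 1 ≤ p.1 ∧ 1 ≤ p.2 ∧ (p.1 : ℝ) * p.2 ≤ Y ∧ 0 ≤ P p.1 p.2 ∧
      0 ≤ Real.log (Y / p.2) - Real.log p.1 / 2) →
    Δ * Real.sqrt Real.pi * (∑ p ∈ S, hh p.1 ^ 2 / ((p.1 : ℝ) * (p.2 : ℝ)) * P p.1 p.2 * KY Y p.1 p.2) -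
      C * (Δ * (1 + Real.log τ)) * (∑ p ∈ S, hh p.1 ^ 2 / ((p.1 : ℝ) * p.2) * P p.1 p.2 * (1 + dl p.1)) -
      C * ((τ / Δ) ^ 20 * τ ^ (1 / 2 + ε)) * (∑ p ∈ S, hh p.1 / p.1 * P p.1 p.2 * (p.2 : ℝ) ^ (-(1 / 2) : ℝ)) ≤
      2 * Real.pi * ∑ p ∈ S, (hh p.1 / p.1 * P p.1 p.2) * Spr τ Δ p.1 p.2 := by
  obtain ⟨C, hC, h⟩ := pr_main ε η hε hη
  refine ⟨2 * Real.pi * C, by positivity, fun τ Δ Y S P h1 h2 hη2 hY hYτ hS => ?_⟩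
  have hτ : 0 < τ := by linarith
  have hΔ : 0 < Δ := by linarith
  have hY0 : 0 < Y := by linarith
  have hlog : 0 ≤ Real.log τ := Real.log_nonneg h2
  have hpi := Real.pi_pos
  have hterm : ∀ p ∈ S, Δ * Real.sqrt Real.pi * (hh p.1 ^ 2 / ((p.1 : ℝ) * (p.2 : ℝ)) * P p.1 p.2 * KY Y p.1 p.2) -
      2 * Real.pi * C * (Δ * (1 + Real.log τ) * (hh p.1 ^ 2 / ((p.1 : ℝ) * p.2) * P p.1 p.2 * (1 + dl p.1)) +
        (τ / Δ) ^ 20 * τ ^ (1 / 2 + ε) * (hh p.1 / p.1 * P p.1 p.2 * (p.2 : ℝ) ^ (-(1 / 2) : ℝ))) ≤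
      2 * Real.pi * ((hh p.1 / p.1 * P p.1 p.2) * Spr τ Δ p.1 p.2) := by
    intro p hp
    obtain ⟨m1, m2, m5, hph, hbr0⟩ := hS p hp
    have hb := (h τ Δ p.1 p.2 h1 h2 hη2 m1 m2 (by linarith)).2
    have hhp : 0 ≤ hh p.1 := by linarith [one_le_hh p.1]
    have a1 : (1:ℝ) ≤ p.1 := by exact_mod_cast m1
    have b1 : (1:ℝ) ≤ p.2 := by exact_mod_cast m2
    have a0 : (0:ℝ) < p.1 := by linarith
    have b0 : (0:ℝ) < p.2 := by linarith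
    have hS' := (abs_le.1 hb).1
    -- comparison of the brackets
    have hlb : Real.log (Y / p.2) ≤ Real.log (τ / p.2) := Real.log_le_log (by positivity) (by gcongr)
    have hbr : (Real.log (Y / p.2) - Real.log p.1 / 2) ^ 2 ≤ (Real.log (τ / p.2) - Real.log p.1 / 2) ^ 2 := by
      apply pow_le_pow_left₀ hbr0
      linarith
    set A : ℝ := hh p.1 / p.1 * P p.1 p.2 with hA
    have hA0 : 0 ≤ A := by positivity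
    have e1 : 2 * Real.pi * (A * (Δ * Real.sqrt Real.pi / (2 * Real.pi * p.2) * hh p.1 *
          (((Real.log (Y / p.2) - Real.log p.1 / 2) ^ 2 - 3 / 4 * sg p.1) / 2))) =
        Δ * Real.sqrt Real.pi * (hh p.1 ^ 2 / ((p.1 : ℝ) * (p.2 : ℝ)) * P p.1 p.2 * KY Y p.1 p.2) := by
      unfold KY
      rw [hA]
      field_simp
    have e2 : A * (Δ * Real.sqrt Real.pi / (2 * Real.pi * p.2) * hh p.1 *
          (((Real.log (Y / p.2) - Real.log p.1 / 2) ^ 2 - 3 / 4 * sg p.1) / 2)) ≤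
        A * (Δ * Real.sqrt Real.pi / (2 * Real.pi * p.2) * hh p.1 *
          (((Real.log (τ / p.2) - Real.log p.1 / 2) ^ 2 - 3 / 4 * sg p.1) / 2)) := by
      apply mul_le_mul_of_nonneg_left _ hA0
      apply mul_le_mul_of_nonneg_left _ (by positivity)
      linarith
    have e3 := mul_le_mul_of_nonneg_left hS' hA0
    have e4 : A * (C * (Δ / p.2) * hh p.1 * (1 + Real.log τ) * (1 + dl p.1) +
        C * (τ / Δ) ^ 20 * τ ^ (1 / 2 + ε) * (p.2 : ℝ) ^ (-(1 / 2) : ℝ)) =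
        C * (Δ * (1 + Real.log τ) * (hh p.1 ^ 2 / ((p.1 : ℝ) * p.2) * P p.1 p.2 * (1 + dl p.1)) +
        (τ / Δ) ^ 20 * τ ^ (1 / 2 + ε) * (A * (p.2 : ℝ) ^ (-(1 / 2) : ℝ))) := by
      rw [hA]
      field_simp
    rw [← e1]
    have e5 : Spr τ Δ p.1 p.2 = ∑' n : ℕ, (d3 n : ℝ) * rho p.1 n * GG τ Δ (n * p.2 / p.1) := rfl
    rw [← e5] at e3
    have e6 : A * (Δ * Real.sqrt Real.pi / (2 * Real.pi * p.2) * hh p.1 *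
          (((Real.log (Y / p.2) - Real.log p.1 / 2) ^ 2 - 3 / 4 * sg p.1) / 2)) -
        C * (Δ * (1 + Real.log τ) * (hh p.1 ^ 2 / ((p.1 : ℝ) * p.2) * P p.1 p.2 * (1 + dl p.1)) +
        (τ / Δ) ^ 20 * τ ^ (1 / 2 + ε) * (A * (p.2 : ℝ) ^ (-(1 / 2) : ℝ))) ≤ A * Spr τ Δ p.1 p.2 := by
      rw [← e4]
      nlinarith [e2, e3]
    have e7 := mul_le_mul_of_nonneg_left e6 (by positivity : (0:ℝ) ≤ 2 * Real.pi)
    linarith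
  have hsum := Finset.sum_le_sum hterm
  rw [Finset.sum_sub_distrib, ← Finset.mul_sum, ← Finset.mul_sum, ← Finset.mul_sum, Finset.sum_add_distrib,
    ← Finset.mul_sum, ← Finset.mul_sum] at hsum
  refine le_trans (le_of_eq ?_) hsum
  ring

/-- Lower bound for the numerator. -/
theorem gen_num (ε η : ℝ) (hε : 0 < ε) (hη : 0 < η) : ∃ C : ℝ, 0 < C ∧ ∀ (τ Δ Y : ℝ) (S : Finset (ℕ × ℕ))
    (P : ℕ → ℕ → ℝ), 1 ≤ Δ → 1 ≤ τ → τ ^ η ≤ τ / Δ → 1 ≤ Y → Y ≤ τ →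
    (∀ p ∈ S, 1 ≤ p.1 ∧ 1 ≤ p.2 ∧ (p.1 : ℝ) * p.2 ≤ Y ∧ 0 ≤ P p.1 p.2 ∧
      0 ≤ Real.log (Y / p.2) - Real.log p.1 / 2) →
    Δ * Real.sqrt Real.pi * (∑ p ∈ S, hh p.1 ^ 2 / ((p.1 : ℝ) * (p.2 : ℝ)) * P p.1 p.2 * KY Y p.1 p.2) -
      C * (Δ * (1 + Real.log τ)) * (∑ p ∈ S, hh p.1 ^ 2 / ((p.1 : ℝ) * p.2) * P p.1 p.2 * (1 + dl p.1)) -
      C * ((τ / Δ) ^ 20 * τ ^ (1 / 2 + ε)) * (∑ p ∈ S, hh p.1 / p.1 * P p.1 p.2 * (p.2 : ℝ) ^ (-(1 / 2) : ℝ)) -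
      C * ((τ / Δ) ^ 20 * τ ^ ε) * (∑ p ∈ S, |cP P p| * (p.1 : ℝ) ^ (1 / 2 : ℝ)) -
      2 * Real.pi * ‖∑ p ∈ S, ((hh p.1 / p.1 * P p.1 p.2 : ℝ) : ℂ) * Ser τ Δ p.1 p.2‖ ≤
      (∑ p ∈ S, (cP P p : ℂ) * Jt τ Δ p.1 p.2).re := by
  obtain ⟨C1, hC1, h1⟩ := japprox ε η hε hη
  obtain ⟨C3, hC3, h3⟩ := gen_pr ε η hε hη
  refine ⟨max C1 C3, lt_max_of_lt_left hC1, fun τ Δ Y S P k1 k2 k3 hY hYτ hS => ?_⟩
  have hτ : 0 < τ := by linarith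
  have hΔ : 0 < Δ := by linarith
  have hY0 : 0 < Y := by linarith
  have hpi := Real.pi_pos
  have hlog : 0 ≤ Real.log τ := Real.log_nonneg k2
  -- decomposition
  have hdec : ∑ p ∈ S, (cP P p : ℂ) * Jt τ Δ p.1 p.2 =
      (∑ p ∈ S, (cP P p : ℂ) * (Jt τ Δ p.1 p.2 - 2 * Real.pi * ((((p.2 : ℝ) / p.1) ^ (1 / 2 : ℝ) : ℝ) : ℂ) *
        ∑' n : ℕ, ((d3 n : ℕ) : ℂ) * ee (-(n * p.2 / p.1)) * (GG τ Δ (n * p.2 / p.1) : ℂ))) +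
      2 * Real.pi * (∑ p ∈ S, ((hh p.1 / p.1 * P p.1 p.2 : ℝ) : ℂ) * Ser τ Δ p.1 p.2) +
      ((2 * Real.pi * ∑ p ∈ S, (hh p.1 / p.1 * P p.1 p.2) * Spr τ Δ p.1 p.2 : ℝ) : ℂ) := by
    push_cast
    rw [Finset.mul_sum, Finset.mul_sum, ← Finset.sum_add_distrib, ← Finset.sum_add_distrib]
    refine Finset.sum_congr rfl fun p hp => ?_
    obtain ⟨m1, m2, m5, -, -⟩ := hS p hp
    have a0 : (0:ℝ) < p.1 := by exact_mod_cast m1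
    have b0 : (0:ℝ) < p.2 := by exact_mod_cast m2
    rw [series_split hΔ m1 m2]
    have hct : (cP P p) * ((p.2 : ℝ) / p.1) ^ (1 / 2 : ℝ) = hh p.1 / p.1 * P p.1 p.2 := by
      unfold cP
      rw [← Real.sqrt_eq_rpow, Real.sqrt_div b0.le, Real.sqrt_mul a0.le]
      have s1 : Real.sqrt p.2 ≠ 0 := (Real.sqrt_pos.2 b0).ne'
      have s2 : Real.sqrt p.1 ≠ 0 := (Real.sqrt_pos.2 a0).ne'
      have s3 : Real.sqrt p.1 * Real.sqrt p.1 = p.1 := Real.mul_self_sqrt a0.le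
      rw [div_mul_div_comm, div_mul_eq_mul_div, div_eq_div_iff (by positivity) a0.ne']
      linear_combination (-(hh p.1 * P p.1 p.2 * Real.sqrt p.2)) * s3
    have hct' : ((cP P p : ℝ) : ℂ) * ((((p.2 : ℝ) / p.1) ^ (1 / 2 : ℝ) : ℝ) : ℂ) =
        ((hh p.1 / p.1 * P p.1 p.2 : ℝ) : ℂ) := by
      rw [← hct]; push_cast; ring
    push_cast at hct'
    linear_combination (2 * (Real.pi : ℂ) * (Ser τ Δ p.1 p.2 + (Spr τ Δ p.1 p.2 : ℂ))) * hct'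
  rw [hdec, Complex.add_re, Complex.add_re, Complex.ofReal_re]
  -- the three parts
  have p3 := h3 τ Δ Y S P k1 k2 k3 hY hYτ hS
  have p1 : ‖∑ p ∈ S, (cP P p : ℂ) * (Jt τ Δ p.1 p.2 - 2 * Real.pi * ((((p.2 : ℝ) / p.1) ^ (1 / 2 : ℝ) : ℝ) : ℂ) *
        ∑' n : ℕ, ((d3 n : ℕ) : ℂ) * ee (-(n * p.2 / p.1)) * (GG τ Δ (n * p.2 / p.1) : ℂ))‖ ≤
      C1 * ((τ / Δ) ^ 20 * τ ^ ε) * (∑ p ∈ S, |cP P p| * (p.1 : ℝ) ^ (1 / 2 : ℝ)) := by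
    refine (norm_sum_le _ _).trans ?_
    rw [Finset.mul_sum]
    refine Finset.sum_le_sum fun p hp => ?_
    obtain ⟨m1, m2, m5, -, -⟩ := hS p hp
    rw [norm_mul, Complex.norm_real, Real.norm_eq_abs]
    have := h1 τ Δ p.1 p.2 k1 k2 k3 m1 m2 (by linarith)
    calc |cP P p| * _ ≤ |cP P p| * (C1 * (τ / Δ) ^ 20 * τ ^ ε * (p.1 : ℝ) ^ (1 / 2 : ℝ)) :=
          mul_le_mul_of_nonneg_left this (abs_nonneg _)
      _ = _ := by ring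
  have p2 : ‖2 * (Real.pi : ℂ) * (∑ p ∈ S, ((hh p.1 / p.1 * P p.1 p.2 : ℝ) : ℂ) * Ser τ Δ p.1 p.2)‖ =
      2 * Real.pi * ‖∑ p ∈ S, ((hh p.1 / p.1 * P p.1 p.2 : ℝ) : ℂ) * Ser τ Δ p.1 p.2‖ := by
    rw [norm_mul, norm_mul, Complex.norm_real, Real.norm_of_nonneg hpi.le]
    norm_num
  have q1 := (abs_le.1 (Complex.abs_re_le_norm (∑ p ∈ S, (cP P p : ℂ) * (Jt τ Δ p.1 p.2 - 2 * Real.pi *
    ((((p.2 : ℝ) / p.1) ^ (1 / 2 : ℝ) : ℝ) : ℂ) *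
        ∑' n : ℕ, ((d3 n : ℕ) : ℂ) * ee (-(n * p.2 / p.1)) * (GG τ Δ (n * p.2 / p.1) : ℂ))))).1
  have q2 := (abs_le.1 (Complex.abs_re_le_norm (2 * (Real.pi : ℂ) *
    (∑ p ∈ S, ((hh p.1 / p.1 * P p.1 p.2 : ℝ) : ℂ) * Ser τ Δ p.1 p.2)))).1
  rw [p2] at q2
  have n1 : 0 ≤ (Δ * (1 + Real.log τ)) * (∑ p ∈ S, hh p.1 ^ 2 / ((p.1 : ℝ) * p.2) * P p.1 p.2 * (1 + dl p.1)) := by
    refine mul_nonneg (by positivity) (Finset.sum_nonneg fun p hp => ?_)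
    obtain ⟨m1, m2, m5, m6, -⟩ := hS p hp
    have := dl_nonneg p.1
    positivity
  have n2 : 0 ≤ ((τ / Δ) ^ 20 * τ ^ (1 / 2 + ε)) * (∑ p ∈ S, hh p.1 / p.1 * P p.1 p.2 * (p.2 : ℝ) ^ (-(1 / 2) : ℝ)) := by
    refine mul_nonneg (by positivity) (Finset.sum_nonneg fun p hp => ?_)
    obtain ⟨m1, m2, m5, m6, -⟩ := hS p hp
    have := one_le_hh p.1
    have h0 : 0 ≤ hh p.1 := by linarith
    positivity
  have n3 : 0 ≤ ((τ / Δ) ^ 20 * τ ^ ε) * (∑ p ∈ S, |cP P p| * (p.1 : ℝ) ^ (1 / 2 : ℝ)) :=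
    mul_nonneg (by positivity) (Finset.sum_nonneg fun p hp => by positivity)
  have r1 := mul_le_mul_of_nonneg_right (le_max_right C1 C3) n1
  have r2 := mul_le_mul_of_nonneg_right (le_max_right C1 C3) n2
  have r3 := mul_le_mul_of_nonneg_right (le_max_left C1 C3) n3
  linarith

end Pool.Agent.P07318w
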