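import Pool.Agent.Lib.P07318m.NumLow
import Pool.Agent.Lib.P07318w.GenNum

/-!
# P07318w.ErOld: bounds over the first region with the weight `Pw`
-/

set_option autoImplicit false

open MeasureTheory Complex

namespace Pool.Agent.P07318w

open Pool.Agent.P07318m
open Pool.Agent.P4f18dfS (wt XF)

theorem lp_nonneg (x : ℝ) : 0 ≤ lp x := le_max_right _ _

theorem lp_mono {x y : ℝ} (hx : 0 < x) (hxy : x ≤ y) : lp x ≤ lp y :=
  max_le_max (Real.log_le_log hx hxy) le_rfl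

/-- The difference of squares in the weights is nonnegative. -/
theorem lp_diff {Y D : ℝ} (hY : 0 < Y) (hD : 0 < D) {a b : ℕ} (ha : 1 ≤ a) (hb : 1 ≤ b) :
    lp (Y * Real.exp (-D) / (a * b)) ^ 2 ≤ lp (Y / (a * b)) ^ 2 := by
  have ha' : (0:ℝ) < a := by exact_mod_cast ha
  have hb' : (0:ℝ) < b := by exact_mod_cast hb
  apply pow_le_pow_left₀ (lp_nonneg _)
  apply lp_mono (by positivity)
  apply div_le_div_of_nonneg_right _ (by positivity)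
  have : Real.exp (-D) ≤ 1 := Real.exp_le_one_iff.2 (by linarith)
  nlinarith

theorem pw_bounds {Y D : ℝ} (hY : 0 < Y) (hD : 0 < D) {a b : ℕ} (ha : 1 ≤ a) (hb : 1 ≤ b) :
    0 ≤ Pw Y D a b ∧ Pw Y D a b ≤ Ph Y D a b := by
  have h1 := lp_diff hY hD ha hb
  have ha' : (1:ℝ) ≤ a := by exact_mod_cast ha
  have hl : 0 ≤ Real.log a := Real.log_nonneg ha'
  set x := lp (Y / (a * b)) ^ 2 with hx
  set y := lp (Y * Real.exp (-D) / (a * b)) ^ 2 with hy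
  have hx0 : 0 ≤ x := by positivity
  have hu : 0 ≤ Real.log a / (2 * D) * (x - y) := mul_nonneg (by positivity) (by linarith)
  have e1 : Pw Y D a b = 93 / 200 * x + 119 / 200 * (Real.log a / (2 * D) * (x - y)) := by
    unfold Pw
    rw [← hx, ← hy]
    field_simp
  have e2 : Ph Y D a b = x + Real.log a / (2 * D) * (x - y) := by
    unfold Ph
    rw [← hx, ← hy]
    ring
  rw [e1, e2]
  constructor
  · positivity
  · nlinarith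

theorem cw_eq (Y D : ℝ) (p : ℕ × ℕ) : cw Y D p = cP (Pw Y D) p := rfl

theorem cn_eq (Y : ℝ) (p : ℕ × ℕ) : cn Y p = cP (Qn Y) p := rfl

theorem cw_le {Y D : ℝ} (hY : 0 < Y) (hD : 0 < D) {p : ℕ × ℕ} (ha : 1 ≤ p.1) (hb : 1 ≤ p.2) :
    |cw Y D p| ≤ |ct Y D p| := by
  obtain ⟨h1, h2⟩ := pw_bounds hY hD ha hb
  have hhp : 0 ≤ hh p.1 := by linarith [one_le_hh p.1]
  have h3 : 0 ≤ Ph Y D p.1 p.2 := h1.trans h2
  unfold cw ct
  rw [abs_of_nonneg (by positivity), abs_of_nonneg (by positivity)]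
  gcongr

/-- The contribution of the non-principal part. -/
theorem er_old (ε δ : ℝ) (hε : 0 < ε) (hδ : 0 < δ) : ∃ C : ℝ, 0 < C ∧ ∀ (τ Δ Y : ℝ), 1 ≤ Δ → Δ ≤ τ → 1 < Y → Y ≤ τ →
    ‖∑ p ∈ PS Y, ((hh p.1 / p.1 * Pw Y (δ * Real.log Y) p.1 p.2 : ℝ) : ℂ) * Ser τ Δ p.1 p.2‖ ≤
      C * (τ / Δ) ^ 20 * τ ^ (1 / 2 + ε) * Y ^ (1 / 2 + ε) := by
  obtain ⟨C, hC, h⟩ := er_bound' ε hε
  obtain ⟨K, hK, hh_le'⟩ := hh_le ε hε
  refine ⟨C * (1 + 1 / δ) * K, by positivity, fun τ Δ Y h1 h2 hY hYτ => ?_⟩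
  have hτ : 0 < τ := by linarith
  have hΔ : 0 < Δ := by linarith
  have hL : 0 < Real.log Y := Real.log_pos hY
  set D : ℝ := δ * Real.log Y with hD
  have hD0 : 0 < D := by positivity
  have hsq1 : 1 ≤ Real.sqrt Y := by
    rw [Real.one_le_sqrt]; exact hY.le
  rw [ps_sum_c hY.le (fun a b => ((hh a / a * Pw Y D a b : ℝ) : ℂ) * Ser τ Δ a b)]
  set B : ℝ := C * (τ / Δ) ^ 20 * τ ^ (1 / 2 + ε) with hB
  have hB0 : 0 ≤ B := by positivity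
  have hterm : ∀ a ∈ Finset.Icc 1 ⌊Real.sqrt Y⌋₊,
      ‖∑ b ∈ (Finset.Icc 1 ⌊Y / a⌋₊).filter (fun b => b.Coprime a), ((hh a / a * Pw Y D a b : ℝ) : ℂ) * Ser τ Δ a b‖ ≤
        K * Y ^ ε * (1 + 1 / δ) * B := by
    intro a ha
    rw [Finset.mem_Icc] at ha
    have ha1 : (1:ℝ) ≤ a := by exact_mod_cast ha.1
    have ha2 : (a : ℝ) ≤ Real.sqrt Y := (Nat.le_floor_iff (by positivity)).1 ha.2
    have ha3 : (a : ℝ) ≤ Y := by
      have : Real.sqrt Y ≤ Y := by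
        rw [Real.sqrt_le_left (by linarith)]
        nlinarith
      linarith
    have ha0 : (0:ℝ) < a := by linarith
    set X : ℝ := Y / a with hX
    set X' : ℝ := Y * Real.exp (-D) / a with hX'
    have hX0 : 0 < X := by positivity
    have hX'0 : 0 < X' := by positivity
    have hXle : X' ≤ X := by
      rw [hX, hX']
      apply div_le_div_of_nonneg_right _ ha0.le
      have : Real.exp (-D) ≤ 1 := Real.exp_le_one_iff.2 (by linarith)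
      nlinarith
    have hXτ : X ≤ τ := by
      have : X ≤ Y := div_le_self (by linarith) ha1
      linarith
    have hla : 0 ≤ Real.log a := Real.log_nonneg ha1
    have hla2 : Real.log a ≤ Real.log Y := Real.log_le_log ha0 ha3
    have e1 : ∀ b ∈ (Finset.Icc 1 ⌊Y / a⌋₊).filter (fun b => b.Coprime a),
        ((hh a / a * Pw Y D a b : ℝ) : ℂ) * Ser τ Δ a b =
        ((hh a / a * (93 / 200 + 119 / 200 * Real.log a / (2 * D)) : ℝ) : ℂ) * (((lp (X / b) ^ 2 : ℝ) : ℂ) * Ser τ Δ a b) -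
        ((hh a / a * (119 / 200 * Real.log a / (2 * D)) : ℝ) : ℂ) * (((lp (X' / b) ^ 2 : ℝ) : ℂ) * Ser τ Δ a b) := by
      intro b hb
      have e2 : Y / (a * b) = X / b := by rw [hX, div_div]
      have e3 : Y * Real.exp (-D) / (a * b) = X' / b := by rw [hX', div_div]
      unfold Pw
      rw [e2, e3]
      push_cast
      ring
    rw [Finset.sum_congr rfl e1, Finset.sum_sub_distrib, ← Finset.mul_sum, ← Finset.mul_sum,
      lp_sum hX0 le_rfl a (fun b => Ser τ Δ a b), lp_sum hX'0 hXle a (fun b => Ser τ Δ a b)]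
    have hhp : 0 ≤ hh a := by linarith [one_le_hh a]
    have b1 := h τ Δ X a h1 h2 ha.1 (by linarith) hXτ
    have b2 := h τ Δ X' a h1 h2 ha.1 (by linarith) (by linarith)
    rw [← hB] at b1 b2
    refine (norm_sub_le _ _).trans ?_
    rw [norm_mul, norm_mul, Complex.norm_real, Complex.norm_real, Real.norm_of_nonneg (by positivity),
      Real.norm_of_nonneg (by positivity)]
    have c1 : hh a / a * (93 / 200 + 119 / 200 * Real.log a / (2 * D)) *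
        ‖∑ b ∈ (Finset.Icc 1 ⌊X⌋₊).filter (fun b => b.Coprime a),
        ((Real.log (X / b) ^ 2 : ℝ) : ℂ) * Ser τ Δ a b‖ ≤ hh a / a * (93 / 200 + 119 / 200 * Real.log a / (2 * D)) * (B * a) :=
      mul_le_mul_of_nonneg_left b1 (by positivity)
    have c2 : hh a / a * (119 / 200 * Real.log a / (2 * D)) * ‖∑ b ∈ (Finset.Icc 1 ⌊X'⌋₊).filter (fun b => b.Coprime a),
        ((Real.log (X' / b) ^ 2 : ℝ) : ℂ) * Ser τ Δ a b‖ ≤ hh a / a * (119 / 200 * Real.log a / (2 * D)) * (B * a) :=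
      mul_le_mul_of_nonneg_left b2 (by positivity)
    refine (add_le_add c1 c2).trans ?_
    have c3 : hh a / a * (93 / 200 + 119 / 200 * Real.log a / (2 * D)) * (B * a) +
        hh a / a * (119 / 200 * Real.log a / (2 * D)) * (B * a) =
        hh a * (93 / 200 + 119 / 200 * (Real.log a / D)) * B := by
      field_simp
      ring
    rw [c3]
    have c4 : Real.log a / D ≤ 1 / δ := by
      rw [hD, div_le_div_iff₀ (by positivity) hδ]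
      nlinarith
    have c5 : hh a ≤ K * Y ^ ε := (hh_le' a ha.1).trans
      (mul_le_mul_of_nonneg_left (Real.rpow_le_rpow ha0.le ha3 hε.le) (by linarith))
    have c6 : 0 < 1 / δ := by positivity
    apply mul_le_mul_of_nonneg_right _ hB0
    apply mul_le_mul c5 (by linarith) (by positivity) (by positivity)
  refine (norm_sum_le _ _).trans ((Finset.sum_le_sum hterm).trans ?_)
  rw [Finset.sum_const, nsmul_eq_mul, Nat.card_Icc, Nat.add_sub_cancel]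
  have hfl : ((⌊Real.sqrt Y⌋₊ : ℕ) : ℝ) ≤ Real.sqrt Y := Nat.floor_le (by positivity)
  have hY0 : 0 < Y := by linarith
  have hsplit : Y ^ (1 / 2 + ε) = Real.sqrt Y * Y ^ ε := by
    rw [Real.rpow_add hY0, Real.sqrt_eq_rpow]
  rw [hsplit]
  have hK0 : 0 ≤ K := by linarith
  calc ((⌊Real.sqrt Y⌋₊ : ℕ) : ℝ) * (K * Y ^ ε * (1 + 1 / δ) * B)
      ≤ Real.sqrt Y * (K * Y ^ ε * (1 + 1 / δ) * B) := mul_le_mul_of_nonneg_right hfl (by positivity)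
    _ = _ := by rw [hB]; ring

/-- Lower bound for the first part of the numerator. -/
theorem num_old (κ η δ : ℝ) (hκ : 0 < κ) (hκ' : κ < 1 / 4) (hη : 0 < η) (hδ : 0 < δ) : ∃ C : ℝ, 0 < C ∧ ∀ (τ Δ Y : ℝ),
    1 ≤ Δ → 1 ≤ τ → τ ^ η ≤ τ / Δ → 1 < Y → Y ≤ τ ^ (1 - 2 * κ) →
    Δ * Real.sqrt Real.pi * Sw1 Y (δ * Real.log Y) - C * Δ * (1 + Real.log τ) ^ 8 -
      C * (τ / Δ) ^ 20 * τ ^ (1 - κ / 2) ≤
      (∑ p ∈ PS Y, (cw Y (δ * Real.log Y) p : ℂ) * Jt τ Δ p.1 p.2).re := by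
  set ε : ℝ := κ / 8 with hε
  have hε0 : 0 < ε := by positivity
  obtain ⟨C1, hC1, h1⟩ := gen_num ε η hε0 hη
  obtain ⟨C2, hC2, h2⟩ := er_old ε δ hε0 hδ
  obtain ⟨C3, hC3, h3⟩ := csum3 ε hε0
  obtain ⟨C4, hC4, h4⟩ := csum4 ε hε0
  obtain ⟨C5, hC5, h5⟩ := csum5
  have hpi := Real.pi_pos
  refine ⟨C1 * C5 + (C1 * C4 + C1 * C3 + 2 * Real.pi * C2), by positivity, fun τ Δ Y k1 k2 k3 k4 k5 => ?_⟩
  have hτ : 0 < τ := by linarith
  have hΔ : 0 < Δ := by linarith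
  have hY0 : 0 < Y := by linarith
  have hL : 0 < Real.log Y := Real.log_pos k4
  set D : ℝ := δ * Real.log Y with hD
  have hD0 : 0 < D := by positivity
  have hYτ : Y ≤ τ := by
    refine k5.trans ?_
    calc τ ^ (1 - 2 * κ) ≤ τ ^ (1 : ℝ) := Real.rpow_le_rpow_of_exponent_le k2 (by linarith)
      _ = τ := Real.rpow_one τ
  have hΔτ : Δ ≤ τ := by
    have : 1 ≤ τ / Δ := le_trans (Real.one_le_rpow k2 hη.le) k3
    rwa [le_div_iff₀ hΔ, one_mul] at this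
  have hlY : Real.log Y ≤ Real.log τ := Real.log_le_log hY0 hYτ
  have hlog : 0 ≤ Real.log τ := Real.log_nonneg k2
  have hS : ∀ p ∈ PS Y, 1 ≤ p.1 ∧ 1 ≤ p.2 ∧ (p.1 : ℝ) * p.2 ≤ Y ∧ 0 ≤ Pw Y D p.1 p.2 ∧
      0 ≤ Real.log (Y / p.2) - Real.log p.1 / 2 := by
    intro p hp
    obtain ⟨m1, m2, m3, m4, m5⟩ := mem_ps hp
    have a1 : (1:ℝ) ≤ p.1 := by exact_mod_cast m1
    have a0 : (0:ℝ) < p.1 := by linarith
    have b0 : (0:ℝ) < p.2 := by exact_mod_cast m2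
    have hla : Real.log p.1 ≤ Real.log (Y / p.2) := by
      apply Real.log_le_log a0
      rw [le_div_iff₀ b0]
      exact m5
    have hla0 : 0 ≤ Real.log p.1 := Real.log_nonneg a1
    exact ⟨m1, m2, m5, (pw_bounds hY0 hD0 m1 m2).1, by linarith⟩
  have g := h1 τ Δ Y (PS Y) (Pw Y D) k1 k2 k3 k4.le hYτ hS
  have hYpow : ∀ x : ℝ, 0 ≤ x → Y ^ x ≤ τ ^ ((1 - 2 * κ) * x) := by
    intro x hx
    rw [Real.rpow_mul hτ.le]
    exact Real.rpow_le_rpow hY0.le k5 hx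
  have q1 : τ ^ (1 / 2 + ε) * Y ^ (1 / 2 + ε) ≤ τ ^ (1 - κ / 2) := by
    calc τ ^ (1 / 2 + ε) * Y ^ (1 / 2 + ε) ≤ τ ^ (1 / 2 + ε) * τ ^ ((1 - 2 * κ) * (1 / 2 + ε)) :=
          mul_le_mul_of_nonneg_left (hYpow _ (by positivity)) (by positivity)
      _ = τ ^ (1 / 2 + ε + (1 - 2 * κ) * (1 / 2 + ε)) := (Real.rpow_add hτ _ _).symm
      _ ≤ _ := Real.rpow_le_rpow_of_exponent_le k2 (by rw [hε]; nlinarith)
  have q2 : τ ^ ε * Y ^ (3 / 4 + ε) ≤ τ ^ (1 - κ / 2) := by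
    calc τ ^ ε * Y ^ (3 / 4 + ε) ≤ τ ^ ε * τ ^ ((1 - 2 * κ) * (3 / 4 + ε)) :=
          mul_le_mul_of_nonneg_left (hYpow _ (by positivity)) (by positivity)
      _ = τ ^ (ε + (1 - 2 * κ) * (3 / 4 + ε)) := (Real.rpow_add hτ _ _).symm
      _ ≤ _ := Real.rpow_le_rpow_of_exponent_le k2 (by rw [hε]; nlinarith)
  have hV : 0 ≤ (τ / Δ) ^ 20 := by positivity
  -- the sums
  have s5 : ∑ p ∈ PS Y, hh p.1 ^ 2 / ((p.1 : ℝ) * p.2) * Pw Y D p.1 p.2 * (1 + dl p.1) ≤ C5 * (1 + Real.log τ) ^ 7 := by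
    calc _ ≤ ∑ p ∈ PS Y, hh p.1 ^ 2 / ((p.1 : ℝ) * p.2) * Ph Y D p.1 p.2 * (1 + dl p.1) := by
          refine Finset.sum_le_sum fun p hp => ?_
          obtain ⟨m1, m2, m3, m4, m5⟩ := mem_ps hp
          have := (pw_bounds hY0 hD0 m1 m2).2
          have := dl_nonneg p.1
          gcongr
      _ ≤ C5 * (1 + Real.log Y) ^ 7 := h5 Y D k4.le hD0
      _ ≤ _ := by gcongr
  have s4 : ∑ p ∈ PS Y, hh p.1 / p.1 * Pw Y D p.1 p.2 * (p.2 : ℝ) ^ (-(1 / 2) : ℝ) ≤ C4 * Y ^ (1 / 2 + ε) := by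
    refine le_trans (Finset.sum_le_sum fun p hp => ?_) (h4 Y D k4.le hD0)
    obtain ⟨m1, m2, m3, m4, m5⟩ := mem_ps hp
    have := (pw_bounds hY0 hD0 m1 m2).2
    have h0 : 0 ≤ hh p.1 := by linarith [one_le_hh p.1]
    gcongr
  have s3 : ∑ p ∈ PS Y, |cP (Pw Y D) p| * (p.1 : ℝ) ^ (1 / 2 : ℝ) ≤ C3 * Y ^ (3 / 4 + ε) := by
    refine le_trans (Finset.sum_le_sum fun p hp => ?_) (h3 Y D k4.le hD0)
    obtain ⟨m1, m2, m3, m4, m5⟩ := mem_ps hp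
    have := cw_le hY0 hD0 m1 m2
    rw [cw_eq] at this
    gcongr
  have s2 := h2 τ Δ Y k1 hΔτ k4 hYτ
  rw [← hD] at s2
  have t5 : C1 * (Δ * (1 + Real.log τ)) *
      (∑ p ∈ PS Y, hh p.1 ^ 2 / ((p.1 : ℝ) * p.2) * Pw Y D p.1 p.2 * (1 + dl p.1)) ≤ C1 * C5 * Δ * (1 + Real.log τ) ^ 8 := by
    calc _ ≤ C1 * (Δ * (1 + Real.log τ)) * (C5 * (1 + Real.log τ) ^ 7) := mul_le_mul_of_nonneg_left s5 (by positivity)
      _ = _ := by ring
  have t4 : C1 * ((τ / Δ) ^ 20 * τ ^ (1 / 2 + ε)) *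
      (∑ p ∈ PS Y, hh p.1 / p.1 * Pw Y D p.1 p.2 * (p.2 : ℝ) ^ (-(1 / 2) : ℝ)) ≤
      C1 * C4 * (τ / Δ) ^ 20 * τ ^ (1 - κ / 2) := by
    calc _ ≤ C1 * ((τ / Δ) ^ 20 * τ ^ (1 / 2 + ε)) * (C4 * Y ^ (1 / 2 + ε)) := mul_le_mul_of_nonneg_left s4 (by positivity)
      _ = C1 * C4 * (τ / Δ) ^ 20 * (τ ^ (1 / 2 + ε) * Y ^ (1 / 2 + ε)) := by ring
      _ ≤ _ := mul_le_mul_of_nonneg_left q1 (by positivity)
  have t3 : C1 * ((τ / Δ) ^ 20 * τ ^ ε) * (∑ p ∈ PS Y, |cP (Pw Y D) p| * (p.1 : ℝ) ^ (1 / 2 : ℝ)) ≤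
      C1 * C3 * (τ / Δ) ^ 20 * τ ^ (1 - κ / 2) := by
    calc _ ≤ C1 * ((τ / Δ) ^ 20 * τ ^ ε) * (C3 * Y ^ (3 / 4 + ε)) := mul_le_mul_of_nonneg_left s3 (by positivity)
      _ = C1 * C3 * (τ / Δ) ^ 20 * (τ ^ ε * Y ^ (3 / 4 + ε)) := by ring
      _ ≤ _ := mul_le_mul_of_nonneg_left q2 (by positivity)
  have t2 : 2 * Real.pi * ‖∑ p ∈ PS Y, ((hh p.1 / p.1 * Pw Y D p.1 p.2 : ℝ) : ℂ) * Ser τ Δ p.1 p.2‖ ≤
      2 * Real.pi * C2 * (τ / Δ) ^ 20 * τ ^ (1 - κ / 2) := by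
    calc _ ≤ 2 * Real.pi * (C2 * (τ / Δ) ^ 20 * τ ^ (1 / 2 + ε) * Y ^ (1 / 2 + ε)) :=
          mul_le_mul_of_nonneg_left s2 (by positivity)
      _ = 2 * Real.pi * C2 * (τ / Δ) ^ 20 * (τ ^ (1 / 2 + ε) * Y ^ (1 / 2 + ε)) := by ring
      _ ≤ _ := mul_le_mul_of_nonneg_left q1 (by positivity)
  have hSw : Sw1 Y D = ∑ p ∈ PS Y, hh p.1 ^ 2 / ((p.1 : ℝ) * (p.2 : ℝ)) * Pw Y D p.1 p.2 * KY Y p.1 p.2 := rfl
  rw [← hSw] at g
  have hcw : ∑ p ∈ PS Y, (cw Y D p : ℂ) * Jt τ Δ p.1 p.2 = ∑ p ∈ PS Y, (cP (Pw Y D) p : ℂ) * Jt τ Δ p.1 p.2 := rfl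
  rw [hcw]
  refine le_trans ?_ g
  have z1 : 0 ≤ (τ / Δ) ^ 20 * τ ^ (1 - κ / 2) := by positivity
  have z2 : 0 ≤ Δ * (1 + Real.log τ) ^ 8 := by positivity
  have z3 : 0 ≤ C1 * C5 * ((τ / Δ) ^ 20 * τ ^ (1 - κ / 2)) := by positivity
  have z4 : 0 ≤ (C1 * C4 + C1 * C3 + 2 * Real.pi * C2) * (Δ * (1 + Real.log τ) ^ 8) := by positivity
  nlinarith

end Pool.Agent.P07318w
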