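import Pool.Agent.Lib.P07318m.DenUp
import Pool.Agent.Lib.P07318w.CrossN
import Pool.Agent.Lib.P07318w.ErOld
import Pool.Agent.Lib.P07318w.CSumN

/-!
# P07318w.DenUpN: upper bound for the denominator
-/

set_option autoImplicit false

open MeasureTheory Complex Filter Topology

namespace Pool.Agent.P07318w

open Pool.Agent.P07318m
open Pool.Agent.P4f18dfS (wt XF)

open Classical in
/-- The coefficients on the union. -/
noncomputable def cs (Y D : ℝ) (p : ℕ × ℕ) : ℝ := if p ∈ PS Y then cw Y D p else cn Y p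

open Classical in
/-- The union of the two regions. -/
noncomputable def SU (M : ℕ) (Y : ℝ) : Finset (ℕ × ℕ) := PS Y ∪ RN M Y

theorem su_disj {M : ℕ} {Y : ℝ} (hY : 1 ≤ Y) : Disjoint (PS Y) (RN M Y) := by
  rw [Finset.disjoint_left]
  intro p hp hp'
  obtain ⟨m1, m2, m3, m4, m5⟩ := mem_ps hp
  obtain ⟨-, -, -, -, -, -, n7, -⟩ := mem_rn hY hp'
  linarith

theorem su_sum {E : Type*} [AddCommMonoid E] {M : ℕ} {Y : ℝ} (hY : 1 ≤ Y) (D : ℝ) (F : ℝ → ℕ × ℕ → E) :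
    ∑ p ∈ SU M Y, F (cs Y D p) p = ∑ p ∈ PS Y, F (cw Y D p) p + ∑ p ∈ RN M Y, F (cn Y p) p := by
  classical
  unfold SU
  rw [Finset.sum_union (su_disj hY)]
  congr 1
  · refine Finset.sum_congr rfl fun p hp => ?_
    unfold cs
    rw [if_pos hp]
  · refine Finset.sum_congr rfl fun p hp => ?_
    unfold cs
    rw [if_neg]
    intro hp'
    exact (Finset.disjoint_left.1 (su_disj hY)) hp' hp

theorem sw2_eq (Y D : ℝ) : ∑ p ∈ PS Y, cw Y D p ^ 2 = Sw2 Y D := by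
  unfold Sw2 cw
  refine Finset.sum_congr rfl fun p hp => ?_
  obtain ⟨m1, m2, m3, m4, m5⟩ := mem_ps hp
  have a0 : (0:ℝ) < p.1 := by exact_mod_cast m1
  have b0 : (0:ℝ) < p.2 := by exact_mod_cast m2
  rw [div_pow, mul_pow, Real.sq_sqrt (by positivity)]
  ring

theorem sn2_eq {M : ℕ} {Y : ℝ} (hY : 1 ≤ Y) : ∑ p ∈ RN M Y, cn Y p ^ 2 = Sn2 M Y := by
  unfold Sn2 cn
  refine Finset.sum_congr rfl fun p hp => ?_
  obtain ⟨m1, m2, -⟩ := mem_rn hY hp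
  have a0 : (0:ℝ) < p.1 := by exact_mod_cast m1
  have b0 : (0:ℝ) < p.2 := by exact_mod_cast m2
  rw [div_pow, mul_pow, Real.sq_sqrt (by positivity)]
  ring

/-- Upper bound for the denominator. -/
theorem den_up_n (κ η : ℝ) (hκ : 0 < κ) (hκ' : κ < 1 / 4) (hη : 0 < η) : ∃ C : ℝ, 0 < C ∧ ∀ (M : ℕ) (τ Δ Y D : ℝ),
    1 ≤ Δ → 1 ≤ τ → τ ^ η ≤ τ / Δ → τ ^ (1 - κ) ≤ Δ → 1 ≤ Y → Y ≤ τ ^ (1 - 2 * κ) → 4 * Real.pi * Y ≤ τ → 0 < D →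
    (∫ t : ℝ, wt τ Δ t * ‖As (SU M Y) (cs Y D) t‖ ^ 2) +
      (∫ t : ℝ, (wt τ Δ t : ℂ) * XF (1 / 2 - t * I) * As (SU M Y) (cs Y D) t ^ 2).re ≤
      Δ * Real.sqrt Real.pi * (Sw2 Y D + Sn2 M Y) + C * Δ := by
  classical
  set ε : ℝ := κ / 8 with hε
  have hε0 : 0 < ε := by positivity
  obtain ⟨C1a, hC1a, h1a⟩ := csum1 ε hε0
  obtain ⟨C1b, hC1b, h1b⟩ := cn1 ε hε0
  obtain ⟨C2a, hC2a, h2a⟩ := csum2 ε hε0
  obtain ⟨C2b, hC2b, h2b⟩ := cn2 ε hε0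
  set C1 : ℝ := C1a + C1b with hC1d
  set C2 : ℝ := C2a + C2b with hC2d
  have hC1 : 0 < C1 := by positivity
  have hC2 : 0 < C2 := by positivity
  obtain ⟨C3, hC3, h3⟩ := cross_n
  obtain ⟨K1, hK1, hK1'⟩ := exp_rpow_bound (1 / 16) (2 * κ) 2 (by norm_num) (by positivity)
  obtain ⟨K2, hK2, hK2'⟩ := exp_rpow_bound (1 / 4) (2 * η) 2 (by norm_num) (by positivity)
  have hpi := Real.pi_pos
  refine ⟨Real.sqrt Real.pi * C1 ^ 2 * K1 + C3 * C2 ^ 2 * (2 + K2), by positivity,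
    fun M τ Δ Y D k1 k2 k3 k4 k5 k6 k7 hD => ?_⟩
  have hτ : 0 < τ := by linarith
  have hΔ : 0 < Δ := by linarith
  have hY0 : 0 < Y := by linarith
  have hYΔ : Y ≤ Δ := by
    refine k6.trans (le_trans ?_ k4)
    exact Real.rpow_le_rpow_of_exponent_le k2 (by linarith)
  have hYτ : Y ≤ τ := by
    refine k6.trans ?_
    calc τ ^ (1 - 2 * κ) ≤ τ ^ (1 : ℝ) := Real.rpow_le_rpow_of_exponent_le k2 (by linarith)
      _ = τ := Real.rpow_one τ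
  have hpowg : ∀ e : ℝ, e ≤ 1 → (Y ^ e) ^ 2 ≤ τ ^ (2 : ℝ) := by
    intro e he
    have h5 : Y ^ e ≤ τ := by
      calc Y ^ e ≤ Y ^ (1 : ℝ) := Real.rpow_le_rpow_of_exponent_le k5 he
        _ = Y := Real.rpow_one Y
        _ ≤ τ := hYτ
    rw [Real.rpow_two]
    exact pow_le_pow_left₀ (by positivity) h5 2
  -- the two sums
  have hs1 : ∑ p ∈ SU M Y, |cs Y D p| ≤ C1 * Y ^ (1 / 2 + ε) := by
    rw [su_sum k5 D (fun c _ => |c|)]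
    have a1 : ∑ p ∈ PS Y, |cw Y D p| ≤ C1a * Y ^ (1 / 2 + ε) := by
      refine le_trans (Finset.sum_le_sum fun p hp => ?_) (h1a Y D k5 hD)
      obtain ⟨m1, m2, -⟩ := mem_ps hp
      exact cw_le hY0 hD m1 m2
    have a2 := h1b M Y k5
    calc _ ≤ C1a * Y ^ (1 / 2 + ε) + C1b * Y ^ (1 / 2 + ε) := add_le_add a1 a2
      _ = _ := by rw [hC1d]; ring
  have hs2 : ∑ p ∈ SU M Y, |cs Y D p| * ((p.1 : ℝ) / p.2) ^ (1 / 2 : ℝ) ≤ C2 * Y ^ (3 / 5 + ε) := by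
    rw [su_sum k5 D (fun c p => |c| * ((p.1 : ℝ) / p.2) ^ (1 / 2 : ℝ))]
    have a1 : ∑ p ∈ PS Y, |cw Y D p| * ((p.1 : ℝ) / p.2) ^ (1 / 2 : ℝ) ≤ C2a * Y ^ (3 / 5 + ε) := by
      calc ∑ p ∈ PS Y, |cw Y D p| * ((p.1 : ℝ) / p.2) ^ (1 / 2 : ℝ)
          ≤ ∑ p ∈ PS Y, |ct Y D p| * ((p.1 : ℝ) / p.2) ^ (1 / 2 : ℝ) := by
            refine Finset.sum_le_sum fun p hp => ?_
            obtain ⟨m1, m2, -⟩ := mem_ps hp
            exact mul_le_mul_of_nonneg_right (cw_le hY0 hD m1 m2) (by positivity)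
        _ ≤ C2a * Y ^ (1 / 2 + ε) := h2a Y D k5 hD
        _ ≤ _ := by
            apply mul_le_mul_of_nonneg_left _ hC2a.le
            exact Real.rpow_le_rpow_of_exponent_le k5 (by linarith)
    have a2 := h2b M Y k5
    calc _ ≤ C2a * Y ^ (3 / 5 + ε) + C2b * Y ^ (3 / 5 + ε) := add_le_add a1 a2
      _ = _ := by rw [hC2d]; ring
  have hmem : ∀ p ∈ SU M Y, 1 ≤ p.1 ∧ 1 ≤ p.2 ∧ p.1.Coprime p.2 ∧ (p.1 : ℝ) * (p.2 : ℝ) ≤ Y ∧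
      (p.1 : ℝ) ^ 2 ≤ Y * (p.2 : ℝ) ^ 2 := by
    intro p hp
    unfold SU at hp
    rcases Finset.mem_union.1 hp with hp | hp
    · obtain ⟨n1, n2, n3, n4, n5⟩ := mem_ps hp
      refine ⟨n1, n2, n3, n5, ?_⟩
      have h1 : (1:ℝ) ≤ p.2 := by exact_mod_cast n2
      have h2 : (1:ℝ) ≤ (p.2 : ℝ) ^ 2 := one_le_pow₀ h1
      calc (p.1 : ℝ) ^ 2 ≤ Y := n4
        _ = Y * 1 := (mul_one Y).symm
        _ ≤ Y * (p.2 : ℝ) ^ 2 := mul_le_mul_of_nonneg_left h2 hY0.le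
    · obtain ⟨n1, n2, n3, -, -, n6, -, n8, -⟩ := mem_rn k5 hp
      exact ⟨n1, n2, n3, n6, n8⟩
  -- mean square
  have m1 := (mean_sq (S := SU M Y) (c := cs Y D) (Y := Y) (τ := τ) (Δ := Δ) hΔ (fun p hp => by
    obtain ⟨n1, n2, n3, n4, n5⟩ := hmem p hp
    exact ⟨n1, n2, n3, n4⟩)).2
  rw [su_sum k5 D (fun c _ => c ^ 2), sw2_eq, sn2_eq k5] at m1
  have m2 := (abs_le.1 m1).2
  have e1 : Real.exp (-(Δ ^ 2 / (16 * Y ^ 2))) ≤ Real.exp (-(1 / 16 * τ ^ (2 * κ))) := by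
    apply Real.exp_le_exp.2
    apply neg_le_neg
    have h5 : τ ^ κ * Y ≤ Δ := by
      calc τ ^ κ * Y ≤ τ ^ κ * τ ^ (1 - 2 * κ) := mul_le_mul_of_nonneg_left k6 (by positivity)
        _ = τ ^ (κ + (1 - 2 * κ)) := (Real.rpow_add hτ _ _).symm
        _ = τ ^ (1 - κ) := by congr 1; ring
        _ ≤ Δ := k4
    have h6 : (τ ^ κ * Y) ^ 2 ≤ Δ ^ 2 := pow_le_pow_left₀ (by positivity) h5 2
    have h7 : (τ ^ κ * Y) ^ 2 = τ ^ (2 * κ) * Y ^ 2 := by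
      rw [mul_pow, ← Real.rpow_natCast (τ ^ κ) 2, ← Real.rpow_mul hτ.le]
      congr 2
      push_cast
      ring
    rw [h7] at h6
    rw [le_div_iff₀ (by positivity)]
    nlinarith
  have e2 : Real.sqrt Real.pi * Δ * (∑ p ∈ SU M Y, |cs Y D p|) ^ 2 * Real.exp (-(Δ ^ 2 / (16 * Y ^ 2))) ≤
      Real.sqrt Real.pi * C1 ^ 2 * K1 * Δ := by
    have h5 : (∑ p ∈ SU M Y, |cs Y D p|) ^ 2 ≤ C1 ^ 2 * τ ^ (2 : ℝ) := by
      calc (∑ p ∈ SU M Y, |cs Y D p|) ^ 2 ≤ (C1 * Y ^ (1 / 2 + ε)) ^ 2 :=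
            pow_le_pow_left₀ (Finset.sum_nonneg fun p _ => abs_nonneg _) hs1 2
        _ = C1 ^ 2 * (Y ^ (1 / 2 + ε)) ^ 2 := by ring
        _ ≤ _ := mul_le_mul_of_nonneg_left (hpowg _ (by rw [hε]; linarith)) (by positivity)
    calc Real.sqrt Real.pi * Δ * (∑ p ∈ SU M Y, |cs Y D p|) ^ 2 * Real.exp (-(Δ ^ 2 / (16 * Y ^ 2)))
        ≤ Real.sqrt Real.pi * Δ * (C1 ^ 2 * τ ^ (2 : ℝ)) * Real.exp (-(1 / 16 * τ ^ (2 * κ))) := by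
          gcongr
      _ = Real.sqrt Real.pi * C1 ^ 2 * Δ * (τ ^ (2 : ℝ) * Real.exp (-(1 / 16 * τ ^ (2 * κ)))) := by ring
      _ ≤ Real.sqrt Real.pi * C1 ^ 2 * Δ * K1 := mul_le_mul_of_nonneg_left (hK1' τ k2) (by positivity)
      _ = _ := by ring
  -- cross term
  have m3 := (h3 (SU M Y) (cs Y D) Y τ Δ k1 k5 k7 (fun p hp => by
    obtain ⟨n1, n2, n3, n4, n5⟩ := hmem p hp
    exact ⟨n1, n2, n5⟩)).2
  have m4 := (Complex.re_le_norm _).trans m3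
  have e3 : C3 * ((1 + Y / Δ) / Δ + Real.exp (-((τ / Δ) ^ 2 / 4))) *
        (∑ p ∈ SU M Y, |cs Y D p| * ((p.1 : ℝ) / p.2) ^ (1 / 2 : ℝ)) ^ 2 ≤ C3 * C2 ^ 2 * (2 + K2) * Δ := by
    have h5 : (∑ p ∈ SU M Y, |cs Y D p| * ((p.1 : ℝ) / p.2) ^ (1 / 2 : ℝ)) ^ 2 ≤ C2 ^ 2 * (Y ^ (3 / 5 + ε)) ^ 2 := by
      calc _ ≤ (C2 * Y ^ (3 / 5 + ε)) ^ 2 :=
            pow_le_pow_left₀ (Finset.sum_nonneg fun p _ => by positivity) hs2 2
        _ = _ := by ring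
    have h6 : (1 + Y / Δ) / Δ ≤ 2 / Δ := by
      apply div_le_div_of_nonneg_right _ hΔ.le
      have : Y / Δ ≤ 1 := (div_le_one hΔ).2 hYΔ
      linarith
    have h7 : Real.exp (-((τ / Δ) ^ 2 / 4)) ≤ Real.exp (-(1 / 4 * τ ^ (2 * η))) := by
      apply Real.exp_le_exp.2
      apply neg_le_neg
      have h8 : (τ ^ η) ^ 2 ≤ (τ / Δ) ^ 2 := pow_le_pow_left₀ (by positivity) k3 2
      have h9 : (τ ^ η) ^ 2 = τ ^ (2 * η) := by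
        rw [← Real.rpow_natCast (τ ^ η) 2, ← Real.rpow_mul hτ.le]
        congr 1
        push_cast
        ring
      rw [h9] at h8
      linarith
    have h10 : (Y ^ (3 / 5 + ε)) ^ 2 / Δ ≤ Δ := by
      rw [div_le_iff₀ hΔ]
      have h12 : Y ^ (3 / 5 + ε) ≤ Δ := by
        refine le_trans ?_ k4
        calc Y ^ (3 / 5 + ε) ≤ (τ ^ (1 - 2 * κ)) ^ (3 / 5 + ε) :=
              Real.rpow_le_rpow hY0.le k6 (by positivity)
          _ = τ ^ ((1 - 2 * κ) * (3 / 5 + ε)) := (Real.rpow_mul hτ.le _ _).symm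
          _ ≤ τ ^ (1 - κ) := Real.rpow_le_rpow_of_exponent_le k2 (by rw [hε]; nlinarith)
      calc (Y ^ (3 / 5 + ε)) ^ 2 ≤ Δ ^ 2 := pow_le_pow_left₀ (by positivity) h12 2
        _ = Δ * Δ := by ring
    have h11 : (Y ^ (3 / 5 + ε)) ^ 2 * Real.exp (-(1 / 4 * τ ^ (2 * η))) ≤ K2 := by
      refine le_trans ?_ (hK2' τ k2)
      exact mul_le_mul_of_nonneg_right (hpowg _ (by rw [hε]; linarith)) (Real.exp_pos _).le
    calc C3 * ((1 + Y / Δ) / Δ + Real.exp (-((τ / Δ) ^ 2 / 4))) *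
        (∑ p ∈ SU M Y, |cs Y D p| * ((p.1 : ℝ) / p.2) ^ (1 / 2 : ℝ)) ^ 2
        ≤ C3 * (2 / Δ + Real.exp (-(1 / 4 * τ ^ (2 * η)))) * (C2 ^ 2 * (Y ^ (3 / 5 + ε)) ^ 2) := by
          gcongr
      _ = C3 * C2 ^ 2 * (2 * ((Y ^ (3 / 5 + ε)) ^ 2 / Δ) + (Y ^ (3 / 5 + ε)) ^ 2 * Real.exp (-(1 / 4 * τ ^ (2 * η)))) := by
          ring
      _ ≤ C3 * C2 ^ 2 * (2 * Δ + K2 * Δ) := by
          have h13 : K2 ≤ K2 * Δ := le_mul_of_one_le_right hK2.le k1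
          apply mul_le_mul_of_nonneg_left _ (by positivity)
          linarith
      _ = C3 * C2 ^ 2 * (2 + K2) * Δ := by ring
  have := add_le_add (sub_le_iff_le_add.1 m2) m4
  nlinarith [e2, e3]

end Pool.Agent.P07318w
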