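import Pool.Agent.Lib.P07318w.Defs
import Pool.Agent.Lib.P07318m.GMel

/-!
# P07318w.GTil: the Mellin transform of the corrected bump

`Gt τ Δ y = GG τ Δ y - GG τ Δ 0 * exp(-y)` vanishes at `y = 0`, is smooth, and is `O(exp(-y))` at infinity (`P07318m.GMel.GG_top`, `GG_loc`). Black boxes: everything in `P07318m.GMel`
(`Mi`, `Mi_decay`, `gh_decay`, `gh_inv`, `Gh_eq_Mi`, `GG_le_exp`, ...).

PROOFS.
`gt_diff`: `Gt = O(y)` at `0` (it is differentiable with `Gt 0 = 0`), so the Mellin transform converges and is differentiable for `Re z > -1`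
(`mellin_differentiableAt_of_isBigO_rpow_exp` with the exponent `-1` at `0`).
`gt_bound`: (i) for `1/2 ≤ Re z ≤ 2`: `Gth z = Gh z - GG(0) Γ(z)` (linearity of the Mellin transform, `Complex.Gamma_eq_integral`), `gh_decay m` for the first term (`≤ C τ^(Re z) (τ/Δ)^m (1+|v|)^(-m)`, see its exact form), and
`GG(0) ≤ 1`, `‖Γ(z)‖ (1+|v|)^m ≤ C_m` (for `|v| ≥ 1`: `Γ(z + m) = Γ(z) z (z+1) ... (z+m-1)` and `‖Γ(z+m)‖ ≤ Γ(Re z + m)`, for `|v| ≤ 1`: bounded) for the second.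
(ii) for `-1/4 ≤ Re z ≤ 1/2`: integration by parts (`Gt y^z` vanishes at `0` and `∞`): `z Gth z = - ∫_0^∞ y^z Gt'(y) dy`, and `Gt'(y) = -(4π/Δ) x GG(y) + GG(0) exp(-y)` with `x = (2π y - τ)/Δ`, so
`z * Gth z = (4π/Δ) * Mi τ Δ (z+1) 1 - GG(0) Γ(z+1)`. With `‖z‖ ≥ c`, `Mi_decay m 1` at `z + 1` (`1/2 ≤ Re (z+1) ≤ 2`): `‖Mi‖ ≤ C τ^(Re z + 1) (τ/Δ)^m ‖z+1‖^(-m)`, and `τ^(Re z + 1)/Δ ≤ τ^(max (Re z) 0) (τ/Δ)`;
`‖z + 1‖ ≥ (1+|v|)/4`, the Gamma term as in (i).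
`gt_inv`: Mellin inversion (`mellin_inversion`) on `Re z = 2` exactly as in the proof of `gh_inv` (or subtract from `gh_inv` the inversion formula of `exp(-y)`).
-/

set_option autoImplicit false

open MeasureTheory Complex

namespace Pool.Agent.P07318w

namespace GTilAux

open Set Filter Topology
open Pool.Agent.P07318m (GG Mi mi xg Gh GG_cont GG_top GG_bot GG_pos GG_le_one GG_xg gh_conv mi_int
  Mi_decay gh_decay Gh_eq_Mi)

theorem Gt_zero (τ Δ : ℝ) : Gt τ Δ 0 = 0 := by simp [Gt]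

theorem Gt_cont (τ Δ : ℝ) : Continuous (Gt τ Δ) := by
  unfold Gt
  have := GG_cont τ Δ
  fun_prop

theorem GG_hasDeriv (τ Δ y : ℝ) : HasDerivAt (GG τ Δ)
    (-(4 * Real.pi / Δ) * (xg τ Δ y ^ 1 * Real.exp (-(xg τ Δ y) ^ 2))) y := by
  have hxd : HasDerivAt (xg τ Δ) (2 * Real.pi / Δ) y := by
    unfold Pool.Agent.P07318m.xg
    have := (((hasDerivAt_id y).const_mul (2 * Real.pi)).sub_const τ).div_const Δ
    simpa using this
  have h2 : HasDerivAt (fun y : ℝ => Real.exp (-(xg τ Δ y) ^ 2))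
      (Real.exp (-(xg τ Δ y) ^ 2) * -(((2 : ℕ) : ℝ) * xg τ Δ y ^ (2 - 1) * (2 * Real.pi / Δ))) y :=
    ((hxd.pow 2).neg).exp
  have h3 : (fun y : ℝ => Real.exp (-(xg τ Δ y) ^ 2)) = GG τ Δ := by
    funext y
    rw [GG_xg]
  rw [h3] at h2
  refine h2.congr_deriv ?_
  push_cast
  ring

theorem Gt_hasDeriv (τ Δ y : ℝ) : HasDerivAt (Gt τ Δ)
    (-(4 * Real.pi / Δ) * (xg τ Δ y ^ 1 * Real.exp (-(xg τ Δ y) ^ 2)) +
      GG τ Δ 0 * Real.exp (-y)) y := by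
  have h1 : HasDerivAt (fun y : ℝ => GG τ Δ 0 * Real.exp (-y)) (GG τ Δ 0 * (Real.exp (-y) * -1)) y :=
    ((hasDerivAt_neg y).exp).const_mul _
  have h2 := (GG_hasDeriv τ Δ y).sub h1
  unfold Gt
  refine h2.congr_deriv ?_
  ring

theorem Gt_bot (τ Δ : ℝ) :
    (fun y : ℝ => (Gt τ Δ y : ℂ)) =O[𝓝[>] 0] (fun x : ℝ => x ^ (-(-1 : ℝ))) := by
  have h1 : (fun y : ℝ => Gt τ Δ y - Gt τ Δ 0) =O[𝓝 0] (fun y : ℝ => y - 0) :=
    (Gt_hasDeriv τ Δ 0).differentiableAt.isBigO_sub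
  have h2 : (fun y : ℝ => Gt τ Δ y - Gt τ Δ 0) =O[𝓝[>] 0] (fun y : ℝ => y - 0) :=
    h1.mono nhdsWithin_le_nhds
  refine Asymptotics.IsBigO.trans ?_ (h2.trans ?_)
  · refine Asymptotics.IsBigO.of_bound 1 (Eventually.of_forall fun y => ?_)
    rw [Gt_zero, sub_zero, Complex.norm_real, one_mul]
  · refine Asymptotics.IsBigO.of_bound 1 (Eventually.of_forall fun y => ?_)
    rw [sub_zero, neg_neg, Real.rpow_one, one_mul]

theorem Gt_top {τ Δ : ℝ} (hΔ : 0 < Δ) :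
    (fun y : ℝ => (Gt τ Δ y : ℂ)) =O[atTop] fun t : ℝ => Real.exp (-1 * t) := by
  have h1 : (fun y : ℝ => ((GG τ Δ 0 * Real.exp (-y) : ℝ) : ℂ)) =O[atTop]
      fun t : ℝ => Real.exp (-1 * t) := by
    refine Asymptotics.IsBigO.of_bound 1 (Eventually.of_forall fun y => ?_)
    rw [Complex.norm_real, Real.norm_of_nonneg (mul_nonneg (GG_pos _ _ _).le (Real.exp_pos _).le),
      Real.norm_of_nonneg (Real.exp_pos _).le, neg_one_mul]
    exact mul_le_mul_of_nonneg_right (GG_le_one _ _ _) (Real.exp_pos _).le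
  refine ((GG_top (τ := τ) hΔ).sub h1).congr_left fun y => ?_
  unfold Gt
  push_cast
  ring

theorem Gt_loc (τ Δ : ℝ) : LocallyIntegrableOn (fun y : ℝ => (Gt τ Δ y : ℂ)) (Ioi 0) :=
  ((Complex.continuous_ofReal.comp (Gt_cont τ Δ)).locallyIntegrable).locallyIntegrableOn _

theorem gt_conv {τ Δ : ℝ} (hΔ : 0 < Δ) {z : ℂ} (hz : -1 < z.re) :
    MellinConvergent (fun y : ℝ => (Gt τ Δ y : ℂ)) z :=
  mellinConvergent_of_isBigO_rpow_exp one_pos (Gt_loc τ Δ) (Gt_top hΔ) (Gt_bot τ Δ) hz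

theorem gt_diffAt {τ Δ : ℝ} (hΔ : 0 < Δ) {z : ℂ} (hz : -1 < z.re) :
    DifferentiableAt ℂ (Gth τ Δ) z :=
  mellin_differentiableAt_of_isBigO_rpow_exp one_pos (Gt_loc τ Δ) (Gt_top hΔ) (Gt_bot τ Δ) hz

/-- integration by parts -/
theorem ibp {τ Δ : ℝ} {z : ℂ} (hΔ : 1 ≤ Δ) (hτ : Δ ≤ τ) (hz : -1 < z.re) :
    z * Gth τ Δ z = ((4 * Real.pi / Δ : ℝ) : ℂ) * Mi τ Δ (z + 1) 1 -
      ((GG τ Δ 0 : ℝ) : ℂ) * Complex.Gamma (z + 1) := by
  have hΔ0 : 0 < Δ := by linarith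
  have hz1 : 0 < (z + 1).re := by simp; linarith
  set f : ℝ → ℂ := fun y => (y : ℂ) ^ z * ((Gt τ Δ y : ℝ) : ℂ) with hf
  set f' : ℝ → ℂ := fun y => z * ((y : ℂ) ^ (z - 1) * ((Gt τ Δ y : ℝ) : ℂ)) +
      (-((4 * Real.pi / Δ : ℝ) : ℂ) * mi τ Δ (z + 1) 1 y +
      ((GG τ Δ 0 : ℝ) : ℂ) * (((Real.exp (-y) : ℝ) : ℂ) * (y : ℂ) ^ (z + 1 - 1))) with hf'
  have i0 : IntegrableOn (fun y : ℝ => (y : ℂ) ^ (z - 1) * ((Gt τ Δ y : ℝ) : ℂ)) (Ioi 0) := by
    have := gt_conv (τ := τ) hΔ0 hz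
    unfold MellinConvergent at this
    simpa only [smul_eq_mul] using this
  have i1 := mi_int 1 hΔ hτ hz1
  have i2 : IntegrableOn (fun y : ℝ => ((Real.exp (-y) : ℝ) : ℂ) * (y : ℂ) ^ (z + 1 - 1)) (Ioi 0) :=
    Complex.GammaIntegral_convergent hz1
  have hder : ∀ y ∈ Ioi (0 : ℝ), HasDerivAt f (f' y) y := by
    intro y hy
    have hy0 : (0 : ℝ) < y := hy
    have hp : HasDerivAt (fun y : ℝ => (y : ℂ) ^ z) (z * (y : ℂ) ^ (z - 1)) y := by
      have := HasDerivAt.comp_ofReal (hasDerivAt_id (y : ℂ) |>.cpow_const (c := z)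
        (Or.inl (by simpa using hy0)))
      simpa using this
    have hm := hp.mul (Gt_hasDeriv τ Δ y).ofReal_comp
    refine hm.congr_deriv ?_
    simp only [hf', mi, add_sub_cancel_right]
    push_cast
    ring
  have hfint : IntegrableOn f (Ioi 0) := by
    have h1 := gt_conv (τ := τ) hΔ0 (z := z + 1) (by linarith)
    unfold MellinConvergent at h1
    refine h1.congr_fun (fun y hy => ?_) measurableSet_Ioi
    simp only [smul_eq_mul, hf, add_sub_cancel_right]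
  have hf'int : IntegrableOn f' (Ioi 0) :=
    (i0.const_mul z).add ((i1.const_mul _).add (i2.const_mul _))
  have hlim := tendsto_zero_of_hasDerivAt_of_integrableOn_Ioi hder hf'int hfint
  have hf0 : f 0 = 0 := by
    simp only [hf, Gt_zero, Complex.ofReal_zero, mul_zero]
  have hcont : ContinuousWithinAt f (Ici 0) 0 := by
    rw [← continuousWithinAt_Ioi_iff_Ici]
    show Tendsto f (𝓝[>] 0) (𝓝 (f 0))
    rw [hf0]
    obtain ⟨C, hC⟩ := (Gt_bot τ Δ).bound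
    have h1 : ∀ᶠ y in 𝓝[>] (0 : ℝ), ‖f y‖ ≤ C * y ^ (z.re + 1) := by
      filter_upwards [hC, self_mem_nhdsWithin] with y hy hy0
      have hy0' : (0 : ℝ) < y := hy0
      rw [neg_neg, Real.rpow_one, Real.norm_of_nonneg hy0'.le] at hy
      simp only [hf]
      rw [norm_mul, Complex.norm_cpow_eq_rpow_re_of_pos hy0', Real.rpow_add hy0', Real.rpow_one]
      have h2 : 0 ≤ y ^ z.re := Real.rpow_nonneg hy0'.le _
      calc y ^ z.re * ‖((Gt τ Δ y : ℝ) : ℂ)‖ ≤ y ^ z.re * (C * y) :=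
            mul_le_mul_of_nonneg_left hy h2
        _ = C * (y ^ z.re * y) := by ring
    refine squeeze_zero_norm' h1 ?_
    have h3 : Tendsto (fun y : ℝ => C * y ^ (z.re + 1)) (𝓝 0) (𝓝 (C * (0 : ℝ) ^ (z.re + 1))) :=
      ((Real.continuousAt_rpow_const 0 (z.re + 1) (Or.inr (by linarith))).tendsto).const_mul C
    rw [Real.zero_rpow (by linarith), mul_zero] at h3
    exact h3.mono_left nhdsWithin_le_nhds
  have hint := integral_Ioi_of_hasDerivAt_of_tendsto hcont hder hf'int hlim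
  rw [hf0, sub_zero] at hint
  have hexp : ∫ y in Ioi (0 : ℝ), f' y = z * Gth τ Δ z +
      (-((4 * Real.pi / Δ : ℝ) : ℂ) * Mi τ Δ (z + 1) 1 +
      ((GG τ Δ 0 : ℝ) : ℂ) * Complex.Gamma (z + 1)) := by
    rw [Complex.Gamma_eq_integral hz1]
    have i12 : IntegrableOn (fun y : ℝ => -((4 * Real.pi / Δ : ℝ) : ℂ) * mi τ Δ (z + 1) 1 y +
      ((GG τ Δ 0 : ℝ) : ℂ) * (((Real.exp (-y) : ℝ) : ℂ) * (y : ℂ) ^ (z + 1 - 1))) (Ioi 0) :=
      (i1.const_mul _).add (i2.const_mul _)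
    simp only [hf', Mi, Gth, mellin, Complex.GammaIntegral, smul_eq_mul]
    rw [integral_add (i0.const_mul z) i12,
      integral_add (i1.const_mul _) (i2.const_mul _), integral_const_mul, integral_const_mul,
      integral_const_mul]
  rw [hexp] at hint
  linear_combination hint

theorem gt_eq {τ Δ : ℝ} {z : ℂ} (hΔ : 0 < Δ) (hz : 0 < z.re) :
    Gth τ Δ z = Gh τ Δ z - ((GG τ Δ 0 : ℝ) : ℂ) * Complex.Gamma z := by
  have i0 : IntegrableOn (fun y : ℝ => (y : ℂ) ^ (z - 1) * ((GG τ Δ y : ℝ) : ℂ)) (Ioi 0) := by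
    have := gh_conv (τ := τ) hΔ hz
    unfold MellinConvergent at this
    simpa only [smul_eq_mul] using this
  have i2 : IntegrableOn (fun y : ℝ => ((Real.exp (-y) : ℝ) : ℂ) * (y : ℂ) ^ (z - 1)) (Ioi 0) :=
    Complex.GammaIntegral_convergent hz
  rw [Complex.Gamma_eq_integral hz]
  simp only [Gth, Pool.Agent.P07318m.Gh, mellin, Complex.GammaIntegral, smul_eq_mul]
  rw [← integral_const_mul, ← integral_sub i0 (i2.const_mul _)]
  refine setIntegral_congr_fun measurableSet_Ioi (fun y _ => ?_)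
  simp only [Gt]
  push_cast
  ring

theorem norm_Gamma_le {w : ℂ} (hw : 0 < w.re) : ‖Complex.Gamma w‖ ≤ Real.Gamma w.re := by
  rw [Complex.Gamma_eq_integral hw, Real.Gamma_eq_integral hw, Complex.GammaIntegral]
  refine (norm_integral_le_integral_norm _).trans (le_of_eq ?_)
  refine setIntegral_congr_fun measurableSet_Ioi (fun y hy => ?_)
  have hy0 : (0 : ℝ) < y := hy
  rw [norm_mul, Complex.norm_real, Real.norm_of_nonneg (Real.exp_pos _).le,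
    Complex.norm_cpow_eq_rpow_re_of_pos hy0, Complex.sub_re, Complex.one_re]

theorem gamma_poly (m : ℕ) : ∀ K : ℝ, 1 ≤ K → ∃ C : ℝ, 0 < C ∧ ∀ w : ℂ, 1 / 2 ≤ w.re → w.re ≤ K →
    ‖w‖ ^ m * ‖Complex.Gamma w‖ ≤ C := by
  induction m with
  | zero =>
    intro K hK
    have hc : ContinuousOn Real.Gamma (Icc (1 / 2 : ℝ) K) := by
      intro s hs
      refine (Real.differentiableAt_Gamma ?_).continuousAt.continuousWithinAt
      intro m hm
      have h1 := hs.1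
      have : (0 : ℝ) ≤ m := Nat.cast_nonneg m
      linarith
    obtain ⟨G, hG⟩ := isCompact_Icc.exists_bound_of_continuousOn hc
    have hG0 : 0 ≤ G := (norm_nonneg _).trans (hG 1 ⟨by norm_num, hK⟩)
    refine ⟨G + 1, by positivity, fun w h1 h2 => ?_⟩
    rw [pow_zero, one_mul]
    refine (norm_Gamma_le (by linarith)).trans ?_
    have h3 := hG w.re ⟨h1, h2⟩
    rw [Real.norm_eq_abs] at h3
    linarith [le_abs_self (Real.Gamma w.re)]
  | succ m ih =>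
    intro K hK
    obtain ⟨C, hC, h⟩ := ih (K + 1) (by linarith)
    refine ⟨C, hC, fun w h1 h2 => ?_⟩
    have hw : w ≠ 0 := by
      intro h0
      rw [h0] at h1
      norm_num at h1
    have h3 := h (w + 1) (by simp; linarith) (by simp; linarith)
    have h4 : ‖w‖ ≤ ‖w + 1‖ := by
      rw [← abs_of_nonneg (norm_nonneg w), ← abs_of_nonneg (norm_nonneg (w + 1)), ← sq_le_sq,
        ← Complex.normSq_eq_norm_sq, ← Complex.normSq_eq_norm_sq, Complex.normSq_apply,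
        Complex.normSq_apply]
      simp only [Complex.add_re, Complex.one_re, Complex.add_im, Complex.one_im, add_zero]
      nlinarith
    rw [Complex.Gamma_add_one w hw, norm_mul] at h3
    calc ‖w‖ ^ (m + 1) * ‖Complex.Gamma w‖ = ‖w‖ ^ m * (‖w‖ * ‖Complex.Gamma w‖) := by ring
      _ ≤ ‖w + 1‖ ^ m * (‖w‖ * ‖Complex.Gamma w‖) := by gcongr
      _ ≤ C := h3

end GTilAux

open GTilAux

theorem gt_diff {τ Δ : ℝ} (hΔ : 0 < Δ) : DifferentiableOn ℂ (Gth τ Δ) {z : ℂ | -1 < z.re} :=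
  fun _ hz => (gt_diffAt hΔ hz).differentiableWithinAt

theorem gt_bound (m : ℕ) (c : ℝ) (hc : 0 < c) : ∃ C : ℝ, 0 < C ∧ ∀ (τ Δ : ℝ) (z : ℂ), 1 ≤ Δ → Δ ≤ τ →
    -(1 / 4) ≤ z.re → z.re ≤ 2 → c ≤ ‖z‖ →
    ‖Gth τ Δ z‖ ≤ C * τ ^ (max z.re 0) * (τ / Δ) ^ (m + 1) / (1 + |z.im|) ^ m := by
  obtain ⟨C1, hC1, h1⟩ := Pool.Agent.P07318m.gh_decay m
  obtain ⟨C2, hC2, h2⟩ := Pool.Agent.P07318m.Mi_decay m 1
  obtain ⟨C3, hC3, h3⟩ := gamma_poly m 2 (by norm_num)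
  have hpi := Real.pi_pos
  refine ⟨C1 + 4 ^ m * C3 + 4 ^ m * (4 * Real.pi * C2 + C3) / c, by positivity, ?_⟩
  intro τ Δ z hΔ hτ hz1 hz2 hcz
  have hΔ0 : 0 < Δ := by linarith
  have hτ1 : 1 ≤ τ := by linarith
  have hτ0 : 0 < τ := by linarith
  have hV : 1 ≤ τ / Δ := by rw [le_div_iff₀ hΔ0]; linarith
  have hG0 : 0 ≤ Pool.Agent.P07318m.GG τ Δ 0 := (Pool.Agent.P07318m.GG_pos _ _ _).le
  have hG1 : Pool.Agent.P07318m.GG τ Δ 0 ≤ 1 := Pool.Agent.P07318m.GG_le_one _ _ _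
  have hT1 : 1 ≤ τ ^ (max z.re 0) := Real.one_le_rpow hτ1 (le_max_right _ _)
  have hTz : τ ^ z.re ≤ τ ^ (max z.re 0) :=
    Real.rpow_le_rpow_of_exponent_le hτ1 (le_max_left _ _)
  have hden : 0 < (1 + |z.im|) ^ m := by positivity
  set V := τ / Δ with hVd
  set T := τ ^ (max z.re 0) with hTd
  have hVm : 1 ≤ V ^ m := one_le_pow₀ hV
  have hVm1 : 1 ≤ V ^ (m + 1) := one_le_pow₀ hV
  have hVmm : V ^ m ≤ V ^ (m + 1) := by
    rw [pow_succ]
    nlinarith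
  rw [le_div_iff₀ hden]
  have hP0 : 0 ≤ 4 ^ m * (4 * Real.pi * C2 + C3) / c := by positivity
  have hTV : 1 ≤ T * V ^ (m + 1) := by nlinarith
  rcases le_total (1 / 2) z.re with hcase | hcase
  · -- `Re z ≥ 1/2`
    have k1 := h1 τ Δ z hΔ hτ hcase hz2
    rw [le_div_iff₀ hden, ← hVd] at k1
    have k3 := h3 z hcase hz2
    have h5 : 1 + |z.im| ≤ 4 * ‖z‖ := by
      have a := Complex.abs_im_le_norm z
      have b := (le_abs_self _).trans (Complex.abs_re_le_norm z)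
      linarith [norm_nonneg z]
    have h6 : (1 + |z.im|) ^ m ≤ 4 ^ m * ‖z‖ ^ m := by
      rw [← mul_pow]
      exact pow_le_pow_left₀ (by positivity) h5 m
    rw [gt_eq hΔ0 (by linarith)]
    have h7 : ‖Pool.Agent.P07318m.Gh τ Δ z - ((Pool.Agent.P07318m.GG τ Δ 0 : ℝ) : ℂ) * Complex.Gamma z‖ ≤
        ‖Pool.Agent.P07318m.Gh τ Δ z‖ + ‖Complex.Gamma z‖ := by
      refine (norm_sub_le _ _).trans ?_
      rw [norm_mul, Complex.norm_real, Real.norm_of_nonneg hG0]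
      have := mul_le_mul_of_nonneg_right hG1 (norm_nonneg (Complex.Gamma z))
      linarith
    have h8 : ‖Complex.Gamma z‖ * (1 + |z.im|) ^ m ≤ 4 ^ m * C3 := by
      calc ‖Complex.Gamma z‖ * (1 + |z.im|) ^ m ≤ ‖Complex.Gamma z‖ * (4 ^ m * ‖z‖ ^ m) := by gcongr
        _ = 4 ^ m * (‖z‖ ^ m * ‖Complex.Gamma z‖) := by ring
        _ ≤ 4 ^ m * C3 := by gcongr
    have h9 : C1 * τ ^ z.re * V ^ m ≤ C1 * (T * V ^ (m + 1)) := by
      calc C1 * τ ^ z.re * V ^ m ≤ C1 * T * V ^ (m + 1) := by gcongr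
        _ = C1 * (T * V ^ (m + 1)) := by ring
    calc ‖Pool.Agent.P07318m.Gh τ Δ z - ((Pool.Agent.P07318m.GG τ Δ 0 : ℝ) : ℂ) * Complex.Gamma z‖ *
          (1 + |z.im|) ^ m
        ≤ (‖Pool.Agent.P07318m.Gh τ Δ z‖ + ‖Complex.Gamma z‖) * (1 + |z.im|) ^ m :=
          mul_le_mul_of_nonneg_right h7 hden.le
      _ = ‖Pool.Agent.P07318m.Gh τ Δ z‖ * (1 + |z.im|) ^ m + ‖Complex.Gamma z‖ * (1 + |z.im|) ^ m := by
          ring
      _ ≤ C1 * τ ^ z.re * V ^ m + 4 ^ m * C3 := add_le_add k1 h8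
      _ ≤ C1 * (T * V ^ (m + 1)) + 4 ^ m * C3 * (T * V ^ (m + 1)) := by
          refine add_le_add h9 ?_
          exact le_mul_of_one_le_right (by positivity) hTV
      _ ≤ C1 * (T * V ^ (m + 1)) + 4 ^ m * C3 * (T * V ^ (m + 1)) +
          (4 ^ m * (4 * Real.pi * C2 + C3) / c) * (T * V ^ (m + 1)) := by
          have : 0 ≤ (4 ^ m * (4 * Real.pi * C2 + C3) / c) * (T * V ^ (m + 1)) := by positivity
          linarith
      _ = (C1 + 4 ^ m * C3 + 4 ^ m * (4 * Real.pi * C2 + C3) / c) * T * V ^ (m + 1) := by ring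
  · -- `Re z ≤ 1/2`
    have hzr : (z + 1).re = z.re + 1 := by simp
    have hzi : (z + 1).im = z.im := by simp
    have k2 := h2 τ Δ (z + 1) hΔ hτ (by rw [hzr]; linarith) (by rw [hzr]; linarith)
    have k3 := h3 (z + 1) (by rw [hzr]; linarith) (by rw [hzr]; linarith)
    rw [hzr, ← hVd] at k2
    have h5 : 1 + |z.im| ≤ 4 * ‖z + 1‖ := by
      have a := Complex.abs_im_le_norm (z + 1)
      have b := (le_abs_self _).trans (Complex.abs_re_le_norm (z + 1))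
      rw [hzi] at a
      rw [hzr] at b
      linarith
    have h6 : (1 + |z.im|) ^ m ≤ 4 ^ m * ‖z + 1‖ ^ m := by
      rw [← mul_pow]
      exact pow_le_pow_left₀ (by positivity) h5 m
    have hib := ibp (z := z) hΔ hτ (by linarith)
    have h7 : ‖z‖ * ‖Gth τ Δ z‖ ≤ 4 * Real.pi / Δ * ‖Pool.Agent.P07318m.Mi τ Δ (z + 1) 1‖ +
        ‖Complex.Gamma (z + 1)‖ := by
      rw [← norm_mul, hib]
      refine (norm_sub_le _ _).trans ?_
      rw [norm_mul, norm_mul, Complex.norm_real, Complex.norm_real, Real.norm_of_nonneg hG0,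
        Real.norm_of_nonneg (by positivity)]
      have := mul_le_mul_of_nonneg_right hG1 (norm_nonneg (Complex.Gamma (z + 1)))
      linarith
    have h8 : 4 * Real.pi / Δ * ‖Pool.Agent.P07318m.Mi τ Δ (z + 1) 1‖ * (1 + |z.im|) ^ m ≤
        4 ^ m * (4 * Real.pi * C2) * (T * V ^ (m + 1)) := by
      calc 4 * Real.pi / Δ * ‖Pool.Agent.P07318m.Mi τ Δ (z + 1) 1‖ * (1 + |z.im|) ^ m
          ≤ 4 * Real.pi / Δ * ‖Pool.Agent.P07318m.Mi τ Δ (z + 1) 1‖ * (4 ^ m * ‖z + 1‖ ^ m) := by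
            gcongr
        _ = 4 ^ m * (4 * Real.pi / Δ) *
            (‖z + 1‖ ^ m * ‖Pool.Agent.P07318m.Mi τ Δ (z + 1) 1‖) := by ring
        _ ≤ 4 ^ m * (4 * Real.pi / Δ) * (C2 * τ ^ (z.re + 1) * V ^ m) := by gcongr
        _ = 4 ^ m * (4 * Real.pi * C2) * (τ ^ z.re * V ^ (m + 1)) := by
            rw [Real.rpow_add hτ0, Real.rpow_one, pow_succ, hVd]
            ring
        _ ≤ 4 ^ m * (4 * Real.pi * C2) * (T * V ^ (m + 1)) := by gcongr
    have h9 : ‖Complex.Gamma (z + 1)‖ * (1 + |z.im|) ^ m ≤ 4 ^ m * C3 * (T * V ^ (m + 1)) := by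
      calc ‖Complex.Gamma (z + 1)‖ * (1 + |z.im|) ^ m
          ≤ ‖Complex.Gamma (z + 1)‖ * (4 ^ m * ‖z + 1‖ ^ m) := by gcongr
        _ = 4 ^ m * (‖z + 1‖ ^ m * ‖Complex.Gamma (z + 1)‖) := by ring
        _ ≤ 4 ^ m * C3 := by gcongr
        _ ≤ 4 ^ m * C3 * (T * V ^ (m + 1)) := le_mul_of_one_le_right (by positivity) hTV
    have h10 : c * (‖Gth τ Δ z‖ * (1 + |z.im|) ^ m) ≤
        4 ^ m * (4 * Real.pi * C2 + C3) * (T * V ^ (m + 1)) := by
      calc c * (‖Gth τ Δ z‖ * (1 + |z.im|) ^ m) ≤ ‖z‖ * (‖Gth τ Δ z‖ * (1 + |z.im|) ^ m) := by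
            gcongr
        _ = (‖z‖ * ‖Gth τ Δ z‖) * (1 + |z.im|) ^ m := by ring
        _ ≤ (4 * Real.pi / Δ * ‖Pool.Agent.P07318m.Mi τ Δ (z + 1) 1‖ +
            ‖Complex.Gamma (z + 1)‖) * (1 + |z.im|) ^ m := mul_le_mul_of_nonneg_right h7 hden.le
        _ = 4 * Real.pi / Δ * ‖Pool.Agent.P07318m.Mi τ Δ (z + 1) 1‖ * (1 + |z.im|) ^ m +
            ‖Complex.Gamma (z + 1)‖ * (1 + |z.im|) ^ m := by ring
        _ ≤ 4 ^ m * (4 * Real.pi * C2) * (T * V ^ (m + 1)) + 4 ^ m * C3 * (T * V ^ (m + 1)) :=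
            add_le_add h8 h9
        _ = _ := by ring
    have h11 : ‖Gth τ Δ z‖ * (1 + |z.im|) ^ m ≤
        (4 ^ m * (4 * Real.pi * C2 + C3) / c) * (T * V ^ (m + 1)) := by
      rw [div_mul_eq_mul_div, le_div_iff₀ hc, mul_comm]
      exact h10
    have h12 : 0 ≤ (C1 + 4 ^ m * C3) * (T * V ^ (m + 1)) := by positivity
    calc ‖Gth τ Δ z‖ * (1 + |z.im|) ^ m ≤
          (4 ^ m * (4 * Real.pi * C2 + C3) / c) * (T * V ^ (m + 1)) := h11
      _ ≤ (4 ^ m * (4 * Real.pi * C2 + C3) / c) * (T * V ^ (m + 1)) +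
          (C1 + 4 ^ m * C3) * (T * V ^ (m + 1)) := by linarith
      _ = (C1 + 4 ^ m * C3 + 4 ^ m * (4 * Real.pi * C2 + C3) / c) * T * V ^ (m + 1) := by ring

theorem gt_inv {τ Δ y : ℝ} (hΔ : 1 ≤ Δ) (hτ : Δ ≤ τ) (hy : 0 < y) :
    (Gt τ Δ y : ℂ) = (1 / (2 * Real.pi)) * ∫ ξ : ℝ, Gth τ Δ (2 + ξ * I) * (y : ℂ) ^ (-(2 + ξ * I)) := by
  have hΔ0 : 0 < Δ := by linarith
  have hτ0 : 0 < τ := by linarith
  have hconv : MellinConvergent (fun y : ℝ => (Gt τ Δ y : ℂ)) ((2 : ℝ) : ℂ) :=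
    gt_conv hΔ0 (by simp; norm_num)
  have hv : VerticalIntegrable (mellin (fun y : ℝ => (Gt τ Δ y : ℂ))) (2 : ℝ) := by
    obtain ⟨C, hC, h⟩ := gt_bound 2 1 one_pos
    refine Integrable.mono' (g := fun ξ : ℝ => C * τ ^ (max 2 0 : ℝ) * (τ / Δ) ^ (2 + 1) *
      (1 + ξ ^ 2)⁻¹) (integrable_inv_one_add_sq.const_mul _) ?_ ?_
    · apply Continuous.aestronglyMeasurable
      rw [continuous_iff_continuousAt]
      intro ξ
      have h1 := (gt_diffAt (τ := τ) hΔ0 (z := (2 : ℝ) + ξ * I) (by simp; norm_num)).continuousAt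
      exact ContinuousAt.comp (f := fun ξ : ℝ => ((2 : ℝ) : ℂ) + ξ * I) h1 (by fun_prop)
    · refine Filter.Eventually.of_forall fun ξ => ?_
      have e1 : (((2 : ℝ) : ℂ) + ξ * I).re = 2 := by simp
      have e2 : (((2 : ℝ) : ℂ) + ξ * I).im = ξ := by simp
      have h1 := h τ Δ ((2 : ℝ) + ξ * I) hΔ hτ (by rw [e1]; norm_num) (by rw [e1])
        (by
          have h2 := (le_abs_self _).trans (Complex.abs_re_le_norm (((2 : ℝ) : ℂ) + ξ * I))
          rw [e1] at h2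
          linarith)
      rw [e1, e2] at h1
      refine h1.trans ?_
      rw [div_eq_mul_inv]
      apply mul_le_mul_of_nonneg_left _ (by positivity)
      apply inv_anti₀ (by positivity)
      nlinarith [abs_nonneg ξ, sq_abs ξ]
  have hfx : ContinuousAt (fun y : ℝ => (Gt τ Δ y : ℂ)) y :=
    (Complex.continuous_ofReal.comp (Gt_cont τ Δ)).continuousAt
  have key := mellinInv_mellin_eq 2 _ hy hconv hv hfx
  have e : (Gt τ Δ y : ℂ) = mellinInv 2 (mellin (fun y : ℝ => (Gt τ Δ y : ℂ))) y := key.symm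
  rw [e, mellinInv]
  rw [Complex.real_smul]
  push_cast
  congr 1
  refine integral_congr_ae (Filter.Eventually.of_forall fun ξ => ?_)
  simp only [smul_eq_mul, Gth]
  rw [mul_comm]

end Pool.Agent.P07318w
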