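import Mathlib

/-!
# P07318w.GammaB: a bound for the Gamma function with the sharp exponential factor

Mathlib only.

PROOF. On `Re s = 1/2`: `|Γ(1/2 + i v)|^2 = Γ(s) Γ(1-s) = π / sin(π s) = π / cosh(π v) ≤ 2 π exp(-π |v|)` (`Complex.Gamma_mul_Gamma_one_sub`, `Γ(conj s) = conj Γ(s)`), so
`‖Γ‖ exp(π |v|/2) ≤ √(2π)`. On `Re s = 3/2`: `Γ(s) = (s - 1) Γ(s - 1)`, so `‖Γ‖ exp(π|v|/2) ≤ √(2π) (1 + |v|)`. In the strip `1/2 ≤ Re s ≤ 3/2` apply the theorem of Phragmén and Lindelöf
(`PhragmenLindelof.vertical_strip`) to `f(s) = Γ(s) exp(-i π s / 2) / (s + 1)`: `|exp(-iπ s/2)| = exp(π v / 2) ≤ exp(π |v|/2)`, so `f` is bounded by a constant on both boundary lines, and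
in the strip `‖f‖ ≤ C exp(π |v| / 2)` because `‖Γ(s)‖ ≤ Γ(Re s)` (`Complex.norm_Gamma_le...` / from the integral), which is admissible growth (`π/2 |v| ≤ B exp(c |v|)` with any `c < π`). Hence
`‖Γ(s)‖ exp(π v / 2) ≤ C ‖s + 1‖ ≤ C' (1 + |v|)` in the strip; for `v ≤ 0` use the conjugate: `‖Γ(conj s)‖ = ‖Γ(s)‖`.
-/

set_option autoImplicit false

namespace Pool.Agent.P07318w

open Complex MeasureTheory Filter Asymptotics

private lemma gB_norm (t : ℝ) : ‖Complex.Gamma (1 / 2 + t * I)‖ ^ 2 = Real.pi / Real.cosh (Real.pi * t) := by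
  have h := Complex.Gamma_mul_Gamma_one_sub (1 / 2 + t * I)
  have h1 : (1 : ℂ) - (1 / 2 + t * I) = (starRingEnd ℂ) (1 / 2 + t * I) := by
    apply Complex.ext
    · simp
      norm_num
    · simp
  rw [h1, Complex.Gamma_conj] at h
  have h2 : Complex.sin (Real.pi * (1 / 2 + t * I)) = ((Real.cosh (Real.pi * t) : ℝ) : ℂ) := by
    rw [show (Real.pi * (1 / 2 + t * I) : ℂ) = ((Real.pi * t : ℝ) : ℂ) * I + Real.pi / 2 by
      push_cast; ring]
    rw [Complex.sin_add_pi_div_two, Complex.cos_mul_I, Complex.ofReal_cosh]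
  rw [h2] at h
  have h3 := congrArg (fun z : ℂ => ‖z‖) h
  simp only [norm_mul, norm_div, RCLike.norm_conj, Complex.norm_real, Real.norm_eq_abs] at h3
  rw [abs_of_pos Real.pi_pos, abs_of_pos (Real.cosh_pos _)] at h3
  rw [sq]
  exact h3

private lemma gB_le (t : ℝ) : ‖Complex.Gamma (1 / 2 + t * I)‖ ≤
    Real.sqrt (2 * Real.pi) * Real.exp (-(Real.pi / 2 * |t|)) := by
  have h1 := gB_norm t
  have h2 : Real.exp (Real.pi * |t|) / 2 ≤ Real.cosh (Real.pi * t) := by
    rw [← Real.cosh_abs, abs_mul, abs_of_pos Real.pi_pos, Real.cosh_eq]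
    have := Real.exp_pos (-(Real.pi * |t|))
    linarith
  have h3 : ‖Complex.Gamma (1 / 2 + t * I)‖ ^ 2 ≤
      (Real.sqrt (2 * Real.pi) * Real.exp (-(Real.pi / 2 * |t|))) ^ 2 := by
    rw [h1, mul_pow, Real.sq_sqrt (by positivity), ← Real.exp_nat_mul]
    have h4 : ((2 : ℕ) : ℝ) * -(Real.pi / 2 * |t|) = -(Real.pi * |t|) := by
      push_cast
      ring
    rw [h4, Real.exp_neg, div_le_iff₀ (Real.cosh_pos _)]
    have h5 := Real.exp_pos (Real.pi * |t|)
    have h6 : 2 * Real.pi * (Real.exp (Real.pi * |t|))⁻¹ * (Real.exp (Real.pi * |t|) / 2) =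
        Real.pi := by
      field_simp
    calc Real.pi = 2 * Real.pi * (Real.exp (Real.pi * |t|))⁻¹ * (Real.exp (Real.pi * |t|) / 2) :=
          h6.symm
      _ ≤ _ := mul_le_mul_of_nonneg_left h2 (by positivity)
  exact (pow_le_pow_iff_left₀ (norm_nonneg _) (by positivity) two_ne_zero).1 h3

private lemma gB_re {w : ℂ} (hw : 0 < w.re) : ‖Complex.Gamma w‖ ≤ Real.Gamma w.re := by
  rw [Complex.Gamma_eq_integral hw, Real.Gamma_eq_integral hw, Complex.GammaIntegral]
  refine (norm_integral_le_integral_norm _).trans_eq ?_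
  apply setIntegral_congr_fun measurableSet_Ioi
  intro x hx
  have hx' : (0 : ℝ) < x := hx
  simp only [norm_mul]
  rw [Complex.norm_of_nonneg (Real.exp_pos _).le, norm_cpow_eq_rpow_re_of_pos hx', sub_re, one_re]

/-- on the line `Re s = 1/2` -/
private lemma gB_line {s : ℂ} (hs : s.re = 1 / 2) :
    ‖Complex.Gamma s‖ * Real.exp (Real.pi / 2 * s.im) ≤ Real.sqrt (2 * Real.pi) := by
  have e : s = 1 / 2 + s.im * I := by
    apply Complex.ext
    · simp [hs]
    · simp
  have h := gB_le s.im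
  rw [← e] at h
  calc ‖Complex.Gamma s‖ * Real.exp (Real.pi / 2 * s.im)
      ≤ Real.sqrt (2 * Real.pi) * Real.exp (-(Real.pi / 2 * |s.im|)) *
        Real.exp (Real.pi / 2 * s.im) := mul_le_mul_of_nonneg_right h (Real.exp_pos _).le
    _ = Real.sqrt (2 * Real.pi) * Real.exp (-(Real.pi / 2 * |s.im|) + Real.pi / 2 * s.im) := by
        rw [Real.exp_add]; ring
    _ ≤ Real.sqrt (2 * Real.pi) * 1 := by
        apply mul_le_mul_of_nonneg_left _ (Real.sqrt_nonneg _)
        rw [Real.exp_le_one_iff]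
        have h1 := le_abs_self s.im
        have h2 := Real.pi_pos
        nlinarith
    _ = _ := mul_one _

private lemma gB_exp (s : ℂ) : ‖Complex.exp (-I * Real.pi * s / 2)‖ = Real.exp (Real.pi / 2 * s.im) := by
  rw [Complex.norm_exp]
  congr 1
  have : (-I * Real.pi * s / 2 : ℂ) = ((Real.pi / 2 : ℝ) : ℂ) * (-I * s) := by
    push_cast; ring
  rw [this, Complex.re_ofReal_mul]
  simp

private lemma gB_strip {s : ℂ} (h1 : 1 / 2 ≤ s.re) (h2 : s.re ≤ 3 / 2) :
    ‖Complex.Gamma s * Complex.exp (-I * Real.pi * s / 2) / (s + 1)‖ ≤ Real.sqrt (2 * Real.pi) := by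
  have hne : ∀ s : ℂ, 1 / 2 ≤ s.re → s + 1 ≠ 0 := by
    intro s hs h
    have := congrArg Complex.re h
    rw [add_re, one_re, zero_re] at this
    linarith
  have hn1 : ∀ s : ℂ, 1 / 2 ≤ s.re → 1 ≤ ‖s + 1‖ := by
    intro s hs
    refine le_trans ?_ (Complex.abs_re_le_norm _)
    rw [add_re, one_re, abs_of_pos (by linarith)]
    linarith
  obtain ⟨M, hM⟩ : ∃ M, ∀ x ∈ Set.Icc (1 / 2 : ℝ) (3 / 2), ‖Real.Gamma x‖ ≤ M := by
    apply IsCompact.exists_bound_of_continuousOn isCompact_Icc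
    intro x hx
    refine (Real.differentiableAt_Gamma fun m hm => ?_).continuousAt.continuousWithinAt
    have h3 : (0 : ℝ) ≤ m := Nat.cast_nonneg m
    have h4 := hx.1
    linarith
  have hM0 : 0 ≤ M := (norm_nonneg _).trans (hM 1 ⟨by norm_num, by norm_num⟩)
  refine PhragmenLindelof.vertical_strip (a := 1 / 2) (b := 3 / 2)
    (f := fun s => Complex.Gamma s * Complex.exp (-I * Real.pi * s / 2) / (s + 1)) ?_ ?_ ?_ ?_ h1 h2
  · apply DifferentiableOn.diffContOnCl
    rw [Complex.closure_preimage_re, closure_Ioo (by norm_num)]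
    intro z hz
    have hz1 : 1 / 2 ≤ z.re := hz.1
    refine DifferentiableAt.differentiableWithinAt (DifferentiableAt.div (DifferentiableAt.mul
      (Complex.differentiableAt_Gamma z fun m hm => ?_) ?_) ?_ (hne z hz1))
    · have h3 := congrArg Complex.re hm
      rw [neg_re, natCast_re] at h3
      have h4 : (0 : ℝ) ≤ m := Nat.cast_nonneg m
      linarith
    · fun_prop
    · fun_prop
  · refine ⟨1, ?_, Real.pi / 2, ?_⟩
    · have h3 := Real.pi_gt_three
      norm_num
      linarith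
    · apply IsBigO.of_bound M
      refine Filter.eventually_inf_principal.2 (Filter.Eventually.of_forall fun z hz => ?_)
      have hz1 : 1 / 2 < z.re := hz.1
      have hz2 : z.re < 3 / 2 := hz.2
      rw [norm_div, norm_mul, gB_exp, Real.norm_of_nonneg (Real.exp_pos _).le]
      have h4 : ‖Complex.Gamma z‖ ≤ M := by
        refine (gB_re (by linarith)).trans ((le_abs_self _).trans ?_)
        exact hM z.re ⟨hz1.le, hz2.le⟩
      have h5 : Real.exp (Real.pi / 2 * z.im) ≤
          Real.exp (Real.pi / 2 * Real.exp (1 * |z.im|)) := by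
        apply Real.exp_le_exp.2
        apply mul_le_mul_of_nonneg_left _ (by positivity)
        rw [one_mul]
        have h6 := Real.add_one_le_exp |z.im|
        have h7 := le_abs_self z.im
        linarith
      calc ‖Complex.Gamma z‖ * Real.exp (Real.pi / 2 * z.im) / ‖z + 1‖
          ≤ ‖Complex.Gamma z‖ * Real.exp (Real.pi / 2 * z.im) := by
            apply div_le_self _ (hn1 z hz1.le)
            positivity
        _ ≤ M * Real.exp (Real.pi / 2 * Real.exp (1 * |z.im|)) := by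
            apply mul_le_mul h4 h5 (Real.exp_pos _).le hM0
  · intro z hz
    rw [norm_div, norm_mul, gB_exp]
    refine (div_le_self (by positivity) (hn1 z (by linarith))).trans (gB_line hz)
  · intro z hz
    rw [norm_div, norm_mul, gB_exp]
    have hz1 : (z - 1).re = 1 / 2 := by rw [sub_re, one_re, hz]; norm_num
    have hz0 : z - 1 ≠ 0 := by
      intro h
      rw [h, zero_re] at hz1
      norm_num at hz1
    have h3 : Complex.Gamma z = (z - 1) * Complex.Gamma (z - 1) := by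
      have := Complex.Gamma_add_one (z - 1) hz0
      rw [sub_add_cancel] at this
      exact this
    have h4 : ‖z - 1‖ ≤ ‖z + 1‖ := by
      rw [← sq_le_sq₀ (norm_nonneg _) (norm_nonneg _), Complex.sq_norm, Complex.sq_norm,
        Complex.normSq_apply, Complex.normSq_apply, sub_re, add_re, sub_im, add_im, one_re, one_im, hz]
      norm_num
    have h5 := gB_line hz1
    rw [sub_im, one_im, sub_zero] at h5
    rw [div_le_iff₀ (by linarith [hn1 z (by linarith)]), h3, norm_mul]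
    calc ‖z - 1‖ * ‖Complex.Gamma (z - 1)‖ * Real.exp (Real.pi / 2 * z.im)
        = ‖Complex.Gamma (z - 1)‖ * Real.exp (Real.pi / 2 * z.im) * ‖z - 1‖ := by ring
      _ ≤ Real.sqrt (2 * Real.pi) * ‖z + 1‖ :=
        mul_le_mul h5 h4 (norm_nonneg _) (Real.sqrt_nonneg _)

private lemma gB_pos {s : ℂ} (h1 : 1 / 2 ≤ s.re) (h2 : s.re ≤ 3 / 2) :
    ‖Complex.Gamma s‖ * Real.exp (Real.pi / 2 * s.im) ≤
      Real.sqrt (2 * Real.pi) * (5 / 2) * (1 + |s.im|) := by
  have h := gB_strip h1 h2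
  have h3 : 1 ≤ ‖s + 1‖ := by
    refine le_trans ?_ (Complex.abs_re_le_norm _)
    rw [add_re, one_re, abs_of_pos (by linarith)]
    linarith
  rw [norm_div, norm_mul, gB_exp, div_le_iff₀ (by linarith)] at h
  refine h.trans ?_
  rw [mul_assoc]
  apply mul_le_mul_of_nonneg_left _ (Real.sqrt_nonneg _)
  have h4 := Complex.norm_le_abs_re_add_abs_im (s + 1)
  rw [add_re, one_re, add_im, one_im, add_zero, abs_of_pos (by linarith : (0 : ℝ) < s.re + 1)] at h4
  have h5 := abs_nonneg s.im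
  linarith

theorem gamma_bound : ∃ C : ℝ, 0 < C ∧ ∀ s : ℂ, 1 / 2 ≤ s.re → s.re ≤ 3 / 2 →
    ‖Complex.Gamma s‖ * Real.exp (Real.pi * |s.im| / 2) ≤ C * (1 + |s.im|) := by
  have hpi := Real.pi_pos
  refine ⟨Real.sqrt (2 * Real.pi) * (5 / 2), by positivity, fun s h1 h2 => ?_⟩
  rcases le_total 0 s.im with h | h
  · have := gB_pos h1 h2
    rw [abs_of_nonneg h] at this ⊢
    rwa [show Real.pi * s.im / 2 = Real.pi / 2 * s.im by ring]
  · have := gB_pos (s := (starRingEnd ℂ) s) (by rwa [conj_re]) (by rwa [conj_re])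
    rw [Complex.Gamma_conj, RCLike.norm_conj, conj_im, abs_neg] at this
    rw [abs_of_nonpos h] at this ⊢
    rwa [show Real.pi * -s.im / 2 = Real.pi / 2 * -s.im by ring]

end Pool.Agent.P07318w
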