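import Mathlib

/-!
# P07318w.GcdSum: a sum with greatest common divisors

Mathlib only.

PROOF. `√(gcd(a,k)) ≤ ∑_{d | a, d | k} √d` (the term `d = gcd(a,k)`), so
`∑_{k ≥ 1} k^(-1-c) √(gcd(a,k)) ≤ ∑_{d | a} √d ∑_{j ≥ 1} (d j)^(-1-c) ≤ ∑_{d | a} d^(-1/2) ζ(1+c) ≤ ζ(1+c) d(a)`. Summability: the terms are at most `√a k^(-1-c)`. (Sum over `k : ℕ` with
`((k:ℝ)+1)^(-1-c)`; for the interchange use finite partial sums, `Real.tsum_le_of_sum_range_le` or `tsum_finsetSum`-type lemmas.)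
-/

set_option autoImplicit false

namespace Pool.Agent.P07318w

open Finset

lemma GcdSum.inner (c : ℝ) (hc : 0 < c) (N d : ℕ) (hd : 1 ≤ d) :
    Real.sqrt d * ∑ k ∈ (range N).filter (fun k => d ∣ k + 1), ((k : ℝ) + 1) ^ (-1 - c) ≤
      ∑ j ∈ range N, ((j : ℝ) + 1) ^ (-1 - c) := by
  have hd' : (1 : ℝ) ≤ d := by exact_mod_cast hd
  have hd0 : (0 : ℝ) < d := by linarith
  have hsub : (range N).filter (fun k => d ∣ k + 1) ⊆
      (range N).image (fun j => d * (j + 1) - 1) := by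
    intro k hk
    rw [mem_filter, mem_range] at hk
    obtain ⟨hkN, e, he⟩ := hk
    have he0 : e ≠ 0 := by
      rintro rfl
      simp at he
    rw [mem_image]
    refine ⟨e - 1, mem_range.2 ?_, ?_⟩
    · have : e ≤ d * e := Nat.le_mul_of_pos_left e (by omega)
      omega
    · have h1 : e - 1 + 1 = e := by omega
      rw [h1, ← he]
      omega
  have hinj : ∀ x ∈ range N, ∀ y ∈ range N, d * (x + 1) - 1 = d * (y + 1) - 1 → x = y := by
    intro x _ y _ hxy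
    have h1 : 1 ≤ d * (x + 1) := Nat.mul_pos (by omega) (by omega)
    have h2 : 1 ≤ d * (y + 1) := Nat.mul_pos (by omega) (by omega)
    have h3 : d * (x + 1) = d * (y + 1) := by omega
    have h4 := Nat.eq_of_mul_eq_mul_left (by omega : 0 < d) h3
    omega
  have h1 : ∑ k ∈ (range N).filter (fun k => d ∣ k + 1), ((k : ℝ) + 1) ^ (-1 - c) ≤
      ∑ j ∈ range N, ((d : ℝ) * ((j : ℝ) + 1)) ^ (-1 - c) := by
    refine (Finset.sum_le_sum_of_subset_of_nonneg hsub fun k _ _ => by positivity).trans ?_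
    rw [Finset.sum_image (fun x hx y hy => hinj x (by simpa using hx) y (by simpa using hy))]
    refine le_of_eq (Finset.sum_congr rfl fun j _ => ?_)
    congr 1
    have h1 : 1 ≤ d * (j + 1) := Nat.mul_pos (by omega) (by omega)
    have h2 : ((d * (j + 1) - 1 : ℕ) : ℝ) + 1 = ((d * (j + 1) - 1 + 1 : ℕ) : ℝ) := by push_cast; ring
    rw [h2, Nat.sub_add_cancel h1]
    push_cast
    ring
  have h2 : ∀ j : ℕ, ((d : ℝ) * ((j : ℝ) + 1)) ^ (-1 - c) =
      (d : ℝ) ^ (-1 - c) * ((j : ℝ) + 1) ^ (-1 - c) := fun j =>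
    Real.mul_rpow hd0.le (by positivity)
  simp only [h2] at h1
  rw [← Finset.mul_sum] at h1
  have hS : 0 ≤ ∑ j ∈ range N, ((j : ℝ) + 1) ^ (-1 - c) := Finset.sum_nonneg fun _ _ => by positivity
  have h3 : Real.sqrt d * (d : ℝ) ^ (-1 - c) ≤ 1 := by
    rw [Real.sqrt_eq_rpow, ← Real.rpow_add hd0]
    exact Real.rpow_le_one_of_one_le_of_nonpos hd' (by linarith)
  calc Real.sqrt d * ∑ k ∈ (range N).filter (fun k => d ∣ k + 1), ((k : ℝ) + 1) ^ (-1 - c)
      ≤ Real.sqrt d * ((d : ℝ) ^ (-1 - c) * ∑ j ∈ range N, ((j : ℝ) + 1) ^ (-1 - c)) :=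
        mul_le_mul_of_nonneg_left h1 (Real.sqrt_nonneg _)
    _ = (Real.sqrt d * (d : ℝ) ^ (-1 - c)) * ∑ j ∈ range N, ((j : ℝ) + 1) ^ (-1 - c) := by ring
    _ ≤ 1 * ∑ j ∈ range N, ((j : ℝ) + 1) ^ (-1 - c) := mul_le_mul_of_nonneg_right h3 hS
    _ = _ := one_mul _

theorem gcd_sum (c : ℝ) (hc : 0 < c) : ∃ C : ℝ, 0 < C ∧ ∀ a : ℕ, 1 ≤ a →
    (Summable fun k : ℕ => ((k : ℝ) + 1) ^ (-1 - c) * Real.sqrt (Nat.gcd a (k + 1))) ∧
    ∑' k : ℕ, ((k : ℝ) + 1) ^ (-1 - c) * Real.sqrt (Nat.gcd a (k + 1)) ≤ C * (a.divisors.card : ℝ) := by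
  have hsum : Summable fun k : ℕ => ((k : ℝ) + 1) ^ (-1 - c) := by
    have h1 : Summable fun k : ℕ => ((k : ℕ) : ℝ) ^ (-1 - c) :=
      Real.summable_nat_rpow.2 (by linarith)
    have h2 := (summable_nat_add_iff 1).2 h1
    refine h2.congr fun k => ?_
    push_cast
    rfl
  set Z : ℝ := ∑' k : ℕ, ((k : ℝ) + 1) ^ (-1 - c) with hZ
  have hZ0 : 0 ≤ Z := tsum_nonneg fun _ => by positivity
  refine ⟨Z + 1, by linarith, fun a ha => ?_⟩
  have hpart : ∀ N : ℕ, ∑ k ∈ range N, ((k : ℝ) + 1) ^ (-1 - c) * Real.sqrt (Nat.gcd a (k + 1)) ≤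
      Z * (a.divisors.card : ℝ) := by
    intro N
    have h1 : ∀ k ∈ range N, ((k : ℝ) + 1) ^ (-1 - c) * Real.sqrt (Nat.gcd a (k + 1)) ≤
        ∑ d ∈ a.divisors, if d ∣ k + 1 then Real.sqrt d * ((k : ℝ) + 1) ^ (-1 - c) else 0 := by
      intro k _
      have hmem : Nat.gcd a (k + 1) ∈ a.divisors :=
        Nat.mem_divisors.2 ⟨Nat.gcd_dvd_left _ _, by omega⟩
      have h2 := Finset.single_le_sum
        (f := fun d : ℕ => if d ∣ k + 1 then Real.sqrt d * ((k : ℝ) + 1) ^ (-1 - c) else 0)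
        (fun d _ => by
          split_ifs
          · positivity
          · exact le_rfl) hmem
      simp only [if_pos (Nat.gcd_dvd_right a (k + 1))] at h2
      rw [mul_comm]
      exact h2
    refine (Finset.sum_le_sum h1).trans ?_
    rw [Finset.sum_comm]
    have h3 : ∀ d ∈ a.divisors, (∑ k ∈ range N,
        if d ∣ k + 1 then Real.sqrt d * ((k : ℝ) + 1) ^ (-1 - c) else 0) ≤ Z := by
      intro d hd
      have hd1 : 1 ≤ d := Nat.pos_of_mem_divisors hd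
      rw [← Finset.sum_filter, ← Finset.mul_sum]
      refine (GcdSum.inner c hc N d hd1).trans ?_
      exact hsum.sum_le_tsum _ fun _ _ => by positivity
    refine (Finset.sum_le_sum h3).trans ?_
    rw [Finset.sum_const, nsmul_eq_mul, mul_comm]
  have hnn : ∀ k : ℕ, 0 ≤ ((k : ℝ) + 1) ^ (-1 - c) * Real.sqrt (Nat.gcd a (k + 1)) := fun k => by
    positivity
  refine ⟨summable_of_sum_range_le hnn hpart, ?_⟩
  refine (Real.tsum_le_of_sum_range_le hnn hpart).trans ?_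
  refine mul_le_mul_of_nonneg_right (by linarith) (Nat.cast_nonneg _)

end Pool.Agent.P07318w
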