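import Pool.Agent.Lib.P07318w.Defs

/-!
# P07318w.TTMul: the ternary sum and the Chinese remainder theorem

`stdAddChar` mod `N` at the class of the integer `x` is `exp(2π i x / N)` (`ZMod.stdAddChar_coe`). If `u a2 ≡ 1 mod a1` and `w a1 ≡ 1 mod a2` then
`u a2 + w a1 ≡ 1 mod a1 a2`, so `exp(2πi x/(a1 a2)) = exp(2π i x u / a1) exp(2π i x w / a2)`. The ring isomorphism
`ZMod (a1 a2) ≃ ZMod a1 × ZMod a2` applied to `r`, `s`, `t` turns the sum over `(r,s,t)` into the product of the two sums.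
-/

set_option autoImplicit false

namespace Pool.Agent.P07318w

namespace TTMulAux

variable {a1 a2 : ℕ} [NeZero a1] [NeZero a2] [NeZero (a1 * a2)]

lemma inv_int {a b : ℕ} [NeZero a] (h : b.Coprime a) : ∃ u : ℤ, (u : ZMod a) = (b : ZMod a)⁻¹ ∧
    (a : ℤ) ∣ u * b - 1 := by
  refine ⟨(((b : ZMod a)⁻¹).val : ℤ), ?_, ?_⟩
  · rw [Int.cast_natCast, ZMod.natCast_zmod_val]
  · rw [← ZMod.intCast_zmod_eq_zero_iff_dvd]
    push_cast
    rw [ZMod.natCast_zmod_val, ZMod.inv_mul_of_unit _ ((ZMod.isUnit_iff_coprime b a).2 h), sub_self]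

lemma char_mul (h : a1.Coprime a2) (x : ℤ) :
    ZMod.stdAddChar (x : ZMod (a1 * a2)) =
      ZMod.stdAddChar ((x : ZMod a1) * (a2 : ZMod a1)⁻¹) *
        ZMod.stdAddChar ((x : ZMod a2) * (a1 : ZMod a2)⁻¹) := by
  obtain ⟨u, hu, hu'⟩ := inv_int (a := a1) (b := a2) h.symm
  obtain ⟨w, hw, hw'⟩ := inv_int (a := a2) (b := a1) h
  have h1 : ((a1 * a2 : ℕ) : ℤ) ∣ (u * a2 + w * a1) - 1 := by
    push_cast
    refine IsCoprime.mul_dvd (Nat.isCoprime_iff_coprime.2 h) ?_ ?_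
    · have e : u * (a2 : ℤ) + w * a1 - 1 = (u * a2 - 1) + a1 * w := by ring
      rw [e]
      exact dvd_add hu' (dvd_mul_right _ _)
    · have e : u * (a2 : ℤ) + w * a1 - 1 = (w * a1 - 1) + a2 * u := by ring
      rw [e]
      exact dvd_add hw' (dvd_mul_right _ _)
  have h2 : (x : ZMod (a1 * a2)) = ((x * (u * a2 + w * a1) : ℤ) : ZMod (a1 * a2)) := by
    rw [← sub_eq_zero, ← Int.cast_sub, ZMod.intCast_zmod_eq_zero_iff_dvd]
    have e : x - x * (u * a2 + w * a1) = ((u * a2 + w * a1) - 1) * (-x) := by ring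
    rw [e]
    exact Dvd.dvd.mul_right h1 _
  rw [h2, ← hu, ← hw, ← Int.cast_mul, ← Int.cast_mul, ZMod.stdAddChar_coe, ZMod.stdAddChar_coe,
    ZMod.stdAddChar_coe, ← Complex.exp_add]
  congr 1
  have e1 : (a1 : ℂ) ≠ 0 := Nat.cast_ne_zero.2 (NeZero.ne a1)
  have e2 : (a2 : ℂ) ≠ 0 := Nat.cast_ne_zero.2 (NeZero.ne a2)
  push_cast
  field_simp

/-- the Chinese remainder isomorphism -/
noncomputable def ee (h : a1.Coprime a2) : ZMod (a1 * a2) ≃+* ZMod a1 × ZMod a2 :=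
  ZMod.chineseRemainder h

lemma char_mul' (h : a1.Coprime a2) (x : ZMod (a1 * a2)) :
    ZMod.stdAddChar x = ZMod.stdAddChar ((ee h x).1 * (a2 : ZMod a1)⁻¹) *
        ZMod.stdAddChar ((ee h x).2 * (a1 : ZMod a2)⁻¹) := by
  obtain ⟨x, rfl⟩ := ZMod.intCast_surjective x
  rw [char_mul h x]
  have e : ee h ((x : ℤ) : ZMod (a1 * a2)) = ((x : ZMod a1 × ZMod a2)) := map_intCast _ x
  rw [e]
  rfl

lemma sum_e (h : a1.Coprime a2) (G : ZMod a1 × ZMod a2 → ℂ) :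
    ∑ r : ZMod (a1 * a2), G (ee h r) = ∑ r1 : ZMod a1, ∑ r2 : ZMod a2, G (r1, r2) := by
  rw [← Fintype.sum_prod_type]
  exact (ee h).toEquiv.sum_comp G

end TTMulAux

open TTMulAux in
theorem tt_mul {a1 a2 : ℕ} [NeZero a1] [NeZero a2] [NeZero (a1 * a2)] (h : a1.Coprime a2) (b k l m : ℤ) :
    TT (a1 * a2) (b : ZMod (a1 * a2)) k l m =
      TT a1 ((b : ZMod a1) * (a2 : ZMod a1)⁻¹) ((k : ZMod a1) * (a2 : ZMod a1)⁻¹) ((l : ZMod a1) * (a2 : ZMod a1)⁻¹)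
        ((m : ZMod a1) * (a2 : ZMod a1)⁻¹) *
      TT a2 ((b : ZMod a2) * (a1 : ZMod a2)⁻¹) ((k : ZMod a2) * (a1 : ZMod a2)⁻¹) ((l : ZMod a2) * (a1 : ZMod a2)⁻¹)
        ((m : ZMod a2) * (a1 : ZMod a2)⁻¹) := by
  obtain ⟨F1, hF1⟩ : ∃ F1 : ZMod a1 → ZMod a1 → ZMod a1 → ℂ, ∀ r s t, F1 r s t =
      ZMod.stdAddChar (-((b : ZMod a1) * (a2 : ZMod a1)⁻¹ * r * s * t) +
        (k : ZMod a1) * (a2 : ZMod a1)⁻¹ * r + (l : ZMod a1) * (a2 : ZMod a1)⁻¹ * s +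
        (m : ZMod a1) * (a2 : ZMod a1)⁻¹ * t) := ⟨_, fun _ _ _ => rfl⟩
  obtain ⟨F2, hF2⟩ : ∃ F2 : ZMod a2 → ZMod a2 → ZMod a2 → ℂ, ∀ r s t, F2 r s t =
      ZMod.stdAddChar (-((b : ZMod a2) * (a1 : ZMod a2)⁻¹ * r * s * t) +
        (k : ZMod a2) * (a1 : ZMod a2)⁻¹ * r + (l : ZMod a2) * (a1 : ZMod a2)⁻¹ * s +
        (m : ZMod a2) * (a1 : ZMod a2)⁻¹ * t) := ⟨_, fun _ _ _ => rfl⟩
  have key : ∀ r s t : ZMod (a1 * a2),
      ZMod.stdAddChar (-((b : ZMod (a1 * a2)) * r * s * t) + (k : ZMod (a1 * a2)) * r +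
        (l : ZMod (a1 * a2)) * s + (m : ZMod (a1 * a2)) * t) =
      F1 (ee h r).1 (ee h s).1 (ee h t).1 * F2 (ee h r).2 (ee h s).2 (ee h t).2 := by
    intro r s t
    rw [char_mul' h, hF1, hF2]
    simp only [map_add, map_neg, map_mul, map_intCast, Prod.fst_add, Prod.snd_add, Prod.fst_neg,
      Prod.snd_neg, Prod.fst_mul, Prod.snd_mul, Prod.fst_intCast, Prod.snd_intCast]
    congr 2 <;> ring
  unfold TT
  simp only [key, ← hF1, ← hF2]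
  calc ∑ r, ∑ s, ∑ t, F1 (ee h r).1 (ee h s).1 (ee h t).1 * F2 (ee h r).2 (ee h s).2 (ee h t).2
      = ∑ r, ∑ s, ∑ t1, ∑ t2, F1 (ee h r).1 (ee h s).1 t1 * F2 (ee h r).2 (ee h s).2 t2 := by
        refine Finset.sum_congr rfl fun r _ => Finset.sum_congr rfl fun s _ => ?_
        exact sum_e h (fun p => F1 (ee h r).1 (ee h s).1 p.1 * F2 (ee h r).2 (ee h s).2 p.2)
    _ = ∑ r, ∑ s1, ∑ s2, ∑ t1, ∑ t2, F1 (ee h r).1 s1 t1 * F2 (ee h r).2 s2 t2 := by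
        refine Finset.sum_congr rfl fun r _ => ?_
        exact sum_e h (fun p => ∑ t1, ∑ t2, F1 (ee h r).1 p.1 t1 * F2 (ee h r).2 p.2 t2)
    _ = ∑ r1, ∑ r2, ∑ s1, ∑ s2, ∑ t1, ∑ t2, F1 r1 s1 t1 * F2 r2 s2 t2 :=
        sum_e h (fun p => ∑ s1, ∑ s2, ∑ t1, ∑ t2, F1 p.1 s1 t1 * F2 p.2 s2 t2)
    _ = (∑ r, ∑ s, ∑ t, F1 r s t) * ∑ r, ∑ s, ∑ t, F2 r s t := by
        simp only [Finset.sum_mul_sum]

theorem tt_triv {a : ℕ} [NeZero a] (b k l m : ZMod a) : ‖TT a b k l m‖ ≤ (a : ℝ) ^ 3 := by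
  unfold TT
  have h1 : ∀ x : ZMod a, ‖ZMod.stdAddChar x‖ = 1 := fun x => by
    rw [ZMod.stdAddChar_apply]
    exact Circle.norm_coe _
  have h2 : ∀ r s : ZMod a, ‖∑ t : ZMod a,
      ZMod.stdAddChar (-(b * r * s * t) + k * r + l * s + m * t)‖ ≤ a := by
    intro r s
    refine (norm_sum_le_of_le _ fun t _ => (h1 _).le).trans (le_of_eq ?_)
    simp [ZMod.card]
  have h3 : ∀ r : ZMod a, ‖∑ s : ZMod a, ∑ t : ZMod a,
      ZMod.stdAddChar (-(b * r * s * t) + k * r + l * s + m * t)‖ ≤ a * a := by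
    intro r
    refine (norm_sum_le_of_le _ fun s _ => h2 r s).trans (le_of_eq ?_)
    simp [ZMod.card]
  refine (norm_sum_le_of_le _ fun r _ => h3 r).trans (le_of_eq ?_)
  simp only [Finset.sum_const, Finset.card_univ, ZMod.card, nsmul_eq_mul]
  ring

end Pool.Agent.P07318w
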