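import Pool.Agent.Lib.P07318w.TTPrime
import Pool.Agent.Lib.P07318w.TTMul
import Pool.Agent.Lib.P07318m.DAux

/-!
# P07318w.TTBound: the bound for the ternary sum for moduli `a` with `Sfl M a`

Black boxes: `tt_prime`, `tt_mul`, `tt_triv`, and `pow_omega_le` of `P07318m.DAux` (`2^ω(a) ≤ C a^ε`; look there for the exact form).

PROOF. First let `r` be squarefree, `b` prime to `r`: by induction on `r` over its prime factors (`Nat.recOnPrimeCoprime`-type induction, or induction on the number of prime factors, removing one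
prime `p` with `r = p r'`) from `tt_mul` and `tt_prime`:
`‖TT r b k l m‖ ≤ ∏_{p | r} 2 p^(3/2) g_p`, `g_p = √p` if `p` divides one of `k, l, m` and `1` otherwise. (A unit factor does not change divisibility by `p`; the claim in the induction should be for all integers
`b, k, l, m` with `b` prime to `r`, written with casts of integers; the classes `(k : ZMod a1) * (a2)⁻¹` are casts of integers too, with the same divisibility by the primes `p | a1`.) Since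
`g_p ≤ √(gcd(p,k)) √(gcd(p,l)) √(gcd(p,m))` and `gcd` is multiplicative in coprime moduli: `‖TT r b k l m‖ ≤ 2^ω(r) r^(3/2) √(gcd(r,k) gcd(r,l) gcd(r,m))`.
In general `a = s r`, `s ≤ M`, `gcd(s, r) = 1`, `r` squarefree: `tt_mul`, `tt_triv` for `s`: `‖TT a‖ ≤ s^3 2^ω(r) r^(3/2) √(...) ≤ M^3 C a^ε a^(3/2) √(gcd(a,k) gcd(a,l) gcd(a,m))`
(`gcd(r,k) ≤ gcd(a,k)` because `gcd(r,k) | gcd(a,k)`, positive as `a ≥ 1`).
-/

set_option autoImplicit false

namespace Pool.Agent.P07318w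

namespace TTBoundAux

/-- splitting with integer classes -/
theorem tt_split {a1 a2 : ℕ} [NeZero a1] [NeZero a2] [NeZero (a1 * a2)] (h : a1.Coprime a2)
    (b k l m : ℤ) : ∃ e1 e2 : ℤ, IsCoprime e1 (a1 : ℤ) ∧ IsCoprime e2 (a2 : ℤ) ∧
      TT (a1 * a2) (b : ZMod (a1 * a2)) k l m =
        TT a1 ((b * e1 : ℤ) : ZMod a1) ((k * e1 : ℤ) : ZMod a1) ((l * e1 : ℤ) : ZMod a1)
          ((m * e1 : ℤ) : ZMod a1) *
        TT a2 ((b * e2 : ℤ) : ZMod a2) ((k * e2 : ℤ) : ZMod a2) ((l * e2 : ℤ) : ZMod a2)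
          ((m * e2 : ℤ) : ZMod a2) := by
  obtain ⟨e1, he1⟩ := ZMod.intCast_surjective ((a2 : ZMod a1)⁻¹)
  obtain ⟨e2, he2⟩ := ZMod.intCast_surjective ((a1 : ZMod a2)⁻¹)
  have hu1 : IsUnit (e1 : ZMod a1) := by
    rw [he1]
    exact IsUnit.of_mul_eq_one (a2 : ZMod a1)
      (by rw [mul_comm]; exact ZMod.coe_mul_inv_eq_one a2 h.symm)
  have hu2 : IsUnit (e2 : ZMod a2) := by
    rw [he2]
    exact IsUnit.of_mul_eq_one (a1 : ZMod a2)
      (by rw [mul_comm]; exact ZMod.coe_mul_inv_eq_one a1 h)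
  refine ⟨e1, e2, ((ZMod.coe_int_isUnit_iff_isCoprime e1 a1).1 hu1).symm,
    ((ZMod.coe_int_isUnit_iff_isCoprime e2 a2).1 hu2).symm, ?_⟩
  rw [tt_mul h]
  simp only [Int.cast_mul, he1, he2]

theorem gcd_unit {r : ℕ} {e : ℤ} (he : IsCoprime e (r : ℤ)) (k : ℤ) :
    Int.gcd r (k * e) = Int.gcd r k := by
  rw [Int.gcd_eq_natAbs, Int.gcd_eq_natAbs, Int.natAbs_mul]
  refine Nat.Coprime.gcd_mul_right_cancel_right _ ?_
  have := Int.isCoprime_iff_gcd_eq_one.1 he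
  rw [Int.gcd_eq_natAbs] at this
  exact this

/-- the product of the three gcds -/
noncomputable def gg3 (r : ℕ) (k l m : ℤ) : ℝ := (Int.gcd r k : ℝ) * (Int.gcd r l : ℝ) * (Int.gcd r m : ℝ)

theorem gg3_unit {r : ℕ} {e : ℤ} (he : IsCoprime e (r : ℤ)) (k l m : ℤ) :
    gg3 r (k * e) (l * e) (m * e) = gg3 r k l m := by
  unfold gg3
  rw [gcd_unit he, gcd_unit he, gcd_unit he]

theorem gg3_mul {a b : ℕ} (h : a.Coprime b) (k l m : ℤ) :
    gg3 (a * b) k l m = gg3 a k l m * gg3 b k l m := by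
  have h1 : ∀ k : ℤ, (Int.gcd ((a * b : ℕ) : ℤ) k : ℝ) = (Int.gcd a k : ℝ) * (Int.gcd b k : ℝ) := by
    intro k
    rw [Int.gcd_eq_natAbs, Int.gcd_eq_natAbs, Int.gcd_eq_natAbs, Int.natAbs_natCast,
      Int.natAbs_natCast, Int.natAbs_natCast, Nat.gcd_comm, Nat.Coprime.gcd_mul _ h, Nat.cast_mul,
      Nat.gcd_comm, Nat.gcd_comm _ b]
  unfold gg3
  rw [h1, h1, h1]
  ring

theorem gcd_pos' {r : ℕ} (hr : 1 ≤ r) (k : ℤ) : (1 : ℝ) ≤ (Int.gcd r k : ℝ) := by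
  have : 0 < Int.gcd r k := Int.gcd_pos_of_ne_zero_left _ (by exact_mod_cast (by omega : r ≠ 0))
  exact_mod_cast this

theorem one_le_gg3 {r : ℕ} (hr : 1 ≤ r) (k l m : ℤ) : 1 ≤ gg3 r k l m := by
  unfold gg3
  have h1 := gcd_pos' hr k
  have h2 := gcd_pos' hr l
  have h3 := gcd_pos' hr m
  exact one_le_mul_of_one_le_of_one_le (one_le_mul_of_one_le_of_one_le h1 h2) h3

theorem prime_gg3 {p : ℕ} (hp : p.Prime) (k l m : ℤ) (h : (k : ZMod p) = 0 ∨ (l : ZMod p) = 0 ∨ (m : ZMod p) = 0) :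
    (p : ℝ) ≤ gg3 p k l m := by
  have h0 : ∀ k : ℤ, (k : ZMod p) = 0 → (Int.gcd p k : ℝ) = p := by
    intro k hk
    have hd : (p : ℤ) ∣ k := (ZMod.intCast_zmod_eq_zero_iff_dvd k p).1 hk
    have : Int.gcd p k = p := by
      rw [Int.gcd_eq_natAbs, Int.natAbs_natCast]
      exact Nat.gcd_eq_left (Int.natCast_dvd.1 hd)
    rw [this]
  have hp1 : 1 ≤ p := hp.one_le
  have h1 := gcd_pos' hp1 k
  have h2 := gcd_pos' hp1 l
  have h3 := gcd_pos' hp1 m
  have hp0 : (0 : ℝ) ≤ p := Nat.cast_nonneg _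
  unfold gg3
  rcases h with h | h | h
  · rw [h0 k h, mul_assoc]
    exact le_mul_of_one_le_right hp0 (one_le_mul_of_one_le_of_one_le h2 h3)
  · rw [h0 l h, mul_comm (Int.gcd p k : ℝ), mul_assoc]
    exact le_mul_of_one_le_right hp0 (one_le_mul_of_one_le_of_one_le h1 h3)
  · rw [h0 m h]
    exact le_mul_of_one_le_left hp0 (one_le_mul_of_one_le_of_one_le h1 h2)

theorem sq_bound (r : ℕ) : Squarefree r → ∀ [NeZero r] (b k l m : ℤ), IsCoprime b (r : ℤ) →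
    ‖TT r (b : ZMod r) (k : ZMod r) (l : ZMod r) (m : ZMod r)‖ ≤
      2 ^ r.primeFactors.card * (r : ℝ) ^ (3 / 2 : ℝ) * Real.sqrt (gg3 r k l m) := by
  induction r using Nat.strong_induction_on with
  | _ r ih =>
  intro hsq _ b k l m hb
  by_cases h1 : r = 1
  · subst h1
    refine (tt_triv _ _ _ _).trans ?_
    have h2 := one_le_gg3 (le_refl 1) k l m
    have h3 : 1 ≤ Real.sqrt (gg3 1 k l m) := Real.one_le_sqrt.2 h2
    simpa using h3
  · obtain ⟨p, hp, r', rfl⟩ := Nat.exists_prime_and_dvd h1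
    have hne : NeZero (p * r') := inferInstance
    have hp0 : p ≠ 0 := hp.ne_zero
    have hr0 : r' ≠ 0 := by
      intro h
      exact hne.out (by rw [h, mul_zero])
    have hcop : p.Coprime r' := (Nat.squarefree_mul_iff.1 hsq).1
    have hsq' : Squarefree r' := (Nat.squarefree_mul_iff.1 hsq).2.2
    have : NeZero p := ⟨hp0⟩
    have : NeZero r' := ⟨hr0⟩
    have : Fact p.Prime := ⟨hp⟩
    obtain ⟨e1, e2, he1, he2, heq⟩ := tt_split hcop b k l m
    rw [heq, norm_mul]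
    have hbp : IsCoprime b (p : ℤ) := by
      rw [Nat.cast_mul] at hb
      exact hb.of_mul_right_left
    have hbr : IsCoprime b (r' : ℤ) := by
      rw [Nat.cast_mul] at hb
      exact hb.of_mul_right_right
    have hlt : r' < p * r' := by
      have := hp.one_lt
      calc r' = 1 * r' := (one_mul _).symm
        _ < p * r' := Nat.mul_lt_mul_of_pos_right this (Nat.pos_of_ne_zero hr0)
    have h2 := ih r' hlt hsq' (b * e2) (k * e2) (l * e2) (m * e2) (hbr.mul_left he2)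
    rw [gg3_unit he2] at h2
    have hb0 : ((b * e1 : ℤ) : ZMod p) ≠ 0 := by
      have h3 : IsCoprime (p : ℤ) (b * e1) := (hbp.mul_left he1).symm
      exact ((ZMod.coe_int_isUnit_iff_isCoprime _ _).2 h3).ne_zero
    have h3 := tt_prime hb0 ((k * e1 : ℤ) : ZMod p) ((l * e1 : ℤ) : ZMod p) ((m * e1 : ℤ) : ZMod p)
    have h4 : (if ((k * e1 : ℤ) : ZMod p) = 0 ∨ ((l * e1 : ℤ) : ZMod p) = 0 ∨ ((m * e1 : ℤ) : ZMod p) = 0
        then Real.sqrt p else 1) ≤ Real.sqrt (gg3 p k l m) := by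
      rw [← gg3_unit he1]
      split_ifs with hc
      · exact Real.sqrt_le_sqrt (prime_gg3 hp _ _ _ hc)
      · exact Real.one_le_sqrt.2 (one_le_gg3 hp.one_le _ _ _)
    have h5 : ‖TT p ((b * e1 : ℤ) : ZMod p) ((k * e1 : ℤ) : ZMod p) ((l * e1 : ℤ) : ZMod p)
          ((m * e1 : ℤ) : ZMod p)‖ ≤ 2 * (p : ℝ) ^ (3 / 2 : ℝ) * Real.sqrt (gg3 p k l m) :=
      h3.trans (mul_le_mul_of_nonneg_left h4 (by positivity))
    have hcard : (p * r').primeFactors.card = r'.primeFactors.card + 1 := by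
      rw [hcop.primeFactors_mul, Finset.card_union_of_disjoint hcop.disjoint_primeFactors,
        hp.primeFactors, Finset.card_singleton, add_comm]
    have hg : 0 ≤ gg3 p k l m := zero_le_one.trans (one_le_gg3 hp.one_le _ _ _)
    rw [hcard, gg3_mul hcop, Real.sqrt_mul hg, Nat.cast_mul, Real.mul_rpow (by positivity) (by positivity)]
    calc _ ≤ (2 * (p : ℝ) ^ (3 / 2 : ℝ) * Real.sqrt (gg3 p k l m)) *
          (2 ^ r'.primeFactors.card * (r' : ℝ) ^ (3 / 2 : ℝ) * Real.sqrt (gg3 r' k l m)) :=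
          mul_le_mul h5 h2 (norm_nonneg _) (by positivity)
      _ = _ := by ring

end TTBoundAux

open TTBoundAux

theorem tt_bound (M : ℕ) (ε : ℝ) (hε : 0 < ε) : ∃ C : ℝ, 0 < C ∧ ∀ (a : ℕ) [NeZero a] (b k l m : ℤ), Sfl M a →
    IsCoprime b (a : ℤ) →
    ‖TT a (b : ZMod a) (k : ZMod a) (l : ZMod a) (m : ZMod a)‖ ≤ C * (a : ℝ) ^ (3 / 2 + ε) *
      Real.sqrt ((Int.gcd a k : ℝ) * (Int.gcd a l : ℝ) * (Int.gcd a m : ℝ)) := by
  obtain ⟨C, hC1, hC⟩ := Pool.Agent.P07318m.pow_omega_le ε hε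
  refine ⟨((M : ℝ) + 1) ^ 3 * C, by positivity, ?_⟩
  intro a hna b k l m ⟨s, hsM, ⟨r, hr⟩, hcop, hsqf⟩ hb
  have ha0 : a ≠ 0 := hna.out
  have hs0 : s ≠ 0 := by
    intro h
    exact ha0 (by rw [hr, h, zero_mul])
  have hr0 : r ≠ 0 := by
    intro h
    exact ha0 (by rw [hr, h, mul_zero])
  have hdiv : a / s = r := by
    rw [hr]
    exact Nat.mul_div_cancel_left r (Nat.pos_of_ne_zero hs0)
  rw [hdiv] at hcop hsqf
  subst hr
  have : NeZero s := ⟨hs0⟩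
  have : NeZero r := ⟨hr0⟩
  obtain ⟨e1, e2, he1, he2, heq⟩ := tt_split hcop b k l m
  rw [heq, norm_mul]
  have hbr : IsCoprime b (r : ℤ) := by
    rw [Nat.cast_mul] at hb
    exact hb.of_mul_right_right
  have h2 := sq_bound r hsqf (b * e2) (k * e2) (l * e2) (m * e2) (hbr.mul_left he2)
  rw [gg3_unit he2] at h2
  have h1 := tt_triv ((b * e1 : ℤ) : ZMod s) ((k * e1 : ℤ) : ZMod s) ((l * e1 : ℤ) : ZMod s)
    ((m * e1 : ℤ) : ZMod s)
  have hsM' : (s : ℝ) ^ 3 ≤ ((M : ℝ) + 1) ^ 3 := by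
    have : (s : ℝ) ≤ (M : ℝ) + 1 := by
      have : (s : ℝ) ≤ (M : ℝ) := by exact_mod_cast hsM
      linarith
    exact pow_le_pow_left₀ (Nat.cast_nonneg _) this 3
  have hr1 : 1 ≤ r := Nat.one_le_iff_ne_zero.2 hr0
  have hs1 : 1 ≤ s := Nat.one_le_iff_ne_zero.2 hs0
  have h3 : (2 : ℝ) ^ r.primeFactors.card ≤ C * ((s * r : ℕ) : ℝ) ^ ε := by
    refine (hC r hr1).trans (mul_le_mul_of_nonneg_left ?_ (by linarith))
    refine Real.rpow_le_rpow (Nat.cast_nonneg _) ?_ hε.le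
    exact_mod_cast Nat.le_mul_of_pos_left r (by omega)
  have h4 : (r : ℝ) ^ (3 / 2 : ℝ) ≤ ((s * r : ℕ) : ℝ) ^ (3 / 2 : ℝ) := by
    refine Real.rpow_le_rpow (Nat.cast_nonneg _) ?_ (by norm_num)
    exact_mod_cast Nat.le_mul_of_pos_left r (by omega)
  have h5 : Real.sqrt (gg3 r k l m) ≤ Real.sqrt (gg3 (s * r) k l m) := by
    refine Real.sqrt_le_sqrt ?_
    rw [gg3_mul hcop]
    exact le_mul_of_one_le_left (zero_le_one.trans (one_le_gg3 hr1 _ _ _)) (one_le_gg3 hs1 _ _ _)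
  have hpos : (0 : ℝ) < ((s * r : ℕ) : ℝ) := by
    have : 0 < s * r := Nat.mul_pos (by omega) (by omega)
    exact_mod_cast this
  have h6 : ((s * r : ℕ) : ℝ) ^ (3 / 2 + ε) = ((s * r : ℕ) : ℝ) ^ (3 / 2 : ℝ) * ((s * r : ℕ) : ℝ) ^ ε :=
    Real.rpow_add hpos _ _
  rw [h6]
  have hC0 : 0 ≤ C := by linarith
  have hR : 0 ≤ C * ((s * r : ℕ) : ℝ) ^ ε := by positivity
  calc _ ≤ ((M : ℝ) + 1) ^ 3 *
        ((C * ((s * r : ℕ) : ℝ) ^ ε) * ((s * r : ℕ) : ℝ) ^ (3 / 2 : ℝ) * Real.sqrt (gg3 (s * r) k l m)) := by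
        refine mul_le_mul (h1.trans hsM') (h2.trans ?_) (norm_nonneg _) (by positivity)
        refine mul_le_mul (mul_le_mul h3 h4 (by positivity) hR) h5 (Real.sqrt_nonneg _) ?_
        positivity
    _ = _ := by
        unfold gg3
        ring

end Pool.Agent.P07318w
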