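import Pool.Agent.Lib.P07318w.HFe
import Pool.Agent.Lib.P07318w.GammaB
import Pool.Agent.Lib.P07318w.GcdSum
import Pool.Agent.Lib.P07318w.TTBound

/-!
# P07318w.HLeft: the function `Hf` to the left of the critical strip

Black boxes: `hf_fe` (HFe), `gamma_bound`, `gcd_sum`, `tt_bound`, and `tau_le` of `P07318m.DAux` (`d(a) ≤ C a^ε`).

PROOF. `w = 1 - z`, `Re w = 1 + c`, `|Im w| = |Im z|`. By the definition of `ff`: `UU a b k l m = TT a b (-k) (-l) (-m) - (1/φ(a)) ∑_{u unit} TT a u (-k) (-l) (-m)` (`AddChar.map_add_eq_mul`; `-(b n) + ...`), and every unit `u` of `ZMod a` is the class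
of an integer prime to `a`, so by `tt_bound M ε'`: `‖UU a b k l m‖ ≤ 2 C a^(3/2+ε') √(gcd(a,k) gcd(a,l) gcd(a,m))` for all integers `k, l, m` (`Int.gcd a (-k) = Nat.gcd a k.natAbs`). Apply `hf_fe` with `g(k) = √(Nat.gcd a k)`,
`A = 2 C a^(3/2+ε')`, `B = C' d(a) ≤ C'' a^ε'` (`gcd_sum c`: `(k+1)^(-1-c) = (k+1)^(-Re w)`; `tau_le`). `‖a^(w-1)‖ = a^c`, `‖(2π)^(-w)‖ ≤ 1`, `‖Γ(w)‖ exp(π|v|/2) ≤ C (1+|v|)` by `gamma_bound` (`1/2 ≤ 1 + c ≤ 3/2`). So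
`‖Hf‖ ≤ 8 (a^c C (1+|v|))^3 · 2 C a^(3/2+ε') (C'' a^ε')^3`, take `ε' = ε/4`.
-/

set_option autoImplicit false

open Complex

namespace Pool.Agent.P07318w

lemma sum_rot {α β : Type*} [Fintype α] [Fintype β] (F : α → α → α → β → ℂ) :
    ∑ r, ∑ s, ∑ t, ∑ u, F r s t u = ∑ u, ∑ r, ∑ s, ∑ t, F r s t u := by
  calc ∑ r, ∑ s, ∑ t, ∑ u, F r s t u = ∑ r, ∑ s, ∑ u, ∑ t, F r s t u :=
        Finset.sum_congr rfl fun r _ => Finset.sum_congr rfl fun s _ => Finset.sum_comm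
    _ = ∑ r, ∑ u, ∑ s, ∑ t, F r s t u := Finset.sum_congr rfl fun r _ => Finset.sum_comm
    _ = ∑ u, ∑ r, ∑ s, ∑ t, F r s t u := Finset.sum_comm

lemma UU_eq (a : ℕ) [NeZero a] (b k l m : ZMod a) : UU a b k l m =
    TT a b (-k) (-l) (-m) - (1 / (a.totient : ℂ)) * ∑ u : (ZMod a)ˣ, TT a (u : ZMod a) (-k) (-l) (-m) := by
  have h1 : ∀ (u r s t : ZMod a), ZMod.stdAddChar (-(u * (r * s * t))) *
      ZMod.stdAddChar (-(r * k + s * l + t * m)) =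
      (ZMod.stdAddChar (-(u * r * s * t) + -k * r + -l * s + -m * t) : ℂ) := by
    intro u r s t
    rw [← AddChar.map_add_eq_mul]
    congr 1
    ring
  have h2 : ∀ r s t : ZMod a, ff a b (r * s * t) * ZMod.stdAddChar (-(r * k + s * l + t * m)) =
      ZMod.stdAddChar (-(b * r * s * t) + -k * r + -l * s + -m * t) - (1 / (a.totient : ℂ)) *
        ∑ u : (ZMod a)ˣ, ZMod.stdAddChar (-((u : ZMod a) * r * s * t) + -k * r + -l * s + -m * t) := by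
    intro r s t
    unfold ff
    rw [sub_mul, h1, mul_assoc (1 / (a.totient : ℂ)), Finset.sum_mul]
    congr 2
    exact Finset.sum_congr rfl fun u _ => h1 _ r s t
  unfold UU TT
  simp only [h2, Finset.sum_sub_distrib]
  congr 1
  simp only [← Finset.mul_sum]
  congr 1
  exact sum_rot _

lemma norm_UU_le {a : ℕ} [NeZero a] {b : ℕ} (hab : b.Coprime a) {M : ℕ} (_hM : Sfl M a) {ε C : ℝ}
    (hC : ∀ (b k l m : ℤ), IsCoprime b (a : ℤ) →
      ‖TT a (b : ZMod a) (k : ZMod a) (l : ZMod a) (m : ZMod a)‖ ≤ C * (a : ℝ) ^ (3 / 2 + ε) *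
      Real.sqrt ((Int.gcd a k : ℝ) * (Int.gcd a l : ℝ) * (Int.gcd a m : ℝ))) (k l m : ℤ) :
    ‖UU a (b : ZMod a) (k : ZMod a) (l : ZMod a) (m : ZMod a)‖ ≤
      2 * C * (a : ℝ) ^ (3 / 2 + ε) * Real.sqrt (Nat.gcd a k.natAbs) * Real.sqrt (Nat.gcd a l.natAbs) *
        Real.sqrt (Nat.gcd a m.natAbs) := by
  set S : ℝ := C * (a : ℝ) ^ (3 / 2 + ε) *
      Real.sqrt ((Int.gcd a k : ℝ) * (Int.gcd a l : ℝ) * (Int.gcd a m : ℝ)) with hS
  have h1 : ∀ c : ℤ, IsCoprime c (a : ℤ) →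
      ‖TT a (c : ZMod a) (-(k : ZMod a)) (-(l : ZMod a)) (-(m : ZMod a))‖ ≤ S := by
    intro c hc
    have := hC c (-k) (-l) (-m) hc
    push_cast at this
    simpa only [Int.gcd_neg, hS] using this
  have h2 : ‖TT a (b : ZMod a) (-(k : ZMod a)) (-(l : ZMod a)) (-(m : ZMod a))‖ ≤ S := by
    have := h1 (b : ℤ) (Nat.isCoprime_iff_coprime.2 hab)
    rwa [Int.cast_natCast] at this
  have h3 : ∀ u : (ZMod a)ˣ,
      ‖TT a (u : ZMod a) (-(k : ZMod a)) (-(l : ZMod a)) (-(m : ZMod a))‖ ≤ S := by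
    intro u
    have := h1 ((u : ZMod a).val : ℤ) (Nat.isCoprime_iff_coprime.2 (ZMod.val_coe_unit_coprime u))
    rwa [Int.cast_natCast, ZMod.natCast_zmod_val] at this
  have hphi : 0 < (a.totient : ℝ) := by
    exact_mod_cast Nat.totient_pos.2 (NeZero.pos a)
  have h4 : ‖(1 / (a.totient : ℂ)) * ∑ u : (ZMod a)ˣ,
      TT a (u : ZMod a) (-(k : ZMod a)) (-(l : ZMod a)) (-(m : ZMod a))‖ ≤ S := by
    rw [norm_mul, norm_div, norm_one, Complex.norm_natCast]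
    have h5 : ‖∑ u : (ZMod a)ˣ, TT a (u : ZMod a) (-(k : ZMod a)) (-(l : ZMod a)) (-(m : ZMod a))‖ ≤
        a.totient * S := by
      refine (norm_sum_le _ _).trans ((Finset.sum_le_sum fun u _ => h3 u).trans ?_)
      rw [Finset.sum_const, Finset.card_univ, ZMod.card_units_eq_totient, nsmul_eq_mul]
    rw [one_div, inv_mul_le_iff₀ hphi]
    exact h5
  have h5 : S = C * (a : ℝ) ^ (3 / 2 + ε) * (Real.sqrt (Nat.gcd a k.natAbs) *
      Real.sqrt (Nat.gcd a l.natAbs) * Real.sqrt (Nat.gcd a m.natAbs)) := by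
    rw [hS, Real.sqrt_mul (by positivity), Real.sqrt_mul (by positivity)]
    simp only [Int.gcd_def, Int.natAbs_natCast]
  rw [UU_eq]
  refine (norm_sub_le _ _).trans ((add_le_add h2 h4).trans (le_of_eq ?_))
  rw [h5]
  ring

theorem hf_left (M : ℕ) (c ε : ℝ) (hc : 0 < c) (hc' : c ≤ 1 / 4) (hε : 0 < ε) : ∃ C : ℝ, 0 < C ∧
    ∀ (a : ℕ) [NeZero a] (b : ℕ) (z : ℂ), Sfl M a → b.Coprime a → z.re = -c →
    ‖Hf a (b : ZMod a) z‖ ≤ C * (a : ℝ) ^ (3 / 2 + 3 * c + ε) * (1 + |z.im|) ^ 3 := by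
  obtain ⟨C1, hC1, hT⟩ := tt_bound M (ε / 4) (by linarith)
  obtain ⟨C2, hC2, hG⟩ := gcd_sum c hc
  obtain ⟨C3, hC3, hD⟩ := Pool.Agent.P07318m.tau_le (ε / 4) (by linarith)
  obtain ⟨C4, hC4, hGam⟩ := gamma_bound
  have hC3' : 0 < C3 := by linarith
  refine ⟨16 * C4 ^ 3 * C1 * (C2 * C3) ^ 3, by positivity, ?_⟩
  intro a _ b z hSf hab hz
  have ha0 : 0 < a := NeZero.pos a
  have ha : (0 : ℝ) < a := by exact_mod_cast ha0
  have ha1 : (1 : ℝ) ≤ a := by exact_mod_cast ha0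
  set w : ℂ := 1 - z with hw
  have hwre : w.re = 1 + c := by
    rw [hw, Complex.sub_re, Complex.one_re, hz]
    ring
  have hwim : |w.im| = |z.im| := by
    rw [hw, Complex.sub_im, Complex.one_im, zero_sub, abs_neg]
  have hzw : z = 1 - w := by rw [hw]; ring
  have hb : IsUnit ((b : ℕ) : ZMod a) := (ZMod.isUnit_iff_coprime b a).2 hab
  have hexp : -w.re = -1 - c := by rw [hwre]; ring
  have hGa := hG a ha0
  have key := hf_fe (a := a) (b := (b : ZMod a)) hb (w := w) (by rw [hwre]; linarith)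
    (fun k => Real.sqrt (Nat.gcd a k)) (fun k => Real.sqrt_nonneg _)
    (A := 2 * C1 * (a : ℝ) ^ (3 / 2 + ε / 4)) (B := C2 * (C3 * (a : ℝ) ^ (ε / 4)))
    (by positivity) (by
      rw [hexp]
      exact hGa.1) (by
      rw [hexp]
      refine hGa.2.trans ?_
      gcongr
      exact hD a ha0)
    (norm_UU_le hab hSf fun b' k l m hb' => hT a b' k l m hSf hb')
  rw [hzw]
  refine key.trans ?_
  have hn1 : ‖(a : ℂ) ^ (w - 1)‖ = (a : ℝ) ^ c := by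
    rw [Complex.norm_natCast_cpow_of_pos ha0]
    congr 1
    rw [Complex.sub_re, Complex.one_re, hwre]
    ring
  have hn2 : ‖(2 * Real.pi : ℂ) ^ (-w)‖ ≤ 1 := by
    have h1 : (2 * Real.pi : ℂ) = ((2 * Real.pi : ℝ) : ℂ) := by push_cast; rfl
    rw [h1, Complex.norm_cpow_eq_rpow_re_of_pos (by positivity), Complex.neg_re, hwre]
    refine Real.rpow_le_one_of_one_le_of_nonpos ?_ (by linarith)
    have := Real.pi_gt_three
    linarith
  have hn3 : ‖Complex.Gamma w‖ * Real.exp (Real.pi * |w.im| / 2) ≤ C4 * (1 + |w.im|) :=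
    hGam w (by rw [hwre]; linarith) (by rw [hwre]; linarith)
  have hprod : ‖(a : ℂ) ^ (w - 1) * (2 * Real.pi : ℂ) ^ (-w) * Complex.Gamma w‖ *
      Real.exp (Real.pi * |w.im| / 2) ≤ (a : ℝ) ^ c * (C4 * (1 + |z.im|)) := by
    rw [norm_mul, norm_mul, hn1]
    calc (a : ℝ) ^ c * ‖(2 * Real.pi : ℂ) ^ (-w)‖ * ‖Complex.Gamma w‖ *
        Real.exp (Real.pi * |w.im| / 2) =
        (a : ℝ) ^ c * ‖(2 * Real.pi : ℂ) ^ (-w)‖ * (‖Complex.Gamma w‖ *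
        Real.exp (Real.pi * |w.im| / 2)) := by ring
      _ ≤ (a : ℝ) ^ c * 1 * (C4 * (1 + |w.im|)) := by gcongr
      _ = _ := by rw [hwim]; ring
  have hpos : 0 ≤ ‖(a : ℂ) ^ (w - 1) * (2 * Real.pi : ℂ) ^ (-w) * Complex.Gamma w‖ *
      Real.exp (Real.pi * |w.im| / 2) := by positivity
  have him : |(1 - w).im| = |z.im| := by rw [← hzw]
  rw [him]
  have hpow : ((a : ℝ) ^ c) ^ 3 * ((a : ℝ) ^ (3 / 2 + ε / 4) * ((a : ℝ) ^ (ε / 4)) ^ 3) =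
      (a : ℝ) ^ (3 / 2 + 3 * c + ε) := by
    rw [← Real.rpow_natCast ((a : ℝ) ^ c), ← Real.rpow_natCast ((a : ℝ) ^ (ε / 4)),
      ← Real.rpow_mul ha.le, ← Real.rpow_mul ha.le, ← Real.rpow_add ha, ← Real.rpow_add ha]
    congr 1
    push_cast
    ring
  calc 8 * (‖(a : ℂ) ^ (w - 1) * (2 * Real.pi : ℂ) ^ (-w) * Complex.Gamma w‖ *
      Real.exp (Real.pi * |w.im| / 2)) ^ 3 *
      (2 * C1 * (a : ℝ) ^ (3 / 2 + ε / 4) * (C2 * (C3 * (a : ℝ) ^ (ε / 4))) ^ 3) ≤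
      8 * ((a : ℝ) ^ c * (C4 * (1 + |z.im|))) ^ 3 *
      (2 * C1 * (a : ℝ) ^ (3 / 2 + ε / 4) * (C2 * (C3 * (a : ℝ) ^ (ε / 4))) ^ 3) := by
        gcongr
    _ = 16 * C4 ^ 3 * C1 * (C2 * C3) ^ 3 *
        (((a : ℝ) ^ c) ^ 3 * ((a : ℝ) ^ (3 / 2 + ε / 4) * ((a : ℝ) ^ (ε / 4)) ^ 3)) *
        (1 + |z.im|) ^ 3 := by ring
    _ = _ := by rw [hpow]

end Pool.Agent.P07318w
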