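import Mathlib

/-!
# P07318w.LGrow: polynomial growth of the L-function of a function of mean zero

Mathlib only (`ZMod.LFunction`).

PROOF. Let `S(k) = ∑_{n ≤ k} Φ(n)`; as `∑ Φ = 0`, `S` is periodic of period `a`; let `m` be its mean value over a period and `T(k) = ∑_{1 ≤ j ≤ k} (S(j) - m)`, again periodic, so bounded. For `Re z > 1`,
`LFunction Φ z = ∑_{n ≥ 1} Φ(n) n^(-z) = ∑_{k ≥ 1} S(k) (k^(-z) - (k+1)^(-z)) - Φ(0)·1`-type boundary term (Abel summation; take `S(k) = ∑_{1 ≤ n ≤ k} Φ(n)`, then there is no boundary term)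
`= m + ∑_{k ≥ 1} (S(k) - m) (k^(-z) - (k+1)^(-z))`, and by a second Abel summation
`= m + ∑_{k ≥ 1} T(k) (k^(-z) - 2 (k+1)^(-z) + (k+2)^(-z))`. The second difference is `∫_0^1 ∫_0^1 z (z+1) (k+x+y)^(-z-2) dx dy` (or use the mean value inequality twice), of norm at most
`‖z‖ ‖z+1‖ k^(-Re z - 2)`. So the last series converges absolutely and locally uniformly for `Re z > -1`, is analytic there, and equals `LFunction Φ z` there by the identity theorem
(`ZMod.differentiable_LFunction_of_sum_zero`, `ZMod.LFunction_eq_LSeries`, `AnalyticOnNhd.eqOn_of_preconnected_of_eventuallyEq`; the same pattern with one Abel summation is in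
`Pool/Agent/Lib/P5632c9/AbelL.lean`: `differentiableOn_abel`, `LFunction_eq_abel`). For `-1/4 ≤ Re z ≤ 3` this gives the bound.
-/

set_option autoImplicit false

namespace Pool.Agent.P07318w

namespace LGrowAux

open Finset Complex Filter Topology

/-! ### Periodic sequences -/

lemma sum_shift {a : ℕ} {g : ℕ → ℂ} (hg : ∀ k, g (k + a) = g k) (k : ℕ) :
    ∑ j ∈ range a, g (k + j) = ∑ j ∈ range a, g j := by
  induction k with
  | zero => simp
  | succ k ih =>
    rw [← ih]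
    have h1 := sum_range_succ (fun j => g (k + j)) a
    have h2 := sum_range_succ' (fun j => g (k + j)) a
    rw [h1] at h2
    simp only [add_zero, hg] at h2
    have h3 : ∑ j ∈ range a, g (k + 1 + j) = ∑ j ∈ range a, g (k + (j + 1)) :=
      sum_congr rfl fun j _ => by rw [add_right_comm, add_assoc]
    rw [h3]
    exact (add_right_cancel h2).symm

lemma psum_periodic {a : ℕ} {g : ℕ → ℂ} (hg : ∀ k, g (k + a) = g k)
    (h0 : ∑ j ∈ range a, g j = 0) (k : ℕ) :
    ∑ j ∈ range (k + a), g j = ∑ j ∈ range k, g j := by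
  rw [sum_range_add, sum_shift hg, h0, add_zero]

lemma periodic_bdd {a : ℕ} (ha : 0 < a) {g : ℕ → ℂ} (hg : ∀ k, g (k + a) = g k) :
    ∃ B : ℝ, 0 ≤ B ∧ ∀ k, ‖g k‖ ≤ B := by
  refine ⟨∑ j ∈ range a, ‖g j‖, sum_nonneg fun _ _ => norm_nonneg _, fun k => ?_⟩
  have h1 : g (k % a) = g k := Function.Periodic.map_mod_nat hg k
  rw [← h1]
  exact single_le_sum (f := fun j => ‖g j‖) (fun _ _ => norm_nonneg _)
    (mem_range.mpr (Nat.mod_lt _ ha))

lemma sum_range_zmod (N : ℕ) [NeZero N] (g : ZMod N → ℂ) :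
    ∑ j ∈ range N, g (j : ZMod N) = ∑ a, g a := by
  refine Finset.sum_bij' (fun j _ => (j : ZMod N)) (fun a _ => a.val) ?_ ?_ ?_ ?_ ?_
  · intro a _; exact mem_univ _
  · intro a _; exact mem_range.mpr (ZMod.val_lt a)
  · intro a ha; exact ZMod.val_cast_of_lt (mem_range.mp ha)
  · intro a _; exact ZMod.natCast_zmod_val a
  · intro a _; rfl

/-! ### Differences of powers -/

lemma hasDeriv_cpow {w : ℂ} {x : ℝ} (hx : 0 < x) :
    HasDerivAt (fun y : ℝ => (y : ℂ) ^ w) (w * (x : ℂ) ^ (w - 1)) x := by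
  have h1 : HasDerivAt (fun z : ℂ => z ^ w) (w * (x : ℂ) ^ (w - 1)) (x : ℂ) := by
    have := (hasDerivAt_id (x : ℂ)).cpow_const (c := w) (Or.inl (by simpa using hx))
    simpa using this
  exact h1.comp_ofReal

lemma norm_diff_le {w : ℂ} (hw : w.re ≤ 1) {x : ℝ} (hx : 0 < x) :
    ‖(x : ℂ) ^ w - ((x + 1 : ℝ) : ℂ) ^ w‖ ≤ ‖w‖ * x ^ (w.re - 1) := by
  have hder : ∀ y ∈ Set.Icc x (x + 1), HasDerivWithinAt (fun y : ℝ => (y : ℂ) ^ w)
      (w * (y : ℂ) ^ (w - 1)) (Set.Icc x (x + 1)) y := fun y hy =>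
    (hasDeriv_cpow (lt_of_lt_of_le hx hy.1)).hasDerivWithinAt
  have hbound : ∀ y ∈ Set.Icc x (x + 1), ‖w * (y : ℂ) ^ (w - 1)‖ ≤ ‖w‖ * x ^ (w.re - 1) := by
    intro y hy
    have hy0 : 0 < y := lt_of_lt_of_le hx hy.1
    rw [norm_mul, Complex.norm_cpow_eq_rpow_re_of_pos hy0]
    have : (w - 1).re = w.re - 1 := by simp
    rw [this]
    exact mul_le_mul_of_nonneg_left
      (Real.rpow_le_rpow_of_nonpos hx hy.1 (by linarith)) (norm_nonneg _)
  have := (convex_Icc x (x + 1)).norm_image_sub_le_of_norm_hasDerivWithin_le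
    (𝕜 := ℝ) hder hbound (x := x + 1) (y := x) (by constructor <;> linarith)
    (by constructor <;> linarith)
  have e : ‖x - (x + 1)‖ = 1 := by
    rw [show x - (x + 1) = -1 by ring]; simp
  rw [e, mul_one] at this
  exact this

/-- second difference -/
noncomputable def hh (k : ℕ) (z : ℂ) : ℂ :=
  ((k + 1 : ℂ) ^ (-z) - (k + 2 : ℂ) ^ (-z)) - ((k + 2 : ℂ) ^ (-z) - (k + 3 : ℂ) ^ (-z))

lemma norm_hh_le (k : ℕ) {z : ℂ} (hz : -1 ≤ z.re) :
    ‖hh k z‖ ≤ ‖z‖ * ‖z + 1‖ * (k + 1 : ℝ) ^ (-z.re - 2) := by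
  have hder : ∀ y ∈ Set.Icc (k + 1 : ℝ) (k + 2),
      HasDerivWithinAt (fun y : ℝ => (y : ℂ) ^ (-z) - ((y + 1 : ℝ) : ℂ) ^ (-z))
      ((-z) * (y : ℂ) ^ (-z - 1) - (-z) * ((y + 1 : ℝ) : ℂ) ^ (-z - 1))
      (Set.Icc (k + 1 : ℝ) (k + 2)) y := by
    intro y hy
    have hy0 : 0 < y := lt_of_lt_of_le (by positivity) hy.1
    have h1 := hasDeriv_cpow (w := -z) hy0
    have h2 := hasDeriv_cpow (w := -z) (show 0 < y + 1 by linarith)
    have h3 : HasDerivAt (fun y : ℝ => ((y + 1 : ℝ) : ℂ) ^ (-z))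
        ((-z) * ((y + 1 : ℝ) : ℂ) ^ (-z - 1)) y := by
      have := h2.comp_add_const y 1
      exact this
    exact (h1.sub h3).hasDerivWithinAt
  have hbound : ∀ y ∈ Set.Icc (k + 1 : ℝ) (k + 2),
      ‖(-z) * (y : ℂ) ^ (-z - 1) - (-z) * ((y + 1 : ℝ) : ℂ) ^ (-z - 1)‖ ≤
        ‖z‖ * ‖z + 1‖ * (k + 1 : ℝ) ^ (-z.re - 2) := by
    intro y hy
    have hy0 : 0 < y := lt_of_lt_of_le (by positivity) hy.1
    rw [← mul_sub, norm_mul, norm_neg, mul_assoc]
    refine mul_le_mul_of_nonneg_left ?_ (norm_nonneg _)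
    have h1 := norm_diff_le (w := -z - 1) (by simp; linarith) hy0
    have h2 : ‖-z - 1‖ = ‖z + 1‖ := by
      rw [← norm_neg]
      congr 1
      ring
    have h3 : (-z - 1).re - 1 = -z.re - 2 := by
      simp
      ring
    rw [h2, h3] at h1
    refine h1.trans (mul_le_mul_of_nonneg_left ?_ (norm_nonneg _))
    exact Real.rpow_le_rpow_of_nonpos (by positivity) hy.1 (by linarith)
  have := (convex_Icc (k + 1 : ℝ) (k + 2)).norm_image_sub_le_of_norm_hasDerivWithin_le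
    (𝕜 := ℝ) hder hbound (x := (k + 2 : ℝ)) (y := (k + 1 : ℝ)) (by constructor <;> linarith)
    (by constructor <;> linarith)
  have e : ‖((k : ℝ) + 1) - (k + 2)‖ = 1 := by
    rw [show ((k : ℝ) + 1) - (k + 2) = -1 by ring]; simp
  rw [e, mul_one] at this
  unfold hh
  have e2 : ((((k : ℝ) + 1 : ℝ) : ℂ)) = (k + 1 : ℂ) := by push_cast; ring
  have e3 : ((((k : ℝ) + 1 + 1 : ℝ) : ℂ)) = (k + 2 : ℂ) := by push_cast; ring
  have e4 : ((((k : ℝ) + 2 : ℝ) : ℂ)) = (k + 2 : ℂ) := by push_cast; ring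
  have e5 : ((((k : ℝ) + 2 + 1 : ℝ) : ℂ)) = (k + 3 : ℂ) := by push_cast; ring
  rw [e2, e3, e4, e5] at this
  exact this

lemma summable_shift_rpow {b : ℝ} (hb : 0 < b) :
    Summable (fun k : ℕ => (k + 1 : ℝ) ^ (-b - 1)) := by
  have h : Summable (fun k : ℕ => (k : ℝ) ^ (-b - 1)) :=
    Real.summable_nat_rpow.mpr (by linarith)
  have := (summable_nat_add_iff 1).mpr h
  simpa using this

lemma tendsto_cpow {z : ℂ} (hz : 0 < z.re) (m : ℕ) :
    Tendsto (fun K : ℕ => ((K + m + 1 : ℕ) : ℂ) ^ (-z)) atTop (𝓝 0) := by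
  rw [tendsto_zero_iff_norm_tendsto_zero]
  have h6 : Tendsto (fun K : ℕ => ((K + m + 1 : ℕ) : ℝ) ^ (-z.re)) atTop (𝓝 0) :=
    (tendsto_rpow_neg_atTop hz).comp
      (tendsto_natCast_atTop_atTop.comp (tendsto_add_atTop_nat (m + 1)))
  refine h6.congr fun K => ?_
  have e : ((K + m + 1 : ℕ) : ℂ) = (((K + m + 1 : ℕ) : ℝ) : ℂ) := by push_cast; ring
  rw [e, Complex.norm_cpow_eq_rpow_re_of_pos (by positivity)]
  simp

section

variable {c T : ℕ → ℂ} {B : ℝ}

lemma summable_T (hB : 0 ≤ B) (hT : ∀ k, ‖T k‖ ≤ B) {z : ℂ} (hz : -1 < z.re) :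
    Summable (fun k => T (k + 1) * hh k z) := by
  have h1 := summable_shift_rpow (b := z.re + 1) (by linarith)
  refine Summable.of_norm_bounded (h1.mul_left (B * (‖z‖ * ‖z + 1‖))) fun k => ?_
  rw [norm_mul]
  have h2 := norm_hh_le k hz.le
  have e : -(z.re + 1) - 1 = -z.re - 2 := by ring
  rw [e]
  calc ‖T (k + 1)‖ * ‖hh k z‖ ≤ B * (‖z‖ * ‖z + 1‖ * (k + 1 : ℝ) ^ (-z.re - 2)) :=
        mul_le_mul (hT _) h2 (norm_nonneg _) hB
    _ = _ := by ring

lemma differentiableOn_T (hB : 0 ≤ B) (hT : ∀ k, ‖T k‖ ≤ B) :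
    DifferentiableOn ℂ (fun z => ∑' k, T (k + 1) * hh k z) {z : ℂ | -1 < z.re} := by
  intro s hs
  have hs' : -1 < s.re := hs
  let U : Set ℂ := {z : ℂ | (s.re - 1) / 2 < z.re} ∩ Metric.ball s 1
  have hU : IsOpen U := (isOpen_lt continuous_const Complex.continuous_re).inter Metric.isOpen_ball
  have hsU : s ∈ U := ⟨by show (s.re - 1) / 2 < s.re; linarith, Metric.mem_ball_self one_pos⟩
  have hd : DifferentiableOn ℂ (fun z => ∑' k, T (k + 1) * hh k z) U := by
    refine differentiableOn_tsum_of_summable_norm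
      (u := fun k : ℕ => B * ((‖s‖ + 1) * (‖s‖ + 2)) *
        (k + 1 : ℝ) ^ (-((s.re + 1) / 2) - 1))
      ((summable_shift_rpow (by linarith)).mul_left _) ?_ hU ?_
    · intro k z hz
      refine DifferentiableAt.differentiableWithinAt ?_
      have hd0 : ∀ m : ℕ, DifferentiableAt ℂ (fun z : ℂ => ((k + (m + 1) : ℕ) : ℂ) ^ (-z)) z := by
        intro m
        refine DifferentiableAt.const_cpow (differentiableAt_id.neg) (Or.inl ?_)
        exact_mod_cast (by omega : k + (m + 1) ≠ 0)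
      have h1 := hd0 0
      have h2 := hd0 1
      have h3 := hd0 2
      push_cast at h1 h2 h3
      norm_num at h1 h2 h3
      unfold hh
      exact ((h1.sub h2).sub (h2.sub h3)).const_mul _
    · intro k z hz
      have hz1 : (s.re - 1) / 2 < z.re := hz.1
      have hzs : ‖z - s‖ < 1 := by
        have : dist z s < 1 := hz.2
        rwa [dist_eq_norm] at this
      have hz2 : ‖z‖ ≤ ‖s‖ + 1 := by
        calc ‖z‖ = ‖(z - s) + s‖ := by ring_nf
          _ ≤ ‖z - s‖ + ‖s‖ := norm_add_le _ _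
          _ ≤ _ := by linarith
      have hz3 : ‖z + 1‖ ≤ ‖s‖ + 2 := by
        calc ‖z + 1‖ ≤ ‖z‖ + ‖(1 : ℂ)‖ := norm_add_le _ _
          _ ≤ _ := by rw [norm_one]; linarith
      rw [norm_mul]
      have h2 := norm_hh_le k (z := z) (by linarith)
      have h3 : (k + 1 : ℝ) ^ (-z.re - 2) ≤ (k + 1 : ℝ) ^ (-((s.re + 1) / 2) - 1) := by
        refine Real.rpow_le_rpow_of_exponent_le ?_ (by linarith)
        have : (0 : ℝ) ≤ k := by positivity
        linarith
      calc ‖T (k + 1)‖ * ‖hh k z‖ ≤ B * (‖z‖ * ‖z + 1‖ * (k + 1 : ℝ) ^ (-z.re - 2)) :=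
            mul_le_mul (hT _) h2 (norm_nonneg _) hB
        _ ≤ B * ((‖s‖ + 1) * (‖s‖ + 2) * (k + 1 : ℝ) ^ (-((s.re + 1) / 2) - 1)) := by
            refine mul_le_mul_of_nonneg_left ?_ hB
            refine mul_le_mul ?_ h3 (by positivity) (by positivity)
            exact mul_le_mul hz2 hz3 (norm_nonneg _) (by positivity)
        _ = _ := by ring
  exact (hd.differentiableAt (hU.mem_nhds hsU)).differentiableWithinAt

end

/-- the finite identity -/
lemma finite_abel2 (c : ℕ → ℂ) (m : ℂ) (z : ℂ) (K : ℕ) :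
    ∑ k ∈ range K, c (k + 1) * (k + 1 : ℂ) ^ (-z) =
      (∑ j ∈ range K, c (j + 1)) * (K + 1 : ℂ) ^ (-z) + m * (1 - (K + 1 : ℂ) ^ (-z)) +
      (∑ j ∈ range K, ((∑ i ∈ range (j + 1), c (i + 1)) - m)) *
        ((K + 1 : ℂ) ^ (-z) - (K + 2 : ℂ) ^ (-z)) +
      ∑ k ∈ range K, (∑ j ∈ range (k + 1), ((∑ i ∈ range (j + 1), c (i + 1)) - m)) * hh k z := by
  induction K with
  | zero => simp
  | succ K ih =>
    rw [sum_range_succ, ih, sum_range_succ (fun j => c (j + 1)) K,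
      sum_range_succ (fun k => (∑ j ∈ range (k + 1), ((∑ i ∈ range (j + 1), c (i + 1)) - m)) *
        hh k z) K, sum_range_succ (fun j => (∑ i ∈ range (j + 1), c (i + 1)) - m) K,
      sum_range_succ (fun i => c (i + 1)) K]
    unfold hh
    push_cast
    have e : (K : ℂ) + 1 + 1 = K + 2 := by ring
    have e' : (K : ℂ) + 1 + 2 = K + 3 := by ring
    rw [e, e']
    ring

end LGrowAux

open LGrowAux Finset Filter Topology in
theorem lfun_growth {a : ℕ} [NeZero a] (Φ : ZMod a → ℂ) (hΦ : ∑ j, Φ j = 0) : ∃ K : ℝ, 0 < K ∧ ∀ z : ℂ,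
    -(1 / 4) ≤ z.re → z.re ≤ 3 → ‖ZMod.LFunction Φ z‖ ≤ K * (1 + |z.im|) ^ 2 := by
  have ha : 0 < a := Nat.pos_of_ne_zero (NeZero.ne a)
  have ha' : (a : ℂ) ≠ 0 := by exact_mod_cast ha.ne'
  set c : ℕ → ℂ := fun k => Φ (k : ZMod a) with hc
  have hcp : ∀ k, c (k + 1 + a) = c (k + 1) := by
    intro k
    simp only [hc]
    congr 1
    push_cast
    simp
  -- partial sums
  set S : ℕ → ℂ := fun k => ∑ j ∈ range k, c (j + 1) with hS
  have hc0 : ∑ j ∈ range a, c (j + 1) = 0 := by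
    have h1 := sum_range_zmod a (fun x => Φ (x + 1))
    have h2 : ∑ x : ZMod a, Φ (x + 1) = ∑ x : ZMod a, Φ x :=
      Equiv.sum_comp (Equiv.addRight (1 : ZMod a)) Φ
    rw [h2, hΦ] at h1
    rw [← h1]
    refine sum_congr rfl fun j _ => ?_
    simp only [hc]
    congr 1
    push_cast
    ring
  have hSp : ∀ k, S (k + a) = S k := fun k =>
    psum_periodic (g := fun j => c (j + 1))
      (fun k => by
        have := hcp k
        rwa [show k + 1 + a = k + a + 1 by ring] at this) hc0 k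
  set m : ℂ := (a : ℂ)⁻¹ * ∑ j ∈ range a, S (j + 1) with hm
  set T : ℕ → ℂ := fun k => ∑ j ∈ range k, (S (j + 1) - m) with hTdef
  have hTp : ∀ k, T (k + a) = T k := by
    intro k
    refine psum_periodic (g := fun j => S (j + 1) - m) (fun k => ?_) ?_ k
    · have := hSp (k + 1)
      rw [show k + 1 + a = k + a + 1 by ring] at this
      simp only [this]
    · rw [sum_sub_distrib, sum_const, card_range, nsmul_eq_mul, hm, mul_inv_cancel_left₀ ha',
        sub_self]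
  obtain ⟨B, hB, hTB⟩ := periodic_bdd ha hTp
  obtain ⟨B', hB', hSB⟩ := periodic_bdd ha hSp
  -- the formula for Re z > 1
  have hform1 : ∀ z : ℂ, 1 < z.re → ZMod.LFunction Φ z = m + ∑' k, T (k + 1) * hh k z := by
    intro z hz
    rw [ZMod.LFunction_eq_LSeries Φ hz]
    have hsum := ZMod.LSeriesSummable_of_one_lt_re Φ hz
    have h1 : HasSum (fun k => LSeries.term (fun n => Φ (n : ZMod a)) z k)
        (LSeries (fun n => Φ (n : ZMod a)) z) := hsum.hasSum
    have h2 : HasSum (fun k => LSeries.term (fun n => Φ (n : ZMod a)) z (k + 1))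
        (LSeries (fun n => Φ (n : ZMod a)) z) := by
      have := (hasSum_nat_add_iff' 1).mpr h1
      simpa using this
    have h3 := h2.tendsto_sum_nat
    have h4 : Tendsto (fun K : ℕ => S K * (K + 1 : ℂ) ^ (-z) + m * (1 - (K + 1 : ℂ) ^ (-z)) +
        T K * ((K + 1 : ℂ) ^ (-z) - (K + 2 : ℂ) ^ (-z)) +
        ∑ k ∈ range K, T (k + 1) * hh k z) atTop
        (𝓝 (LSeries (fun n => Φ (n : ZMod a)) z)) := by
      refine h3.congr fun K => ?_
      have h5 := finite_abel2 c m z K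
      refine Eq.trans ?_ h5
      refine sum_congr rfl fun k _ => ?_
      rw [LSeries.term_of_ne_zero (Nat.succ_ne_zero k), Complex.cpow_neg, div_eq_mul_inv]
      simp only [hc]
      push_cast
      rfl
    have hz0 : 0 < z.re := by linarith
    have t1 : Tendsto (fun K : ℕ => (K + 1 : ℂ) ^ (-z)) atTop (𝓝 0) := by
      have := tendsto_cpow hz0 0
      push_cast at this
      simpa using this
    have t2 : Tendsto (fun K : ℕ => (K + 2 : ℂ) ^ (-z)) atTop (𝓝 0) := by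
      have := tendsto_cpow hz0 1
      push_cast at this
      refine this.congr fun K => ?_
      congr 1
      ring
    have bm : ∀ {g : ℕ → ℂ} {B₀ : ℝ} {w : ℕ → ℂ}, (∀ k, ‖g k‖ ≤ B₀) → 0 ≤ B₀ →
        Tendsto w atTop (𝓝 0) → Tendsto (fun K => g K * w K) atTop (𝓝 0) := by
      intro g B₀ w hg hB₀ hw
      rw [tendsto_zero_iff_norm_tendsto_zero] at hw ⊢
      have h6 := hw.const_mul B₀
      rw [mul_zero] at h6
      refine squeeze_zero (fun _ => norm_nonneg _) (fun K => ?_) h6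
      rw [norm_mul]
      exact mul_le_mul_of_nonneg_right (hg K) (norm_nonneg _)
    have t3 : Tendsto (fun K : ℕ => S K * (K + 1 : ℂ) ^ (-z)) atTop (𝓝 0) := bm hSB hB' t1
    have t4 : Tendsto (fun K : ℕ => m * (1 - (K + 1 : ℂ) ^ (-z))) atTop (𝓝 m) := by
      have := (t1.const_sub 1).const_mul m
      simpa using this
    have t5 : Tendsto (fun K : ℕ => T K * ((K + 1 : ℂ) ^ (-z) - (K + 2 : ℂ) ^ (-z))) atTop
        (𝓝 0) := by
      refine bm hTB hB ?_
      have := t1.sub t2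
      simpa using this
    have t6 : Tendsto (fun K => ∑ k ∈ range K, T (k + 1) * hh k z) atTop
        (𝓝 (∑' k, T (k + 1) * hh k z)) :=
      (summable_T hB hTB (by linarith)).hasSum.tendsto_sum_nat
    have t7 := ((t3.add t4).add t5).add t6
    rw [zero_add, add_zero] at t7
    exact tendsto_nhds_unique h4 t7
  -- the formula for Re z > -1
  have hform : ∀ z : ℂ, -1 < z.re → ZMod.LFunction Φ z = m + ∑' k, T (k + 1) * hh k z := by
    intro z hz
    have hopen : IsOpen {s : ℂ | -1 < s.re} := isOpen_lt continuous_const Complex.continuous_re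
    have hconv : Convex ℝ {s : ℂ | -1 < s.re} := convex_halfSpace_re_gt (-1)
    have h1 : AnalyticOnNhd ℂ (ZMod.LFunction Φ) {s : ℂ | -1 < s.re} :=
      (ZMod.differentiable_LFunction_of_sum_zero hΦ).differentiableOn.analyticOnNhd hopen
    have h2 : AnalyticOnNhd ℂ (fun s => m + ∑' k, T (k + 1) * hh k s) {s : ℂ | -1 < s.re} :=
      ((differentiableOn_T hB hTB).const_add m).analyticOnNhd hopen
    refine h1.eqOn_of_preconnected_of_eventuallyEq h2 hconv.isPreconnected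
      (z₀ := 2) (by simp; norm_num) ?_ hz
    have hopen2 : IsOpen {s : ℂ | 1 < s.re} := isOpen_lt continuous_const Complex.continuous_re
    filter_upwards [hopen2.mem_nhds (show (2 : ℂ) ∈ {s : ℂ | 1 < s.re} by simp)] with w hw
    exact hform1 w hw
  -- the bound
  set Sg : ℝ := ∑' k : ℕ, (k + 1 : ℝ) ^ (-(3 / 4 : ℝ) - 1) with hSg
  have hsum0 : Summable (fun k : ℕ => (k + 1 : ℝ) ^ (-(3 / 4 : ℝ) - 1)) :=
    summable_shift_rpow (by norm_num)
  have hSg0 : 0 ≤ Sg := tsum_nonneg fun k => by positivity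
  refine ⟨‖m‖ + 12 * B * Sg + 1, by positivity, fun z hz1 hz2 => ?_⟩
  rw [hform z (by linarith)]
  have hre : |z.re| ≤ 3 := abs_le.mpr ⟨by linarith, hz2⟩
  have him := abs_nonneg z.im
  have hn1 : ‖z‖ ≤ 3 * (1 + |z.im|) := by
    have := Complex.norm_le_abs_re_add_abs_im z
    linarith
  have hn2 : ‖z + 1‖ ≤ 4 * (1 + |z.im|) := by
    have h1 := norm_add_le z 1
    rw [norm_one] at h1
    linarith
  have hb : ∀ k, ‖T (k + 1) * hh k z‖ ≤ (12 * B * (1 + |z.im|) ^ 2) *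
      (k + 1 : ℝ) ^ (-(3 / 4 : ℝ) - 1) := by
    intro k
    rw [norm_mul]
    have h2 := norm_hh_le k (z := z) (by linarith)
    have h3 : (k + 1 : ℝ) ^ (-z.re - 2) ≤ (k + 1 : ℝ) ^ (-(3 / 4 : ℝ) - 1) := by
      refine Real.rpow_le_rpow_of_exponent_le ?_ (by linarith)
      have : (0 : ℝ) ≤ k := by positivity
      linarith
    have h4 : ‖z‖ * ‖z + 1‖ ≤ (3 * (1 + |z.im|)) * (4 * (1 + |z.im|)) :=
      mul_le_mul hn1 hn2 (norm_nonneg _) (by positivity)
    calc ‖T (k + 1)‖ * ‖hh k z‖ ≤ B * (‖z‖ * ‖z + 1‖ * (k + 1 : ℝ) ^ (-z.re - 2)) :=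
          mul_le_mul (hTB _) h2 (norm_nonneg _) hB
      _ ≤ B * ((3 * (1 + |z.im|)) * (4 * (1 + |z.im|)) *
            (k + 1 : ℝ) ^ (-(3 / 4 : ℝ) - 1)) := by
          refine mul_le_mul_of_nonneg_left ?_ hB
          exact mul_le_mul h4 h3 (by positivity) (by positivity)
      _ = _ := by ring
  have hts := tsum_of_norm_bounded (hsum0.mul_left _).hasSum hb
  rw [tsum_mul_left, ← hSg] at hts
  have h1le : (1 : ℝ) ≤ (1 + |z.im|) ^ 2 := by nlinarith
  calc ‖m + ∑' k, T (k + 1) * hh k z‖ ≤ ‖m‖ + ‖∑' k, T (k + 1) * hh k z‖ := norm_add_le _ _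
    _ ≤ ‖m‖ + 12 * B * (1 + |z.im|) ^ 2 * Sg := by linarith
    _ ≤ (‖m‖ + 12 * B * Sg + 1) * (1 + |z.im|) ^ 2 := by
        have h5 : ‖m‖ * 1 ≤ ‖m‖ * (1 + |z.im|) ^ 2 :=
          mul_le_mul_of_nonneg_left h1le (norm_nonneg _)
        nlinarith

end Pool.Agent.P07318w
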