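import Pool.Agent.Lib.P07318w.HSer
import Pool.Agent.Lib.P07318w.HLeft
import Pool.Agent.Lib.P07318w.GTil
import Pool.Agent.Lib.P07318w.LGrow
import Pool.Agent.Lib.P4f18dfS.ShiftPoly

/-!
# P07318w.ErPt: the pointwise bound for the non-principal part

Black boxes: `ff_eq`, `ff_norm` (RhoAvg), `hf_series`, `hf_diff`, `dlt_sum` (HSer), `hf_left`, `gt_diff`, `gt_bound`, `gt_inv` (GTil), `lfun_growth` (LGrow); `sum_d3_le`, `d3_summable`, `d3_le` of `P07318m.DAux`,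
`exp_rpow_bound` of `P07318m.DenUp` if useful.

PROOF. `f(n) = ee(-(n b / a)) - rho a n = ff a b n` (`ff_eq`), `|f| ≤ 2`. By the definition of `Gt`, the sum is
`∑ d3(n) f(n) Gt(n b/a) + GG(0) ∑ d3(n) f(n) exp(-n b/a)`. The second part is small: `GG(0) = exp(-(τ/Δ)^2) ≤ exp(-τ^(2η))` and `∑ d3(n) exp(-n b / a) ≤ ∑ d3(n) exp(-n/τ) ≤ C τ^2` (as `a ≤ τ`, `b ≥ 1`), so it is `O(1)`.
First part: insert `gt_inv` (for `y = n b / a`, `n ≥ 1`; `d3 0 = 0`) and exchange sum and integral (absolute convergence: `∑ d3(n) n^(-2) < ∞` and `gt_bound 2` on `Re z = 2`):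
`(1/2π) ∫ Gth(2+iξ) (b/a)^(-(2+iξ)) Hf a b (2+iξ) dξ` by `hf_series`. Move the line of integration to `Re z = -c`, `c = min(ε,1)/8` (so `c ≤ 1/8`): the integrand `Gth(z) (b/a)^(-z) Hf a b z` is analytic in `Re z > -1/4 - `
(a neighbourhood of the strip `-c ≤ Re z ≤ 2`; `gt_diff`, `hf_diff`), and in the strip for `|Im z| ≥ 1` it is `O((1+|Im z|)^(-2))` for fixed `τ, Δ, a, b`: `‖Hf‖ ≤ K (1+|v|)^6` by `lfun_growth` for each `dlt a r` and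
`gt_bound 8 1`. (Rectangle theorem `Complex.integral_boundary_rect_eq_zero_of_differentiableOn` and the limit of large heights; the contour shifts in `P07318m.NonPrChar` and `P07318m.PrMain` show how this was done there.)
On `Re z = -c`: `hf_left M c ε'` with `ε' = c`: `‖Hf‖ ≤ C a^(3/2 + 4c) (1+|v|)^3`; `gt_bound 5 c` (`‖z‖ ≥ c`): `‖Gth‖ ≤ C (τ/Δ)^6 (1+|v|)^(-5)` (`max (-c) 0 = 0`); `|(b/a)^(-z)| = (b/a)^c ≤ τ^c`. So the integral is at most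
`C a^(3/2) a^(4c) τ^c (τ/Δ)^6 ≤ C τ^ε a^(3/2) (τ/Δ)^20`.
-/

set_option autoImplicit false

open MeasureTheory Complex Filter Topology

namespace Pool.Agent.P07318w

open Pool.Agent.P07318m (d3 rho GG ee)

namespace ErPtAux

open Pool.Agent.P4f18dfS

/-- `exp(-c T^a) T^m` is bounded. -/
theorem exp_rpow_bound' (c a m : ℝ) (hc : 0 < c) (ha : 0 < a) : ∃ K : ℝ, 0 < K ∧ ∀ T : ℝ, 1 ≤ T →
    T ^ m * Real.exp (-(c * T ^ a)) ≤ K := by
  have h1 : Tendsto (fun x : ℝ => x ^ (m / a) * Real.exp (-c * x)) atTop (𝓝 0) :=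
    tendsto_rpow_mul_exp_neg_mul_atTop_nhds_zero (m / a) c hc
  have h2 : Tendsto (fun T : ℝ => (T ^ a) ^ (m / a) * Real.exp (-c * T ^ a)) atTop (𝓝 0) :=
    h1.comp (tendsto_rpow_atTop ha)
  have h3 : ∀ᶠ T : ℝ in atTop, (T ^ a) ^ (m / a) * Real.exp (-c * T ^ a) ≤ 1 :=
    (h2.eventually_lt_const (by norm_num : (0:ℝ) < 1)).mono fun _ h => h.le
  obtain ⟨T0, hT0⟩ := eventually_atTop.1 h3
  set T1 : ℝ := max T0 1 with hT1
  have hT11 : 1 ≤ T1 := le_max_right _ _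
  refine ⟨1 + T1 ^ |m|, by positivity, fun T hT => ?_⟩
  have hT' : 0 < T := by linarith
  have heq : (T ^ a) ^ (m / a) = T ^ m := by
    rw [← Real.rpow_mul hT'.le]
    congr 1
    field_simp
  by_cases h : T1 ≤ T
  · have := hT0 T ((le_max_left _ _).trans h)
    rw [heq] at this
    have h5 : -c * T ^ a = -(c * T ^ a) := by ring
    rw [h5] at this
    have : 0 ≤ T1 ^ |m| := by positivity
    linarith
  · push Not at h
    have h6 : Real.exp (-(c * T ^ a)) ≤ 1 := Real.exp_le_one_iff.2 (by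
      have : 0 ≤ c * T ^ a := by positivity
      linarith)
    have h7 : T ^ m ≤ T1 ^ |m| := by
      calc T ^ m ≤ T ^ |m| := Real.rpow_le_rpow_of_exponent_le hT (le_abs_self m)
        _ ≤ T1 ^ |m| := Real.rpow_le_rpow hT'.le h.le (abs_nonneg m)
    have h8 : T ^ m * Real.exp (-(c * T ^ a)) ≤ T ^ m := mul_le_of_le_one_right (by positivity) h6
    linarith

/-- the integrand -/
noncomputable def FH (a : ℕ) [NeZero a] (b : ℕ) (τ Δ : ℝ) (z : ℂ) : ℂ :=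
  Gth τ Δ z * (a : ℂ) ^ z * (b : ℂ) ^ (-z) * Hf a (b : ZMod a) z

lemma isOpen_re : IsOpen {z : ℂ | -1 < z.re} := isOpen_lt continuous_const continuous_re

lemma FH_diff {a : ℕ} [NeZero a] {b : ℕ} (hb : 1 ≤ b) {τ Δ : ℝ} (hΔ : 0 < Δ) :
    DifferentiableOn ℂ (FH a b τ Δ) {z : ℂ | -1 < z.re} := by
  have ha0 : (a : ℂ) ≠ 0 := by exact_mod_cast NeZero.ne a
  have hb0 : (b : ℂ) ≠ 0 := by exact_mod_cast (by omega : b ≠ 0)
  have h1 : DifferentiableOn ℂ (Gth τ Δ) {z : ℂ | -1 < z.re} := gt_diff hΔ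
  have h2 : Differentiable ℂ (fun z : ℂ => (a : ℂ) ^ z) := fun z =>
    differentiableAt_id.const_cpow (Or.inl ha0)
  have h3 : Differentiable ℂ (fun z : ℂ => (b : ℂ) ^ (-z)) := fun z =>
    (differentiableAt_id.neg).const_cpow (Or.inl hb0)
  have h4 : Differentiable ℂ (Hf a (b : ZMod a)) := hf_diff _
  exact ((h1.mul h2.differentiableOn).mul h3.differentiableOn).mul h4.differentiableOn

lemma line_cont {F : ℂ → ℂ} (hF : DifferentiableOn ℂ F {z : ℂ | -1 < z.re}) {c : ℝ} (hc : -1 < c) :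
    Continuous (fun t : ℝ => F (c + t * I)) := by
  rw [continuous_iff_continuousAt]
  intro t
  have h1 : ((c : ℂ) + t * I) ∈ {z : ℂ | -1 < z.re} := by simpa using hc
  have h2 : ContinuousAt F ((c : ℂ) + t * I) :=
    (hF.differentiableAt (isOpen_re.mem_nhds h1)).continuousAt
  have h3 : ContinuousAt (fun t : ℝ => (c : ℂ) + t * I) t := by fun_prop
  exact ContinuousAt.comp (f := fun t : ℝ => (c : ℂ) + t * I) h2 h3

lemma line_integrable {F : ℂ → ℂ} (hF : DifferentiableOn ℂ F {z : ℂ | -1 < z.re}) {c : ℝ} (hc : -1 < c)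
    {K : ℝ} (hK : ∀ t : ℝ, ‖F (c + t * I)‖ ≤ K / (1 + |t|) ^ 2) :
    Integrable (fun t : ℝ => F (c + t * I)) := by
  have hK0 : 0 ≤ K := by
    have := (norm_nonneg _).trans (hK 0)
    simpa using this
  refine Integrable.mono' (integrable_inv_one_add_sq.const_mul K)
    (line_cont hF hc).aestronglyMeasurable (Filter.Eventually.of_forall fun t => ?_)
  exact (hK t).trans (ShiftPolyAux.inv_sq_le hK0)

lemma hf_growth {a : ℕ} [NeZero a] (b : ZMod a) : ∃ K : ℝ, 0 ≤ K ∧ ∀ z : ℂ,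
    -(1 / 4) ≤ z.re → z.re ≤ 3 → ‖Hf a b z‖ ≤ K * (1 + |z.im|) ^ 6 := by
  choose K hK0 hK using fun r : ZMod a => lfun_growth (dlt a r) (dlt_sum r)
  refine ⟨∑ r : ZMod a, ∑ s : ZMod a, ∑ t : ZMod a, 2 * K r * K s * K t, ?_, fun z h1 h2 => ?_⟩
  · exact Finset.sum_nonneg fun r _ => Finset.sum_nonneg fun s _ => Finset.sum_nonneg fun t _ => by
      have h1 := hK0 r
      have h2 := hK0 s
      have h3 := hK0 t
      positivity
  · unfold Hf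
    rw [Finset.sum_mul]
    refine (norm_sum_le _ _).trans (Finset.sum_le_sum fun r _ => ?_)
    rw [Finset.sum_mul]
    refine (norm_sum_le _ _).trans (Finset.sum_le_sum fun s _ => ?_)
    rw [Finset.sum_mul]
    refine (norm_sum_le _ _).trans (Finset.sum_le_sum fun t _ => ?_)
    rw [norm_mul, norm_mul, norm_mul]
    have e1 : ‖ff a b (r * s * t)‖ ≤ 2 := ff_norm b _
    have e2 : ‖RR a r z‖ ≤ K r * (1 + |z.im|) ^ 2 := hK r z h1 h2
    have e3 : ‖RR a s z‖ ≤ K s * (1 + |z.im|) ^ 2 := hK s z h1 h2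
    have e4 : ‖RR a t z‖ ≤ K t * (1 + |z.im|) ^ 2 := hK t z h1 h2
    have g1 := hK0 r
    have g2 := hK0 s
    have g3 := hK0 t
    calc ‖ff a b (r * s * t)‖ * ‖RR a r z‖ * ‖RR a s z‖ * ‖RR a t z‖
        ≤ 2 * (K r * (1 + |z.im|) ^ 2) * (K s * (1 + |z.im|) ^ 2) * (K t * (1 + |z.im|) ^ 2) := by
          gcongr
      _ = _ := by ring

lemma FH_bound {a : ℕ} [NeZero a] {b : ℕ} (hb : 1 ≤ b) {τ Δ c : ℝ} (hΔ : 1 ≤ Δ) (hτ : Δ ≤ τ)
    (hc' : c ≤ 1 / 4) : ∃ K : ℝ, ∀ z : ℂ, -c ≤ z.re → z.re ≤ 2 →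
      ‖FH a b τ Δ z‖ ≤ K / (1 + |z.im|) ^ 2 := by
  obtain ⟨C, hC, hG⟩ := gt_bound 8 1 one_pos
  obtain ⟨KH, hKH, hH⟩ := hf_growth (b : ZMod a)
  have hτ1 : 1 ≤ τ := hΔ.trans hτ
  have hτ0 : 0 < τ := by linarith
  have hΔ0 : 0 < Δ := by linarith
  have ha1 : 1 ≤ a := Nat.one_le_iff_ne_zero.2 (NeZero.ne a)
  have har : (1 : ℝ) ≤ (a : ℝ) := by exact_mod_cast ha1
  have hbr : (1 : ℝ) ≤ (b : ℝ) := by exact_mod_cast hb
  -- the compact part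
  have hcomp : IsCompact (Set.Icc (-c) 2 ×ℂ Set.Icc (-1 : ℝ) 1) := isCompact_Icc.reProdIm isCompact_Icc
  have hcontF : ContinuousOn (FH a b τ Δ) (Set.Icc (-c) 2 ×ℂ Set.Icc (-1 : ℝ) 1) := by
    refine (FH_diff hb hΔ0).continuousOn.mono fun z hz => ?_
    have := (Complex.mem_reProdIm.1 hz).1.1
    change -1 < z.re
    linarith
  obtain ⟨B, hB⟩ := hcomp.exists_bound_of_continuousOn hcontF
  set K1 : ℝ := (C * τ ^ (2 : ℝ) * (τ / Δ) ^ 9) * (a : ℝ) ^ (2 : ℝ) * (b : ℝ) ^ (1 : ℝ) * KH with hK1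
  have hK10 : 0 ≤ K1 := by positivity
  refine ⟨K1 + 4 * max B 0, fun z h1 h2 => ?_⟩
  have hy : 0 < 1 + |z.im| := by positivity
  have hB0 : 0 ≤ max B 0 := le_max_right _ _
  rcases le_or_gt |z.im| 1 with him | him
  · have hz : z ∈ (Set.Icc (-c) 2 ×ℂ Set.Icc (-1 : ℝ) 1) :=
      Complex.mem_reProdIm.2 ⟨⟨h1, h2⟩, abs_le.1 him⟩
    have h3 := (hB z hz).trans (le_max_left B 0)
    refine h3.trans ?_
    rw [le_div_iff₀ (by positivity)]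
    have h4 : (1 + |z.im|) ^ 2 ≤ 4 := by
      have h5 := abs_nonneg z.im
      nlinarith
    calc max B 0 * (1 + |z.im|) ^ 2 ≤ max B 0 * 4 := by gcongr
      _ ≤ K1 + 4 * max B 0 := by linarith
  · have hnz : 1 ≤ ‖z‖ := him.le.trans (Complex.abs_im_le_norm z)
    have g1 : ‖Gth τ Δ z‖ ≤ (C * τ ^ (2 : ℝ) * (τ / Δ) ^ 9) / (1 + |z.im|) ^ 8 := by
      refine (hG τ Δ z hΔ hτ (by linarith) h2 hnz).trans ?_
      have : τ ^ (max z.re 0) ≤ τ ^ (2 : ℝ) :=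
        Real.rpow_le_rpow_of_exponent_le hτ1 (max_le h2 (by norm_num))
      gcongr
    have g2 : ‖(a : ℂ) ^ z‖ ≤ (a : ℝ) ^ (2 : ℝ) := by
      rw [norm_natCast_cpow_of_pos ha1]
      exact Real.rpow_le_rpow_of_exponent_le har h2
    have g3 : ‖(b : ℂ) ^ (-z)‖ ≤ (b : ℝ) ^ (1 : ℝ) := by
      rw [norm_natCast_cpow_of_pos hb, neg_re]
      exact Real.rpow_le_rpow_of_exponent_le hbr (by linarith)
    have g4 : ‖Hf a (b : ZMod a) z‖ ≤ KH * (1 + |z.im|) ^ 6 := hH z (by linarith) (by linarith)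
    unfold FH
    rw [norm_mul, norm_mul, norm_mul]
    calc ‖Gth τ Δ z‖ * ‖(a : ℂ) ^ z‖ * ‖(b : ℂ) ^ (-z)‖ * ‖Hf a (b : ZMod a) z‖
        ≤ ((C * τ ^ (2 : ℝ) * (τ / Δ) ^ 9) / (1 + |z.im|) ^ 8) * (a : ℝ) ^ (2 : ℝ) * (b : ℝ) ^ (1 : ℝ) *
          (KH * (1 + |z.im|) ^ 6) := by
          gcongr
      _ = K1 / (1 + |z.im|) ^ 2 := by
          rw [hK1]
          field_simp
      _ ≤ (K1 + 4 * max B 0) / (1 + |z.im|) ^ 2 := by
          gcongr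
          linarith

lemma first_part {a : ℕ} [NeZero a] {b : ℕ} (hb : 1 ≤ b) (hu : IsUnit (b : ZMod a)) {τ Δ c : ℝ}
    (hΔ : 1 ≤ Δ) (hτ : Δ ≤ τ) (hc : 0 ≤ c) (hc' : c ≤ 1 / 4) :
    HasSum (fun n : ℕ => ((d3 n : ℕ) : ℂ) * ff a (b : ZMod a) (n : ZMod a) * (Gt τ Δ (n * b / a) : ℂ))
      ((1 / (2 * Real.pi)) * ∫ ξ : ℝ, FH a b τ Δ (((-c : ℝ) : ℂ) + ξ * I)) := by
  obtain ⟨K, hK⟩ := FH_bound (a := a) hb hΔ hτ hc'
  have ha1 : 1 ≤ a := Nat.one_le_iff_ne_zero.2 (NeZero.ne a)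
  have har : (0 : ℝ) < (a : ℝ) := by exact_mod_cast ha1
  have hbr : (0 : ℝ) < (b : ℝ) := by exact_mod_cast hb
  have hdiff := FH_diff (a := a) hb (τ := τ) (Δ := Δ) (by linarith)
  have hshift := P4f18dfS.shift_poly_on (F := FH a b τ Δ) (a := -c) (b := 2) (K := K)
    (by linarith) isOpen_re (fun s h1 _ => by
      change -1 < s.re
      linarith) hdiff hK
  set W : ℝ → ℂ := fun ξ => Gth τ Δ (((2 : ℝ) : ℂ) + ξ * I) with hW
  have hWint : Integrable W := by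
    obtain ⟨C, hC, hG⟩ := gt_bound 2 1 one_pos
    refine line_integrable (gt_diff (by linarith)) (c := 2) (by norm_num)
      (K := C * τ ^ (2 : ℝ) * (τ / Δ) ^ 3) (fun t => ?_)
    have := hG τ Δ (((2 : ℝ) : ℂ) + t * I) hΔ hτ (by simp; norm_num) (by simp) (by
      refine le_trans ?_ (Complex.abs_re_le_norm _)
      simp)
    simpa using this
  set A : ℕ → ℝ → ℂ := fun m ξ => ((d3 m : ℕ) : ℂ) * ff a (b : ZMod a) (m : ZMod a) *
    (m : ℂ) ^ (-(((2 : ℝ) : ℂ) + ξ * I)) with hA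
  set V : ℝ → ℂ := fun ξ => (a : ℂ) ^ (((2 : ℝ) : ℂ) + ξ * I) * (b : ℂ) ^ (-(((2 : ℝ) : ℂ) + ξ * I))
    with hV
  have hd0 : d3 0 = 0 := by simp [d3]
  have hnorm : ∀ m ξ, ‖A m ξ‖ = ‖((d3 m : ℕ) : ℂ) * ff a (b : ZMod a) (m : ZMod a) * (m : ℂ) ^ (-(2 : ℂ))‖ := by
    intro m ξ
    rcases Nat.eq_zero_or_pos m with rfl | hm
    · simp [hA, hd0]
    · simp only [hA]
      rw [norm_mul, norm_mul _ ((m : ℂ) ^ (-(2 : ℂ))), norm_natCast_cpow_of_pos hm,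
        norm_natCast_cpow_of_pos hm]
      congr 2
      simp
  have hVnorm : ∀ ξ, ‖V ξ‖ = (a : ℝ) ^ (2 : ℝ) * (b : ℝ) ^ (-2 : ℝ) := by
    intro ξ
    simp only [hV]
    rw [norm_mul, norm_natCast_cpow_of_pos ha1, norm_natCast_cpow_of_pos hb]
    simp
  have hVcont : Continuous V := by
    have ha0 : (a : ℂ) ≠ 0 := by exact_mod_cast NeZero.ne a
    have hb0 : (b : ℂ) ≠ 0 := by exact_mod_cast (by omega : b ≠ 0)
    refine Continuous.mul ?_ ?_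
    · exact Continuous.const_cpow (by fun_prop) (Or.inl ha0)
    · exact Continuous.const_cpow (by fun_prop) (Or.inl hb0)
  have hacont : ∀ m, Continuous (A m) := by
    intro m
    rcases Nat.eq_zero_or_pos m with rfl | hm
    · have : A 0 = fun _ => 0 := by
        funext ξ
        simp [hA, hd0]
      rw [this]
      exact continuous_const
    · have hm0 : (m : ℂ) ≠ 0 := by exact_mod_cast hm.ne'
      exact continuous_const.mul (Continuous.const_cpow (by fun_prop) (Or.inl hm0))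
  have hint : ∀ m, Integrable (fun ξ => W ξ * V ξ * A m ξ) := by
    intro m
    refine Integrable.mono' (hWint.norm.mul_const (((a : ℝ) ^ (2 : ℝ) * (b : ℝ) ^ (-2 : ℝ)) *
      ‖((d3 m : ℕ) : ℂ) * ff a (b : ZMod a) (m : ZMod a) * (m : ℂ) ^ (-(2 : ℂ))‖))
      ((hWint.aestronglyMeasurable.mul hVcont.aestronglyMeasurable).mul
        (hacont m).aestronglyMeasurable) (Filter.Eventually.of_forall fun ξ => ?_)
    rw [norm_mul, norm_mul, hVnorm, hnorm, mul_assoc]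
  have hsumn : Summable (fun m => ∫ ξ, ‖W ξ * V ξ * A m ξ‖) := by
    have h1 : ∀ m, ∫ ξ, ‖W ξ * V ξ * A m ξ‖ = (∫ ξ, ‖W ξ‖) *
        (((a : ℝ) ^ (2 : ℝ) * (b : ℝ) ^ (-2 : ℝ)) *
      ‖((d3 m : ℕ) : ℂ) * ff a (b : ZMod a) (m : ZMod a) * (m : ℂ) ^ (-(2 : ℂ))‖) := by
      intro m
      rw [← integral_mul_const]
      refine integral_congr_ae (Filter.Eventually.of_forall fun ξ => ?_)
      simp only
      rw [norm_mul, norm_mul, hVnorm, hnorm, mul_assoc]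
    rw [funext h1]
    exact ((hf_series hu (z := 2) (by norm_num)).1.mul_left _).mul_left _
  have hmain := hasSum_integral_of_summable_integral_norm hint hsumn
  have hterm : ∀ m : ℕ, ((d3 m : ℕ) : ℂ) * ff a (b : ZMod a) (m : ZMod a) * (Gt τ Δ (m * b / (a : ℝ)) : ℂ) =
      (1 / (2 * Real.pi)) * ∫ ξ, W ξ * V ξ * A m ξ := by
    intro m
    rcases Nat.eq_zero_or_pos m with rfl | hm
    · simp [hA, hd0]
    · have hmr : (0 : ℝ) < (m : ℝ) := by exact_mod_cast hm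
      rw [gt_inv hΔ hτ (by positivity : (0 : ℝ) < (m : ℝ) * b / a)]
      rw [mul_left_comm, ← integral_const_mul]
      congr 1
      refine integral_congr_ae (Filter.Eventually.of_forall fun ξ => ?_)
      simp only [hW, hV, hA]
      have e1 : (((2 : ℝ) : ℂ) + ξ * I) = 2 + ξ * I := by push_cast; ring
      rw [e1]
      have e2 : (((m : ℝ) * b / a : ℝ) : ℂ) ^ (-(2 + ξ * I)) =
          (m : ℂ) ^ (-(2 + ξ * I)) * ((a : ℂ) ^ (2 + ξ * I) * (b : ℂ) ^ (-(2 + ξ * I))) := by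
        rw [Complex.ofReal_div, Complex.ofReal_mul]
        rw [div_eq_mul_inv, ← Complex.ofReal_inv, ← Complex.ofReal_mul]
        rw [Complex.mul_cpow_ofReal_nonneg (by positivity) (by positivity)]
        rw [Complex.ofReal_mul, Complex.mul_cpow_ofReal_nonneg (by positivity) (by positivity)]
        rw [Complex.ofReal_inv, Complex.inv_cpow _ _ (by
          rw [Complex.arg_ofReal_of_nonneg har.le]; exact Real.pi_pos.ne), ← Complex.cpow_neg, neg_neg]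
        push_cast
        ring
      rw [e2]
      ring
  have hpt : ∀ ξ : ℝ, ∑' m, W ξ * V ξ * A m ξ = FH a b τ Δ (((2 : ℝ) : ℂ) + ξ * I) := by
    intro ξ
    rw [tsum_mul_left]
    have h1 := (hf_series hu (z := ((2 : ℝ) : ℂ) + ξ * I) (by simp)).2
    simp only [hA]
    rw [← h1]
    simp only [hW, hV, FH]
    ring
  have hval : ∫ ξ, ∑' m, W ξ * V ξ * A m ξ = ∫ ξ : ℝ, FH a b τ Δ (((-c : ℝ) : ℂ) + ξ * I) := by
    rw [integral_congr_ae (Filter.Eventually.of_forall hpt), ← hshift]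
  rw [hval] at hmain
  have := hmain.mul_left ((1 : ℂ) / (2 * Real.pi))
  refine this.congr_fun ?_
  intro m
  exact hterm m

lemma second_part (η : ℝ) (hη : 0 < η) : ∃ C : ℝ, 0 ≤ C ∧ ∀ (τ Δ : ℝ) (a b : ℕ), 1 ≤ Δ → Δ ≤ τ →
    τ ^ η ≤ τ / Δ → 1 ≤ a → 1 ≤ b → (a : ℝ) ≤ τ → ∀ f : ℕ → ℂ, (∀ n, ‖f n‖ ≤ 2) →
    Summable (fun n : ℕ => ((d3 n : ℕ) : ℂ) * f n * ((GG τ Δ 0 * Real.exp (-(n * b / a)) : ℝ) : ℂ)) ∧
    ‖∑' n : ℕ, ((d3 n : ℕ) : ℂ) * f n * ((GG τ Δ 0 * Real.exp (-(n * b / a)) : ℝ) : ℂ)‖ ≤ C := by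
  obtain ⟨C3, hC3, hd⟩ := Pool.Agent.P07318m.d3_le 1 one_pos
  obtain ⟨C4, hC4, hE⟩ := exp_rpow_bound' 1 (2 * η) 3 one_pos (by positivity)
  have hZ : Summable (fun n : ℕ => 1 / (n : ℝ) ^ 2) := Real.summable_one_div_nat_pow.2 (by norm_num)
  have hZ0 : 0 ≤ ∑' n : ℕ, 1 / (n : ℝ) ^ 2 := tsum_nonneg fun n => by positivity
  refine ⟨12 * C3 * C4 * ∑' n : ℕ, 1 / (n : ℝ) ^ 2, by positivity, ?_⟩
  intro τ Δ a b hΔ hτ hη' ha hb haτ f hf
  have hτ1 : 1 ≤ τ := hΔ.trans hτ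
  have hτ0 : 0 < τ := by linarith
  have hΔ0 : 0 < Δ := by linarith
  have har : (0 : ℝ) < (a : ℝ) := by exact_mod_cast ha
  have hbr : (1 : ℝ) ≤ (b : ℝ) := by exact_mod_cast hb
  have hG0 : τ ^ 3 * GG τ Δ 0 ≤ C4 := by
    have h1 := hE τ hτ1
    have h2 : GG τ Δ 0 ≤ Real.exp (-(1 * τ ^ (2 * η))) := by
      unfold GG
      apply Real.exp_le_exp.2
      have h3 : τ ^ (2 * η) = (τ ^ η) ^ 2 := by
        rw [mul_comm, Real.rpow_mul hτ0.le]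
        norm_num
      have h4 : ((2 * Real.pi * 0 - τ) / Δ) ^ 2 = (τ / Δ) ^ 2 := by ring
      rw [h3, h4, one_mul]
      have h5 : 0 ≤ τ ^ η := by positivity
      have h6 : (τ ^ η) ^ 2 ≤ (τ / Δ) ^ 2 := by gcongr
      linarith
    have h3 : τ ^ (3 : ℝ) = τ ^ 3 := by
      have := Real.rpow_natCast τ 3
      push_cast at this
      exact this
    rw [h3] at h1
    exact le_trans (by gcongr) h1
  have hGn : 0 ≤ GG τ Δ 0 := (Real.exp_pos _).le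
  have hbound : ∀ n : ℕ, ‖((d3 n : ℕ) : ℂ) * f n * ((GG τ Δ 0 * Real.exp (-(n * b / a)) : ℝ) : ℂ)‖ ≤
      12 * C3 * C4 * (1 / (n : ℝ) ^ 2) := by
    intro n
    rcases Nat.eq_zero_or_pos n with rfl | hn
    · simp [d3]
    · have hn0 : (0 : ℝ) < (n : ℝ) := by exact_mod_cast hn
      have hdn : (d3 n : ℝ) ≤ C3 * n := by simpa using hd n hn
      rw [norm_mul, norm_mul, Complex.norm_natCast, Complex.norm_real, Real.norm_of_nonneg (by positivity)]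
      have hx : (0 : ℝ) < n * b / a := by positivity
      have hxe : Real.exp (-(n * b / a)) ≤ 6 * τ ^ 3 / (n : ℝ) ^ 3 := by
        have h1 := Real.pow_div_factorial_le_exp (n * b / a : ℝ) hx.le 3
        have h2 : (n : ℝ) / τ ≤ n * b / a := by
          rw [div_le_div_iff₀ hτ0 har]
          have : (n : ℝ) * a ≤ n * (b * τ) := by
            apply mul_le_mul_of_nonneg_left _ hn0.le
            nlinarith
          linarith
        have h3 : ((n : ℝ) / τ) ^ 3 ≤ (n * b / a : ℝ) ^ 3 := by gcongr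
        have h4 : ((n : ℝ) / τ) ^ 3 / 6 ≤ Real.exp (n * b / a) := by
          refine le_trans ?_ h1
          have : ((3 : ℕ).factorial : ℝ) = 6 := by norm_num [Nat.factorial]
          rw [this]
          gcongr
        rw [Real.exp_neg]
        rw [inv_le_comm₀ (Real.exp_pos _) (by positivity)]
        refine le_trans (le_of_eq ?_) h4
        field_simp
      calc (d3 n : ℝ) * ‖f n‖ * (GG τ Δ 0 * Real.exp (-(n * b / a)))
          ≤ (C3 * n) * 2 * (GG τ Δ 0 * (6 * τ ^ 3 / (n : ℝ) ^ 3)) := by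
            gcongr
            exact hf n
        _ = 12 * C3 * (τ ^ 3 * GG τ Δ 0) * (1 / (n : ℝ) ^ 2) := by
            field_simp
            ring
        _ ≤ 12 * C3 * C4 * (1 / (n : ℝ) ^ 2) := by gcongr
  refine ⟨Summable.of_norm_bounded (hZ.mul_left _) hbound, ?_⟩
  exact tsum_of_norm_bounded (hZ.hasSum.mul_left _) hbound

lemma line_bound (M : ℕ) {c : ℝ} (hc : 0 < c) (hc' : c ≤ 1 / 4) : ∃ C : ℝ, 0 < C ∧ ∀ (τ Δ : ℝ) (a b : ℕ) [NeZero a],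
    1 ≤ Δ → Δ ≤ τ → 1 ≤ b → (a : ℝ) ≤ τ → (b : ℝ) ≤ τ → b.Coprime a → Sfl M a → ∀ ξ : ℝ,
    ‖FH a b τ Δ (((-c : ℝ) : ℂ) + ξ * I)‖ ≤ C * (τ / Δ) ^ 6 * τ ^ (4 * c) * (a : ℝ) ^ (3 / 2 : ℝ) / (1 + |ξ|) ^ 2 := by
  obtain ⟨C1, hC1, hG⟩ := gt_bound 5 c hc
  obtain ⟨C2, hC2, hH⟩ := hf_left M c c hc (by linarith) hc
  refine ⟨C1 * C2, by positivity, ?_⟩
  intro τ Δ a b _ hΔ hτ hb haτ hbτ hcop hS ξ
  have hτ1 : 1 ≤ τ := hΔ.trans hτ
  have hτ0 : 0 < τ := by linarith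
  have hΔ0 : 0 < Δ := by linarith
  have ha1 : 1 ≤ a := Nat.one_le_iff_ne_zero.2 (NeZero.ne a)
  have har : (1 : ℝ) ≤ (a : ℝ) := by exact_mod_cast ha1
  have hbr : (1 : ℝ) ≤ (b : ℝ) := by exact_mod_cast hb
  set z : ℂ := ((-c : ℝ) : ℂ) + ξ * I with hz
  have hre : z.re = -c := by simp [hz]
  have him : z.im = ξ := by simp [hz]
  have g1 : ‖Gth τ Δ z‖ ≤ C1 * (τ / Δ) ^ 6 / (1 + |ξ|) ^ 5 := by
    have h1 := hG τ Δ z hΔ hτ (by rw [hre]; linarith) (by rw [hre]; linarith) (by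
      refine le_trans ?_ (Complex.abs_re_le_norm _)
      rw [hre, abs_neg, abs_of_pos hc])
    rw [hre, him, max_eq_right (by linarith : -c ≤ 0), Real.rpow_zero, mul_one] at h1
    exact h1
  have g2 : ‖(a : ℂ) ^ z‖ = (a : ℝ) ^ (-c) := by
    rw [norm_natCast_cpow_of_pos ha1, hre]
  have g3 : ‖(b : ℂ) ^ (-z)‖ ≤ τ ^ c := by
    rw [norm_natCast_cpow_of_pos hb, neg_re, hre, neg_neg]
    gcongr
  have g4 : ‖Hf a (b : ZMod a) z‖ ≤ C2 * (a : ℝ) ^ (3 / 2 + 3 * c + c) * (1 + |ξ|) ^ 3 := by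
    have := hH a b z hS hcop hre
    rwa [him] at this
  have g5 : (a : ℝ) ^ (-c) * (a : ℝ) ^ (3 / 2 + 3 * c + c) ≤ (a : ℝ) ^ (3 / 2 : ℝ) * τ ^ (3 * c) := by
    rw [← Real.rpow_add (by linarith)]
    have : -c + (3 / 2 + 3 * c + c) = 3 / 2 + 3 * c := by ring
    rw [this, Real.rpow_add (by linarith)]
    gcongr
  have hy : 0 < 1 + |ξ| := by positivity
  unfold FH
  rw [norm_mul, norm_mul, norm_mul, g2]
  calc ‖Gth τ Δ z‖ * (a : ℝ) ^ (-c) * ‖(b : ℂ) ^ (-z)‖ * ‖Hf a (b : ZMod a) z‖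
      ≤ (C1 * (τ / Δ) ^ 6 / (1 + |ξ|) ^ 5) * (a : ℝ) ^ (-c) * τ ^ c *
        (C2 * (a : ℝ) ^ (3 / 2 + 3 * c + c) * (1 + |ξ|) ^ 3) := by gcongr
    _ = C1 * C2 * (τ / Δ) ^ 6 * τ ^ c * ((a : ℝ) ^ (-c) * (a : ℝ) ^ (3 / 2 + 3 * c + c)) / (1 + |ξ|) ^ 2 := by
        field_simp
    _ ≤ C1 * C2 * (τ / Δ) ^ 6 * τ ^ c * ((a : ℝ) ^ (3 / 2 : ℝ) * τ ^ (3 * c)) / (1 + |ξ|) ^ 2 := by
        gcongr
    _ = C1 * C2 * (τ / Δ) ^ 6 * (τ ^ c * τ ^ (3 * c)) * (a : ℝ) ^ (3 / 2 : ℝ) / (1 + |ξ|) ^ 2 := by ring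
    _ = _ := by
        rw [← Real.rpow_add hτ0]
        congr 4
        ring

end ErPtAux

open ErPtAux Pool.Agent.P4f18dfS in
theorem er_pt (M : ℕ) (ε η : ℝ) (hε : 0 < ε) (hη : 0 < η) : ∃ C : ℝ, 0 < C ∧ ∀ (τ Δ : ℝ) (a b : ℕ), 1 ≤ Δ → Δ ≤ τ →
    τ ^ η ≤ τ / Δ → 1 ≤ a → 1 ≤ b → (a : ℝ) ≤ τ → (b : ℝ) ≤ τ → b.Coprime a → Sfl M a →
    ‖∑' n : ℕ, ((d3 n : ℕ) : ℂ) * (ee (-(n * b / a)) - (rho a n : ℂ)) * (GG τ Δ (n * b / a) : ℂ)‖ ≤
      C * (τ / Δ) ^ 20 * τ ^ ε * (a : ℝ) ^ (3 / 2 : ℝ) := by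
  have hm1 := min_le_right ε 1
  have hm2 := min_le_left ε 1
  have hm3 : 0 < min ε 1 := lt_min hε one_pos
  set c : ℝ := min ε 1 / 8 with hcdef
  have hc : 0 < c := by positivity
  have hc4 : c ≤ 1 / 4 := by rw [hcdef]; linarith
  have hcε : 4 * c ≤ ε := by rw [hcdef]; linarith
  obtain ⟨C1, hC1, hL⟩ := line_bound M hc hc4
  obtain ⟨C2, hC2, hS2⟩ := second_part η hη
  refine ⟨C1 + C2 + 1, by positivity, ?_⟩
  intro τ Δ a b hΔ hτ hη' ha hb haτ hbτ hcop hS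
  have : NeZero a := ⟨by omega⟩
  have hu : IsUnit (b : ZMod a) := (ZMod.isUnit_iff_coprime b a).2 hcop
  have hτ1 : 1 ≤ τ := hΔ.trans hτ
  have hτ0 : 0 < τ := by linarith
  have hΔ0 : 0 < Δ := by linarith
  have har : (1 : ℝ) ≤ (a : ℝ) := by exact_mod_cast ha
  have hf1 := first_part (a := a) hb hu hΔ hτ hc.le hc4
  obtain ⟨hs2, hn2⟩ := hS2 τ Δ a b hΔ hτ hη' ha hb haτ (fun n => ff a (b : ZMod a) (n : ZMod a))
    (fun n => ff_norm _ _)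
  have hterm : ∀ n : ℕ, ((d3 n : ℕ) : ℂ) * (ee (-(n * b / a)) - (rho a n : ℂ)) * (GG τ Δ (n * b / a) : ℂ) =
      ((d3 n : ℕ) : ℂ) * ff a (b : ZMod a) (n : ZMod a) * (Gt τ Δ (n * b / a) : ℂ) +
      ((d3 n : ℕ) : ℂ) * ff a (b : ZMod a) (n : ZMod a) * ((GG τ Δ 0 * Real.exp (-(n * b / a)) : ℝ) : ℂ) := by
    intro n
    rw [← ff_eq b n]
    unfold Gt
    push_cast
    ring
  rw [tsum_congr hterm, hf1.summable.tsum_add hs2, hf1.tsum_eq]
  have hR1 : 1 ≤ τ / Δ := by rwa [one_le_div hΔ0]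
  have hτε : τ ^ (4 * c) ≤ τ ^ ε := Real.rpow_le_rpow_of_exponent_le hτ1 hcε
  have hpow : (τ / Δ) ^ 6 ≤ (τ / Δ) ^ 20 := pow_le_pow_right₀ hR1 (by norm_num)
  set P : ℝ := (τ / Δ) ^ 20 * τ ^ ε * (a : ℝ) ^ (3 / 2 : ℝ) with hP
  have hP1 : 1 ≤ P := by
    have h1 : 1 ≤ (τ / Δ) ^ 20 := one_le_pow₀ hR1
    have h2 : 1 ≤ τ ^ ε := Real.one_le_rpow hτ1 hε.le
    have h3 : 1 ≤ (a : ℝ) ^ (3 / 2 : ℝ) := Real.one_le_rpow har (by norm_num)
    rw [hP]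
    exact one_le_mul_of_one_le_of_one_le (one_le_mul_of_one_le_of_one_le h1 h2) h3
  have hint : ‖∫ ξ : ℝ, FH a b τ Δ (((-c : ℝ) : ℂ) + ξ * I)‖ ≤ C1 * P * Real.pi := by
    have h1 : ∀ ξ : ℝ, ‖FH a b τ Δ (((-c : ℝ) : ℂ) + ξ * I)‖ ≤ C1 * P * (1 + ξ ^ 2)⁻¹ := by
      intro ξ
      refine (hL τ Δ a b hΔ hτ hb haτ hbτ hcop hS ξ).trans ?_
      refine le_trans ?_ (ShiftPolyAux.inv_sq_le (K := C1 * P) (by positivity))
      have h5 : C1 * (τ / Δ) ^ 6 * τ ^ (4 * c) * (a : ℝ) ^ (3 / 2 : ℝ) ≤ C1 * P := by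
        rw [hP]
        calc C1 * (τ / Δ) ^ 6 * τ ^ (4 * c) * (a : ℝ) ^ (3 / 2 : ℝ)
            ≤ C1 * (τ / Δ) ^ 20 * τ ^ ε * (a : ℝ) ^ (3 / 2 : ℝ) := by gcongr
          _ = _ := by ring
      gcongr
    refine (norm_integral_le_of_norm_le (integrable_inv_one_add_sq.const_mul (C1 * P))
      (Eventually.of_forall h1)).trans (le_of_eq ?_)
    rw [integral_const_mul, integral_univ_inv_one_add_sq]
  refine (norm_add_le _ _).trans ?_
  have hfirst : ‖(1 / (2 * Real.pi) : ℂ) * ∫ ξ : ℝ, FH a b τ Δ (((-c : ℝ) : ℂ) + ξ * I)‖ ≤ C1 * P := by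
    rw [norm_mul]
    have h1 : ‖(1 / (2 * Real.pi) : ℂ)‖ = 1 / (2 * Real.pi) := by
      rw [norm_div, norm_mul, Complex.norm_real, Real.norm_of_nonneg Real.pi_pos.le]
      simp
    rw [h1]
    have hπ := Real.pi_pos
    calc 1 / (2 * Real.pi) * ‖∫ ξ : ℝ, FH a b τ Δ (((-c : ℝ) : ℂ) + ξ * I)‖
        ≤ 1 / (2 * Real.pi) * (C1 * P * Real.pi) := by gcongr
      _ = C1 * P / 2 := by field_simp
      _ ≤ C1 * P := by
        have : 0 ≤ C1 * P := by positivity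
        linarith
  calc _ ≤ C1 * P + C2 := add_le_add hfirst hn2
    _ ≤ C1 * P + C2 * P + 1 * P := by
        have : C2 ≤ C2 * P := le_mul_of_one_le_right hC2 hP1
        linarith
    _ = _ := by rw [hP]; ring

end Pool.Agent.P07318w
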