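import Pool.Agent.Lib.P07318w.NewDefs
import Pool.Agent.Lib.P07318w.DMom

/-!
# P07318w.NewA: the sum over `a` in the second region (without the condition `Sfl`)

Black boxes: `P07318m.g_mom` (`∑_{a ≤ x} hh(a)^2 φ(a)/a^2 (log a)^j / (log x)^(j+4) → a3/(6(j+4))`) and `ds_mom` of `DMom`.

PROOF. Let `L = log Y`. For `θ > 0`: `∑_{a ≤ Y^θ} ga2(a) (log a)^j / L^(j+4) → a3 θ^(j+4)/(6 (j+4))` and `∑_{a ≤ Y^θ} ga2(a) sg(a) (log a)^j / L^(j+6) → a3 θ^(j+6)/(30 (j+6))` (compose with `x = Y^θ`,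
`log x = θ L`). `AF Y` is the set of the `a` with `Y^(1/2) < a ≤ Y^(3/5)`, so sums over `AF Y` are differences of the sums with `θ = 3/5` and `θ = 1/2` (floors: `a ≤ ⌊Y^θ⌋ ↔ a ≤ Y^θ`).
`B2`, `B1` are polynomials in `L` and `ℓ = log a`, homogeneous of degree `5`, `B0` of degree `3`. Expand, sum and collect: the limits of the sums divided by `L^9` are, with `B(u) = B(1, u)`,
`(a3/6) ∫_{1/2}^{3/5} u^3 B2(u) du = (6831489903/2000000000) a3/9!`, `(a3/6) ∫ u^3 B1(u) du = (3069319077/800000000) a3/9!`,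
`(a3/30) ∫ u^5 B0(u) du = (1683615579/4000000000) a3/9!` (all three checked with exact rational arithmetic; `9! = 362880`).
(The last two differ by the first one.)
-/

set_option autoImplicit false

open Filter Topology

namespace Pool.Agent.P07318w

open Pool.Agent.P07318m (hh sg a3)

namespace NewAAux

/-- the moments, rescaled -/
theorem scale {W : ℕ → ℝ} {κ : ℕ} {c : ℝ}
    (hm : ∀ j : ℕ, Tendsto (fun x : ℝ => (∑ a ∈ Finset.Icc 1 ⌊x⌋₊, W a * Real.log a ^ j) /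
      Real.log x ^ (j + κ)) atTop (𝓝 (c / (j + κ)))) {θ : ℝ} (hθ : 0 < θ) (j : ℕ) :
    Tendsto (fun Y : ℝ => (∑ a ∈ Finset.Icc 1 ⌊Y ^ θ⌋₊, W a * Real.log a ^ j) /
      Real.log Y ^ (j + κ)) atTop (𝓝 (θ ^ (j + κ) * (c / (j + κ)))) := by
  have h1 := ((hm j).comp (tendsto_rpow_atTop hθ)).const_mul (θ ^ (j + κ))
  refine h1.congr' ?_
  filter_upwards [eventually_gt_atTop (1 : ℝ)] with Y hY
  have hL : 0 < Real.log Y := Real.log_pos hY
  simp only [Function.comp_apply]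
  rw [Real.log_rpow (by linarith), mul_pow]
  have h2 : θ ^ (j + κ) ≠ 0 := pow_ne_zero _ hθ.ne'
  have h3 : Real.log Y ^ (j + κ) ≠ 0 := pow_ne_zero _ hL.ne'
  field_simp

theorem sum_AF (f : ℕ → ℝ) {Y : ℝ} (hY : 1 < Y) :
    ∑ a ∈ AF Y, f a = ∑ a ∈ Finset.Icc 1 ⌊Y ^ (3 / 5 : ℝ)⌋₊, f a -
      ∑ a ∈ Finset.Icc 1 ⌊Y ^ (1 / 2 : ℝ)⌋₊, f a := by
  classical
  have hY0 : 0 ≤ Y := by linarith
  have h12 : Y ^ (1 / 2 : ℝ) ≤ Y ^ (3 / 5 : ℝ) :=
    Real.rpow_le_rpow_of_exponent_le hY.le (by norm_num)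
  have h51 : Y ^ (3 / 5 : ℝ) ≤ Y := by
    nth_rewrite 2 [← Real.rpow_one Y]
    exact Real.rpow_le_rpow_of_exponent_le hY.le (by norm_num)
  have hsub : Finset.Icc 1 ⌊Y ^ (1 / 2 : ℝ)⌋₊ ⊆ Finset.Icc 1 ⌊Y ^ (3 / 5 : ℝ)⌋₊ :=
    Finset.Icc_subset_Icc_right (Nat.floor_le_floor h12)
  have hsq : ∀ a : ℕ, (a : ℝ) ≤ Y ^ (1 / 2 : ℝ) ↔ (a : ℝ) ^ 2 ≤ Y := by
    intro a
    rw [← Real.sqrt_eq_rpow]
    exact Real.le_sqrt (Nat.cast_nonneg a) hY0
  have h5 : ∀ a : ℕ, (a : ℝ) ≤ Y ^ (3 / 5 : ℝ) ↔ (a : ℝ) ^ 5 ≤ Y ^ 3 := by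
    intro a
    have e : (Y ^ (3 / 5 : ℝ)) ^ 5 = Y ^ 3 := by
      rw [← Real.rpow_natCast, ← Real.rpow_mul hY0, ← Real.rpow_natCast Y 3]
      norm_num
    rw [← e]
    exact (pow_le_pow_iff_left₀ (by positivity) (by positivity) (by norm_num)).symm
  rw [eq_sub_iff_add_eq, ← Finset.sum_sdiff hsub]
  congr 1
  apply Finset.sum_congr _ fun _ _ => rfl
  ext a
  unfold AF
  have hp1 : 0 ≤ Y ^ (3 / 5 : ℝ) := by positivity
  have hp2 : 0 ≤ Y ^ (1 / 2 : ℝ) := by positivity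
  rw [Finset.mem_filter, Finset.mem_sdiff, Finset.mem_Icc, Finset.mem_Icc, Finset.mem_Icc,
    Nat.le_floor_iff hp1, Nat.le_floor_iff hp2, Nat.le_floor_iff hY0, h5, hsq]
  constructor
  · rintro ⟨⟨h1, _⟩, h2, h3⟩
    exact ⟨⟨h1, h3⟩, fun h4 => absurd h4.2 (not_le.2 h2)⟩
  · rintro ⟨⟨h1, h2⟩, h3⟩
    exact ⟨⟨h1, ((h5 a).2 h2).trans h51⟩, not_le.1 fun h4 => h3 ⟨h1, h4⟩, h2⟩

theorem mom_AF {W : ℕ → ℝ} {κ : ℕ} {c : ℝ}
    (hm : ∀ j : ℕ, Tendsto (fun x : ℝ => (∑ a ∈ Finset.Icc 1 ⌊x⌋₊, W a * Real.log a ^ j) /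
      Real.log x ^ (j + κ)) atTop (𝓝 (c / (j + κ)))) (j : ℕ) :
    Tendsto (fun Y : ℝ => (∑ a ∈ AF Y, W a * Real.log a ^ j) / Real.log Y ^ (j + κ)) atTop
      (𝓝 ((3 / 5 : ℝ) ^ (j + κ) * (c / (j + κ)) - (1 / 2 : ℝ) ^ (j + κ) * (c / (j + κ)))) := by
  have h1 := (scale hm (by norm_num : (0 : ℝ) < 3 / 5) j).sub
    (scale hm (by norm_num : (0 : ℝ) < 1 / 2) j)
  refine h1.congr' ?_
  filter_upwards [eventually_gt_atTop (1 : ℝ)] with Y hY
  rw [sum_AF _ hY, sub_div]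

theorem lin {W : ℕ → ℝ} {κ : ℕ} {c : ℝ}
    (hm : ∀ j : ℕ, Tendsto (fun x : ℝ => (∑ a ∈ Finset.Icc 1 ⌊x⌋₊, W a * Real.log a ^ j) /
      Real.log x ^ (j + κ)) atTop (𝓝 (c / (j + κ)))) (n : ℕ) (β : ℕ → ℝ) (B : ℝ → ℝ → ℝ)
    (hB : ∀ L l, B L l = ∑ j ∈ Finset.range (n + 1), β j * L ^ (n - j) * l ^ j) :
    Tendsto (fun Y : ℝ => (∑ a ∈ AF Y, W a * B (Real.log Y) (Real.log a)) /
      Real.log Y ^ (n + κ)) atTop (𝓝 (∑ j ∈ Finset.range (n + 1), β j *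
        ((3 / 5 : ℝ) ^ (j + κ) * (c / (j + κ)) - (1 / 2 : ℝ) ^ (j + κ) * (c / (j + κ))))) := by
  have h1 := tendsto_finsetSum (Finset.range (n + 1)) fun j _ => (mom_AF hm j).const_mul (β j)
  refine h1.congr' ?_
  filter_upwards [eventually_gt_atTop (1 : ℝ)] with Y hY
  have hL : 0 < Real.log Y := Real.log_pos hY
  simp_rw [hB, Finset.mul_sum]
  rw [Finset.sum_comm, Finset.sum_div]
  refine Finset.sum_congr rfl fun j hj => ?_
  rw [Finset.mem_range] at hj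
  have e1 : Real.log Y ^ (n + κ) = Real.log Y ^ (n - j) * Real.log Y ^ (j + κ) := by
    rw [← pow_add]
    congr 1
    omega
  have e2 : ∑ a ∈ AF Y, W a * (β j * Real.log Y ^ (n - j) * Real.log a ^ j) =
      Real.log Y ^ (n - j) * (β j * ∑ a ∈ AF Y, W a * Real.log a ^ j) := by
    rw [Finset.mul_sum, Finset.mul_sum]
    refine Finset.sum_congr rfl fun a _ => ?_
    ring
  rw [e1, e2, mul_div_mul_left _ _ (pow_ne_zero _ hL.ne'), mul_div_assoc]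

theorem m4 (j : ℕ) : Tendsto (fun x : ℝ => (∑ a ∈ Finset.Icc 1 ⌊x⌋₊, ga2 a * Real.log a ^ j) /
      Real.log x ^ (j + 4)) atTop (𝓝 (a3 / 6 / (j + (4 : ℕ)))) := by
  have h := P07318m.g_mom j
  have e : a3 / (6 * ((j : ℝ) + 4)) = a3 / 6 / (j + (4 : ℕ)) := by
    push_cast
    rw [div_div]
  rw [e] at h
  exact h

theorem m6 (j : ℕ) : Tendsto (fun x : ℝ =>
      (∑ a ∈ Finset.Icc 1 ⌊x⌋₊, (ga2 a * sg a) * Real.log a ^ j) /
      Real.log x ^ (j + 6)) atTop (𝓝 (a3 / 30 / (j + (6 : ℕ)))) := by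
  have h := ds_mom j
  have e : a3 / (30 * ((j : ℝ) + 6)) = a3 / 30 / (j + (6 : ℕ)) := by
    push_cast
    rw [div_div]
  rw [e] at h
  exact h

/-- coefficients of `B2` -/
noncomputable def b2 : ℕ → ℝ
  | 0 => 243 / 640
  | 1 => -243 / 128
  | 2 => 297 / 80
  | 3 => -567 / 160
  | 4 => 1323 / 800
  | _ => -107 / 320

/-- coefficients of `B1` -/
noncomputable def b1 : ℕ → ℝ
  | 0 => 243 / 640
  | 1 => -243 / 128
  | 2 => 2403 / 640
  | 3 => -2349 / 640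
  | 4 => 567 / 320
  | _ => -3 / 8

/-- coefficients of `B0` -/
noncomputable def b0 : ℕ → ℝ
  | 0 => 27 / 128
  | 1 => -81 / 128
  | 2 => 189 / 320
  | _ => -13 / 64

theorem B2_eq (L l : ℝ) : B2 L l = ∑ j ∈ Finset.range (5 + 1), b2 j * L ^ (5 - j) * l ^ j := by
  unfold B2
  simp only [Finset.sum_range_succ, Finset.sum_range_zero, b2]
  norm_num
  ring

theorem B1_eq (L l : ℝ) : B1 L l = ∑ j ∈ Finset.range (5 + 1), b1 j * L ^ (5 - j) * l ^ j := by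
  unfold B1
  simp only [Finset.sum_range_succ, Finset.sum_range_zero, b1]
  norm_num
  ring

theorem B0_eq (L l : ℝ) : B0 L l = ∑ j ∈ Finset.range (3 + 1), b0 j * L ^ (3 - j) * l ^ j := by
  unfold B0
  simp only [Finset.sum_range_succ, Finset.sum_range_zero, b0]
  norm_num
  ring

theorem a1' : Tendsto (fun Y : ℝ => (∑ a ∈ AF Y, ga2 a * B1 (Real.log Y) (Real.log a)) /
    Real.log Y ^ 9) atTop (𝓝 (3069319077 / 800000000 * (a3 / (Nat.factorial 9 : ℝ)))) := by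
  have h := lin m4 5 b1 B1 B1_eq
  convert h using 2
  simp only [Finset.sum_range_succ, Finset.sum_range_zero, b1, Nat.factorial]
  push_cast
  ring

theorem a0' : Tendsto (fun Y : ℝ => (∑ a ∈ AF Y, (ga2 a * sg a) * B0 (Real.log Y) (Real.log a)) /
    Real.log Y ^ 9) atTop (𝓝 (1683615579 / 4000000000 * (a3 / (Nat.factorial 9 : ℝ)))) := by
  have h := lin m6 3 b0 B0 B0_eq
  convert h using 2
  simp only [Finset.sum_range_succ, Finset.sum_range_zero, b0, Nat.factorial]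
  push_cast
  ring

end NewAAux

open NewAAux

theorem new_a2 : Tendsto (fun Y : ℝ => (∑ a ∈ AF Y, ga2 a * B2 (Real.log Y) (Real.log a)) / Real.log Y ^ 9) atTop
    (𝓝 (6831489903 / 2000000000 * (a3 / (Nat.factorial 9 : ℝ)))) := by
  have h := lin m4 5 b2 B2 B2_eq
  convert h using 2
  simp only [Finset.sum_range_succ, Finset.sum_range_zero, b2, Nat.factorial]
  push_cast
  ring

theorem new_a1 : Tendsto (fun Y : ℝ => (∑ a ∈ AF Y, ga2 a *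
      (B1 (Real.log Y) (Real.log a) - sg a * B0 (Real.log Y) (Real.log a))) / Real.log Y ^ 9) atTop
    (𝓝 (6831489903 / 2000000000 * (a3 / (Nat.factorial 9 : ℝ)))) := by
  have h := a1'.sub a0'
  have e : 3069319077 / 800000000 * (a3 / (Nat.factorial 9 : ℝ)) -
      1683615579 / 4000000000 * (a3 / (Nat.factorial 9 : ℝ)) =
      6831489903 / 2000000000 * (a3 / (Nat.factorial 9 : ℝ)) := by
    ring
  rw [e] at h
  refine h.congr fun Y => ?_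
  rw [← sub_div, ← Finset.sum_sub_distrib]
  congr 1
  refine Finset.sum_congr rfl fun a _ => ?_
  ring

end Pool.Agent.P07318w
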