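import Pool.Agent.Lib.P07318w.Defs
import Pool.Agent.Lib.P07318m.DAux
import Pool.Agent.Lib.P07318m.ESum

/-!
# P07318w.SqfTail: the moduli without `Sfl M` are rare

Black boxes: `hh_le` (`hh a ≤ C a^ε`) of `P07318m.DAux`; `e_sum` of `P07318m.ESum` (so `∑_{r ≤ x} hh(r)^2/r ≤ C (1 + log x)^4`; `Ea, dl ≥ 0`), `hh` is multiplicative.

PROOF. Every `a ≥ 1` is `a = s r` with `s = ∏_{p^2 | a} p^{v_p(a)}`, `r = a/s = ∏_{p || a} p` squarefree, `gcd(s, r) = 1`. If `Sfl M a` fails then `s > M` for this `s`. `hh(a) = hh(s) hh(r)`. The number `s` is squarefull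
(`p | s → p^2 | s`), and every squarefull number is `u^2 v^3` (`v` the product of the primes with odd exponent). So
`∑_{a ≤ x, not Sfl M a} hh(a)^2/a ≤ ∑_{s > M squarefull} hh(s)^2/s ∑_{r ≤ x} hh(r)^2/r ≤ C (1 + log x)^4 ∑_{s > M squarefull} hh(s)^2/s`, and the series `∑_{s squarefull} hh(s)^2/s` converges, because
`hh(s)^2/s ≤ C s^(-4/5)` (`hh_le (1/10)`) and `∑_{u,v} (u^2 v^3)^(-4/5) < ∞`. Take `M` with the tail at most `ε/C`.
(To organise the double sum over finite sets: the map `a ↦ (s(a), r(a))` is injective.)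
-/

set_option autoImplicit false

namespace Pool.Agent.P07318w

open Pool.Agent.P07318m (hh hh_le)
open Pool.Agent.P07318m.ESumAux (sum_le_of_inj hh_submul hh_nonneg sum_H)

/-- If `a = u^2 r` with `r` squarefree and `u^3 ≤ M` then `Sfl M a` (take `s = u^2 gcd(u, r)`). -/
lemma sqt_sfl {M u r : ℕ} (hu : 0 < u) (hr : Squarefree r) (hM : u ^ 3 ≤ M) :
    Sfl M (u ^ 2 * r) := by
  have hr0 : r ≠ 0 := hr.ne_zero
  have hg0 : 0 < u.gcd r := Nat.gcd_pos_of_pos_left _ hu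
  obtain ⟨t, ht⟩ : ∃ t, r = u.gcd r * t := Nat.gcd_dvd_right u r
  have hgu : u.gcd r ≤ u := Nat.gcd_le_left _ hu
  have hs0 : 0 < u ^ 2 * u.gcd r := by positivity
  have hat : u ^ 2 * r = (u ^ 2 * u.gcd r) * t := by
    conv_lhs => rw [ht]
    ring
  have hdiv : u ^ 2 * r / (u ^ 2 * u.gcd r) = t := by
    rw [hat, Nat.mul_div_cancel_left _ hs0]
  have htsq : Squarefree t := hr.squarefree_of_dvd ⟨u.gcd r, by rw [mul_comm]; exact ht⟩
  have hcop1 : (u.gcd r).Coprime t := by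
    have h1 : Squarefree (u.gcd r * t) := by rw [← ht]; exact hr
    exact Nat.coprime_of_squarefree_mul h1
  have hcop2 : u.Coprime t := by
    have h1 : u.gcd t ∣ u.gcd r := Nat.dvd_gcd (Nat.gcd_dvd_left u t)
      ((Nat.gcd_dvd_right u t).trans ⟨u.gcd r, by rw [mul_comm]; exact ht⟩)
    have h2 : u.gcd t ∣ (u.gcd r).gcd t := Nat.dvd_gcd h1 (Nat.gcd_dvd_right u t)
    rw [hcop1] at h2
    exact Nat.dvd_one.1 h2
  refine ⟨u ^ 2 * u.gcd r, ?_, ⟨t, hat⟩, ?_, ?_⟩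
  · calc u ^ 2 * u.gcd r ≤ u ^ 2 * u := Nat.mul_le_mul_left _ hgu
      _ = u ^ 3 := by ring
      _ ≤ M := hM
  · rw [hdiv]
    exact Nat.Coprime.mul_left (hcop2.pow_left 2) hcop1
  · rw [hdiv]
    exact htsq

lemma sqt_summable : Summable fun u : ℕ => hh (u ^ 2) ^ 2 / ((u : ℝ) ^ 2) := by
  obtain ⟨C, hC1, hC⟩ := hh_le (1 / 8) (by norm_num)
  have hs : Summable (fun k : ℕ => C ^ 2 * (1 / (k : ℝ) ^ (3 / 2 : ℝ))) :=
    (Real.summable_one_div_nat_rpow.2 (by norm_num)).mul_left _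
  refine Summable.of_nonneg_of_le (fun u => by positivity) (fun u => ?_) hs
  rcases Nat.eq_zero_or_pos u with rfl | hu
  · simp
  have hu0 : (0 : ℝ) < u := by exact_mod_cast hu
  have h1 : hh (u ^ 2) ≤ C * (u : ℝ) ^ (1 / 4 : ℝ) := by
    refine (hC (u ^ 2) (Nat.one_le_iff_ne_zero.2 (by positivity))).trans (le_of_eq ?_)
    push_cast
    rw [← Real.rpow_natCast (u : ℝ) 2, ← Real.rpow_mul hu0.le]
    norm_num
  have h2 : hh (u ^ 2) ^ 2 ≤ C ^ 2 * (u : ℝ) ^ (1 / 2 : ℝ) := by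
    refine (pow_le_pow_left₀ (hh_nonneg _) h1 2).trans (le_of_eq ?_)
    rw [mul_pow, ← Real.rpow_natCast ((u : ℝ) ^ (1 / 4 : ℝ)) 2, ← Real.rpow_mul hu0.le]
    norm_num
  have h3 : (u : ℝ) ^ 2 = (u : ℝ) ^ (1 / 2 : ℝ) * (u : ℝ) ^ (3 / 2 : ℝ) := by
    rw [← Real.rpow_add hu0, ← Real.rpow_natCast]
    norm_num
  have h4 : 0 < (u : ℝ) ^ (1 / 2 : ℝ) := by positivity
  have h5 : 0 < (u : ℝ) ^ (3 / 2 : ℝ) := by positivity
  rw [h3, div_le_iff₀ (by positivity)]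
  refine h2.trans (le_of_eq ?_)
  field_simp

open Classical in
theorem sqf_tail (ε : ℝ) (hε : 0 < ε) : ∃ M : ℕ, ∀ x : ℝ, 1 ≤ x →
    ∑ a ∈ (Finset.Icc 1 ⌊x⌋₊).filter (fun a => ¬ Sfl M a), hh a ^ 2 / a ≤ ε * (1 + Real.log x) ^ 4 := by
  obtain ⟨t, ht⟩ := summable_iff_vanishing_norm.1 sqt_summable ε hε
  refine ⟨(t.sup id) ^ 3, fun x hx => ?_⟩
  set M : ℕ := (t.sup id) ^ 3 with hM
  set N := ⌊x⌋₊ with hN
  have hdec : ∀ a : ℕ, ∃ p : ℕ × ℕ, 0 < a → 0 < p.1 ∧ 0 < p.2 ∧ p.1 ^ 2 * p.2 = a ∧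
      Squarefree p.2 := by
    intro a
    by_cases ha : 0 < a
    · obtain ⟨r, u, hr, hu, hau, hsq⟩ := Nat.sq_mul_squarefree_of_pos ha
      exact ⟨(u, r), fun _ => ⟨hu, hr, hau, hsq⟩⟩
    · exact ⟨(0, 0), fun h => absurd h ha⟩
  choose D hD using hdec
  have h1 : ∑ a ∈ (Finset.Icc 1 N).filter (fun a => ¬ Sfl M a), hh a ^ 2 / a ≤
      ∑ q ∈ ((Finset.Icc 1 N).filter (fun u => M < u ^ 3)) ×ˢ Finset.Icc 1 N,
        (hh (q.1 ^ 2) ^ 2 / ((q.1 : ℝ) ^ 2)) * (hh q.2 ^ 2 / (q.2 : ℝ)) := by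
    refine sum_le_of_inj _ _ _ (fun q : ℕ × ℕ =>
      (hh (q.1 ^ 2) ^ 2 / ((q.1 : ℝ) ^ 2)) * (hh q.2 ^ 2 / (q.2 : ℝ))) D ?_ ?_ ?_ ?_
    · intro a ha
      rw [Finset.mem_filter, Finset.mem_Icc] at ha
      obtain ⟨hu, hr, hau, hsq⟩ := hD a (by omega)
      rw [Finset.mem_product, Finset.mem_filter, Finset.mem_Icc, Finset.mem_Icc]
      have h2 : (D a).1 ≤ a := by
        calc (D a).1 ≤ (D a).1 ^ 2 := Nat.le_self_pow (by norm_num) _
          _ ≤ (D a).1 ^ 2 * (D a).2 := Nat.le_mul_of_pos_right _ hr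
          _ = a := hau
      have h3 : (D a).2 ≤ a := by
        calc (D a).2 ≤ (D a).1 ^ 2 * (D a).2 := Nat.le_mul_of_pos_left _ (by positivity)
          _ = a := hau
      refine ⟨⟨⟨hu, by omega⟩, ?_⟩, hr, by omega⟩
      by_contra hcon
      push Not at hcon
      apply ha.2
      rw [← hau]
      exact sqt_sfl hu hsq hcon
    · intro a ha a' ha' heq
      rw [Finset.mem_coe, Finset.mem_filter, Finset.mem_Icc] at ha ha'
      obtain ⟨-, -, h2, -⟩ := hD a (by omega)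
      obtain ⟨-, -, h3, -⟩ := hD a' (by omega)
      rw [← h2, ← h3, heq]
    · intro q _
      positivity
    · intro a ha
      rw [Finset.mem_filter, Finset.mem_Icc] at ha
      obtain ⟨hu, hr, hau, hsq⟩ := hD a (by omega)
      have h2 : hh a ≤ hh ((D a).1 ^ 2) * hh (D a).2 := by
        have := hh_submul (d := (D a).1 ^ 2) (m := (D a).2) (by positivity) (by omega)
        rwa [hau] at this
      have h3 : hh a ^ 2 ≤ hh ((D a).1 ^ 2) ^ 2 * hh (D a).2 ^ 2 := by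
        rw [← mul_pow]
        exact pow_le_pow_left₀ (hh_nonneg a) h2 2
      have h4 : (a : ℝ) = ((D a).1 : ℝ) ^ 2 * ((D a).2 : ℝ) := by
        conv_lhs => rw [← hau]
        push_cast
        rfl
      have h5 : hh ((D a).1 ^ 2) ^ 2 / (((D a).1 : ℝ) ^ 2) * (hh (D a).2 ^ 2 / ((D a).2 : ℝ)) =
          hh ((D a).1 ^ 2) ^ 2 * hh (D a).2 ^ 2 / a := by
        rw [h4]
        ring
      change hh a ^ 2 / a ≤ hh ((D a).1 ^ 2) ^ 2 / (((D a).1 : ℝ) ^ 2) *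
        (hh (D a).2 ^ 2 / ((D a).2 : ℝ))
      rw [h5]
      exact div_le_div_of_nonneg_right h3 (Nat.cast_nonneg a)
  refine h1.trans ?_
  rw [Finset.sum_product]
  change ∑ u ∈ (Finset.Icc 1 N).filter (fun u => M < u ^ 3), ∑ r ∈ Finset.Icc 1 N,
    (hh (u ^ 2) ^ 2 / ((u : ℝ) ^ 2)) * (hh r ^ 2 / (r : ℝ)) ≤ _
  rw [← Finset.sum_mul_sum]
  have h6 : ∑ u ∈ (Finset.Icc 1 N).filter (fun u => M < u ^ 3),
      hh (u ^ 2) ^ 2 / ((u : ℝ) ^ 2) ≤ ε := by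
    refine (le_abs_self _).trans (ht _ ?_).le
    rw [Finset.disjoint_left]
    intro u hu hut
    rw [Finset.mem_filter] at hu
    have h7 : u ≤ t.sup id := Finset.le_sup (f := id) hut
    have h8 : u ^ 3 ≤ M := Nat.pow_le_pow_left h7 3
    omega
  exact mul_le_mul h6 (sum_H hx) (Finset.sum_nonneg fun m _ => by positivity) hε.le

end Pool.Agent.P07318w
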