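import Pool.Agent.Lib.P07318w.NewB
import Pool.Agent.Lib.P07318w.NewA
import Pool.Agent.Lib.P07318w.SqfTail

/-!
# P07318w.NewSum: the two diagonal sums over the second region

Black boxes: `new_b1`, `new_b2`, `new_a1`, `new_a2`, `sqf_tail`, `sg_le` of `P07318m.DAux`.

PROOFS. `new_den`: for `a ∈ AF Y` one has `0 ≤ ℓ ≤ w`, `w = 3/2 (L - ℓ)` (from `a^5 ≤ Y^3`), and `B2 L ℓ = ∫_ℓ^w (x^2 - 3/20 ℓ^2)^2/4 dx ≥ 0` (or: with `w = ℓ + y` expand, all coefficients are nonnegative;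
`B2 = (1/4)((w^5-ℓ^5)/5 - (1/10) ℓ^2 (w^3 - ℓ^3) + ...)` and `w^5 - ℓ^5 ≥ ℓ^2 (w^3 - ℓ^3)`). So dropping the condition `Sfl M a` only increases the sum: `Sn2 M Y ≤ ∑_{AF Y} ga2 B2 + C (1+L)^8 ≤ (N + ε) L^9` for large `Y`, uniformly in `M`.
`new_num`: let `M` be from `sqf_tail (ε')`. `|B1 - sg B0| ≤ C' (1+L)^5` for `1 ≤ a ≤ Y` (`0 ≤ sg a ≤ ℓ^2`, `0 ≤ ℓ ≤ L`), `ga2 a ≤ hh(a)^2/a`, so the sum over `AN M Y` differs from the sum over `AF Y` by at most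
`C' (1+L)^5 ε' (1+L)^4`. Choose `ε'` with `2^9 C' ε' ≤ ε/3`, then `Y` large.
-/

set_option autoImplicit false

open Filter Topology

namespace Pool.Agent.P07318w

open Pool.Agent.P07318m (a3 hh sg)

namespace NewSumAux

theorem ga2_nonneg (a : ℕ) : 0 ≤ ga2 a := by
  unfold ga2
  positivity

theorem ga2_le (a : ℕ) : ga2 a ≤ hh a ^ 2 / a := by
  unfold ga2
  rcases Nat.eq_zero_or_pos a with h | h
  · subst h
    simp
  · have ha : (0 : ℝ) < a := by exact_mod_cast h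
    have ht : (a.totient : ℝ) ≤ a := by exact_mod_cast Nat.totient_le a
    rw [div_le_div_iff₀ (by positivity) ha]
    have h1 : 0 ≤ hh a ^ 2 := sq_nonneg _
    calc hh a ^ 2 * (a.totient : ℝ) * a ≤ hh a ^ 2 * (a : ℝ) * a := by gcongr
      _ = _ := by ring

theorem B2_nonneg {L l : ℝ} (hl : 0 ≤ l) (hw : l ≤ 3 / 2 * (L - l)) : 0 ≤ B2 L l := by
  unfold B2
  set w := 3 / 2 * (L - l) with hwd
  have hw0 : 0 ≤ w := hl.trans hw
  have h1 : 0 ≤ w ^ 3 * (w ^ 2 - l ^ 2) :=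
    mul_nonneg (by positivity) (sub_nonneg.2 (pow_le_pow_left₀ hl hw 2))
  have h2 : 0 ≤ w ^ 5 - l ^ 5 := sub_nonneg.2 (pow_le_pow_left₀ hl hw 5)
  have h3 : 0 ≤ l ^ 4 * (w - l) := mul_nonneg (by positivity) (by linarith)
  have h4 : 0 ≤ (w ^ 5 - l ^ 5) / 5 - 1 / 10 * l ^ 2 * (w ^ 3 - l ^ 3) + 9 / 400 * l ^ 4 * (w - l) := by
    nlinarith [h1, h2, h3]
  linarith

theorem AF_bounds {Y : ℝ} {a : ℕ} (ha : a ∈ AF Y) :
    1 ≤ a ∧ 0 ≤ Real.log a ∧ Real.log a ≤ 3 / 5 * Real.log Y := by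
  unfold AF at ha
  obtain ⟨h1, _, h3⟩ := Finset.mem_filter.1 ha
  have ha1 : 1 ≤ a := (Finset.mem_Icc.1 h1).1
  have ha1' : (1 : ℝ) ≤ a := by exact_mod_cast ha1
  refine ⟨ha1, Real.log_nonneg ha1', ?_⟩
  have h4 : Real.log ((a : ℝ) ^ 5) ≤ Real.log (Y ^ 3) := Real.log_le_log (by positivity) h3
  rw [Real.log_pow, Real.log_pow] at h4
  push_cast at h4
  linarith

open Classical in
theorem AN_eq (M : ℕ) (Y : ℝ) : AN M Y = (AF Y).filter (fun a => Sfl M a) := by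
  ext a
  simp only [AN, AF, Finset.mem_filter]
  tauto

theorem B_bound {L l s : ℝ} (hl : 0 ≤ l) (hlL : l ≤ L) (hs : 0 ≤ s) (hsl : s ≤ l ^ 2) :
    |B1 L l - s * B0 L l| ≤ 3 * (1 + L) ^ 5 := by
  set T := 1 + L with hT
  have hL0 : 0 ≤ L := hl.trans hlL
  have hT1 : 1 ≤ T := by linarith
  have hT0 : 0 ≤ T := by linarith
  unfold B1 B0
  set w := 3 / 2 * (L - l) with hwd
  have hw0 : 0 ≤ w := by
    rw [hwd]
    exact mul_nonneg (by norm_num) (by linarith)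
  have hw2 : w ≤ 2 * T := by
    rw [hwd]
    linarith
  have hlT : l ≤ T := by linarith
  have m1 : w ^ 5 ≤ 32 * T ^ 5 := by
    calc w ^ 5 ≤ (2 * T) ^ 5 := pow_le_pow_left₀ hw0 hw2 5
      _ = _ := by ring
  have m2 : l ^ 5 ≤ T ^ 5 := pow_le_pow_left₀ hl hlT 5
  have m3 : w ^ 3 ≤ 8 * T ^ 3 := by
    calc w ^ 3 ≤ (2 * T) ^ 3 := pow_le_pow_left₀ hw0 hw2 3
      _ = _ := by ring
  have m4 : l ^ 3 ≤ T ^ 3 := pow_le_pow_left₀ hl hlT 3
  have m5 : l ^ 2 ≤ T ^ 2 := pow_le_pow_left₀ hl hlT 2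
  have m6 : l ^ 2 * w ^ 3 ≤ 8 * T ^ 5 := by
    calc l ^ 2 * w ^ 3 ≤ T ^ 2 * (8 * T ^ 3) := mul_le_mul m5 m3 (by positivity) (by positivity)
      _ = _ := by ring
  have m7 : l ^ 2 * l ^ 3 ≤ T ^ 5 := by
    calc l ^ 2 * l ^ 3 ≤ T ^ 2 * T ^ 3 := mul_le_mul m5 m4 (by positivity) (by positivity)
      _ = _ := by ring
  have m8 : l ^ 2 * w ≤ 2 * T ^ 3 := by
    calc l ^ 2 * w ≤ T ^ 2 * (2 * T) := mul_le_mul m5 hw2 (by positivity) (by positivity)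
      _ = _ := by ring
  have m9 : l ^ 2 * l ≤ T ^ 3 := by
    calc l ^ 2 * l ≤ T ^ 2 * T := mul_le_mul m5 hlT (by positivity) (by positivity)
      _ = _ := by ring
  have p1 : 0 ≤ w ^ 5 := by positivity
  have p2 : 0 ≤ l ^ 5 := by positivity
  have p3 : 0 ≤ w ^ 3 := by positivity
  have p4 : 0 ≤ l ^ 3 := by positivity
  have p6 : 0 ≤ l ^ 2 * w ^ 3 := by positivity
  have p7 : 0 ≤ l ^ 2 * l ^ 3 := by positivity
  have p8 : 0 ≤ l ^ 2 * w := by positivity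
  have p9 : 0 ≤ l ^ 2 * l := by positivity
  have b1 : |((w ^ 5 - l ^ 5) / 5 - 1 / 20 * l ^ 2 * (w ^ 3 - l ^ 3)) / 4| ≤ 2 * T ^ 5 := by
    have e : ((w ^ 5 - l ^ 5) / 5 - 1 / 20 * l ^ 2 * (w ^ 3 - l ^ 3)) / 4 =
        ((w ^ 5 - l ^ 5) / 5 - 1 / 20 * (l ^ 2 * w ^ 3 - l ^ 2 * l ^ 3)) / 4 := by ring
    rw [e, abs_le]
    constructor <;> linarith
  have b0 : |3 / 16 * ((w ^ 3 - l ^ 3) / 3 - 3 / 20 * l ^ 2 * (w - l))| ≤ T ^ 3 := by
    have e : 3 / 16 * ((w ^ 3 - l ^ 3) / 3 - 3 / 20 * l ^ 2 * (w - l)) =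
        3 / 16 * ((w ^ 3 - l ^ 3) / 3 - 3 / 20 * (l ^ 2 * w - l ^ 2 * l)) := by ring
    rw [e, abs_le]
    constructor <;> linarith
  have b2 : |s * (3 / 16 * ((w ^ 3 - l ^ 3) / 3 - 3 / 20 * l ^ 2 * (w - l)))| ≤ T ^ 5 := by
    rw [abs_mul, abs_of_nonneg hs]
    calc s * |3 / 16 * ((w ^ 3 - l ^ 3) / 3 - 3 / 20 * l ^ 2 * (w - l))| ≤ T ^ 2 * T ^ 3 :=
          mul_le_mul (hsl.trans m5) b0 (abs_nonneg _) (by positivity)
      _ = _ := by ring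
  calc _ ≤ |((w ^ 5 - l ^ 5) / 5 - 1 / 20 * l ^ 2 * (w ^ 3 - l ^ 3)) / 4| +
        |s * (3 / 16 * ((w ^ 3 - l ^ 3) / 3 - 3 / 20 * l ^ 2 * (w - l)))| := abs_sub _ _
    _ ≤ 3 * T ^ 5 := by linarith

/-- the error term -/
theorem err_small {C δ : ℝ} (hC : 0 < C) (hδ : 0 < δ) :
    ∀ᶠ Y : ℝ in atTop, C * (1 + Real.log Y) ^ 8 ≤ δ * Real.log Y ^ 9 := by
  filter_upwards [Real.tendsto_log_atTop.eventually_ge_atTop 1,
    Real.tendsto_log_atTop.eventually_ge_atTop (256 * C / δ)] with Y h1 h2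
  set L := Real.log Y with hL
  have h3 : (1 + L) ^ 8 ≤ (2 * L) ^ 8 := pow_le_pow_left₀ (by linarith) (by linarith) 8
  have h4 : 256 * C ≤ L * δ := (div_le_iff₀ hδ).1 h2
  have h5 : 0 ≤ L ^ 8 := by positivity
  calc C * (1 + L) ^ 8 ≤ C * (2 * L) ^ 8 := mul_le_mul_of_nonneg_left h3 hC.le
    _ = (256 * C) * L ^ 8 := by ring
    _ ≤ (L * δ) * L ^ 8 := mul_le_mul_of_nonneg_right h4 h5
    _ = _ := by ring

end NewSumAux

open NewSumAux

theorem new_den (ε : ℝ) (hε : 0 < ε) : ∀ᶠ Y : ℝ in atTop, ∀ M : ℕ,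
    Sn2 M Y ≤ (6831489903 / 2000000000 * (a3 / (Nat.factorial 9 : ℝ)) + ε) * Real.log Y ^ 9 := by
  classical
  obtain ⟨C, hC, hb⟩ := new_b2
  set K := 6831489903 / 2000000000 * (a3 / (Nat.factorial 9 : ℝ)) with hK
  have h1 := (tendsto_order.1 new_a2).2 (K + ε / 2) (by linarith)
  filter_upwards [h1, err_small hC (half_pos hε), eventually_ge_atTop (1 : ℝ),
    Real.tendsto_log_atTop.eventually_ge_atTop 1] with Y h2 h3 hY hL M
  have hL9 : 0 < Real.log Y ^ 9 := by positivity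
  rw [div_lt_iff₀ hL9] at h2
  have h4 := (abs_le.1 (hb M Y hY)).2
  have h5 : ∑ a ∈ AN M Y, ga2 a * B2 (Real.log Y) (Real.log a) ≤
      ∑ a ∈ AF Y, ga2 a * B2 (Real.log Y) (Real.log a) := by
    rw [AN_eq]
    refine Finset.sum_le_sum_of_subset_of_nonneg (Finset.filter_subset _ _) fun a ha _ => ?_
    obtain ⟨_, hl0, hl⟩ := AF_bounds ha
    exact mul_nonneg (ga2_nonneg a) (B2_nonneg hl0 (by linarith))
  linarith

theorem new_num (ε : ℝ) (hε : 0 < ε) : ∃ M : ℕ, ∀ᶠ Y : ℝ in atTop,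
    (6831489903 / 2000000000 * (a3 / (Nat.factorial 9 : ℝ)) - ε) * Real.log Y ^ 9 ≤ Sn1 M Y := by
  classical
  obtain ⟨C, hC, hb⟩ := new_b1
  set K := 6831489903 / 2000000000 * (a3 / (Nat.factorial 9 : ℝ)) with hK
  obtain ⟨M, hM⟩ := sqf_tail (ε / 4608) (by positivity)
  refine ⟨M, ?_⟩
  have h1 := (tendsto_order.1 new_a1).1 (K - ε / 3) (by linarith)
  filter_upwards [h1, err_small hC (show 0 < ε / 3 by positivity), eventually_ge_atTop (1 : ℝ),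
    Real.tendsto_log_atTop.eventually_ge_atTop 1] with Y h2 h3 hY hL
  have hL9 : 0 < Real.log Y ^ 9 := by positivity
  rw [lt_div_iff₀ hL9] at h2
  have h4 := (abs_le.1 (hb M Y hY)).1
  have h5 := Finset.sum_filter_add_sum_filter_not (AF Y) (fun a => Sfl M a) (fun a =>
    ga2 a * (B1 (Real.log Y) (Real.log a) - sg a * B0 (Real.log Y) (Real.log a)))
  have h6 : ∑ a ∈ (AF Y).filter (fun a => ¬ Sfl M a),
      ga2 a * (B1 (Real.log Y) (Real.log a) - sg a * B0 (Real.log Y) (Real.log a)) ≤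
      ε / 3 * Real.log Y ^ 9 := by
    have h7 : ∑ a ∈ (AF Y).filter (fun a => ¬ Sfl M a),
        ga2 a * (B1 (Real.log Y) (Real.log a) - sg a * B0 (Real.log Y) (Real.log a)) ≤
        ∑ a ∈ (AF Y).filter (fun a => ¬ Sfl M a), (hh a ^ 2 / a) * (3 * (1 + Real.log Y) ^ 5) := by
      refine Finset.sum_le_sum fun a ha => ?_
      obtain ⟨ha1, hl0, hl⟩ := AF_bounds (Finset.mem_filter.1 ha).1
      have hlL : Real.log a ≤ Real.log Y := by linarith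
      have h8 := B_bound hl0 hlL (Pool.Agent.P07318m.sg_nonneg a) (Pool.Agent.P07318m.sg_le a ha1)
      have h9 := (le_abs_self _).trans h8
      exact (mul_le_mul_of_nonneg_left h9 (ga2_nonneg a)).trans
        (mul_le_mul_of_nonneg_right (ga2_le a) (by positivity))
    have h8 : ∑ a ∈ (AF Y).filter (fun a => ¬ Sfl M a), (hh a ^ 2 / a) ≤
        ε / 4608 * (1 + Real.log Y) ^ 4 := by
      refine le_trans ?_ (hM Y hY)
      refine Finset.sum_le_sum_of_subset_of_nonneg ?_ fun a _ _ => by positivity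
      intro a ha
      rw [Finset.mem_filter] at ha ⊢
      refine ⟨?_, ha.2⟩
      have := ha.1
      unfold AF at this
      exact (Finset.mem_filter.1 this).1
    rw [← Finset.sum_mul] at h7
    refine h7.trans ?_
    have h10 : (1 + Real.log Y) ^ 9 ≤ (2 * Real.log Y) ^ 9 :=
      pow_le_pow_left₀ (by linarith) (by linarith) 9
    calc (∑ a ∈ (AF Y).filter (fun a => ¬ Sfl M a), (hh a ^ 2 / a)) * (3 * (1 + Real.log Y) ^ 5) ≤
          (ε / 4608 * (1 + Real.log Y) ^ 4) * (3 * (1 + Real.log Y) ^ 5) :=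
          mul_le_mul_of_nonneg_right h8 (by positivity)
      _ = (ε / 1536) * (1 + Real.log Y) ^ 9 := by ring
      _ ≤ (ε / 1536) * (2 * Real.log Y) ^ 9 := mul_le_mul_of_nonneg_left h10 (by positivity)
      _ = _ := by ring
  rw [AN_eq] at h4
  have h11 : (K - ε) * Real.log Y ^ 9 = (K - ε / 3) * Real.log Y ^ 9 - ε / 3 * Real.log Y ^ 9 -
      ε / 3 * Real.log Y ^ 9 := by ring
  rw [h11]
  linarith

end Pool.Agent.P07318w
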