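import Pool.Agent.Lib.P07318w.ErOld
import Pool.Agent.Lib.P07318w.CSumN
import Pool.Agent.Lib.P07318w.ErPt

/-!
# P07318w.NumNew: the second part of the numerator
-/

set_option autoImplicit false

open MeasureTheory Complex

namespace Pool.Agent.P07318w

open Pool.Agent.P07318m
open Pool.Agent.P4f18dfS (wt XF)

/-- Lower bound for the second part of the numerator. -/
theorem num_new (M : ℕ) (κ η : ℝ) (hκ : 0 < κ) (hκ' : κ < 1 / 4) (hη : 0 < η) : ∃ C : ℝ, 0 < C ∧ ∀ (τ Δ Y : ℝ),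
    1 ≤ Δ → 1 ≤ τ → τ ^ η ≤ τ / Δ → 1 ≤ Y → Y ≤ τ ^ (1 - 2 * κ) →
    Δ * Real.sqrt Real.pi * Sn1 M Y - C * Δ * (1 + Real.log τ) ^ 8 -
      C * (τ / Δ) ^ 20 * τ ^ (1 - κ / 2) ≤
      (∑ p ∈ RN M Y, (cn Y p : ℂ) * Jt τ Δ p.1 p.2).re := by
  set ε : ℝ := κ / 8 with hε
  have hε0 : 0 < ε := by positivity
  obtain ⟨C1, hC1, h1⟩ := gen_num ε η hε0 hη
  obtain ⟨C2, hC2, h2⟩ := er_pt M ε η hε0 hη
  obtain ⟨C3, hC3, h3⟩ := cn3 ε hε0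
  obtain ⟨C4, hC4, h4⟩ := cn4 ε hε0
  obtain ⟨C5, hC5, h5⟩ := cn5
  obtain ⟨C6, hC6, h6⟩ := cn6 ε hε0
  have hpi := Real.pi_pos
  refine ⟨C1 * C5 + (C1 * C4 + C1 * C3 + 2 * Real.pi * (C2 * C6)), by positivity, fun τ Δ Y k1 k2 k3 k4 k5 => ?_⟩
  have hτ : 0 < τ := by linarith
  have hΔ : 0 < Δ := by linarith
  have hY0 : 0 < Y := by linarith
  have hYτ : Y ≤ τ := by
    refine k5.trans ?_
    calc τ ^ (1 - 2 * κ) ≤ τ ^ (1 : ℝ) := Real.rpow_le_rpow_of_exponent_le k2 (by linarith)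
      _ = τ := Real.rpow_one τ
  have hΔτ : Δ ≤ τ := by
    have : 1 ≤ τ / Δ := le_trans (Real.one_le_rpow k2 hη.le) k3
    rwa [le_div_iff₀ hΔ, one_mul] at this
  have hlY : Real.log Y ≤ Real.log τ := Real.log_le_log hY0 hYτ
  have hlY0 : 0 ≤ Real.log Y := Real.log_nonneg k4
  have hlog : 0 ≤ Real.log τ := Real.log_nonneg k2
  have hS : ∀ p ∈ RN M Y, 1 ≤ p.1 ∧ 1 ≤ p.2 ∧ (p.1 : ℝ) * p.2 ≤ Y ∧ 0 ≤ Qn Y p.1 p.2 ∧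
      0 ≤ Real.log (Y / p.2) - Real.log p.1 / 2 := by
    intro p hp
    obtain ⟨m1, m2, -, -, -, m6, -, -, -, m10, m11, -⟩ := mem_rn k4 hp
    have a1 : (1:ℝ) ≤ p.1 := by exact_mod_cast m1
    have hla0 : 0 ≤ Real.log p.1 := Real.log_nonneg a1
    exact ⟨m1, m2, m6, m11, by linarith⟩
  have g := h1 τ Δ Y (RN M Y) (Qn Y) k1 k2 k3 k4 hYτ hS
  have hYpow : ∀ x : ℝ, 0 ≤ x → Y ^ x ≤ τ ^ ((1 - 2 * κ) * x) := by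
    intro x hx
    rw [Real.rpow_mul hτ.le]
    exact Real.rpow_le_rpow hY0.le k5 hx
  have q1 : τ ^ (1 / 2 + ε) * Y ^ (1 / 2 + ε) ≤ τ ^ (1 - κ / 2) := by
    calc τ ^ (1 / 2 + ε) * Y ^ (1 / 2 + ε) ≤ τ ^ (1 / 2 + ε) * τ ^ ((1 - 2 * κ) * (1 / 2 + ε)) :=
          mul_le_mul_of_nonneg_left (hYpow _ (by positivity)) (by positivity)
      _ = τ ^ (1 / 2 + ε + (1 - 2 * κ) * (1 / 2 + ε)) := (Real.rpow_add hτ _ _).symm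
      _ ≤ _ := Real.rpow_le_rpow_of_exponent_le k2 (by rw [hε]; nlinarith)
  have q2 : τ ^ ε * Y ^ (3 / 4 + ε) ≤ τ ^ (1 - κ / 2) := by
    calc τ ^ ε * Y ^ (3 / 4 + ε) ≤ τ ^ ε * τ ^ ((1 - 2 * κ) * (3 / 4 + ε)) :=
          mul_le_mul_of_nonneg_left (hYpow _ (by positivity)) (by positivity)
      _ = τ ^ (ε + (1 - 2 * κ) * (3 / 4 + ε)) := (Real.rpow_add hτ _ _).symm
      _ ≤ _ := Real.rpow_le_rpow_of_exponent_le k2 (by rw [hε]; nlinarith)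
  have q3 : τ ^ ε * Y ^ (1 + ε) ≤ τ ^ (1 - κ / 2) := by
    calc τ ^ ε * Y ^ (1 + ε) ≤ τ ^ ε * τ ^ ((1 - 2 * κ) * (1 + ε)) :=
          mul_le_mul_of_nonneg_left (hYpow _ (by positivity)) (by positivity)
      _ = τ ^ (ε + (1 - 2 * κ) * (1 + ε)) := (Real.rpow_add hτ _ _).symm
      _ ≤ _ := Real.rpow_le_rpow_of_exponent_le k2 (by rw [hε]; nlinarith)
  have hV : 0 ≤ (τ / Δ) ^ 20 := by positivity
  -- the sums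
  have s5 : ∑ p ∈ RN M Y, hh p.1 ^ 2 / ((p.1 : ℝ) * p.2) * Qn Y p.1 p.2 * (1 + dl p.1) ≤ C5 * (1 + Real.log τ) ^ 7 := by
    refine (h5 M Y k4).trans ?_
    gcongr
  have s4 := h4 M Y k4
  have s3 := h3 M Y k4
  have s6 := h6 M Y k4
  have s2 : ‖∑ p ∈ RN M Y, ((hh p.1 / p.1 * Qn Y p.1 p.2 : ℝ) : ℂ) * Ser τ Δ p.1 p.2‖ ≤
      C2 * (τ / Δ) ^ 20 * τ ^ ε * (C6 * Y ^ (1 + ε)) := by
    refine (norm_sum_le _ _).trans ?_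
    calc ∑ p ∈ RN M Y, ‖((hh p.1 / p.1 * Qn Y p.1 p.2 : ℝ) : ℂ) * Ser τ Δ p.1 p.2‖
        ≤ ∑ p ∈ RN M Y, C2 * (τ / Δ) ^ 20 * τ ^ ε * (hh p.1 / p.1 * Qn Y p.1 p.2 * (p.1 : ℝ) ^ (3 / 2 : ℝ)) := by
          refine Finset.sum_le_sum fun p hp => ?_
          obtain ⟨m1, m2, m3, m4, m5, m6, m7, m8, m9, m10, m11, m12⟩ := mem_rn k4 hp
          have h0 : 0 ≤ hh p.1 := by linarith [one_le_hh p.1]
          rw [norm_mul, Complex.norm_real, Real.norm_of_nonneg (by positivity)]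
          have := h2 τ Δ p.1 p.2 k1 hΔτ k3 m1 m2 (by linarith) (by linarith) m3.symm m9
          have hs : Ser τ Δ p.1 p.2 = ∑' n : ℕ, ((d3 n : ℕ) : ℂ) * (ee (-(n * p.2 / p.1)) - (rho p.1 n : ℂ)) *
            (GG τ Δ (n * p.2 / p.1) : ℂ) := rfl
          rw [← hs] at this
          calc hh p.1 / p.1 * Qn Y p.1 p.2 * ‖Ser τ Δ p.1 p.2‖ ≤ hh p.1 / p.1 * Qn Y p.1 p.2 *
                (C2 * (τ / Δ) ^ 20 * τ ^ ε * (p.1 : ℝ) ^ (3 / 2 : ℝ)) := mul_le_mul_of_nonneg_left this (by positivity)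
            _ = _ := by ring
      _ = C2 * (τ / Δ) ^ 20 * τ ^ ε * ∑ p ∈ RN M Y, hh p.1 / p.1 * Qn Y p.1 p.2 * (p.1 : ℝ) ^ (3 / 2 : ℝ) := by
          rw [Finset.mul_sum]
      _ ≤ _ := mul_le_mul_of_nonneg_left s6 (by positivity)
  have t5 : C1 * (Δ * (1 + Real.log τ)) *
      (∑ p ∈ RN M Y, hh p.1 ^ 2 / ((p.1 : ℝ) * p.2) * Qn Y p.1 p.2 * (1 + dl p.1)) ≤ C1 * C5 * Δ * (1 + Real.log τ) ^ 8 := by
    calc _ ≤ C1 * (Δ * (1 + Real.log τ)) * (C5 * (1 + Real.log τ) ^ 7) := mul_le_mul_of_nonneg_left s5 (by positivity)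
      _ = _ := by ring
  have t4 : C1 * ((τ / Δ) ^ 20 * τ ^ (1 / 2 + ε)) *
      (∑ p ∈ RN M Y, hh p.1 / p.1 * Qn Y p.1 p.2 * (p.2 : ℝ) ^ (-(1 / 2) : ℝ)) ≤
      C1 * C4 * (τ / Δ) ^ 20 * τ ^ (1 - κ / 2) := by
    calc _ ≤ C1 * ((τ / Δ) ^ 20 * τ ^ (1 / 2 + ε)) * (C4 * Y ^ (1 / 2 + ε)) := mul_le_mul_of_nonneg_left s4 (by positivity)
      _ = C1 * C4 * (τ / Δ) ^ 20 * (τ ^ (1 / 2 + ε) * Y ^ (1 / 2 + ε)) := by ring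
      _ ≤ _ := mul_le_mul_of_nonneg_left q1 (by positivity)
  have t3 : C1 * ((τ / Δ) ^ 20 * τ ^ ε) * (∑ p ∈ RN M Y, |cP (Qn Y) p| * (p.1 : ℝ) ^ (1 / 2 : ℝ)) ≤
      C1 * C3 * (τ / Δ) ^ 20 * τ ^ (1 - κ / 2) := by
    calc _ ≤ C1 * ((τ / Δ) ^ 20 * τ ^ ε) * (C3 * Y ^ (3 / 4 + ε)) := mul_le_mul_of_nonneg_left s3 (by positivity)
      _ = C1 * C3 * (τ / Δ) ^ 20 * (τ ^ ε * Y ^ (3 / 4 + ε)) := by ring
      _ ≤ _ := mul_le_mul_of_nonneg_left q2 (by positivity)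
  have t2 : 2 * Real.pi * ‖∑ p ∈ RN M Y, ((hh p.1 / p.1 * Qn Y p.1 p.2 : ℝ) : ℂ) * Ser τ Δ p.1 p.2‖ ≤
      2 * Real.pi * (C2 * C6) * (τ / Δ) ^ 20 * τ ^ (1 - κ / 2) := by
    calc _ ≤ 2 * Real.pi * (C2 * (τ / Δ) ^ 20 * τ ^ ε * (C6 * Y ^ (1 + ε))) :=
          mul_le_mul_of_nonneg_left s2 (by positivity)
      _ = 2 * Real.pi * (C2 * C6) * (τ / Δ) ^ 20 * (τ ^ ε * Y ^ (1 + ε)) := by ring
      _ ≤ _ := mul_le_mul_of_nonneg_left q3 (by positivity)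
  have hSw : Sn1 M Y = ∑ p ∈ RN M Y, hh p.1 ^ 2 / ((p.1 : ℝ) * (p.2 : ℝ)) * Qn Y p.1 p.2 * KY Y p.1 p.2 := rfl
  rw [← hSw] at g
  have hcw : ∑ p ∈ RN M Y, (cn Y p : ℂ) * Jt τ Δ p.1 p.2 = ∑ p ∈ RN M Y, (cP (Qn Y) p : ℂ) * Jt τ Δ p.1 p.2 := rfl
  rw [hcw]
  refine le_trans ?_ g
  have z1 : 0 ≤ (τ / Δ) ^ 20 * τ ^ (1 - κ / 2) := by positivity
  have z2 : 0 ≤ Δ * (1 + Real.log τ) ^ 8 := by positivity
  have z3 : 0 ≤ C1 * C5 * ((τ / Δ) ^ 20 * τ ^ (1 - κ / 2)) := by positivity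
  have z4 : 0 ≤ (C1 * C4 + C1 * C3 + 2 * Real.pi * (C2 * C6)) * (Δ * (1 + Real.log τ) ^ 8) := by positivity
  nlinarith

end Pool.Agent.P07318w
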