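import Pool.Agent.Lib.P07318w.Defs
import Pool.Agent.Lib.P07318m.S2Up

/-!
# P07318w.OldDen: the denominator sum over the first region

This is the analogue of `P07318m.s2_up` (file `P07318m/S2Up.lean`: constant `833/16`, weight `Ph`), the proof there is the model; black boxes: `ps_sum`, `tj_bound`, `sum_E`, `small_pow` (S2Up), `g_mom` (Mom).

PROOF. `L = log Y`, `ℓ = log a`, `λ = log(Y/(ab)) ≥ 0` on `PS Y`, `λ' = log^+(Y e^(-D)/(ab)) = max(λ - D, 0)`. Pointwise `0 ≤ (λ^2 - λ'^2)/(2D) ≤ λ`, so `0 ≤ Pw ≤ P0 = 93/200 λ^2 + 119/200 ℓ λ` and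
`Pw^2 ≤ P0^2 = (93^2 λ^4 + 2·93·119 ℓ λ^3 + 119^2 ℓ^2 λ^2)/40000`. Sum over `b` (`tj_bound`: `∑_b λ^j/b = φ(a)/a (L-ℓ)^(j+1)/(j+1) + O(Ea(a) (1+L)^j)`) and over `a ≤ √Y` (`g_mom`): the limit of the main term divided by `L^9` is
`(a3/6) ∫_0^{1/2} u^3 (8649 v^5/5 + 22134 u v^4/4 + 14161 u^2 v^3/3)/40000 du = (9028829/640000) a3/9!`, `v = 1 - u` (checked with exact rational arithmetic).
-/

set_option autoImplicit false

open Filter Topology

namespace Pool.Agent.P07318w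

open Pool.Agent.P07318m (a3)

namespace OldDenAux

open Pool.Agent.P07318m Pool.Agent.P07318m.S2UpAux Pool.Agent.P07318m.MomAux

/-- The pointwise bounds of the weight. -/
lemma pw_bounds {Y D : ℝ} (hD : 0 < D) {p : ℕ × ℕ} (hp : p ∈ PS Y) :
    0 ≤ Pw Y D p.1 p.2 ∧
    Pw Y D p.1 p.2 ≤ 93 / 200 * Real.log (Y / (p.1 * p.2)) ^ 2 +
      119 / 200 * Real.log p.1 * Real.log (Y / (p.1 * p.2)) := by
  unfold PS at hp
  rw [Finset.mem_filter, Finset.mem_product, Finset.mem_Icc, Finset.mem_Icc] at hp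
  obtain ⟨⟨⟨h1, -⟩, h3, -⟩, -, -, h7⟩ := hp
  have h1' : (1 : ℝ) ≤ p.1 := by exact_mod_cast h1
  have h3' : (1 : ℝ) ≤ p.2 := by exact_mod_cast h3
  have hab : (0 : ℝ) < (p.1 : ℝ) * p.2 := by positivity
  have hx : 1 ≤ Y / ((p.1 : ℝ) * p.2) := by
    rw [le_div_iff₀ hab]
    linarith
  have hx0 : 0 < Y / ((p.1 : ℝ) * p.2) := by linarith
  have hlam := Real.log_nonneg hx
  have hell := Real.log_nonneg h1'
  have e1 : P07318m.lp (Y / (p.1 * p.2)) = Real.log (Y / (p.1 * p.2)) := by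
    unfold P07318m.lp
    exact max_eq_left hlam
  have e2 : P07318m.lp (Y * Real.exp (-D) / (p.1 * p.2)) = max (Real.log (Y / (p.1 * p.2)) - D) 0 := by
    unfold P07318m.lp
    have : Y * Real.exp (-D) / ((p.1 : ℝ) * p.2) = Y / (p.1 * p.2) * Real.exp (-D) := by ring
    rw [this, Real.log_mul hx0.ne' (Real.exp_pos _).ne', Real.log_exp]
    rfl
  unfold Pw
  rw [e1, e2]
  obtain ⟨lam, hl⟩ : ∃ lam : ℝ, lam = Real.log (Y / (p.1 * p.2)) := ⟨_, rfl⟩
  obtain ⟨ell, he⟩ : ∃ ell : ℝ, ell = Real.log p.1 := ⟨_, rfl⟩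
  rw [← hl, ← he]
  rw [← hl] at hlam
  rw [← he] at hell
  have e3 : 93 / 200 * lam ^ 2 + 119 / 200 * ell * (lam ^ 2 - max (lam - D) 0 ^ 2) / (2 * D) =
      93 / 200 * lam ^ 2 + 119 / 200 * (ell * ((lam ^ 2 - max (lam - D) 0 ^ 2) / (2 * D))) := by
    ring
  rw [e3]
  have hkey : 0 ≤ (lam ^ 2 - max (lam - D) 0 ^ 2) / (2 * D) ∧
      (lam ^ 2 - max (lam - D) 0 ^ 2) / (2 * D) ≤ lam := by
    rcases le_total D lam with h | h
    · have e4 : max (lam - D) 0 = lam - D := max_eq_left (by linarith)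
      have e5 : (lam ^ 2 - (lam - D) ^ 2) / (2 * D) = lam - D / 2 := by
        field_simp
        ring
      rw [e4, e5]
      refine ⟨by linarith, by linarith⟩
    · have e4 : max (lam - D) 0 = 0 := max_eq_right (by linarith)
      rw [e4]
      have h2D : 0 < 2 * D := by linarith
      refine ⟨div_nonneg (by nlinarith [sq_nonneg lam]) h2D.le, ?_⟩
      rw [div_le_iff₀ h2D]
      nlinarith
  obtain ⟨k1, k2⟩ := hkey
  have m1 := mul_nonneg hell k1
  have m2 := mul_le_mul_of_nonneg_left k2 hell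
  have m0 : 0 ≤ lam ^ 2 := sq_nonneg _
  refine ⟨by linarith, by linarith⟩

lemma f_sum (ε : ℝ) (hε : 0 < ε) : ∀ᶠ Y : ℝ in atTop,
    ∑ a ∈ Finset.Icc 1 ⌊Real.sqrt Y⌋₊, hh a ^ 2 * (a.totient : ℝ) / (a : ℝ) ^ 2 *
      ((8649 / 5 * (Real.log Y - Real.log a) ^ 5 +
        22134 / 4 * (Real.log a * (Real.log Y - Real.log a) ^ 4) +
        14161 / 3 * (Real.log a ^ 2 * (Real.log Y - Real.log a) ^ 3)) / 40000) ≤
      (9028829 / 640000 * (a3 / (Nat.factorial 9 : ℝ)) + ε) * Real.log Y ^ 9 := by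
  have h := ((((((mj_lim 0).const_mul (8649 / 200000)).sub ((mj_lim 1).const_mul (6231 / 80000))).sub
    ((mj_lim 2).const_mul (347 / 120000))).add ((mj_lim 3).const_mul (871 / 20000))).add
    ((mj_lim 4).const_mul (169 / 10000))).sub ((mj_lim 5).const_mul (27499 / 1200000))
  have hlt : 8649 / 200000 * (a3 / (6 * (((0 : ℕ) : ℝ) + 4)) / 2 ^ (0 + 4)) -
      6231 / 80000 * (a3 / (6 * (((1 : ℕ) : ℝ) + 4)) / 2 ^ (1 + 4)) -
      347 / 120000 * (a3 / (6 * (((2 : ℕ) : ℝ) + 4)) / 2 ^ (2 + 4)) +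
      871 / 20000 * (a3 / (6 * (((3 : ℕ) : ℝ) + 4)) / 2 ^ (3 + 4)) +
      169 / 10000 * (a3 / (6 * (((4 : ℕ) : ℝ) + 4)) / 2 ^ (4 + 4)) -
      27499 / 1200000 * (a3 / (6 * (((5 : ℕ) : ℝ) + 4)) / 2 ^ (5 + 4)) <
      9028829 / 640000 * (a3 / (Nat.factorial 9 : ℝ)) + ε := by
    have hf : (Nat.factorial 9 : ℝ) = 362880 := by
      norm_num [Nat.factorial]
    rw [hf]
    push_cast
    norm_num
    linarith
  filter_upwards [h.eventually (eventually_lt_nhds hlt), eventually_gt_atTop (1 : ℝ)] with Y hY hY1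
  have hL : 0 < Real.log Y := Real.log_pos hY1
  have hL9 : 0 < Real.log Y ^ 9 := pow_pos hL 9
  have e : ∑ a ∈ Finset.Icc 1 ⌊Real.sqrt Y⌋₊, hh a ^ 2 * (a.totient : ℝ) / (a : ℝ) ^ 2 *
      ((8649 / 5 * (Real.log Y - Real.log a) ^ 5 +
        22134 / 4 * (Real.log a * (Real.log Y - Real.log a) ^ 4) +
        14161 / 3 * (Real.log a ^ 2 * (Real.log Y - Real.log a) ^ 3)) / 40000) =
      8649 / 200000 * Real.log Y ^ 5 * Mj 0 Y - 6231 / 80000 * Real.log Y ^ 4 * Mj 1 Y -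
        347 / 120000 * Real.log Y ^ 3 * Mj 2 Y + 871 / 20000 * Real.log Y ^ 2 * Mj 3 Y +
        169 / 10000 * Real.log Y * Mj 4 Y - 27499 / 1200000 * Mj 5 Y := by
    unfold Mj
    rw [Finset.mul_sum, Finset.mul_sum, Finset.mul_sum, Finset.mul_sum, Finset.mul_sum,
      Finset.mul_sum, ← Finset.sum_sub_distrib, ← Finset.sum_sub_distrib,
      ← Finset.sum_add_distrib, ← Finset.sum_add_distrib, ← Finset.sum_sub_distrib]
    refine Finset.sum_congr rfl fun a _ => ?_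
    ring
  rw [e]
  have e2 : 8649 / 200000 * Real.log Y ^ 5 * Mj 0 Y - 6231 / 80000 * Real.log Y ^ 4 * Mj 1 Y -
        347 / 120000 * Real.log Y ^ 3 * Mj 2 Y + 871 / 20000 * Real.log Y ^ 2 * Mj 3 Y +
        169 / 10000 * Real.log Y * Mj 4 Y - 27499 / 1200000 * Mj 5 Y =
      (8649 / 200000 * (Mj 0 Y / Real.log Y ^ (0 + 4)) -
        6231 / 80000 * (Mj 1 Y / Real.log Y ^ (1 + 4)) -
        347 / 120000 * (Mj 2 Y / Real.log Y ^ (2 + 4)) +
        871 / 20000 * (Mj 3 Y / Real.log Y ^ (3 + 4)) +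
        169 / 10000 * (Mj 4 Y / Real.log Y ^ (4 + 4)) -
        27499 / 1200000 * (Mj 5 Y / Real.log Y ^ (5 + 4))) *
        Real.log Y ^ 9 := by
    simp only [Nat.reduceAdd]
    field_simp
  rw [e2]
  exact mul_le_mul_of_nonneg_right hY.le hL9.le

theorem main (ε : ℝ) (hε : 0 < ε) : ∀ᶠ Y : ℝ in atTop, ∀ D : ℝ, 0 < D →
    Sw2 Y D ≤ (9028829 / 640000 * (a3 / (Nat.factorial 9 : ℝ)) + ε) * Real.log Y ^ 9 := by
  obtain ⟨C4, hC4, h4⟩ := tj_bound 4 (by norm_num)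
  obtain ⟨C3, hC3, h3⟩ := tj_bound 3 (by norm_num)
  obtain ⟨C2, hC2, h2⟩ := tj_bound 2 (by norm_num)
  obtain ⟨C, hC, hE⟩ := sum_E
  filter_upwards [f_sum (ε / 2) (half_pos hε),
    small_pow ((8649 * C4 + 22134 * C3 + 14161 * C2) / 40000 * C) (half_pos hε),
    eventually_ge_atTop (1 : ℝ)] with Y hF hS hY
  intro D hD
  have hL : 0 ≤ Real.log Y := Real.log_nonneg hY
  have step1 : Sw2 Y D ≤ ∑ p ∈ PS Y, hh p.1 ^ 2 / ((p.1 : ℝ) * (p.2 : ℝ)) *
      (93 / 200 * Real.log (Y / (p.1 * p.2)) ^ 2 +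
      119 / 200 * Real.log p.1 * Real.log (Y / (p.1 * p.2))) ^ 2 := by
    unfold Sw2
    refine Finset.sum_le_sum fun p hp => ?_
    obtain ⟨b1, b2⟩ := pw_bounds hD hp
    apply mul_le_mul_of_nonneg_left _ (by positivity)
    exact pow_le_pow_left₀ b1 b2 2
  refine step1.trans ?_
  rw [ps_sum hY (fun a b => hh a ^ 2 / ((a : ℝ) * (b : ℝ)) *
      (93 / 200 * Real.log (Y / (a * b)) ^ 2 +
      119 / 200 * Real.log a * Real.log (Y / (a * b))) ^ 2)]
  have step2 : ∀ a ∈ Finset.Icc 1 ⌊Real.sqrt Y⌋₊,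
      ∑ b ∈ (Finset.Icc 1 ⌊Y / a⌋₊).filter (fun b => b.Coprime a), hh a ^ 2 / ((a : ℝ) * (b : ℝ)) *
        (93 / 200 * Real.log (Y / (a * b)) ^ 2 +
        119 / 200 * Real.log a * Real.log (Y / (a * b))) ^ 2 ≤
      hh a ^ 2 * (a.totient : ℝ) / (a : ℝ) ^ 2 *
      ((8649 / 5 * (Real.log Y - Real.log a) ^ 5 +
        22134 / 4 * (Real.log a * (Real.log Y - Real.log a) ^ 4) +
        14161 / 3 * (Real.log a ^ 2 * (Real.log Y - Real.log a) ^ 3)) / 40000) +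
      (8649 * C4 + 22134 * C3 + 14161 * C2) / 40000 * (1 + Real.log Y) ^ 4 *
        (hh a ^ 2 / a * (1 + Ea a)) := by
    intro a ha
    obtain ⟨l1, l2⟩ := log_le_of_mem hY ha
    have ha1 : (1 : ℝ) ≤ a := by
      rw [Finset.mem_Icc] at ha
      exact_mod_cast ha.1
    have e : ∑ b ∈ (Finset.Icc 1 ⌊Y / a⌋₊).filter (fun b => b.Coprime a),
        hh a ^ 2 / ((a : ℝ) * (b : ℝ)) *
        (93 / 200 * Real.log (Y / (a * b)) ^ 2 +
        119 / 200 * Real.log a * Real.log (Y / (a * b))) ^ 2 =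
        hh a ^ 2 / a * ((8649 * Tj 4 Y a + 22134 * (Real.log a * Tj 3 Y a) +
          14161 * (Real.log a ^ 2 * Tj 2 Y a)) / 40000) := by
      unfold Tj
      rw [Finset.mul_sum, Finset.mul_sum, Finset.mul_sum, Finset.mul_sum, Finset.mul_sum,
        ← Finset.sum_add_distrib, ← Finset.sum_add_distrib, Finset.sum_div,
        Finset.mul_sum]
      refine Finset.sum_congr rfl fun b _ => ?_
      rw [← div_div Y, div_mul_eq_div_div]
      ring
    rw [e]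
    have b4 := (abs_le.mp (h4 Y a hY ha)).2
    have b3 := (abs_le.mp (h3 Y a hY ha)).2
    have b2 := (abs_le.mp (h2 Y a hY ha)).2
    have hEa := Ea_nonneg a
    have hL1 : 1 ≤ 1 + Real.log Y := by linarith
    set E1 : ℝ := Ea a * (1 + Real.log Y) ^ 4 with hE1
    have hE10 : 0 ≤ E1 := by positivity
    have c3 : Real.log a * (C3 * Ea a * (1 + Real.log Y) ^ 3) ≤ C3 * E1 := by
      have : Real.log a ≤ 1 + Real.log Y := by linarith
      calc Real.log a * (C3 * Ea a * (1 + Real.log Y) ^ 3) ≤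
            (1 + Real.log Y) * (C3 * Ea a * (1 + Real.log Y) ^ 3) :=
            mul_le_mul_of_nonneg_right this (by positivity)
        _ = C3 * E1 := by
            rw [hE1]
            ring
    have c2 : Real.log a ^ 2 * (C2 * Ea a * (1 + Real.log Y) ^ 2) ≤ C2 * E1 := by
      have : Real.log a ^ 2 ≤ (1 + Real.log Y) ^ 2 :=
        pow_le_pow_left₀ l1 (by linarith) 2
      calc Real.log a ^ 2 * (C2 * Ea a * (1 + Real.log Y) ^ 2) ≤
            (1 + Real.log Y) ^ 2 * (C2 * Ea a * (1 + Real.log Y) ^ 2) :=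
            mul_le_mul_of_nonneg_right this (by positivity)
        _ = C2 * E1 := by
            rw [hE1]
            ring
    set φ : ℝ := (a.totient : ℝ) / a with hφ
    set N : ℝ := Real.log Y - Real.log a with hN
    have d3 : Real.log a * Tj 3 Y a ≤ Real.log a * (φ * (N ^ (3 + 1) / ((3 : ℕ) + 1))) +
        C3 * E1 := by
      have := mul_le_mul_of_nonneg_left b3 l1
      linarith
    have d2 : Real.log a ^ 2 * Tj 2 Y a ≤ Real.log a ^ 2 * (φ * (N ^ (2 + 1) / ((2 : ℕ) + 1))) +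
        C2 * E1 := by
      have := mul_le_mul_of_nonneg_left b2 (sq_nonneg (Real.log a))
      linarith
    have d4 : Tj 4 Y a ≤ φ * (N ^ (4 + 1) / ((4 : ℕ) + 1)) + C4 * E1 := by
      rw [hE1]
      linarith
    have dall : (8649 * Tj 4 Y a + 22134 * (Real.log a * Tj 3 Y a) +
          14161 * (Real.log a ^ 2 * Tj 2 Y a)) / 40000 ≤
        φ * ((8649 / 5 * N ^ 5 + 22134 / 4 * (Real.log a * N ^ 4) +
          14161 / 3 * (Real.log a ^ 2 * N ^ 3)) / 40000) +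
          (8649 * C4 + 22134 * C3 + 14161 * C2) / 40000 * E1 := by
      push_cast at d2 d3 d4
      norm_num at d2 d3 d4
      linarith
    have hw : 0 ≤ hh a ^ 2 / a := by positivity
    have := mul_le_mul_of_nonneg_left dall hw
    refine this.trans ?_
    have e5 : hh a ^ 2 / a * (φ * ((8649 / 5 * N ^ 5 + 22134 / 4 * (Real.log a * N ^ 4) +
          14161 / 3 * (Real.log a ^ 2 * N ^ 3)) / 40000) +
          (8649 * C4 + 22134 * C3 + 14161 * C2) / 40000 * E1) =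
        hh a ^ 2 * (a.totient : ℝ) / (a : ℝ) ^ 2 *
        ((8649 / 5 * N ^ 5 + 22134 / 4 * (Real.log a * N ^ 4) +
          14161 / 3 * (Real.log a ^ 2 * N ^ 3)) / 40000) +
        (8649 * C4 + 22134 * C3 + 14161 * C2) / 40000 * (1 + Real.log Y) ^ 4 *
          (hh a ^ 2 / a * Ea a) := by
      rw [hφ, hE1]
      ring
    rw [e5]
    have h7 : hh a ^ 2 / a * Ea a ≤ hh a ^ 2 / a * (1 + Ea a) :=
      mul_le_mul_of_nonneg_left (by linarith) hw
    have h8 : 0 ≤ (8649 * C4 + 22134 * C3 + 14161 * C2) / 40000 * (1 + Real.log Y) ^ 4 := by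
      positivity
    have := mul_le_mul_of_nonneg_left h7 h8
    linarith
  refine (Finset.sum_le_sum step2).trans ?_
  rw [Finset.sum_add_distrib, ← Finset.mul_sum]
  have hE' := mul_le_mul_of_nonneg_left (hE Y hY)
    (show 0 ≤ (8649 * C4 + 22134 * C3 + 14161 * C2) / 40000 * (1 + Real.log Y) ^ 4 by positivity)
  have e6 : (8649 * C4 + 22134 * C3 + 14161 * C2) / 40000 * (1 + Real.log Y) ^ 4 *
      (C * (1 + Real.log Y) ^ 4) =
      (8649 * C4 + 22134 * C3 + 14161 * C2) / 40000 * C * (1 + Real.log Y) ^ 8 := by ring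
  rw [e6] at hE'
  have e7 : (9028829 / 640000 * (a3 / (Nat.factorial 9 : ℝ)) + ε) * Real.log Y ^ 9 =
      (9028829 / 640000 * (a3 / (Nat.factorial 9 : ℝ)) + ε / 2) * Real.log Y ^ 9 +
        ε / 2 * Real.log Y ^ 9 := by ring
  rw [e7]
  linarith

end OldDenAux

theorem old_den (ε : ℝ) (hε : 0 < ε) : ∀ᶠ Y : ℝ in atTop, ∀ D : ℝ, 0 < D →
    Sw2 Y D ≤ (9028829 / 640000 * (a3 / (Nat.factorial 9 : ℝ)) + ε) * Real.log Y ^ 9 :=
  OldDenAux.main ε hε

end Pool.Agent.P07318w
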