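import Pool.Agent.Lib.P07318w.Defs
import Pool.Agent.Lib.P07318w.DMom
import Pool.Agent.Lib.P07318m.S1Low

/-!
# P07318w.OldNum: the numerator sum over the first region

This is the analogue of `P07318m.s1_low` (file `P07318m/S1Low.lean`: constant `1733/64`, weight `Ph`), the proof there is the model; black boxes: `ps_sum`, `tj_bound` (the sums over `b` of
`λ^j`, `j ≥ 1`), `sum_E`, `small_pow` of `P07318m.S2Up`, `g_mom` of `P07318m.Mom`, `ds_mom` of `DMom`.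

PROOF. `L = log Y`, `ℓ = log a`, `λ = log(Y/(ab)) ≥ 0` on `PS Y`, `D = δ L`, `λ' = log^+(Y e^(-D)/(ab)) = max(λ - D, 0)`. Pointwise `λ - D/2 ≤ (λ^2 - λ'^2)/(2D) ≤ λ` (for `λ ≥ D` the middle is `λ - D/2`, for `λ < D` it is
`λ^2/(2D)`), so with `P0 = 93/200 λ^2 + 119/200 ℓ λ`: `P0 - (119/400) ℓ D ≤ Pw ≤ P0`. As `|KY| ≤ 2 (1+L)^2` on `PS Y` and `∑_{PS Y} hh(a)^2/(ab) ≤ C (1+L)^5`, replacing `Pw` by `P0` costs at most `C δ (1+L)^9`.
`KY = ((λ + ℓ/2)^2 - 3/4 sg(a))/2` (`log(Y/b) - ℓ/2 = λ + ℓ/2`), so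
`P0 KY = (93/400) λ^4 + (53/100) ℓ λ^3 + (569/1600) ℓ^2 λ^2 + (119/1600) ℓ^3 λ - sg(a) ((279/1600) λ^2 + (357/1600) ℓ λ)`
(check: `(1/2)(93/200 λ^2 + 119/200 ℓ λ)(λ^2 + ℓ λ + ℓ^2/4) = 93/400 λ^4 + (212/400) ℓ λ^3 + ((93/4 + 119)/400) ℓ^2 λ^2 + 119/1600 ℓ^3 λ` and `3/8 · 93/200 = 279/1600`, `3/8 · 119/200 = 357/1600`).
Sum over `b` (`tj_bound`: `∑_b λ^j/b = φ(a)/a (L-ℓ)^(j+1)/(j+1) + O(Ea(a) (1+L)^j)`), then over `a ≤ √Y` with `g_mom` and `ds_mom` (expand the polynomials in `ℓ`): the limits of the main terms divided by `L^9` are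
`(a3/6) ∫_0^{1/2} u^3 F(u) du = (23899/1600) a3/9!`, `F = 93/400 v^5/5 + 53/100 u v^4/4 + 569/1600 u^2 v^3/3 + 119/1600 u^3 v^2/2`, `v = 1 - u`, and
`(a3/30) ∫_0^{1/2} u^5 (279/1600 v^3/3 + 357/1600 u v^2/2) du = (2673/3200) a3/9!`; the difference is `(1805/128) a3/9!` (checked with exact rational arithmetic). Choose `δ` small in terms of `ε`, then `Y` large.
-/

set_option autoImplicit false

open Filter Topology

namespace Pool.Agent.P07318w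

open Pool.Agent.P07318m (a3)

namespace OldNumAux

open Pool.Agent.P07318m Pool.Agent.P07318m.S2UpAux Pool.Agent.P07318m.MomAux
open Pool.Agent.P07318m.S1LowAux

/-- The weight in terms of the weight of the first stage. -/
lemma pw_eq {Y D : ℝ} (hD : 0 < D) {p : ℕ × ℕ} (hp : p ∈ PS Y) :
    Pw Y D p.1 p.2 = 119 / 200 * Ph Y D p.1 p.2 -
      26 / 200 * Real.log (Y / (p.1 * p.2)) ^ 2 := by
  unfold PS at hp
  rw [Finset.mem_filter, Finset.mem_product, Finset.mem_Icc, Finset.mem_Icc] at hp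
  obtain ⟨⟨⟨h1, -⟩, h3, -⟩, -, -, h7⟩ := hp
  have h1' : (1 : ℝ) ≤ p.1 := by exact_mod_cast h1
  have h3' : (1 : ℝ) ≤ p.2 := by exact_mod_cast h3
  have hab : (0 : ℝ) < (p.1 : ℝ) * p.2 := by positivity
  have hx : 1 ≤ Y / ((p.1 : ℝ) * p.2) := by
    rw [le_div_iff₀ hab]
    linarith
  have hlam := Real.log_nonneg hx
  have e1 : Pool.Agent.P07318m.lp (Y / (p.1 * p.2)) = Real.log (Y / (p.1 * p.2)) := by
    unfold Pool.Agent.P07318m.lp
    exact max_eq_left hlam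
  unfold Pw Ph
  rw [e1]
  field_simp
  ring

/-- The pointwise lower bound. -/
lemma point' {Y D : ℝ} (hY : 1 ≤ Y) (hD : 0 < D) {p : ℕ × ℕ} (hp : p ∈ PS Y) :
    hh p.1 ^ 2 / ((p.1 : ℝ) * (p.2 : ℝ)) *
        ((93 / 200 * Real.log (Y / (p.1 * p.2)) ^ 2 +
            119 / 200 * (Real.log p.1 * Real.log (Y / (p.1 * p.2)))) *
          ((Real.log (Y / (p.1 * p.2)) + Real.log p.1 / 2) ^ 2 - 3 / 4 * sg p.1) / 2) -
      D * Real.log Y ^ 3 / 4 * (hh p.1 ^ 2 / ((p.1 : ℝ) * (p.2 : ℝ))) ≤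
    hh p.1 ^ 2 / ((p.1 : ℝ) * (p.2 : ℝ)) * Pw Y D p.1 p.2 * KY Y p.1 p.2 := by
  have hpt := point hY hD hp
  rw [pw_eq hD hp]
  unfold KY
  unfold PS at hp
  rw [Finset.mem_filter, Finset.mem_product, Finset.mem_Icc, Finset.mem_Icc] at hp
  obtain ⟨⟨⟨h1, -⟩, h3, -⟩, -, -, h7⟩ := hp
  have h1' : (1 : ℝ) ≤ p.1 := by exact_mod_cast h1
  have h3' : (1 : ℝ) ≤ p.2 := by exact_mod_cast h3
  have hab : (0 : ℝ) < (p.1 : ℝ) * p.2 := by positivity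
  have hY0 : (0 : ℝ) < Y := by linarith
  have hYb : Real.log (Y / p.2) = Real.log (Y / (p.1 * p.2)) + Real.log p.1 := by
    rw [Real.log_div hY0.ne' hab.ne', Real.log_mul (by positivity) (by positivity),
      Real.log_div hY0.ne' (by positivity)]
    ring
  have hL := Real.log_nonneg hY
  rw [hYb] at hpt ⊢
  have hw : 0 ≤ hh p.1 ^ 2 / ((p.1 : ℝ) * (p.2 : ℝ)) := by positivity
  generalize hh p.1 ^ 2 / ((p.1 : ℝ) * (p.2 : ℝ)) = w at hpt hw ⊢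
  generalize Ph Y D p.1 p.2 = ph at hpt ⊢
  generalize Real.log (Y / (p.1 * p.2)) = lam at hpt ⊢
  generalize Real.log (p.1 : ℝ) = ell at hpt ⊢
  generalize Real.log Y = L at hpt hL ⊢
  generalize sg p.1 = s at hpt ⊢
  have hDw : 0 ≤ D * L ^ 3 / 4 * w := by positivity
  have e1 : (lam + ell - ell / 2) ^ 2 - 3 / 4 * s = (lam + ell / 2) ^ 2 - 3 / 4 * s := by ring
  rw [e1] at hpt ⊢
  generalize (lam + ell / 2) ^ 2 - 3 / 4 * s = B at hpt ⊢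
  have e2 : w * (119 / 200 * ph - 26 / 200 * lam ^ 2) * (B / 2) =
      119 / 200 * (w * ph * (B / 2)) - 26 / 200 * (w * (lam ^ 2 * B / 2)) := by ring
  rw [e2]
  have e3 : w * ((93 / 200 * lam ^ 2 + 119 / 200 * (ell * lam)) * B / 2) =
      119 / 200 * (w * ((lam ^ 2 + ell * lam) * B / 2)) - 26 / 200 * (w * (lam ^ 2 * B / 2)) := by
    ring
  rw [e3]
  linarith

/-- The lower bound for fixed `a`. -/
lemma step' (C4 C3 C2 C1 : ℝ) (hC4 : 0 < C4) (hC3 : 0 < C3) (hC2 : 0 < C2) (hC1 : 0 < C1)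
    {L ℓ E φ T4 T3 T2 T1 N s : ℝ} (hL : 0 ≤ L) (hℓ : 0 ≤ ℓ) (hℓL : ℓ ≤ L) (hE : 0 ≤ E)
    (hs0 : 0 ≤ s) (hs : s ≤ ℓ ^ 2)
    (h4 : |T4 - φ * (N ^ 5 / 5)| ≤ C4 * E * (1 + L) ^ 4)
    (h3 : |T3 - φ * (N ^ 4 / 4)| ≤ C3 * E * (1 + L) ^ 3)
    (h2 : |T2 - φ * (N ^ 3 / 3)| ≤ C2 * E * (1 + L) ^ 2)
    (h1 : |T1 - φ * (N ^ 2 / 2)| ≤ C1 * E * (1 + L)) :
    φ * (93 / 1000 * N ^ 5 + 53 / 200 * ℓ * N ^ 4 + 569 / 2400 * ℓ ^ 2 * N ^ 3 +
        119 / 1600 * ℓ ^ 3 * N ^ 2) -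
      3 / 4 * (φ * s * (93 / 600 * N ^ 3 + 119 / 400 * ℓ * N ^ 2)) -
      (C4 + 2 * C3 + 3 * C2 + 2 * C1) * (E * (1 + L) ^ 4) ≤
    93 / 200 * T4 + 53 / 50 * (ℓ * T3) + 569 / 800 * (ℓ ^ 2 * T2) + 119 / 800 * (ℓ ^ 3 * T1) -
      3 / 4 * s * (93 / 200 * T2 + 119 / 200 * (ℓ * T1)) := by
  have hL1 : 1 ≤ 1 + L := by linarith
  have hℓ1 : ℓ ≤ 1 + L := by linarith
  have hℓ2 : ℓ ^ 2 ≤ (1 + L) ^ 2 := pow_le_pow_left₀ hℓ hℓ1 2
  have hℓ3 : ℓ ^ 3 ≤ (1 + L) ^ 3 := pow_le_pow_left₀ hℓ hℓ1 3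
  have hs2 : s ≤ (1 + L) ^ 2 := hs.trans hℓ2
  obtain ⟨h4a, -⟩ := abs_le.mp h4
  obtain ⟨h3a, -⟩ := abs_le.mp h3
  obtain ⟨h2a, h2b⟩ := abs_le.mp h2
  obtain ⟨h1a, h1b⟩ := abs_le.mp h1
  obtain ⟨F, eF⟩ : ∃ F : ℝ, F = E * (1 + L) ^ 4 := ⟨_, rfl⟩
  have hF0 : 0 ≤ F := by
    rw [eF]
    positivity
  have k3 : ℓ * (C3 * E * (1 + L) ^ 3) ≤ C3 * F := by
    have := mul_le_mul_of_nonneg_right hℓ1 (show 0 ≤ C3 * E * (1 + L) ^ 3 by positivity)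
    refine this.trans (le_of_eq ?_)
    rw [eF]
    ring
  have k2 : ℓ ^ 2 * (C2 * E * (1 + L) ^ 2) ≤ C2 * F := by
    have := mul_le_mul_of_nonneg_right hℓ2 (show 0 ≤ C2 * E * (1 + L) ^ 2 by positivity)
    refine this.trans (le_of_eq ?_)
    rw [eF]
    ring
  have k1 : ℓ ^ 3 * (C1 * E * (1 + L)) ≤ C1 * F := by
    have := mul_le_mul_of_nonneg_right hℓ3 (show 0 ≤ C1 * E * (1 + L) by positivity)
    refine this.trans (le_of_eq ?_)
    rw [eF]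
    ring
  have j2 : s * (C2 * E * (1 + L) ^ 2) ≤ C2 * F := by
    have := mul_le_mul_of_nonneg_right hs2 (show 0 ≤ C2 * E * (1 + L) ^ 2 by positivity)
    refine this.trans (le_of_eq ?_)
    rw [eF]
    ring
  have j1 : s * (ℓ * (C1 * E * (1 + L))) ≤ C1 * F := by
    have h5 : ℓ * (C1 * E * (1 + L)) ≤ (1 + L) * (C1 * E * (1 + L)) :=
      mul_le_mul_of_nonneg_right hℓ1 (by positivity)
    have h6 : s * (ℓ * (C1 * E * (1 + L))) ≤ (1 + L) ^ 2 * ((1 + L) * (C1 * E * (1 + L))) :=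
      mul_le_mul hs2 h5 (by positivity) (by positivity)
    refine h6.trans (le_of_eq ?_)
    rw [eF]
    ring
  have m4 : φ * (N ^ 5 / 5) - C4 * F ≤ T4 := by
    rw [eF]
    linarith
  have m3 : ℓ * (φ * (N ^ 4 / 4)) - C3 * F ≤ ℓ * T3 := by
    have := mul_le_mul_of_nonneg_left h3a hℓ
    linarith
  have m2 : ℓ ^ 2 * (φ * (N ^ 3 / 3)) - C2 * F ≤ ℓ ^ 2 * T2 := by
    have := mul_le_mul_of_nonneg_left h2a (sq_nonneg ℓ)
    linarith
  have m1 : ℓ ^ 3 * (φ * (N ^ 2 / 2)) - C1 * F ≤ ℓ ^ 3 * T1 := by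
    have := mul_le_mul_of_nonneg_left h1a (pow_nonneg hℓ 3)
    linarith
  have n2 : s * T2 ≤ s * (φ * (N ^ 3 / 3)) + C2 * F := by
    have := mul_le_mul_of_nonneg_left h2b hs0
    linarith
  have n1 : s * (ℓ * T1) ≤ s * (ℓ * (φ * (N ^ 2 / 2))) + C1 * F := by
    have h5 := mul_le_mul_of_nonneg_left h1b (mul_nonneg hs0 hℓ)
    have h6 : s * ℓ * (C1 * E * (1 + L)) ≤ C1 * F := by
      rw [mul_assoc]
      exact j1
    linarith
  rw [← eF]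
  have hC4F : 0 ≤ C4 * F := by positivity
  have hC3F : 0 ≤ C3 * F := by positivity
  have hC2F : 0 ≤ C2 * F := by positivity
  have hC1F : 0 ≤ C1 * F := by positivity
  linarith

/-- The moments with the weight `sg` at `√Y`. -/
noncomputable def Dj (j : ℕ) (Y : ℝ) : ℝ :=
  ∑ a ∈ Finset.Icc 1 ⌊Real.sqrt Y⌋₊,
    hh a ^ 2 * (a.totient : ℝ) / (a : ℝ) ^ 2 * sg a * Real.log a ^ j

lemma dj_lim (j : ℕ) : Tendsto (fun Y : ℝ => Dj j Y / Real.log Y ^ (j + 6)) atTop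
    (𝓝 (a3 / (30 * (j + 6)) / 2 ^ (j + 6))) := by
  have hs : Tendsto Real.sqrt atTop atTop := Real.tendsto_sqrt_atTop
  have h := ((ds_mom j).comp hs).div_const ((2 : ℝ) ^ (j + 6))
  refine h.congr' ?_
  filter_upwards [eventually_ge_atTop (0 : ℝ)] with Y hY
  have hl : Real.log (Real.sqrt Y) = Real.log Y / 2 := Real.log_sqrt hY
  simp only [Function.comp_apply]
  rw [hl, div_pow, div_div]
  unfold Dj
  congr 1
  have : (2 : ℝ) ^ (j + 6) ≠ 0 := by positivity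
  field_simp

theorem p1_sum (ε : ℝ) (hε : 0 < ε) : ∀ᶠ Y : ℝ in atTop,
    (23899 / 800 * (a3 / (Nat.factorial 9 : ℝ)) - ε) * Real.log Y ^ 9 ≤
    ∑ a ∈ Finset.Icc 1 ⌊Real.sqrt Y⌋₊, hh a ^ 2 * (a.totient : ℝ) / (a : ℝ) ^ 2 *
      (93 / 1000 * (Real.log Y - Real.log a) ^ 5 +
        53 / 200 * Real.log a * (Real.log Y - Real.log a) ^ 4 +
        569 / 2400 * Real.log a ^ 2 * (Real.log Y - Real.log a) ^ 3 +
        119 / 1600 * Real.log a ^ 3 * (Real.log Y - Real.log a) ^ 2) := by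
  have h := ((((((mj_lim 0).const_mul (93 / 1000)).sub ((mj_lim 1).const_mul (1 / 5))).add
    ((mj_lim 2).const_mul (257 / 2400))).add ((mj_lim 3).const_mul (37 / 1600))).sub
      ((mj_lim 4).const_mul (13 / 400))).add ((mj_lim 5).const_mul (223 / 24000))
  have hlt : 23899 / 800 * (a3 / (Nat.factorial 9 : ℝ)) - ε <
      93 / 1000 * (a3 / (6 * (((0 : ℕ) : ℝ) + 4)) / 2 ^ (0 + 4)) -
      1 / 5 * (a3 / (6 * (((1 : ℕ) : ℝ) + 4)) / 2 ^ (1 + 4)) +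
      257 / 2400 * (a3 / (6 * (((2 : ℕ) : ℝ) + 4)) / 2 ^ (2 + 4)) +
      37 / 1600 * (a3 / (6 * (((3 : ℕ) : ℝ) + 4)) / 2 ^ (3 + 4)) -
      13 / 400 * (a3 / (6 * (((4 : ℕ) : ℝ) + 4)) / 2 ^ (4 + 4)) +
      223 / 24000 * (a3 / (6 * (((5 : ℕ) : ℝ) + 4)) / 2 ^ (5 + 4)) := by
    have hf : (Nat.factorial 9 : ℝ) = 362880 := by
      norm_num [Nat.factorial]
    rw [hf]
    push_cast
    norm_num
    linarith
  filter_upwards [h.eventually (eventually_gt_nhds hlt), eventually_gt_atTop (1 : ℝ)] with Y hY hY1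
  have hL : 0 < Real.log Y := Real.log_pos hY1
  have hL9 : 0 < Real.log Y ^ 9 := pow_pos hL 9
  have e : ∑ a ∈ Finset.Icc 1 ⌊Real.sqrt Y⌋₊, hh a ^ 2 * (a.totient : ℝ) / (a : ℝ) ^ 2 *
      (93 / 1000 * (Real.log Y - Real.log a) ^ 5 +
        53 / 200 * Real.log a * (Real.log Y - Real.log a) ^ 4 +
        569 / 2400 * Real.log a ^ 2 * (Real.log Y - Real.log a) ^ 3 +
        119 / 1600 * Real.log a ^ 3 * (Real.log Y - Real.log a) ^ 2) =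
      93 / 1000 * Real.log Y ^ 5 * Mj 0 Y - 1 / 5 * Real.log Y ^ 4 * Mj 1 Y +
        257 / 2400 * Real.log Y ^ 3 * Mj 2 Y + 37 / 1600 * Real.log Y ^ 2 * Mj 3 Y -
        13 / 400 * Real.log Y * Mj 4 Y + 223 / 24000 * Mj 5 Y := by
    unfold Mj
    rw [Finset.mul_sum, Finset.mul_sum, Finset.mul_sum, Finset.mul_sum, Finset.mul_sum,
      Finset.mul_sum, ← Finset.sum_sub_distrib, ← Finset.sum_add_distrib,
      ← Finset.sum_add_distrib, ← Finset.sum_sub_distrib, ← Finset.sum_add_distrib]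
    refine Finset.sum_congr rfl fun a _ => ?_
    ring
  rw [e]
  have e2 : 93 / 1000 * Real.log Y ^ 5 * Mj 0 Y - 1 / 5 * Real.log Y ^ 4 * Mj 1 Y +
        257 / 2400 * Real.log Y ^ 3 * Mj 2 Y + 37 / 1600 * Real.log Y ^ 2 * Mj 3 Y -
        13 / 400 * Real.log Y * Mj 4 Y + 223 / 24000 * Mj 5 Y =
      (93 / 1000 * (Mj 0 Y / Real.log Y ^ (0 + 4)) - 1 / 5 * (Mj 1 Y / Real.log Y ^ (1 + 4)) +
        257 / 2400 * (Mj 2 Y / Real.log Y ^ (2 + 4)) +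
        37 / 1600 * (Mj 3 Y / Real.log Y ^ (3 + 4)) -
        13 / 400 * (Mj 4 Y / Real.log Y ^ (4 + 4)) +
        223 / 24000 * (Mj 5 Y / Real.log Y ^ (5 + 4))) * Real.log Y ^ 9 := by
    simp only [Nat.reduceAdd]
    field_simp
  rw [e2]
  exact mul_le_mul_of_nonneg_right (le_of_lt hY) hL9.le

theorem p2_sum (ε : ℝ) (hε : 0 < ε) : ∀ᶠ Y : ℝ in atTop,
    ∑ a ∈ Finset.Icc 1 ⌊Real.sqrt Y⌋₊, hh a ^ 2 * (a.totient : ℝ) / (a : ℝ) ^ 2 * sg a *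
      (93 / 600 * (Real.log Y - Real.log a) ^ 3 +
        119 / 400 * Real.log a * (Real.log Y - Real.log a) ^ 2) ≤
    (891 / 400 * (a3 / (Nat.factorial 9 : ℝ)) + ε) * Real.log Y ^ 9 := by
  have h := ((((dj_lim 0).const_mul (31 / 200)).sub ((dj_lim 1).const_mul (67 / 400))).sub
    ((dj_lim 2).const_mul (13 / 100))).add ((dj_lim 3).const_mul (57 / 400))
  have hlt :
      31 / 200 * (a3 / (30 * (((0 : ℕ) : ℝ) + 6)) / 2 ^ (0 + 6)) -
      67 / 400 * (a3 / (30 * (((1 : ℕ) : ℝ) + 6)) / 2 ^ (1 + 6)) -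
      13 / 100 * (a3 / (30 * (((2 : ℕ) : ℝ) + 6)) / 2 ^ (2 + 6)) +
      57 / 400 * (a3 / (30 * (((3 : ℕ) : ℝ) + 6)) / 2 ^ (3 + 6)) <
      891 / 400 * (a3 / (Nat.factorial 9 : ℝ)) + ε := by
    have hf : (Nat.factorial 9 : ℝ) = 362880 := by
      norm_num [Nat.factorial]
    rw [hf]
    push_cast
    norm_num
    linarith
  filter_upwards [h.eventually (eventually_lt_nhds hlt), eventually_gt_atTop (1 : ℝ)] with Y hY hY1
  have hL : 0 < Real.log Y := Real.log_pos hY1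
  have hL9 : 0 < Real.log Y ^ 9 := pow_pos hL 9
  have e : ∑ a ∈ Finset.Icc 1 ⌊Real.sqrt Y⌋₊, hh a ^ 2 * (a.totient : ℝ) / (a : ℝ) ^ 2 * sg a *
      (93 / 600 * (Real.log Y - Real.log a) ^ 3 +
        119 / 400 * Real.log a * (Real.log Y - Real.log a) ^ 2) =
      31 / 200 * Real.log Y ^ 3 * Dj 0 Y - 67 / 400 * Real.log Y ^ 2 * Dj 1 Y -
        13 / 100 * Real.log Y * Dj 2 Y + 57 / 400 * Dj 3 Y := by
    unfold Dj
    rw [Finset.mul_sum, Finset.mul_sum, Finset.mul_sum, Finset.mul_sum,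
      ← Finset.sum_sub_distrib, ← Finset.sum_sub_distrib, ← Finset.sum_add_distrib]
    refine Finset.sum_congr rfl fun a _ => ?_
    ring
  rw [e]
  have e2 : 31 / 200 * Real.log Y ^ 3 * Dj 0 Y - 67 / 400 * Real.log Y ^ 2 * Dj 1 Y -
        13 / 100 * Real.log Y * Dj 2 Y + 57 / 400 * Dj 3 Y =
      (31 / 200 * (Dj 0 Y / Real.log Y ^ (0 + 6)) - 67 / 400 * (Dj 1 Y / Real.log Y ^ (1 + 6)) -
        13 / 100 * (Dj 2 Y / Real.log Y ^ (2 + 6)) +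
        57 / 400 * (Dj 3 Y / Real.log Y ^ (3 + 6))) * Real.log Y ^ 9 := by
    simp only [Nat.reduceAdd]
    field_simp
  rw [e2]
  exact mul_le_mul_of_nonneg_right (le_of_lt hY) hL9.le

end OldNumAux

open OldNumAux Pool.Agent.P07318m Pool.Agent.P07318m.S2UpAux Pool.Agent.P07318m.S1LowAux in
theorem old_num (ε : ℝ) (hε : 0 < ε) : ∃ δ : ℝ, 0 < δ ∧ δ < 1 / 100 ∧ ∀ᶠ Y : ℝ in atTop,
    (1805 / 128 * (a3 / (Nat.factorial 9 : ℝ)) - ε) * Real.log Y ^ 9 ≤ Sw1 Y (δ * Real.log Y) := by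
  obtain ⟨C4, hC4, h4⟩ := tj_bound 4 (by norm_num)
  obtain ⟨C3, hC3, h3⟩ := tj_bound 3 (by norm_num)
  obtain ⟨C2, hC2, h2⟩ := tj_bound 2 (by norm_num)
  obtain ⟨C1, hC1, h1⟩ := tj_bound 1 (by norm_num)
  obtain ⟨C, hC, hE⟩ := sum_E
  obtain ⟨W, hW, hw⟩ := sum_w
  obtain ⟨K, eK⟩ : ∃ K : ℝ, K = C4 + 2 * C3 + 3 * C2 + 2 * C1 := ⟨_, rfl⟩
  have hK : 0 < K := by
    rw [eK]
    positivity
  obtain ⟨δ, hδ0, hδ1, hδ2⟩ : ∃ δ : ℝ, 0 < δ ∧ δ < 1 / 100 ∧ δ * (32 * W) ≤ ε := by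
    refine ⟨min (1 / 200) (ε / (32 * W)), ?_, ?_, ?_⟩
    · exact lt_min (by norm_num) (by positivity)
    · exact lt_of_le_of_lt (min_le_left _ _) (by norm_num)
    · have := min_le_right (1 / 200) (ε / (32 * W))
      rwa [le_div_iff₀ (by positivity)] at this
  refine ⟨δ, hδ0, hδ1, ?_⟩
  filter_upwards [p1_sum (ε / 4) (by positivity), p2_sum (ε / 4) (by positivity),
    small_pow (K * C) (show 0 < ε / 4 by positivity),
    Real.tendsto_log_atTop.eventually (eventually_ge_atTop (1 : ℝ)),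
    eventually_ge_atTop (1 : ℝ)] with Y hF hDw hS hL1 hY
  have hL0 : 0 < Real.log Y := by linarith
  have hD : 0 < δ * Real.log Y := by positivity
  -- step 1
  have step1 : ∑ p ∈ PS Y, (hh p.1 ^ 2 / ((p.1 : ℝ) * (p.2 : ℝ)) *
        ((93 / 200 * Real.log (Y / (p.1 * p.2)) ^ 2 +
            119 / 200 * (Real.log p.1 * Real.log (Y / (p.1 * p.2)))) *
          ((Real.log (Y / (p.1 * p.2)) + Real.log p.1 / 2) ^ 2 - 3 / 4 * sg p.1) / 2)) -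
      δ * Real.log Y * Real.log Y ^ 3 / 4 * ∑ p ∈ PS Y, (hh p.1 ^ 2 / ((p.1 : ℝ) * (p.2 : ℝ))) ≤
      Sw1 Y (δ * Real.log Y) := by
    unfold Sw1
    rw [Finset.mul_sum, ← Finset.sum_sub_distrib]
    exact Finset.sum_le_sum fun p hp => point' hY hD hp
  refine le_trans ?_ step1
  -- the error from `D`
  have herr : δ * Real.log Y * Real.log Y ^ 3 / 4 *
      ∑ p ∈ PS Y, (hh p.1 ^ 2 / ((p.1 : ℝ) * (p.2 : ℝ))) ≤ ε / 4 * Real.log Y ^ 9 := by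
    have g1 := hw Y hY
    have g2 : (1 + Real.log Y) ^ 5 ≤ (2 * Real.log Y) ^ 5 :=
      pow_le_pow_left₀ (by linarith) (by linarith) 5
    have g3 : ∑ p ∈ PS Y, (hh p.1 ^ 2 / ((p.1 : ℝ) * (p.2 : ℝ))) ≤ W * (2 * Real.log Y) ^ 5 :=
      g1.trans (mul_le_mul_of_nonneg_left g2 hW.le)
    have g4 := mul_le_mul_of_nonneg_left g3
      (show 0 ≤ δ * Real.log Y * Real.log Y ^ 3 / 4 by positivity)
    refine g4.trans ?_
    have g5 : δ * Real.log Y * Real.log Y ^ 3 / 4 * (W * (2 * Real.log Y) ^ 5) =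
        δ * (32 * W) * (Real.log Y ^ 9 / 4) := by ring
    rw [g5]
    have g6 := mul_le_mul_of_nonneg_right hδ2 (show 0 ≤ Real.log Y ^ 9 / 4 by positivity)
    refine g6.trans (le_of_eq ?_)
    ring
  -- the main sum
  rw [ps_sum hY (fun a b => hh a ^ 2 / ((a : ℝ) * (b : ℝ)) *
        ((93 / 200 * Real.log (Y / (a * b)) ^ 2 +
            119 / 200 * (Real.log a * Real.log (Y / (a * b)))) *
          ((Real.log (Y / (a * b)) + Real.log a / 2) ^ 2 - 3 / 4 * sg a) / 2))]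
  have step2 : ∀ a ∈ Finset.Icc 1 ⌊Real.sqrt Y⌋₊,
      1 / 2 * (hh a ^ 2 * (a.totient : ℝ) / (a : ℝ) ^ 2 *
      (93 / 1000 * (Real.log Y - Real.log a) ^ 5 +
        53 / 200 * Real.log a * (Real.log Y - Real.log a) ^ 4 +
        569 / 2400 * Real.log a ^ 2 * (Real.log Y - Real.log a) ^ 3 +
        119 / 1600 * Real.log a ^ 3 * (Real.log Y - Real.log a) ^ 2)) -
      3 / 8 * (hh a ^ 2 * (a.totient : ℝ) / (a : ℝ) ^ 2 * sg a *
      (93 / 600 * (Real.log Y - Real.log a) ^ 3 +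
        119 / 400 * Real.log a * (Real.log Y - Real.log a) ^ 2)) -
      K * (1 + Real.log Y) ^ 4 / 2 * (hh a ^ 2 / a * (1 + Ea a)) ≤
      ∑ b ∈ (Finset.Icc 1 ⌊Y / a⌋₊).filter (fun b => b.Coprime a), hh a ^ 2 / ((a : ℝ) * (b : ℝ)) *
        ((93 / 200 * Real.log (Y / (a * b)) ^ 2 +
            119 / 200 * (Real.log a * Real.log (Y / (a * b)))) *
          ((Real.log (Y / (a * b)) + Real.log a / 2) ^ 2 - 3 / 4 * sg a) / 2) := by
    intro a ha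
    obtain ⟨l1, l2⟩ := log_le_of_mem hY ha
    have ha0 := (Finset.mem_Icc.mp ha).1
    have e : ∑ b ∈ (Finset.Icc 1 ⌊Y / a⌋₊).filter (fun b => b.Coprime a),
        hh a ^ 2 / ((a : ℝ) * (b : ℝ)) *
        ((93 / 200 * Real.log (Y / (a * b)) ^ 2 +
            119 / 200 * (Real.log a * Real.log (Y / (a * b)))) *
          ((Real.log (Y / (a * b)) + Real.log a / 2) ^ 2 - 3 / 4 * sg a) / 2) =
        1 / 2 * (hh a ^ 2 / a) * (93 / 200 * Tj 4 Y a + 53 / 50 * (Real.log a * Tj 3 Y a) +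
          569 / 800 * (Real.log a ^ 2 * Tj 2 Y a) + 119 / 800 * (Real.log a ^ 3 * Tj 1 Y a) -
          3 / 4 * sg a * (93 / 200 * Tj 2 Y a + 119 / 200 * (Real.log a * Tj 1 Y a))) := by
      unfold Tj
      simp only [Finset.mul_sum, ← Finset.sum_add_distrib, ← Finset.sum_sub_distrib]
      refine Finset.sum_congr rfl fun b _ => ?_
      rw [← div_div Y, div_mul_eq_div_div]
      ring
    rw [e]
    have hEa := Ea_nonneg a
    have b4 := h4 Y a hY ha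
    have b3 := h3 Y a hY ha
    have b2 := h2 Y a hY ha
    have b1 := h1 Y a hY ha
    norm_num at b4 b3 b2 b1
    have hstep := step' C4 C3 C2 C1 hC4 hC3 hC2 hC1 hL0.le l1 (by linarith) hEa (sg_nonneg a)
      (sg_le a ha0) b4 b3 b2 b1
    rw [← eK] at hstep
    have hwt : 0 ≤ 1 / 2 * (hh a ^ 2 / (a : ℝ)) := by positivity
    have hmul := mul_le_mul_of_nonneg_left hstep hwt
    refine le_trans ?_ hmul
    have h7 : hh a ^ 2 / (a : ℝ) * Ea a ≤ hh a ^ 2 / a * (1 + Ea a) :=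
      mul_le_mul_of_nonneg_left (by linarith) (by positivity)
    have h8 := mul_le_mul_of_nonneg_left h7 (show 0 ≤ K * (1 + Real.log Y) ^ 4 / 2 by positivity)
    have e9 : 1 / 2 * (hh a ^ 2 / (a : ℝ)) * ((a.totient : ℝ) / a *
        (93 / 1000 * (Real.log Y - Real.log a) ^ 5 +
        53 / 200 * Real.log a * (Real.log Y - Real.log a) ^ 4 +
        569 / 2400 * Real.log a ^ 2 * (Real.log Y - Real.log a) ^ 3 +
        119 / 1600 * Real.log a ^ 3 * (Real.log Y - Real.log a) ^ 2) -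
      3 / 4 * ((a.totient : ℝ) / a * sg a * (93 / 600 * (Real.log Y - Real.log a) ^ 3 +
        119 / 400 * Real.log a * (Real.log Y - Real.log a) ^ 2)) -
      K * (Ea a * (1 + Real.log Y) ^ 4)) =
      1 / 2 * (hh a ^ 2 * (a.totient : ℝ) / (a : ℝ) ^ 2 *
      (93 / 1000 * (Real.log Y - Real.log a) ^ 5 +
        53 / 200 * Real.log a * (Real.log Y - Real.log a) ^ 4 +
        569 / 2400 * Real.log a ^ 2 * (Real.log Y - Real.log a) ^ 3 +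
        119 / 1600 * Real.log a ^ 3 * (Real.log Y - Real.log a) ^ 2)) -
      3 / 8 * (hh a ^ 2 * (a.totient : ℝ) / (a : ℝ) ^ 2 * sg a *
      (93 / 600 * (Real.log Y - Real.log a) ^ 3 +
        119 / 400 * Real.log a * (Real.log Y - Real.log a) ^ 2)) -
      K * (1 + Real.log Y) ^ 4 / 2 * (hh a ^ 2 / (a : ℝ) * Ea a) := by
      ring
    rw [e9]
    linarith
  have hsum := Finset.sum_le_sum step2
  rw [Finset.sum_sub_distrib, Finset.sum_sub_distrib, ← Finset.mul_sum, ← Finset.mul_sum,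
    ← Finset.mul_sum] at hsum
  have hE' := mul_le_mul_of_nonneg_left (hE Y hY)
    (show 0 ≤ K * (1 + Real.log Y) ^ 4 / 2 by positivity)
  have e6 : K * (1 + Real.log Y) ^ 4 / 2 * (C * (1 + Real.log Y) ^ 4) =
      K * C * (1 + Real.log Y) ^ 8 / 2 := by ring
  rw [e6] at hE'
  have hL9 : 0 < Real.log Y ^ 9 := by positivity
  have hεL : 0 < ε * Real.log Y ^ 9 := by positivity
  linarith

end Pool.Agent.P07318w
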