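import Pool.Agent.Lib.P07318m.Final
import Pool.Agent.Lib.P07318w.DenUpN
import Pool.Agent.Lib.P07318w.NumNew
import Pool.Agent.Lib.P07318w.NewSum
import Pool.Agent.Lib.P07318w.OldNum
import Pool.Agent.Lib.P07318w.OldDen

/-!
# P07318w.FinalN: the lower bound `35 a3/9!` for the sixth moment
-/

set_option autoImplicit false

open MeasureTheory Complex Filter Topology

namespace Pool.Agent.P07318w

open Pool.Agent.P07318m
open Pool.Agent.P4f18dfS (wt XF)

theorem avg_lower_n {f : ℝ → ℝ} (hf : Continuous f) (h0 : ∀ t, 0 ≤ f t) {K : ℝ} (hK : 0 ≤ K)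
    (hb : ∀ t, f t ≤ K * (1 + |t|) ^ 6) {η c τ₀ : ℝ} (hη : 0 < η) (hη' : η < 1 / 4) (hc : 0 < c)
    (hloc : ∀ τ Δ : ℝ, τ₀ ≤ τ → τ ^ (1 - 2 * η) ≤ Δ → Δ ≤ τ ^ (1 - η) →
      Δ * Real.sqrt Real.pi * c * Real.log τ ^ 9 ≤ ∫ t : ℝ, wt τ Δ t * f t) :
    ∃ T₀ : ℝ, 1 ≤ T₀ ∧ ∀ T H : ℝ, T₀ ≤ T → T ^ (1 - η / 4) ≤ H → H ≤ T →
      9999 / 10000 * c * H * Real.log T ^ 9 ≤ ∫ t in (T - H)..T, f t := by
  have hpi := Real.pi_pos
  have hspi : 0 < Real.sqrt Real.pi := Real.sqrt_pos.2 hpi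
  obtain ⟨K2, hK2, hK2'⟩ := exp_rpow_bound (1 / 2) η 8 (by norm_num) hη
  set M : ℝ := (Nat.factorial 8 : ℝ) * Real.exp (3 / 2) * Real.pi with hM
  have hM0 : 0 < M := by positivity
  set K' : ℝ := K * 256 * M * K2 with hK'
  have hK'0 : 0 ≤ K' := by positivity
  have hl4 : 0 < Real.log 1000000 := Real.log_pos (by norm_num)
  have t1 : Tendsto (fun T : ℝ => T ^ (η / 2)) atTop atTop := tendsto_rpow_atTop (by positivity)
  have t2 : Tendsto (fun T : ℝ => T ^ (3 * η / 4)) atTop atTop := tendsto_rpow_atTop (by positivity)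
  have ev1 := t1.eventually_ge_atTop 1000000
  have ev2 := t2.eventually_ge_atTop 2000000
  have ev3 := Real.tendsto_log_atTop.eventually_ge_atTop (max (max 1 (900000 / 2 * Real.log 1000000))
    (K' / (Real.sqrt Real.pi * c / 100000)))
  have ev4 := eventually_ge_atTop (max (1000000 * τ₀) 1000000)
  obtain ⟨T1, hT1⟩ := eventually_atTop.1 (ev1.and (ev2.and (ev3.and ev4)))
  refine ⟨max T1 1, le_max_right _ _, fun T H k1 k2 k3 => ?_⟩
  have k0 : 1 ≤ T := (le_max_right _ _).trans k1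
  have hT : 0 < T := by linarith
  obtain ⟨f1, f2, f3, f4⟩ := hT1 T ((le_max_left _ _).trans k1)
  have f31 : 1 ≤ Real.log T := (le_max_left _ _).trans ((le_max_left _ _).trans f3)
  have f32 : 900000 / 2 * Real.log 1000000 ≤ Real.log T := (le_max_right _ _).trans ((le_max_left _ _).trans f3)
  have f33 : K' / (Real.sqrt Real.pi * c / 100000) ≤ Real.log T := (le_max_right _ _).trans f3
  have f41 : 1000000 * τ₀ ≤ T := (le_max_left _ _).trans f4
  have f42 : 1000000 ≤ T := (le_max_right _ _).trans f4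
  set Δ : ℝ := T ^ (1 - 3 * η / 2) with hΔdef
  set R : ℝ := T ^ (η / 2) with hRdef
  have hΔ1 : 1 ≤ Δ := Real.one_le_rpow k0 (by linarith)
  have hΔ : 0 < Δ := by linarith
  have hΔT : Δ ≤ T := by
    calc Δ ≤ T ^ (1 : ℝ) := Real.rpow_le_rpow_of_exponent_le k0 (by linarith)
      _ = T := Real.rpow_one T
  have hR0 : 0 ≤ R := by positivity
  have hRΔ : R * Δ = T ^ (1 - η) := by
    rw [hRdef, hΔdef, ← Real.rpow_add hT]
    congr 1
    ring
  set U : ℝ := R * Δ with hU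
  have hU0 : 0 ≤ U := by positivity
  have hUH : 2000000 * U ≤ H := by
    refine le_trans ?_ k2
    rw [hRΔ]
    calc 2000000 * T ^ (1 - η) ≤ T ^ (3 * η / 4) * T ^ (1 - η) := mul_le_mul_of_nonneg_right f2 (by positivity)
      _ = T ^ (3 * η / 4 + (1 - η)) := (Real.rpow_add hT _ _).symm
      _ = T ^ (1 - η / 4) := by congr 1; ring
  have hH0 : 0 ≤ H := by linarith
  set τ1 : ℝ := max (T - H + U) (T / 1000000) with hτ1
  set τ2 : ℝ := T - U with hτ2
  have hlen : 999998 / 1000000 * H ≤ τ2 - τ1 := by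
    have h1 : τ1 ≤ τ2 - 999998 / 1000000 * H := by
      rw [hτ1, hτ2]
      apply max_le <;> linarith
    linarith
  have h12 : τ1 ≤ τ2 := by linarith
  have hTH : T - H ≤ T := by linarith
  -- B
  set B : ℝ := Δ * Real.sqrt Real.pi * c * (Real.log T - Real.log 1000000) ^ 9 - K' with hBdef
  have hB : ∀ τ, τ1 ≤ τ → τ ≤ τ2 → B ≤ ∫ t in (T - H)..T, wt τ Δ t * f t := by
    intro τ g1 g2
    have g3 : T / 1000000 ≤ τ := (le_max_right _ _).trans g1
    have g4 : T - H + U ≤ τ := (le_max_left _ _).trans g1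
    have g5 : 0 < τ := by linarith [show 0 < T / 1000000 by positivity]
    have g6 : τ ≤ T := by linarith
    have g7 : τ₀ ≤ τ := by linarith
    have g8 : τ ^ (1 - 2 * η) ≤ Δ := by
      calc τ ^ (1 - 2 * η) ≤ T ^ (1 - 2 * η) := Real.rpow_le_rpow g5.le g6 (by linarith)
        _ ≤ Δ := Real.rpow_le_rpow_of_exponent_le k0 (by linarith)
    have g9 : Δ ≤ τ ^ (1 - η) := by
      have e1 : T ^ (1 - η) = R * Δ := hRΔ.symm
      have e2 : (T / 1000000) ^ (1 - η) ≤ τ ^ (1 - η) := Real.rpow_le_rpow (by positivity) g3 (by linarith)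
      have e3 : (T / 1000000) ^ (1 - η) = T ^ (1 - η) / 1000000 ^ (1 - η) := Real.div_rpow hT.le (by norm_num) _
      have e4 : (1000000 : ℝ) ^ (1 - η) ≤ 1000000 := by
        calc (1000000 : ℝ) ^ (1 - η) ≤ 1000000 ^ (1 : ℝ) := Real.rpow_le_rpow_of_exponent_le (by norm_num) (by linarith)
          _ = 1000000 := Real.rpow_one _
      have e5 : (0:ℝ) < 1000000 ^ (1 - η) := by positivity
      refine le_trans ?_ e2
      rw [e3, e1, le_div_iff₀ e5]
      calc Δ * 1000000 ^ (1 - η) ≤ Δ * 1000000 := mul_le_mul_of_nonneg_left e4 hΔ.le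
        _ ≤ Δ * R := mul_le_mul_of_nonneg_left f1 hΔ.le
        _ = R * Δ := mul_comm _ _
    have g10 := hloc τ Δ g7 g8 g9
    have g11 := tail_bound hf h0 hK hb hΔ1 (T := T) (by linarith) g5.le g6 hR0
    rw [← hM] at g11
    have g12 : K * (1 + T) ^ 8 * M * Real.exp (-(R ^ 2 / 2)) ≤ K' := by
      have e1 : (1 + T) ^ 8 ≤ 256 * T ^ 8 := by
        calc (1 + T) ^ 8 ≤ (2 * T) ^ 8 := pow_le_pow_left₀ (by linarith) (by linarith) 8
          _ = _ := by ring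
      have e2 : R ^ 2 = T ^ η := by
        rw [hRdef, ← Real.rpow_natCast (T ^ (η / 2)) 2, ← Real.rpow_mul hT.le]
        congr 1
        push_cast
        ring
      have e3 := hK2' T k0
      have e4 : T ^ (8 : ℝ) = T ^ 8 := by
        rw [show (8 : ℝ) = ((8 : ℕ) : ℝ) by norm_num, Real.rpow_natCast]
      rw [e4] at e3
      have e5 : R ^ 2 / 2 = 1 / 2 * T ^ η := by rw [e2]; ring
      rw [e5]
      calc K * (1 + T) ^ 8 * M * Real.exp (-(1 / 2 * T ^ η)) ≤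
            K * (256 * T ^ 8) * M * Real.exp (-(1 / 2 * T ^ η)) := by gcongr
        _ = K * 256 * M * (T ^ 8 * Real.exp (-(1 / 2 * T ^ η))) := by ring
        _ ≤ K * 256 * M * K2 := mul_le_mul_of_nonneg_left e3 (by positivity)
        _ = K' := by rw [hK']
    have g13 : ∫ t in (τ - R * Δ)..(τ + R * Δ), wt τ Δ t * f t ≤ ∫ t in (T - H)..T, wt τ Δ t * f t := by
      have hc0 : Continuous (fun t : ℝ => wt τ Δ t * f t) := (wt_cont τ Δ).mul hf
      apply intervalIntegral.integral_mono_interval (by linarith) (by linarith) (by linarith)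
      · exact Eventually.of_forall fun t => mul_nonneg (wt_pos _ _ _).le (h0 t)
      · exact hc0.intervalIntegrable _ _
    have g14 : Real.log T - Real.log 1000000 ≤ Real.log τ := by
      rw [← Real.log_div hT.ne' (by norm_num)]
      exact Real.log_le_log (by positivity) g3
    have g15 : (Real.log T - Real.log 1000000) ^ 9 ≤ Real.log τ ^ 9 :=
      pow_le_pow_left₀ (by linarith) g14 9
    have g16 : Δ * Real.sqrt Real.pi * c * (Real.log T - Real.log 1000000) ^ 9 ≤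
        Δ * Real.sqrt Real.pi * c * Real.log τ ^ 9 := mul_le_mul_of_nonneg_left g15 (by positivity)
    rw [hBdef]
    linarith
  have hav := avg_int hf h0 hΔ h12 hTH hB
  -- lower bound for B
  set Λ : ℝ := Real.log T with hΛ
  have hΛ0 : 0 < Λ := by linarith
  have hB2 : Δ * Real.sqrt Real.pi * (99997 / 100000 * c * Λ ^ 9) ≤ B := by
    have e1 : 99998 / 100000 * Λ ^ 9 ≤ (Λ - Real.log 1000000) ^ 9 := by
      have e2 : Λ * (1 - 2 / 900000) ≤ Λ - Real.log 1000000 := by linarith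
      have e3 : (Λ * (1 - 2 / 900000)) ^ 9 ≤ (Λ - Real.log 1000000) ^ 9 := pow_le_pow_left₀ (by positivity) e2 9
      refine le_trans ?_ e3
      rw [mul_pow, mul_comm]
      apply mul_le_mul_of_nonneg_left _ (by positivity)
      norm_num
    have e4 : K' ≤ Δ * Real.sqrt Real.pi * (1 / 100000 * c * Λ ^ 9) := by
      rw [div_le_iff₀ (by positivity)] at f33
      have e5 : Λ ≤ Λ ^ 9 := le_self_pow₀ f31 (by norm_num)
      calc K' ≤ Λ * (Real.sqrt Real.pi * c / 100000) := f33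
        _ ≤ Λ ^ 9 * (Real.sqrt Real.pi * c / 100000) := mul_le_mul_of_nonneg_right e5 (by positivity)
        _ ≤ Δ * (Λ ^ 9 * (Real.sqrt Real.pi * c / 100000)) := le_mul_of_one_le_left (by positivity) hΔ1
        _ = _ := by ring
    have e6 := mul_le_mul_of_nonneg_left e1 (by positivity : (0:ℝ) ≤ Δ * Real.sqrt Real.pi * c)
    rw [hBdef]
    linarith
  have h5 : 999998 / 1000000 * H * (Δ * Real.sqrt Real.pi * (99997 / 100000 * c * Λ ^ 9)) ≤
      Δ * Real.sqrt Real.pi * ∫ t in (T - H)..T, f t := by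
    refine le_trans ?_ hav
    apply mul_le_mul hlen hB2 (by positivity)
    linarith
  have h6 : Δ * Real.sqrt Real.pi * (999998 / 1000000 * H * (99997 / 100000 * c * Λ ^ 9)) ≤
      Δ * Real.sqrt Real.pi * ∫ t in (T - H)..T, f t := by
    refine le_trans (le_of_eq ?_) h5
    ring
  have h7 := le_of_mul_le_mul_left h6 (by positivity)
  refine le_trans ?_ h7
  have : 0 ≤ c * H * Λ ^ 9 := by positivity
  nlinarith

theorem local_low_n : ∃ η : ℝ, 0 < η ∧ η < 1 / 4 ∧ ∃ τ₀ : ℝ, 1 ≤ τ₀ ∧ ∀ τ Δ : ℝ, τ₀ ≤ τ → τ ^ (1 - 2 * η) ≤ Δ →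
    Δ ≤ τ ^ (1 - η) →
    Δ * Real.sqrt Real.pi * ((35 + 1 / 100) * (a3 / (Nat.factorial 9 : ℝ))) * Real.log τ ^ 9 ≤
      ∫ t : ℝ, wt τ Δ t * ‖riemannZeta (1 / 2 + t * I)‖ ^ 6 := by
  classical
  set κ : ℝ := 1 / 100000 with hκ
  set η : ℝ := 1 / 10000000 with hη
  have hκ0 : 0 < κ := by rw [hκ]; norm_num
  have hκ1 : κ < 1 / 4 := by rw [hκ]; norm_num
  have hη0 : 0 < η := by rw [hη]; norm_num
  set A : ℝ := a3 / (Nat.factorial 9 : ℝ) with hA
  have hA0 : 0 < A := div_pos a3_pos (by positivity)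
  obtain ⟨δ, hδ, hδ1, hs1⟩ := old_num (A / 100000) (by positivity)
  have hs2 := old_den (A / 100000) (by positivity)
  obtain ⟨M, hs3⟩ := new_num (A / 100000) (by positivity)
  have hs4 := new_den (A / 100000) (by positivity)
  obtain ⟨C1a, hC1a, hnuma⟩ := num_old κ η δ hκ0 hκ1 hη0 hδ
  obtain ⟨C1b, hC1b, hnumb⟩ := num_new M κ η hκ0 hκ1 hη0
  obtain ⟨C2, hC2, hden⟩ := den_up_n κ η hκ0 hκ1 hη0
  set C1 : ℝ := C1a + C1b with hC1d
  have hC1 : 0 < C1 := by positivity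
  rw [← hA] at hs1 hs2 hs3 hs4
  obtain ⟨Y1, hY1⟩ := eventually_atTop.1 ((hs1.and hs2).and (hs3.and hs4))
  have hpi := Real.pi_pos
  have hspi : 0 < Real.sqrt Real.pi := Real.sqrt_pos.2 hpi
  set CC : ℝ := 4 * C1 * 2 + 2 * C2 with hCC
  have hCC0 : 0 < CC := by positivity
  -- eventually conditions
  have t1 : Tendsto (fun τ : ℝ => τ ^ (1 - 2 * κ)) atTop atTop := tendsto_rpow_atTop (by rw [hκ]; norm_num)
  have t2 : Tendsto (fun τ : ℝ => τ ^ (2 * κ)) atTop atTop := tendsto_rpow_atTop (by positivity)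
  have ev1 := t1.eventually_ge_atTop (max Y1 2)
  have ev2 := t2.eventually_ge_atTop (4 * Real.pi)
  have ev3 := Real.tendsto_log_atTop.eventually_ge_atTop (max 1 (CC * 256 / (A * Real.sqrt Real.pi / 1000)))
  obtain ⟨τ1, hτ1⟩ := eventually_atTop.1 (ev1.and (ev2.and ev3))
  refine ⟨η, hη0, by rw [hη]; norm_num, max τ1 1, le_max_right _ _, fun τ Δ k1 k2 k3 => ?_⟩
  have k0 : 1 ≤ τ := (le_max_right _ _).trans k1
  have hτ : 0 < τ := by linarith
  obtain ⟨f1, f2, f3⟩ := hτ1 τ ((le_max_left _ _).trans k1)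
  set Y : ℝ := τ ^ (1 - 2 * κ) with hY
  have g1 : Y1 ≤ Y := (le_max_left _ _).trans f1
  have g2 : 2 ≤ Y := (le_max_right _ _).trans f1
  have hL1 : 1 ≤ Real.log τ := (le_max_left _ _).trans f3
  have hL2 : CC * 256 / (A * Real.sqrt Real.pi / 1000) ≤ Real.log τ := (le_max_right _ _).trans f3
  have hΔ1 : 1 ≤ Δ := by
    refine le_trans ?_ k2
    exact Real.one_le_rpow k0 (by rw [hη]; norm_num)
  have hΔ : 0 < Δ := by linarith
  have hV1 : τ ^ η ≤ τ / Δ := by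
    rw [le_div_iff₀ hΔ]
    calc τ ^ η * Δ ≤ τ ^ η * τ ^ (1 - η) := mul_le_mul_of_nonneg_left k3 (by positivity)
      _ = τ ^ (η + (1 - η)) := (Real.rpow_add hτ _ _).symm
      _ = τ := by rw [add_sub_cancel, Real.rpow_one]
  have hV2 : τ / Δ ≤ τ ^ (2 * η) := by
    rw [div_le_iff₀ hΔ]
    calc τ = τ ^ (2 * η + (1 - 2 * η)) := by rw [add_sub_cancel, Real.rpow_one]
      _ = τ ^ (2 * η) * τ ^ (1 - 2 * η) := Real.rpow_add hτ _ _
      _ ≤ τ ^ (2 * η) * Δ := mul_le_mul_of_nonneg_left k2 (by positivity)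
  have hΔκ : τ ^ (1 - κ) ≤ Δ := le_trans (Real.rpow_le_rpow_of_exponent_le k0 (by rw [hκ, hη]; norm_num)) k2
  have h4pi : 4 * Real.pi * Y ≤ τ := by
    calc 4 * Real.pi * Y ≤ τ ^ (2 * κ) * τ ^ (1 - 2 * κ) := mul_le_mul_of_nonneg_right f2 (by positivity)
      _ = τ ^ (2 * κ + (1 - 2 * κ)) := (Real.rpow_add hτ _ _).symm
      _ = τ := by rw [add_sub_cancel, Real.rpow_one]
  have hlogY : Real.log Y = (1 - 2 * κ) * Real.log τ := Real.log_rpow hτ _
  have hLY : 0 < Real.log Y := Real.log_pos (by linarith)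
  set D : ℝ := δ * Real.log Y with hD
  have hD0 : 0 < D := by positivity
  obtain ⟨⟨u1, u2⟩, ⟨u3, u4⟩⟩ := hY1 Y g1
  have n1a := hnuma τ Δ Y hΔ1 k0 hV1 (by linarith) le_rfl
  have n1b := hnumb τ Δ Y hΔ1 k0 hV1 (by linarith) le_rfl
  have n2 := hden M τ Δ Y D hΔ1 k0 hV1 hΔκ (by linarith) le_rfl h4pi hD0
  rw [← hD] at u1 n1a
  have u2' := u2 D hD0
  have u4' := u4 M
  have n3 := sixth_ge (τ := τ) hΔ (SU M Y) (cs Y D) 2
  refine le_trans ?_ n3
  -- the numerator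
  have hJ0 : (Jn τ Δ (SU M Y) (cs Y D)).re = (∑ p ∈ PS Y, (cw Y D p : ℂ) * Jt τ Δ p.1 p.2).re +
      (∑ p ∈ RN M Y, (cn Y p : ℂ) * Jt τ Δ p.1 p.2).re := by
    rw [jn_eq hΔ, su_sum (by linarith) D (fun c p => (c : ℂ) * Jt τ Δ p.1 p.2), Complex.add_re]
  -- the error V^20
  have hV20 : (τ / Δ) ^ 20 * τ ^ (1 - κ / 2) ≤ Δ := by
    refine le_trans ?_ k2
    calc (τ / Δ) ^ 20 * τ ^ (1 - κ / 2) ≤ (τ ^ (2 * η)) ^ 20 * τ ^ (1 - κ / 2) := by
          apply mul_le_mul_of_nonneg_right _ (by positivity)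
          exact pow_le_pow_left₀ (by positivity) hV2 20
      _ = τ ^ (2 * η * ((20 : ℕ) : ℝ) + (1 - κ / 2)) := by
          rw [Real.rpow_add hτ, Real.rpow_mul hτ.le (2 * η), Real.rpow_natCast]
      _ ≤ _ := Real.rpow_le_rpow_of_exponent_le k0 (by rw [hκ, hη]; push_cast; norm_num)
  set J : ℝ := (Jn τ Δ (SU M Y) (cs Y D)).re with hJ
  set Q : ℝ := (∫ t : ℝ, wt τ Δ t * ‖As (SU M Y) (cs Y D) t‖ ^ 2) +
      (∫ t : ℝ, (wt τ Δ t : ℂ) * XF (1 / 2 - t * I) * As (SU M Y) (cs Y D) t ^ 2).re with hQ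
  set Λ : ℝ := Real.log τ with hΛ
  have hP : 1 ≤ (1 + Λ) ^ 8 := one_le_pow₀ (by linarith)
  have b1 : Δ * Real.sqrt Real.pi * ((1805 / 128 * A + 6831489903 / 2000000000 * A - A / 50000) * Real.log Y ^ 9) -
      C1 * 2 * Δ * (1 + Λ) ^ 8 ≤ J := by
    rw [hJ0]
    have c1 : Δ * Real.sqrt Real.pi * ((1805 / 128 * A - A / 100000) * Real.log Y ^ 9) ≤
        Δ * Real.sqrt Real.pi * Sw1 Y D := mul_le_mul_of_nonneg_left u1 (by positivity)
    have c3 : Δ * Real.sqrt Real.pi * ((6831489903 / 2000000000 * A - A / 100000) * Real.log Y ^ 9) ≤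
        Δ * Real.sqrt Real.pi * Sn1 M Y := mul_le_mul_of_nonneg_left u3 (by positivity)
    have c2 : ∀ C : ℝ, 0 < C → C * (τ / Δ) ^ 20 * τ ^ (1 - κ / 2) ≤ C * Δ * (1 + Λ) ^ 8 := by
      intro C hC
      calc C * (τ / Δ) ^ 20 * τ ^ (1 - κ / 2) = C * ((τ / Δ) ^ 20 * τ ^ (1 - κ / 2)) := by ring
        _ ≤ C * Δ := mul_le_mul_of_nonneg_left hV20 hC.le
        _ ≤ C * Δ * (1 + Λ) ^ 8 := le_mul_of_one_le_right (by positivity) hP
    have c2a := c2 C1a hC1a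
    have c2b := c2 C1b hC1b
    rw [hC1d]
    linarith
  have b2 : Q ≤ Δ * Real.sqrt Real.pi * ((9028829 / 640000 * A + 6831489903 / 2000000000 * A + A / 50000) *
      Real.log Y ^ 9) + C2 * Δ * (1 + Λ) ^ 8 := by
    have c1 : Δ * Real.sqrt Real.pi * (Sw2 Y D + Sn2 M Y) ≤
        Δ * Real.sqrt Real.pi * ((9028829 / 640000 * A + A / 100000) * Real.log Y ^ 9 +
          (6831489903 / 2000000000 * A + A / 100000) * Real.log Y ^ 9) :=
      mul_le_mul_of_nonneg_left (add_le_add u2' u4') (by positivity)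
    have c2 : C2 * Δ ≤ C2 * Δ * (1 + Λ) ^ 8 := le_mul_of_one_le_right (by positivity) hP
    linarith
  -- error terms
  have b5 : CC * Δ * (1 + Λ) ^ 8 ≤ Δ * Real.sqrt Real.pi * (A / 1000) * Λ ^ 9 := by
    have c1 : (1 + Λ) ^ 8 ≤ 256 * Λ ^ 8 := by
      calc (1 + Λ) ^ 8 ≤ (2 * Λ) ^ 8 := pow_le_pow_left₀ (by linarith) (by linarith) 8
        _ = _ := by ring
    have c2 : CC * 256 ≤ Λ * (A * Real.sqrt Real.pi / 1000) := by
      rwa [div_le_iff₀ (by positivity)] at hL2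
    calc CC * Δ * (1 + Λ) ^ 8 ≤ CC * Δ * (256 * Λ ^ 8) := mul_le_mul_of_nonneg_left c1 (by positivity)
      _ = (CC * 256) * (Δ * Λ ^ 8) := by ring
      _ ≤ (Λ * (A * Real.sqrt Real.pi / 1000)) * (Δ * Λ ^ 8) := mul_le_mul_of_nonneg_right c2 (by positivity)
      _ = _ := by ring
  -- main constant
  have b6 : (35 + 11 / 1000) * A * Λ ^ 9 ≤
      (4 * (1805 / 128 * A + 6831489903 / 2000000000 * A - A / 50000) -
        2 * (9028829 / 640000 * A + 6831489903 / 2000000000 * A + A / 50000)) * Real.log Y ^ 9 := by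
    rw [hlogY, mul_pow, ← mul_assoc]
    apply mul_le_mul_of_nonneg_right _ (by positivity)
    have c1 : (4 * (1805 / 128 * A + 6831489903 / 2000000000 * A - A / 50000) -
        2 * (9028829 / 640000 * A + 6831489903 / 2000000000 * A + A / 50000)) * (1 - 2 * κ) ^ 9 =
        ((4 * (1805 / 128 + 6831489903 / 2000000000 - 1 / 50000) -
        2 * (9028829 / 640000 + 6831489903 / 2000000000 + 1 / 50000)) * (1 - 2 * κ) ^ 9) * A := by ring
    rw [c1]
    apply mul_le_mul_of_nonneg_right _ hA0.le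
    rw [hκ]
    norm_num
  have b7 := mul_le_mul_of_nonneg_left b6 (by positivity : (0:ℝ) ≤ Δ * Real.sqrt Real.pi)
  have b8 : 0 ≤ Δ * Real.sqrt Real.pi * (A * Λ ^ 9) := by positivity
  have b9 : CC * Δ * (1 + Λ) ^ 8 = 4 * (C1 * 2 * Δ * (1 + Λ) ^ 8) + 2 * (C2 * Δ * (1 + Λ) ^ 8) := by
    rw [hCC]; ring
  have goal1 : Δ * Real.sqrt Real.pi * ((35 + 1 / 100) * A) * Λ ^ 9 ≤ 4 * J - 2 * Q := by
    linarith
  refine goal1.trans (le_of_eq ?_)
  ring

theorem sixth_moment_n : ∃ δ : ℝ, 0 < δ ∧ ∃ T₀ : ℝ, 1 ≤ T₀ ∧ ∀ T H : ℝ, T₀ ≤ T → T ^ (1 - δ) ≤ H → H ≤ T →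
    35 * (a3 / (Nat.factorial 9 : ℝ)) * H * Real.log T ^ 9 ≤
      ∫ t in (T - H)..T, ‖riemannZeta (1 / 2 + t * I)‖ ^ 6 := by
  obtain ⟨η, hη, hη', τ₀, hτ₀, hloc⟩ := local_low_n
  obtain ⟨C, hC, hz⟩ := zhalf_bound
  have hA0 : 0 < a3 / (Nat.factorial 9 : ℝ) := div_pos a3_pos (by positivity)
  obtain ⟨T₀, hT₀, h⟩ := avg_lower_n (f := fun t : ℝ => ‖riemannZeta (1 / 2 + t * I)‖ ^ 6)
    (zhalf_continuous.norm.pow 6) (fun t => by positivity) (K := C ^ 6) (by positivity)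
    (fun t => by
      rw [← mul_pow]
      exact pow_le_pow_left₀ (norm_nonneg _) (hz t) 6) hη hη'
    (c := (35 + 1 / 100) * (a3 / (Nat.factorial 9 : ℝ))) (by positivity) hloc
  refine ⟨η / 4, by positivity, T₀, hT₀, fun T H h1 h2 h3 => ?_⟩
  refine le_trans ?_ (h T H h1 h2 h3)
  have hT : 0 < T := by linarith
  have hH : 0 ≤ H := le_trans (by positivity) h2
  have hlog : 0 ≤ Real.log T := Real.log_nonneg (by linarith)
  have : 0 ≤ a3 / (Nat.factorial 9 : ℝ) * H * Real.log T ^ 9 := by positivity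
  nlinarith

end Pool.Agent.P07318w
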