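import Pool.Agent.Lib.P07318w.RhoAvg

/-!
# P07318w.HFe: the functional equation of `Hf`, as a bound

Black boxes: `ff_sum` (RhoAvg) and Mathlib (`ZMod.LFunction_one_sub`, `ZMod.dft_apply`, `ZMod.LFunction_eq_LSeries`).

PROOF. `UU a b k l m = ∑_{r,s,t} ff(r s t) stdAddChar(-(r k + s l + t m))`. Functional equation for `Φ = dlt a r` (`Re w > 1`, so `w ≠ -n`, `w ≠ 1`):
`RR a r (1 - w) = κ (E+ LFunction(F_r^+) w + E- LFunction(F_r^-) w)`, `κ = a^(w-1) (2π)^(-w) Γ(w)`, `E± = exp(± π i w / 2)`, `F_r^±` = discrete Fourier transform of `n ↦ dlt a r (± n)`: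
`F_r^±(k) = stdAddChar(∓ r k) - [k = 0]` (`ZMod.dft_apply`; `∑_j stdAddChar(-(j k))/a = [k = 0]`, `AddChar.sum_mulShift`). So `Hf a b (1-w)` is the sum over the eight sign patterns `ε` of
`κ^3 E_{ε1} E_{ε2} E_{ε3} ∑_{r,s,t} ff(r s t) LFunction(F_r^{ε1}) w LFunction(F_s^{ε2}) w LFunction(F_t^{ε3}) w`, where `LFunction(F) w = ∑_{k ≥ 1} F(k) k^(-w)` converges absolutely. Exchanging the finite sums and the
series (one variable at a time) the triple sum is `∑_k ∑_l ∑_m (k l m)^(-w) ∑_{r,s,t} ff(r s t) F_r(k) F_s(l) F_t(m)`; the terms `-[k = 0]`, `-[l = 0]`, `-[m = 0]` drop out because `∑_r ff(r s t) = 0` (`ff_sum`, and the same for `s`, `t` by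
commutativity), so the inner sum is `UU a b (ε1 k) (ε2 l) (ε3 m)` (casts of integers), at most `A g(k) g(l) g(m)` in norm. Hence the triple sum is at most `A B^3`. `|E±| ≤ exp(π |Im w| / 2)`.
-/

set_option autoImplicit false

open Complex

namespace Pool.Agent.P07318w

/-- The transform of `ff`. -/
noncomputable def UU (a : ℕ) [NeZero a] (b k l m : ZMod a) : ℂ :=
  ∑ r : ZMod a, ∑ s : ZMod a, ∑ t : ZMod a, ff a b (r * s * t) * ZMod.stdAddChar (-(r * k + s * l + t * m))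

/-- The trilinear form with kernel `ff`. -/
noncomputable def hfT (a : ℕ) [NeZero a] (b : ZMod a) (u v w : ZMod a → ℂ) : ℂ :=
  ∑ r : ZMod a, ∑ s : ZMod a, ∑ t : ZMod a, ff a b (r * s * t) * u r * v s * w t

theorem hfT_swap12 {a : ℕ} [NeZero a] (b : ZMod a) (u v w : ZMod a → ℂ) : hfT a b u v w = hfT a b v u w := by
  unfold hfT
  rw [Finset.sum_comm]
  refine Finset.sum_congr rfl fun s _ => Finset.sum_congr rfl fun r _ => Finset.sum_congr rfl fun t _ => ?_
  rw [mul_comm r s]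
  ring

theorem hfT_swap13 {a : ℕ} [NeZero a] (b : ZMod a) (u v w : ZMod a → ℂ) : hfT a b u v w = hfT a b w v u := by
  unfold hfT
  have h1 : (∑ r : ZMod a, ∑ s : ZMod a, ∑ t : ZMod a, ff a b (r * s * t) * u r * v s * w t) =
      ∑ t : ZMod a, ∑ s : ZMod a, ∑ r : ZMod a, ff a b (r * s * t) * u r * v s * w t := by
    calc (∑ r : ZMod a, ∑ s : ZMod a, ∑ t : ZMod a, ff a b (r * s * t) * u r * v s * w t)
        = ∑ s : ZMod a, ∑ r : ZMod a, ∑ t : ZMod a, ff a b (r * s * t) * u r * v s * w t := Finset.sum_comm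
      _ = ∑ s : ZMod a, ∑ t : ZMod a, ∑ r : ZMod a, ff a b (r * s * t) * u r * v s * w t :=
          Finset.sum_congr rfl fun s _ => Finset.sum_comm
      _ = ∑ t : ZMod a, ∑ s : ZMod a, ∑ r : ZMod a, ff a b (r * s * t) * u r * v s * w t := Finset.sum_comm
  rw [h1]
  refine Finset.sum_congr rfl fun t _ => Finset.sum_congr rfl fun s _ => Finset.sum_congr rfl fun r _ => ?_
  have : r * s * t = t * s * r := by ring
  rw [this]
  ring

theorem hfT_sub_const {a : ℕ} [NeZero a] {b : ZMod a} (hb : IsUnit b) (u v w : ZMod a → ℂ) (c : ℂ) :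
    hfT a b (fun r => u r - c) v w = hfT a b u v w := by
  have h0 : hfT a b (fun _ => c) v w = 0 := by
    unfold hfT
    rw [Finset.sum_comm]
    refine Finset.sum_eq_zero fun s _ => ?_
    rw [Finset.sum_comm]
    refine Finset.sum_eq_zero fun t _ => ?_
    have : (∑ r : ZMod a, ff a b (r * s * t) * c * v s * w t) = (∑ r : ZMod a, ff a b (r * s * t)) * (c * v s * w t) := by
      rw [Finset.sum_mul]
      exact Finset.sum_congr rfl fun r _ => by ring
    rw [this, ff_sum hb s t, zero_mul]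
  have h1 : hfT a b (fun r => u r - c) v w = hfT a b u v w - hfT a b (fun _ => c) v w := by
    unfold hfT
    rw [← Finset.sum_sub_distrib]
    refine Finset.sum_congr rfl fun r _ => ?_
    rw [← Finset.sum_sub_distrib]
    refine Finset.sum_congr rfl fun s _ => ?_
    rw [← Finset.sum_sub_distrib]
    exact Finset.sum_congr rfl fun t _ => by ring
  rw [h1, h0, sub_zero]

theorem hfT_series {a : ℕ} [NeZero a] (b : ZMod a) (p : ℕ → ZMod a → ℂ) (P v w : ZMod a → ℂ)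
    (hP : ∀ r, HasSum (fun k => p k r) (P r)) {h : ℕ → ℝ} {C B : ℝ} (hC : 0 ≤ C) (hs : Summable h) (hB : ∑' k, h k ≤ B)
    (hb : ∀ k, ‖hfT a b (p k) v w‖ ≤ C * h k) : ‖hfT a b P v w‖ ≤ C * B := by
  have h1 : HasSum (fun k => hfT a b (p k) v w) (hfT a b P v w) := by
    unfold hfT
    refine hasSum_sum fun r _ => hasSum_sum fun s _ => hasSum_sum fun t _ => ?_
    exact (((hP r).mul_left _).mul_right _).mul_right _
  have h2 : HasSum (fun k => C * h k) (C * ∑' k, h k) := hs.hasSum.mul_left C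
  exact (h1.norm_le_of_bounded h2 hb).trans (mul_le_mul_of_nonneg_left hB hC)

theorem lf_series {a : ℕ} [NeZero a] (F : ZMod a → ℂ) {w : ℂ} (hw : 1 < w.re) :
    HasSum (fun k : ℕ => F (((k : ℕ) + 1 : ℕ) : ZMod a) * ((((k : ℕ) + 1 : ℕ) : ℂ) ^ (-w))) (ZMod.LFunction F w) := by
  have h1 : HasSum (LSeries.term (fun x : ℕ => F x) w) (ZMod.LFunction F w) := by
    rw [ZMod.LFunction_eq_LSeries F hw]
    exact (ZMod.LSeriesSummable_of_one_lt_re F hw).hasSum
  have h2 := (hasSum_nat_add_iff' 1).mpr h1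
  rw [Finset.sum_range_one, LSeries.term_zero, sub_zero] at h2
  refine h2.congr_fun ?_ |> fun h => h
  intro k
  rw [LSeries.term_of_ne_zero (Nat.succ_ne_zero k), Complex.cpow_neg]
  rfl

theorem dft_dlt {a : ℕ} [NeZero a] (r k : ZMod a) :
    ZMod.dft (dlt a r) k = ZMod.stdAddChar (-(r * k)) - (if k = 0 then 1 else 0) := by
  rw [ZMod.dft_apply]
  have ha : (a : ℂ) ≠ 0 := Nat.cast_ne_zero.mpr (NeZero.ne a)
  have h1 : (∑ j : ZMod a, ZMod.stdAddChar (-(j * k)) • dlt a r j) =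
      (∑ j : ZMod a, if j = r then (ZMod.stdAddChar (-(j * k)) : ℂ) else 0) -
        (1 / (a : ℂ)) * ∑ j : ZMod a, ZMod.stdAddChar (j * (-k)) := by
    rw [Finset.mul_sum, ← Finset.sum_sub_distrib]
    refine Finset.sum_congr rfl fun j _ => ?_
    rw [smul_eq_mul, dlt, mul_neg]
    split_ifs <;> ring
  rw [h1, Finset.sum_ite_eq' Finset.univ r, if_pos (Finset.mem_univ r), AddChar.sum_mulShift _ (ZMod.isPrimitive_stdAddChar a)]
  simp only [neg_eq_zero]
  split_ifs with h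
  · rw [ZMod.card]
    field_simp
  · simp

theorem dft_dlt_neg {a : ℕ} [NeZero a] (r k : ZMod a) :
    ZMod.dft (fun x => dlt a r (-x)) k = ZMod.stdAddChar (r * k) - (if k = 0 then 1 else 0) := by
  have h1 : (fun x => dlt a r (-x)) = dlt a (-r) := by
    funext x
    unfold dlt
    have : (-x = r) ↔ (x = -r) := by
      constructor
      · intro h
        rw [← h, neg_neg]
      · intro h
        rw [h, neg_neg]
    simp only [this]
  rw [h1, dft_dlt]
  congr 2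
  ring

theorem lf_split {a : ℕ} [NeZero a] (F : ZMod a → ℂ) {w : ℂ} (hw : 1 < w.re) :
    ZMod.LFunction (fun k => F k - (if k = 0 then 1 else 0)) w =
      ZMod.LFunction F w - ZMod.LFunction (fun k : ZMod a => if k = 0 then (1 : ℂ) else 0) w := by
  have h1 := (lf_series F hw).sub (lf_series (fun k : ZMod a => if k = 0 then (1 : ℂ) else 0) hw)
  have h2 := lf_series (fun k => F k - (if k = 0 then (1 : ℂ) else 0)) hw
  refine h2.unique ?_
  refine h1.congr_fun ?_ |> fun h => h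
  intro k
  ring

theorem norm_epm {w : ℂ} : ‖Complex.exp (Real.pi * Complex.I * w / 2)‖ ≤ Real.exp (Real.pi * |w.im| / 2) ∧
    ‖Complex.exp (-Real.pi * Complex.I * w / 2)‖ ≤ Real.exp (Real.pi * |w.im| / 2) := by
  have hpi := Real.pi_pos
  constructor
  · rw [Complex.norm_exp]
    apply Real.exp_le_exp.mpr
    have : (Real.pi * Complex.I * w / 2 : ℂ).re = -(Real.pi * w.im / 2) := by
      have h2 : (Real.pi * Complex.I * w / 2 : ℂ) = ((Real.pi / 2 : ℝ) : ℂ) * (Complex.I * w) := by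
        push_cast
        ring
      rw [h2, Complex.re_ofReal_mul, Complex.I_mul_re]
      ring
    rw [this]
    have h3 : -w.im ≤ |w.im| := neg_le_abs w.im
    nlinarith
  · rw [Complex.norm_exp]
    apply Real.exp_le_exp.mpr
    have : (-Real.pi * Complex.I * w / 2 : ℂ).re = Real.pi * w.im / 2 := by
      have h2 : (-Real.pi * Complex.I * w / 2 : ℂ) = ((-(Real.pi / 2) : ℝ) : ℂ) * (Complex.I * w) := by
        push_cast
        ring
      rw [h2, Complex.re_ofReal_mul, Complex.I_mul_re]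
      ring
    rw [this]
    have h3 : w.im ≤ |w.im| := le_abs_self w.im
    nlinarith

theorem hfT_char {a : ℕ} [NeZero a] (b : ZMod a) (k l m : ZMod a) :
    hfT a b (fun r => ZMod.stdAddChar (-(r * k))) (fun s => ZMod.stdAddChar (-(s * l)))
      (fun t => ZMod.stdAddChar (-(t * m))) = UU a b k l m := by
  unfold hfT UU
  refine Finset.sum_congr rfl fun r _ => Finset.sum_congr rfl fun s _ => Finset.sum_congr rfl fun t _ => ?_
  have : -(r * k + s * l + t * m) = -(r * k) + -(s * l) + -(t * m) := by ring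
  rw [this, AddChar.map_add_eq_mul, AddChar.map_add_eq_mul]
  ring

/-- The `k`-th term. -/
noncomputable def hfp (a : ℕ) [NeZero a] (w : ℂ) (k : ℕ) (r : ZMod a) : ℂ :=
  ((a : ℂ) ^ (w - 1) * (2 * Real.pi : ℂ) ^ (-w) * Complex.Gamma w) * ((((k : ℕ) + 1 : ℕ) : ℂ) ^ (-w)) *
    (Complex.exp (Real.pi * Complex.I * w / 2) * ZMod.stdAddChar (-(r * ((((k : ℕ) + 1 : ℕ) : ℤ) : ZMod a))) +
      Complex.exp (-Real.pi * Complex.I * w / 2) * ZMod.stdAddChar (-(r * ((-((((k : ℕ) + 1 : ℕ) : ℤ)) : ℤ) : ZMod a))))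

theorem hfT_comb {a : ℕ} [NeZero a] (b : ZMod a) (K : ℂ) (e f : ℂ) (u1 u2 v w : ZMod a → ℂ) :
    hfT a b (fun r => K * (e * u1 r + f * u2 r)) v w = K * (e * hfT a b u1 v w + f * hfT a b u2 v w) := by
  unfold hfT
  simp only [Finset.mul_sum, ← Finset.sum_add_distrib]
  refine Finset.sum_congr rfl fun r _ => Finset.sum_congr rfl fun s _ => Finset.sum_congr rfl fun t _ => ?_
  ring

theorem hf_fe {a : ℕ} [NeZero a] {b : ZMod a} (hb : IsUnit b) {w : ℂ} (hw : 1 < w.re) (g : ℕ → ℝ) (hg : ∀ k, 0 ≤ g k)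
    {A B : ℝ} (hA : 0 ≤ A) (hs : Summable fun k : ℕ => ((k : ℝ) + 1) ^ (-w.re) * g (k + 1))
    (hB : ∑' k : ℕ, ((k : ℝ) + 1) ^ (-w.re) * g (k + 1) ≤ B)
    (hU : ∀ k l m : ℤ, ‖UU a b (k : ZMod a) (l : ZMod a) (m : ZMod a)‖ ≤ A * g k.natAbs * g l.natAbs * g m.natAbs) :
    ‖Hf a b (1 - w)‖ ≤ 8 * (‖(a : ℂ) ^ (w - 1) * (2 * Real.pi : ℂ) ^ (-w) * Complex.Gamma w‖ *
      Real.exp (Real.pi * |w.im| / 2)) ^ 3 * (A * B ^ 3) := by
  set κ : ℂ := (a : ℂ) ^ (w - 1) * (2 * Real.pi : ℂ) ^ (-w) * Complex.Gamma w with hκ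
  set E1 : ℂ := Complex.exp (Real.pi * Complex.I * w / 2) with hE1
  set E2 : ℂ := Complex.exp (-Real.pi * Complex.I * w / 2) with hE2
  set M : ℝ := Real.exp (Real.pi * |w.im| / 2) with hM
  have hM0 : 0 ≤ M := (Real.exp_pos _).le
  have hM1 : ‖E1‖ ≤ M := (norm_epm (w := w)).1
  have hM2 : ‖E2‖ ≤ M := (norm_epm (w := w)).2
  -- the functional equation
  set Ld : ℂ := ZMod.LFunction (fun k : ZMod a => if k = 0 then (1 : ℂ) else 0) w with hLd
  set P : ZMod a → ℂ := fun r => κ * (E1 * ZMod.LFunction (fun k => (ZMod.stdAddChar (-(r * k)) : ℂ)) w +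
    E2 * ZMod.LFunction (fun k => (ZMod.stdAddChar (r * k) : ℂ)) w) with hPdef
  have hRR : ∀ r : ZMod a, RR a r (1 - w) = P r - κ * (E1 + E2) * Ld := by
    intro r
    have hw1 : ∀ n : ℕ, w ≠ -(n : ℂ) := by
      intro n hn
      rw [hn] at hw
      simp at hw
      have : (0 : ℝ) ≤ n := Nat.cast_nonneg n
      linarith
    have hw2 : w ≠ 1 := by
      intro h
      rw [h] at hw
      simp at hw
    have h1 := ZMod.LFunction_one_sub (dlt a r) hw1 (Or.inr hw2)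
    have h2 : ZMod.dft (dlt a r) = fun k => (ZMod.stdAddChar (-(r * k)) : ℂ) - (if k = 0 then 1 else 0) := by
      funext k
      exact dft_dlt r k
    have h3 : ZMod.dft (fun x => dlt a r (-x)) = fun k => (ZMod.stdAddChar (r * k) : ℂ) - (if k = 0 then 1 else 0) := by
      funext k
      exact dft_dlt_neg r k
    rw [RR, h1, h2, h3, lf_split _ hw, lf_split _ hw]
    simp only [hPdef]
    ring
  have hH : Hf a b (1 - w) = hfT a b P P P := by
    have h0 : Hf a b (1 - w) = hfT a b (fun r => P r - κ * (E1 + E2) * Ld) (fun r => P r - κ * (E1 + E2) * Ld)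
        (fun r => P r - κ * (E1 + E2) * Ld) := by
      unfold Hf hfT
      simp only [hRR]
    rw [h0, hfT_sub_const hb, hfT_swap12, hfT_sub_const hb, hfT_swap13, hfT_sub_const hb]
  -- the series
  have hP : ∀ r, HasSum (fun k => hfp a w k r) (P r) := by
    intro r
    have h1 := lf_series (fun k => (ZMod.stdAddChar (-(r * k)) : ℂ)) hw
    have h2 := lf_series (fun k => (ZMod.stdAddChar (r * k) : ℂ)) hw
    have h3 := ((h1.mul_left E1).add (h2.mul_left E2)).mul_left κ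
    refine h3.congr_fun ?_ |> fun h => h
    intro k
    unfold hfp
    have h4 : -(r * ((-((((k : ℕ) + 1 : ℕ) : ℤ)) : ℤ) : ZMod a)) = r * (((k + 1 : ℕ)) : ZMod a) := by
      push_cast
      ring
    have h5 : -(r * ((((k : ℕ) + 1 : ℕ) : ℤ) : ZMod a)) = -(r * (((k + 1 : ℕ)) : ZMod a)) := by
      push_cast
      ring
    rw [h4, h5]
    simp only [hκ, hE1, hE2]
    ring
  set h : ℕ → ℝ := fun k => ((k : ℝ) + 1) ^ (-w.re) * g (k + 1) with hh
  have hh0 : ∀ k, 0 ≤ h k := fun k => mul_nonneg (Real.rpow_nonneg (by positivity) _) (hg _)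
  have hB0 : 0 ≤ B := (tsum_nonneg hh0).trans hB
  have hnk : ∀ k : ℕ, ‖(((k : ℕ) + 1 : ℕ) : ℂ) ^ (-w)‖ = ((k : ℝ) + 1) ^ (-w.re) := by
    intro k
    rw [Complex.norm_natCast_cpow_of_pos (Nat.succ_pos k), Complex.neg_re]
    push_cast
    rfl
  set ch : ℤ → ZMod a → ℂ := fun j r => ZMod.stdAddChar (-(r * (j : ZMod a))) with hch
  have step : ∀ (k : ℕ) (v u : ZMod a → ℂ) (C : ℝ), (∀ j : ℤ, j.natAbs = k + 1 → ‖hfT a b (ch j) v u‖ ≤ C) →
      ‖hfT a b (hfp a w k) v u‖ ≤ 2 * (‖κ‖ * M) * ((k : ℝ) + 1) ^ (-w.re) * C := by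
    intro k v u C hC
    have hexp1 : hfT a b (hfp a w k) v u =
        (κ * (((k + 1 : ℕ) : ℂ) ^ (-w))) * (E1 * hfT a b (ch ((k + 1 : ℕ) : ℤ)) v u +
          E2 * hfT a b (ch (-((k + 1 : ℕ) : ℤ))) v u) := by
      rw [← hfT_comb]
      rfl
    have hc1 := hC ((k + 1 : ℕ) : ℤ) (Int.natAbs_natCast _)
    have hc2 := hC (-((k + 1 : ℕ) : ℤ)) (by rw [Int.natAbs_neg, Int.natAbs_natCast])
    rw [hexp1, norm_mul, norm_mul, hnk k]
    have h1 : ‖E1 * hfT a b (ch ((k + 1 : ℕ) : ℤ)) v u + E2 * hfT a b (ch (-((k + 1 : ℕ) : ℤ))) v u‖ ≤ M * C + M * C := by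
      refine (norm_add_le _ _).trans (add_le_add ?_ ?_)
      · rw [norm_mul]
        exact mul_le_mul hM1 hc1 (norm_nonneg _) hM0
      · rw [norm_mul]
        exact mul_le_mul hM2 hc2 (norm_nonneg _) hM0
    have h2 : 0 ≤ ‖κ‖ * ((k : ℝ) + 1) ^ (-w.re) := mul_nonneg (norm_nonneg _) (Real.rpow_nonneg (by positivity) _)
    calc ‖κ‖ * ((k : ℝ) + 1) ^ (-w.re) * ‖E1 * hfT a b (ch ((k + 1 : ℕ) : ℤ)) v u + E2 * hfT a b (ch (-((k + 1 : ℕ) : ℤ))) v u‖
        ≤ ‖κ‖ * ((k : ℝ) + 1) ^ (-w.re) * (M * C + M * C) := mul_le_mul_of_nonneg_left h1 h2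
      _ = 2 * (‖κ‖ * M) * ((k : ℝ) + 1) ^ (-w.re) * C := by ring
  have hkl : ∀ k l m : ℕ, ‖hfT a b (hfp a w k) (hfp a w l) (hfp a w m)‖ ≤
      8 * (‖κ‖ * M) ^ 3 * A * h k * h l * h m := by
    intro k l m
    have hA1 : ∀ j1 j2 j3 : ℤ, j1.natAbs = k + 1 → j2.natAbs = l + 1 → j3.natAbs = m + 1 →
        ‖hfT a b (ch j1) (ch j2) (ch j3)‖ ≤ A * g (k + 1) * g (l + 1) * g (m + 1) := by
      intro j1 j2 j3 h1 h2 h3
      have := hU j1 j2 j3
      rw [h1, h2, h3, ← hfT_char] at this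
      exact this
    have hA2 : ∀ j1 j2 : ℤ, j1.natAbs = k + 1 → j2.natAbs = l + 1 →
        ‖hfT a b (ch j1) (ch j2) (hfp a w m)‖ ≤
          2 * (‖κ‖ * M) * ((m : ℝ) + 1) ^ (-w.re) * (A * g (k + 1) * g (l + 1) * g (m + 1)) := by
      intro j1 j2 h1 h2
      rw [hfT_swap13]
      refine step m _ _ _ fun j3 h3 => ?_
      rw [hfT_swap13]
      exact hA1 j1 j2 j3 h1 h2 h3
    have hA3 : ∀ j1 : ℤ, j1.natAbs = k + 1 →
        ‖hfT a b (ch j1) (hfp a w l) (hfp a w m)‖ ≤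
          2 * (‖κ‖ * M) * ((l : ℝ) + 1) ^ (-w.re) *
          (2 * (‖κ‖ * M) * ((m : ℝ) + 1) ^ (-w.re) * (A * g (k + 1) * g (l + 1) * g (m + 1))) := by
      intro j1 h1
      rw [hfT_swap12]
      refine step l _ _ _ fun j2 h2 => ?_
      rw [hfT_swap12]
      exact hA2 j1 j2 h1 h2
    refine (step k _ _ _ hA3).trans (le_of_eq ?_)
    simp only [hh]
    ring
  have hS1 : ∀ k l : ℕ, ‖hfT a b (hfp a w k) (hfp a w l) P‖ ≤ (8 * (‖κ‖ * M) ^ 3 * A * h k * h l) * B := by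
    intro k l
    rw [hfT_swap13]
    have hnn : 0 ≤ 8 * (‖κ‖ * M) ^ 3 * A * h k * h l := by
      have := hh0 k
      have := hh0 l
      positivity
    refine hfT_series b (fun m => hfp a w m) P _ _ hP hnn hs hB fun m => ?_
    refine (hkl m l k).trans (le_of_eq ?_)
    ring
  have hS2 : ∀ k : ℕ, ‖hfT a b (hfp a w k) P P‖ ≤ (8 * (‖κ‖ * M) ^ 3 * A * h k * B) * B := by
    intro k
    rw [hfT_swap12]
    have hnn : 0 ≤ 8 * (‖κ‖ * M) ^ 3 * A * h k * B := by
      have := hh0 k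
      positivity
    refine hfT_series b (fun m => hfp a w m) P _ _ hP hnn hs hB fun l => ?_
    refine (hS1 l k).trans (le_of_eq ?_)
    ring
  have hS3 : ‖hfT a b P P P‖ ≤ (8 * (‖κ‖ * M) ^ 3 * A * B * B) * B := by
    have hnn : 0 ≤ 8 * (‖κ‖ * M) ^ 3 * A * B * B := by positivity
    refine hfT_series b (fun m => hfp a w m) P _ _ hP hnn hs hB fun k => ?_
    refine (hS2 k).trans (le_of_eq ?_)
    ring
  rw [hH]
  refine hS3.trans (le_of_eq ?_)
  ring

end Pool.Agent.P07318w
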