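import Pool.Agent.Lib.P07318w.RhoAvg
import Pool.Agent.Lib.P07318m.DAux

/-!
# P07318w.HSer: the Dirichlet series of `Hf`

Black boxes: `ff_sum`, `ff_norm` of `RhoAvg`; `d3_summable`, `sum_d3_le`, ... of `P07318m.DAux`.

PROOFS. `dlt_sum`: clear. `hf_diff`: each `RR a r` is entire (`ZMod.differentiable_LFunction_of_sum_zero`).
`hf_series`: for `Re z > 1`, `RR a r z = ∑_{n ≥ 1} dlt a r (n) n^(-z)` (`ZMod.LFunction_eq_LSeries`, `LSeries`, the term at `0` is `0`). Insert in `Hf` and exchange the finite sums over `r, s, t` with the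
(absolutely convergent) series: `Hf = ∑_{n1} ∑_{n2} ∑_{n3} (n1 n2 n3)^(-z) ∑_{r,s,t} ff(r s t) dlt r (n1) dlt s (n2) dlt t (n3)`. Because `∑_r ff(r s t) = 0` (and likewise for `s`, `t`, `ff_sum` and commutativity)
the terms `-1/a` of `dlt` contribute nothing: the inner sum is `ff(n1 n2 n3)`. Then group by the product `n = n1 n2 n3`:
`∑_{n1,n2,n3 ≥ 1} ff(n1 n2 n3) (n1 n2 n3)^(-z) = ∑_n d3(n) ff(n) n^(-z)` (`d3 n = ∑_{d | n} card (divisors d)`; use `sigmaAntidiagonalEquivProd`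
twice with the absolute convergence, or `LSeries_convolution`-type results in the form `∑_{m,k} g(m k) = ∑_n d(n) g(n)`; absolute convergence from `∑ d3(n) n^(-Re z) < ∞`).
-/

set_option autoImplicit false

open Complex

namespace Pool.Agent.P07318w

open Pool.Agent.P07318m (d3)

theorem dlt_sum {a : ℕ} [NeZero a] (r : ZMod a) : ∑ n : ZMod a, dlt a r n = 0 := by
  unfold dlt
  rw [Finset.sum_sub_distrib, Finset.sum_ite_eq' Finset.univ r, if_pos (Finset.mem_univ _), Finset.sum_const,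
    Finset.card_univ, ZMod.card, nsmul_eq_mul, mul_one_div, div_self, sub_self]
  exact_mod_cast NeZero.ne a

theorem hf_diff {a : ℕ} [NeZero a] (b : ZMod a) : Differentiable ℂ (Hf a b) := by
  have h : ∀ r : ZMod a, Differentiable ℂ (fun z => RR a r z) := fun r =>
    ZMod.differentiable_LFunction_of_sum_zero (dlt_sum r)
  unfold Hf
  refine Differentiable.fun_sum (fun r _ => Differentiable.fun_sum (fun s _ => Differentiable.fun_sum (fun t _ => ?_)))
  exact (((differentiable_const _).mul (h r)).mul (h s)).mul (h t)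

namespace HSerAux

lemma sum_dlt {a : ℕ} [NeZero a] (f : ZMod a → ℂ) (hf : ∑ r, f r = 0) (n : ZMod a) :
    ∑ r, f r * dlt a r n = f n := by
  have h : ∀ r : ZMod a, f r * dlt a r n = (if n = r then f r else 0) - f r * (1 / (a : ℂ)) := by
    intro r
    unfold dlt
    split_ifs <;> ring
  rw [Finset.sum_congr rfl (fun r _ => h r), Finset.sum_sub_distrib, ← Finset.sum_mul, hf, zero_mul, sub_zero,
    Finset.sum_ite_eq Finset.univ n, if_pos (Finset.mem_univ _)]

lemma ff_sum2 {a : ℕ} [NeZero a] {b : ZMod a} (hb : IsUnit b) (r t : ZMod a) :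
    ∑ s : ZMod a, ff a b (r * s * t) = 0 := by
  rw [← ff_sum hb r t]
  exact Finset.sum_congr rfl (fun s _ => by rw [mul_comm r s])

lemma ff_sum3 {a : ℕ} [NeZero a] {b : ZMod a} (hb : IsUnit b) (r s : ZMod a) :
    ∑ t : ZMod a, ff a b (r * s * t) = 0 := by
  rw [← ff_sum hb s r]
  exact Finset.sum_congr rfl (fun t _ => by congr 1; ring)

lemma inner_sum {a : ℕ} [NeZero a] {b : ZMod a} (hb : IsUnit b) (n1 n2 n3 : ZMod a) (w1 w2 w3 : ℂ) :
    ∑ r : ZMod a, ∑ s : ZMod a, ∑ t : ZMod a,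
      ff a b (r * s * t) * ((dlt a r n1 * w1) * ((dlt a s n2 * w2) * (dlt a t n3 * w3))) =
      ff a b (n1 * n2 * n3) * (w1 * (w2 * w3)) := by
  have h1 : ∀ r s : ZMod a, ∑ t : ZMod a,
      ff a b (r * s * t) * ((dlt a r n1 * w1) * ((dlt a s n2 * w2) * (dlt a t n3 * w3))) =
      ff a b (r * s * n3) * dlt a s n2 * (dlt a r n1 * (w1 * (w2 * w3))) := by
    intro r s
    rw [← sum_dlt (fun t => ff a b (r * s * t)) (ff_sum3 hb r s) n3, Finset.sum_mul, Finset.sum_mul]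
    exact Finset.sum_congr rfl (fun t _ => by ring)
  have h2 : ∀ r : ZMod a, ∑ s : ZMod a, ff a b (r * s * n3) * dlt a s n2 * (dlt a r n1 * (w1 * (w2 * w3))) =
      ff a b (r * n2 * n3) * dlt a r n1 * (w1 * (w2 * w3)) := by
    intro r
    rw [← Finset.sum_mul, sum_dlt (fun s => ff a b (r * s * n3)) (ff_sum2 hb r n3) n2]
    ring
  rw [Finset.sum_congr rfl (fun r _ => Finset.sum_congr rfl (fun s _ => h1 r s)),
    Finset.sum_congr rfl (fun r _ => h2 r), ← Finset.sum_mul,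
    sum_dlt (fun r => ff a b (r * n2 * n3)) (ff_sum hb n2 n3) n1]

lemma term_eq {a : ℕ} [NeZero a] (r : ZMod a) {z : ℂ} (hz : 1 < z.re) (n : ℕ) :
    LSeries.term (fun n : ℕ => dlt a r (n : ZMod a)) z n = dlt a r (n : ZMod a) * (n : ℂ) ^ (-z) := by
  rcases Nat.eq_zero_or_pos n with rfl | hn
  · rw [LSeries.term_zero, Nat.cast_zero, Nat.cast_zero, Complex.zero_cpow, mul_zero]
    intro h
    rw [neg_eq_zero] at h
    rw [h] at hz
    norm_num at hz
  · rw [LSeries.term_of_ne_zero (by omega), Complex.cpow_neg, div_eq_mul_inv]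

lemma hasSum_RR {a : ℕ} [NeZero a] (r : ZMod a) {z : ℂ} (hz : 1 < z.re) :
    HasSum (fun n : ℕ => dlt a r (n : ZMod a) * (n : ℂ) ^ (-z)) (RR a r z) := by
  have h1 : Summable (LSeries.term (fun n : ℕ => dlt a r (n : ZMod a)) z) :=
    ZMod.LSeriesSummable_of_one_lt_re (dlt a r) hz
  have h2 := h1.hasSum
  have h3 : ∑' n, LSeries.term (fun n : ℕ => dlt a r (n : ZMod a)) z n = RR a r z := by
    unfold RR
    rw [ZMod.LFunction_eq_LSeries (dlt a r) hz]
    rfl
  rw [h3] at h2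
  have h4 : LSeries.term (fun n : ℕ => dlt a r (n : ZMod a)) z =
      fun n : ℕ => dlt a r (n : ZMod a) * (n : ℂ) ^ (-z) := funext (fun n => term_eq r hz n)
  rwa [h4] at h2

lemma hasSum_mul {ι κ : Type} {f : ι → ℂ} {g : κ → ℂ} {x y : ℂ} (hf : HasSum f x) (hg : HasSum g y)  :
    HasSum (fun p : ι × κ => f p.1 * g p.2) (x * y) :=
  hf.mul hg (summable_mul_of_summable_norm hf.summable.norm hg.summable.norm)

/-- The fibre of the product map on triples. -/
noncomputable def fib (n : ℕ) : Finset (ℕ × ℕ × ℕ) :=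
  (n.divisors.sigma (fun d => d.divisors)).image (fun x => (n / x.1, x.2, x.1 / x.2))

lemma card_fib (n : ℕ) : (fib n).card = d3 n := by
  unfold fib
  rw [Finset.card_image_of_injOn, Finset.card_sigma]
  · rfl
  · rintro ⟨d, e⟩ hx ⟨d', e'⟩ hy h
    simp only [Finset.mem_coe, Finset.mem_sigma, Nat.mem_divisors] at hx hy
    simp only [Prod.mk.injEq] at h
    obtain ⟨⟨h1, h2⟩, h3, h4⟩ := hx
    obtain ⟨⟨h5, _⟩, h6, _⟩ := hy
    obtain ⟨g1, g2, g3⟩ := h
    subst g2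
    have : d = d' := by
      have e1 : d = e * (d / e) := (Nat.mul_div_cancel' h3).symm
      have e2 : d' = e * (d' / e) := (Nat.mul_div_cancel' h6).symm
      rw [e1, e2, g3]
    subst this
    rfl

lemma mem_fib {n : ℕ} (hn : n ≠ 0) (x : ℕ × ℕ × ℕ) : x ∈ fib n ↔ x.1 * (x.2.1 * x.2.2) = n := by
  unfold fib
  simp only [Finset.mem_image, Finset.mem_sigma, Nat.mem_divisors]
  constructor
  · rintro ⟨⟨d, e⟩, ⟨⟨h1, _⟩, h3, _⟩, rfl⟩
    simp only at h1 h3 ⊢
    rw [Nat.mul_div_cancel' h3, Nat.div_mul_cancel h1]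
  · intro h
    obtain ⟨x1, x2, x3⟩ := x
    simp only at h
    have h1 : x1 ≠ 0 := by rintro rfl; simp at h; exact hn h.symm
    have h2 : x2 ≠ 0 := by rintro rfl; simp at h; exact hn h.symm
    have h3 : x3 ≠ 0 := by rintro rfl; simp at h; exact hn h.symm
    refine ⟨⟨x2 * x3, x2⟩, ⟨⟨⟨x1, by rw [← h]; ring⟩, hn⟩, ⟨x3, rfl⟩, by positivity⟩, ?_⟩
    simp only [Prod.mk.injEq]
    refine ⟨?_, trivial, ?_⟩
    · rw [← h]
      exact Nat.mul_div_cancel _ (by positivity)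
    · exact Nat.mul_div_cancel_left _ (by omega)

lemma hasSum_d3 {F : ℕ → ℂ} (hF : F 0 = 0) {S : ℂ}
    (h : HasSum (fun x : ℕ × ℕ × ℕ => F (x.1 * (x.2.1 * x.2.2))) S) :
    HasSum (fun n : ℕ => ((d3 n : ℕ) : ℂ) * F n) S := by
  have h1 := h.tsum_fiberwise (fun x : ℕ × ℕ × ℕ => x.1 * (x.2.1 * x.2.2))
  have h2 : (fun c : ℕ => ∑' b : (fun x : ℕ × ℕ × ℕ => x.1 * (x.2.1 * x.2.2)) ⁻¹' {c},
      F (b.val.1 * (b.val.2.1 * b.val.2.2))) = fun n : ℕ => ((d3 n : ℕ) : ℂ) * F n := by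
    funext n
    have h3 : ∀ b : (fun x : ℕ × ℕ × ℕ => x.1 * (x.2.1 * x.2.2)) ⁻¹' {n},
        F (b.val.1 * (b.val.2.1 * b.val.2.2)) = F n := by
      rintro ⟨b, hb⟩
      rw [Set.mem_preimage, Set.mem_singleton_iff] at hb
      simp only
      rw [hb]
    rw [tsum_congr h3, tsum_const]
    rcases eq_or_ne n 0 with rfl | hn
    · rw [hF, smul_zero, mul_zero]
    · have h4 : ((fun x : ℕ × ℕ × ℕ => x.1 * (x.2.1 * x.2.2)) ⁻¹' {n}) = (fib n : Set (ℕ × ℕ × ℕ)) := by
        ext x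
        rw [Set.mem_preimage, Set.mem_singleton_iff, Finset.mem_coe, mem_fib hn]
      rw [h4, Nat.card_coe_set_eq, Set.ncard_coe_finset, card_fib, nsmul_eq_mul]
  rw [h2] at h1
  exact h1

end HSerAux

open HSerAux

theorem hf_series {a : ℕ} [NeZero a] {b : ZMod a} (hb : IsUnit b) {z : ℂ} (hz : 1 < z.re) :
    (Summable fun n : ℕ => ‖((d3 n : ℕ) : ℂ) * ff a b (n : ZMod a) * (n : ℂ) ^ (-z)‖) ∧
    Hf a b z = ∑' n : ℕ, ((d3 n : ℕ) : ℂ) * ff a b (n : ZMod a) * (n : ℂ) ^ (-z) := by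
  constructor
  · refine Summable.of_nonneg_of_le (fun n => norm_nonneg _) (fun n => ?_)
      ((Pool.Agent.P07318m.d3_summable hz).mul_left 2)
    rcases Nat.eq_zero_or_pos n with rfl | hn
    · have h0 : d3 0 = 0 := by simp [d3]
      rw [h0]
      simp
    · rw [norm_mul, norm_mul, Complex.norm_natCast, Complex.norm_natCast_cpow_of_pos hn, Complex.neg_re]
      have h1 := ff_norm b (n : ZMod a)
      calc (d3 n : ℝ) * ‖ff a b (n : ZMod a)‖ * (n : ℝ) ^ (-z.re)
          ≤ (d3 n : ℝ) * 2 * (n : ℝ) ^ (-z.re) := by gcongr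
        _ = _ := by ring
  · have h3 : ∀ r s t : ZMod a, HasSum (fun x : ℕ × ℕ × ℕ =>
        ff a b (r * s * t) * ((dlt a r (x.1 : ZMod a) * (x.1 : ℂ) ^ (-z)) *
          ((dlt a s (x.2.1 : ZMod a) * (x.2.1 : ℂ) ^ (-z)) * (dlt a t (x.2.2 : ZMod a) * (x.2.2 : ℂ) ^ (-z)))))
        (ff a b (r * s * t) * (RR a r z * (RR a s z * RR a t z))) := fun r s t =>
      (hasSum_mul (hasSum_RR r hz) (hasSum_mul (hasSum_RR s hz) (hasSum_RR t hz))).mul_left _
    have h4 := hasSum_sum (s := Finset.univ) (fun r _ => hasSum_sum (s := Finset.univ)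
      (fun s _ => hasSum_sum (s := Finset.univ) (fun t _ => h3 r s t)))
    have h5 : ∑ r : ZMod a, ∑ s : ZMod a, ∑ t : ZMod a, ff a b (r * s * t) * (RR a r z * (RR a s z * RR a t z)) =
        Hf a b z := by
      unfold Hf
      exact Finset.sum_congr rfl (fun r _ => Finset.sum_congr rfl (fun s _ => Finset.sum_congr rfl
        (fun t _ => by ring)))
    rw [h5] at h4
    set F : ℕ → ℂ := fun n => ff a b (n : ZMod a) * (n : ℂ) ^ (-z) with hF
    have h6 : (fun x : ℕ × ℕ × ℕ => ∑ r : ZMod a, ∑ s : ZMod a, ∑ t : ZMod a,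
        ff a b (r * s * t) * ((dlt a r (x.1 : ZMod a) * (x.1 : ℂ) ^ (-z)) *
          ((dlt a s (x.2.1 : ZMod a) * (x.2.1 : ℂ) ^ (-z)) * (dlt a t (x.2.2 : ZMod a) * (x.2.2 : ℂ) ^ (-z))))) =
        fun x : ℕ × ℕ × ℕ => F (x.1 * (x.2.1 * x.2.2)) := by
      funext x
      rw [inner_sum hb, hF]
      simp only
      push_cast
      rw [mul_assoc (x.1 : ZMod a)]
      congr 1
      rw [← Complex.natCast_mul_natCast_cpow x.2.1 x.2.2]
      have := Complex.natCast_mul_natCast_cpow x.1 (x.2.1 * x.2.2) (-z)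
      push_cast at this
      rw [this]
    rw [h6] at h4
    have hF0 : F 0 = 0 := by
      rw [hF]
      simp only
      rw [Nat.cast_zero, Nat.cast_zero, Complex.zero_cpow, mul_zero]
      intro h
      rw [neg_eq_zero] at h
      rw [h] at hz
      norm_num at hz
    have h7 := (hasSum_d3 hF0 h4).tsum_eq
    rw [← h7]
    refine tsum_congr (fun n => ?_)
    rw [hF]
    ring

end Pool.Agent.P07318w
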