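import Pool.Agent.Lib.P07318w.Defs

/-!
# Definitions for the L-function of Kloosterman sums over a prime field
-/

set_option autoImplicit false

open Polynomial

namespace Pool.Agent.P07318w

/-- The Kloosterman sum over the field with `p^n` elements. -/
noncomputable def KF (p n : ℕ) [Fact p.Prime] (u v : ZMod p) : ℂ :=
  ∑ᶠ x : (GaloisField p n)ˣ, ZMod.stdAddChar (Algebra.trace (ZMod p) (GaloisField p n)
    (algebraMap (ZMod p) (GaloisField p n) u * (x : GaloisField p n) +
      algebraMap (ZMod p) (GaloisField p n) v * ((x⁻¹ : (GaloisField p n)ˣ) : GaloisField p n)))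

/-- The monic polynomial `X^d + ∑ c_i X^i`. -/
noncomputable def mpoly (p d : ℕ) (c : Fin d → ZMod p) : (ZMod p)[X] := X ^ d + ∑ i : Fin d, C (c i) * X ^ (i : ℕ)

open Classical in
/-- The finite set of monic polynomials of degree `d` with nonzero constant coefficient. -/
noncomputable def mp (p d : ℕ) [Fact p.Prime] : Finset (ZMod p)[X] :=
  ((Finset.univ : Finset (Fin d → ZMod p)).image (mpoly p d)).filter (fun h => h.coeff 0 ≠ 0)

/-- `e((u (sum of the roots) + v (sum of the inverse roots)) / p)` for a monic polynomial `h` with `h(0) ≠ 0`. -/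
noncomputable def Lam {p : ℕ} [Fact p.Prime] (u v : ZMod p) (h : (ZMod p)[X]) : ℂ :=
  ZMod.stdAddChar (-(u * h.nextCoeff) - v * (h.coeff 1 / h.coeff 0))

/-- The coefficient of `T^d` in the L-function `∑ Lam(h) T^(deg h)`. -/
noncomputable def Ls (p : ℕ) [Fact p.Prime] (u v : ZMod p) (d : ℕ) : ℂ := ∑ h ∈ mp p d, Lam u v h

open Classical in
/-- The coefficient of `T^r` in the logarithmic derivative of the L-function. -/
noncomputable def Kr (p : ℕ) [Fact p.Prime] (u v : ZMod p) (r : ℕ) : ℂ :=
  ∑ n ∈ r.divisors, ∑ P ∈ (mp p n).filter (fun P => Irreducible P), (n : ℂ) * Lam u v P ^ (r / n)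

end Pool.Agent.P07318w
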