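import Pool.Agent.Lib.P07318w.KDefs
import Pool.Agent.Lib.P07318w.Bomb

/-!
# P07318w.KfBound: the bound for Kloosterman sums over the field with `p^(2μ)` elements

`bomb` is a black box.

PROOF. Let `F = GaloisField p (2μ)`, a finite field with `(p^μ)^2` elements (`GaloisField.card`; take `Fintype.ofFinite F`, classical decidability,
`finsum_eq_sum_of_fintype`), `CharP F p`. For `z ∈ F`: `algebraMap (trace z) = ∑_{i < 2μ} z^(p^i)` (`FiniteField.algebraMap_trace_eq_sum_pow` or similar, the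
degree is `GaloisField.finrank`). For `t ∈ ZMod p` let `N t` be the number of units `x` with `trace (u x + v x⁻¹) = t`; as `algebraMap` is injective this is the cardinality in `bomb`
with `a = algebraMap u`, `b = algebraMap v` (nonzero), `t = algebraMap t`; so `p * N t ≤ Q^2 + 2 p Q`, `Q = p^μ`. Also `∑_t N t = Q^2 - 1`. Then
`KF = ∑_t N t * stdAddChar t` (sum over the fibres, `Finset.sum_fiberwise`), and as `∑_t stdAddChar t = 0` (`AddChar.sum_eq_zero_of_ne_one`, `ZMod.isPrimitive_stdAddChar`; `p ≥ 2`), with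
`B = (Q^2 + 2 p Q)/p` real: `-KF = ∑_t (B - N t) stdAddChar t`, `‖KF‖ ≤ ∑_t (B - N t) = p B - (Q^2 - 1) = 2 p Q + 1`.
-/

set_option autoImplicit false

namespace Pool.Agent.P07318w

theorem kf_bound {p : ℕ} [Fact p.Prime] {u v : ZMod p} (hu : u ≠ 0) (hv : v ≠ 0) {μ : ℕ} (hμ : 3 ≤ μ) :
    ‖KF p (2 * μ) u v‖ ≤ 2 * p * (p : ℝ) ^ μ + 1 := by
  classical
  have hp : p.Prime := Fact.out
  have hp0 : (0 : ℝ) < p := by exact_mod_cast hp.pos
  letI : Fintype (GaloisField p (2 * μ)) := Fintype.ofFinite _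
  have hinj : Function.Injective (algebraMap (ZMod p) (GaloisField p (2 * μ))) :=
    (algebraMap (ZMod p) (GaloisField p (2 * μ))).injective
  have hcard : Fintype.card (GaloisField p (2 * μ)) = (p ^ μ) ^ 2 := by
    rw [← Nat.card_eq_fintype_card, GaloisField.card p (2 * μ) (by omega), ← pow_mul, mul_comm]
  set g : (GaloisField p (2 * μ))ˣ → GaloisField p (2 * μ) := fun x =>
    algebraMap (ZMod p) (GaloisField p (2 * μ)) u * (x : GaloisField p (2 * μ)) +
      algebraMap (ZMod p) (GaloisField p (2 * μ)) v *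
        ((x⁻¹ : (GaloisField p (2 * μ))ˣ) : GaloisField p (2 * μ)) with hg
  set τ : (GaloisField p (2 * μ))ˣ → ZMod p := fun x =>
    Algebra.trace (ZMod p) (GaloisField p (2 * μ)) (g x) with hτ
  set N : ZMod p → ℕ := fun t => (Finset.univ.filter (fun x => τ x = t)).card with hN
  -- the bound of the fibres
  have h1 : ∀ t, p * N t ≤ (p ^ μ) ^ 2 + 2 * p * p ^ μ := by
    intro t
    have hb := bomb (F := GaloisField p (2 * μ)) (p := p) hμ hcard
      (a := algebraMap (ZMod p) (GaloisField p (2 * μ)) u)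
      (b := algebraMap (ZMod p) (GaloisField p (2 * μ)) v)
      (by rw [Ne, map_eq_zero_iff _ hinj]; exact hu) (by rw [Ne, map_eq_zero_iff _ hinj]; exact hv)
      (algebraMap (ZMod p) (GaloisField p (2 * μ)) t)
    refine le_trans (le_of_eq ?_) hb
    show p * (Finset.univ.filter (fun x => τ x = t)).card = _
    refine congrArg (fun n => p * n) (congrArg Finset.card ?_)
    ext x
    rw [Finset.mem_filter, Finset.mem_filter]
    have h2 := FiniteField.algebraMap_trace_eq_sum_pow (ZMod p) (GaloisField p (2 * μ)) (g x)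
    rw [GaloisField.finrank p (by omega), Nat.card_zmod] at h2
    rw [← hinj.eq_iff (a := τ x) (b := t)]
    show (_ ∧ algebraMap _ _ (Algebra.trace _ _ (g x)) = _) ↔ _
    rw [h2]
  -- the number of units
  have h2 : ∑ t, N t = (p ^ μ) ^ 2 - 1 := by
    rw [← hcard, ← Fintype.card_units, ← Finset.card_univ]
    exact (Finset.card_eq_sum_card_fiberwise (f := τ) (t := Finset.univ)
      (fun x _ => Finset.mem_coe.2 (Finset.mem_univ _))).symm
  have h2' : ∑ t, (N t : ℝ) = ((p : ℝ) ^ μ) ^ 2 - 1 := by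
    rw [← Nat.cast_sum, h2, Nat.cast_sub (Nat.one_le_pow _ _ (Nat.pow_pos hp.pos))]
    push_cast
    ring
  -- the sum over the fibres
  have h3 : KF p (2 * μ) u v = ∑ t : ZMod p, (N t : ℂ) * ZMod.stdAddChar t := by
    unfold KF
    rw [finsum_eq_sum_of_fintype]
    rw [← Finset.sum_fiberwise Finset.univ τ]
    refine Finset.sum_congr rfl fun t _ => ?_
    rw [Finset.sum_congr rfl (g := fun _ => (ZMod.stdAddChar t : ℂ)), Finset.sum_const,
      nsmul_eq_mul]
    intro x hx
    rw [Finset.mem_filter] at hx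
    rw [← hx.2]
  have h4 : ∑ t : ZMod p, (ZMod.stdAddChar t : ℂ) = 0 := by
    apply AddChar.sum_eq_zero_of_ne_one
    intro h
    have h5 : (ZMod.stdAddChar (1 : ZMod p) : ℂ) = ZMod.stdAddChar (0 : ZMod p) := by
      rw [h]; simp
    have h6 := ZMod.injective_stdAddChar h5
    exact one_ne_zero h6
  set B : ℝ := (((p : ℝ) ^ μ) ^ 2 + 2 * p * (p : ℝ) ^ μ) / p with hB
  have h5 : ∀ t, (N t : ℝ) ≤ B := by
    intro t
    rw [hB, le_div_iff₀ hp0, mul_comm]
    exact_mod_cast h1 t
  have h6 : KF p (2 * μ) u v = -∑ t : ZMod p, ((B - N t : ℝ) : ℂ) * ZMod.stdAddChar t := by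
    have h7 : ∑ t : ZMod p, ((B - N t : ℝ) : ℂ) * ZMod.stdAddChar t =
        (B : ℂ) * ∑ t : ZMod p, (ZMod.stdAddChar t : ℂ) -
          ∑ t : ZMod p, (N t : ℂ) * ZMod.stdAddChar t := by
      rw [Finset.mul_sum, ← Finset.sum_sub_distrib]
      refine Finset.sum_congr rfl fun t _ => ?_
      push_cast
      ring
    rw [h7, h4, h3]
    ring
  rw [h6, norm_neg]
  refine (norm_sum_le _ _).trans ?_
  have h8 : ∀ t : ZMod p, ‖((B - N t : ℝ) : ℂ) * ZMod.stdAddChar t‖ = B - N t := by
    intro t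
    rw [norm_mul, Complex.norm_real, Real.norm_eq_abs, abs_of_nonneg (sub_nonneg.2 (h5 t)),
      AddChar.norm_apply, mul_one]
  rw [Finset.sum_congr rfl fun t _ => h8 t, Finset.sum_sub_distrib, h2', Finset.sum_const,
    Finset.card_univ, ZMod.card, nsmul_eq_mul, hB, mul_div_cancel₀ _ hp0.ne']
  linarith

end Pool.Agent.P07318w
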