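import Pool.Agent.Lib.P07318w.MpMem

/-!
# P07318w.KrKf: the coefficients of the logarithmic derivative are the Kloosterman sums over extensions

`mem_mp` is a black box.

PROOF. Let `K = GaloisField p r`, a finite field with `p^r` elements, `[K : F_p] = r` (`GaloisField.finrank`). Group the units `x` of `K` by their minimal polynomial `P = minpoly (ZMod p) x`, which
is monic irreducible of degree `n | r` (`minpoly.degree_dvd` / `IntermediateField` tower) with `P(0) ≠ 0` (as `x ≠ 0`; `minpoly.coeff_zero_ne_zero`); so `P ∈ mp p n` is irreducible. Conversely every irreducible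
`P ∈ mp p n` with `n | r` has exactly `n` roots in `K`, all units (it divides `X^(p^r) - X`, which splits in `K` and is separable:
`FiniteField.X_pow_card_sub_X...`; `P` irreducible of degree `n | r` divides `X^(p^r) - X`: e.g. adjoin a root of `P`, this field has `p^n` elements and so the root satisfies
`x^(p^n) = x`, hence `x^(p^r) = x`; `minpoly.dvd`; or `GaloisField` embeddings `nonempty_algHom_of_finrank_dvd`; separability: `PerfectField.separable_of_irreducible`), and each root
has minimal polynomial `P` (`minpoly.eq_of_irreducible_of_monic`). For a root `x` of `P`, with `n = deg P`: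
`trace_{K/F_p}(x) = (r/n) trace_{F_p(x)/F_p}(x) = (r/n) (- P.nextCoeff)` (`trace_eq_finrank_mul_minpoly_nextCoeff`: in Mathlib
`trace_eq_finrank_mul_minpoly_nextCoeff : Algebra.trace K L x = finrank K⟮x⟯ L * -(minpoly K x).nextCoeff`), and
`x⁻¹` has the minimal polynomial `P.reverse / P(0)`, whose `nextCoeff` is `P.coeff 1 / P.coeff 0`, `F_p(x⁻¹) = F_p(x)` (`IntermediateField.adjoin_simple...`), so
`trace_{K/F_p}(x⁻¹) = (r/n) (- P.coeff 1 / P.coeff 0)`. (If `n = 1`, `P = X - x0`: nextCoeff `-x0`, reversed polynomial `1 - x0 X`, consistent. Alternatively compute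
`trace (x⁻¹)` from the sum of the inverse conjugates.) By linearity `trace (u x + v x⁻¹) = (r/n) (-u P.nextCoeff - v P.coeff 1 / P.coeff 0)` and `stdAddChar` of it is `Lam u v P ^ (r/n)`
(`AddChar.map_nsmul_eq_pow`). Summing over the `n` roots of each `P`: `KF p r u v = ∑_{n | r} ∑_P n Lam(P)^(r/n) = Kr p u v r`.
-/

set_option autoImplicit false

open Polynomial

namespace Pool.Agent.P07318w

namespace KrKfAux

open IntermediateField

section general

variable {F K : Type*} [Field F] [Field K] [Algebra F K] [FiniteDimensional F K]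

omit [FiniteDimensional F K] in
theorem adjoin_inv (x : K) : F⟮x⁻¹⟯ = F⟮x⟯ := by
  apply le_antisymm
  · rw [adjoin_simple_le_iff]
    exact inv_mem (mem_adjoin_simple_self F x)
  · rw [adjoin_simple_le_iff]
    have h := inv_mem (mem_adjoin_simple_self F x⁻¹)
    rwa [inv_inv] at h

theorem nextCoeff_minpoly_inv {x : K} (hx : x ≠ 0) :
    (minpoly F x⁻¹).nextCoeff = (minpoly F x).coeff 1 / (minpoly F x).coeff 0 := by
  have hint : IsIntegral F x := IsIntegral.of_finite F x
  have hint' : IsIntegral F x⁻¹ := IsIntegral.of_finite F x⁻¹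
  have ha : (minpoly F x).coeff 0 ≠ 0 := minpoly.coeff_zero_ne_zero hint hx
  have htd : (minpoly F x).natTrailingDegree = 0 :=
    Nat.le_zero.1 (Polynomial.natTrailingDegree_le_of_ne_zero ha)
  have hnp : 0 < (minpoly F x).natDegree := minpoly.natDegree_pos hint
  set Q : F[X] := C ((minpoly F x).coeff 0)⁻¹ * (minpoly F x).reverse with hQ
  have hQd : Q.natDegree = (minpoly F x).natDegree := by
    rw [hQ, natDegree_C_mul (inv_ne_zero ha), reverse_natDegree, htd, Nat.sub_zero]
  have hQm : Q.Monic := by
    unfold Polynomial.Monic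
    rw [hQ, leadingCoeff_mul, leadingCoeff_C, reverse_leadingCoeff, trailingCoeff, htd,
      inv_mul_cancel₀ ha]
  have hQx : aeval x⁻¹ Q = 0 := by
    have : Invertible x := invertibleOfNonzero hx
    have h1 : eval₂ (algebraMap F K) (⅟x) (minpoly F x).reverse = 0 := by
      rw [eval₂_reverse_eq_zero_iff]
      exact minpoly.aeval F x
    rw [invOf_eq_inv] at h1
    rw [hQ, map_mul, aeval_def _ (minpoly F x).reverse, h1, mul_zero]
  have hdvd : minpoly F x⁻¹ ∣ Q := minpoly.dvd F x⁻¹ hQx
  have hdeg : (minpoly F x⁻¹).natDegree = (minpoly F x).natDegree := by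
    rw [← IntermediateField.adjoin.finrank hint, ← IntermediateField.adjoin.finrank hint',
      adjoin_inv]
  have heq : Q = minpoly F x⁻¹ :=
    eq_of_monic_of_dvd_of_natDegree_le (minpoly.monic hint') hQm hdvd (by rw [hQd, hdeg])
  rw [← heq, nextCoeff_of_natDegree_pos (by rw [hQd]; exact hnp), hQd, hQ, coeff_C_mul,
    coeff_reverse, revAt_le (Nat.sub_le _ _), Nat.sub_sub_self hnp, div_eq_inv_mul]

theorem trace_lin (u v : F) {x : K} (hx : x ≠ 0) :
    Algebra.trace F K (algebraMap F K u * x + algebraMap F K v * x⁻¹) =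
      (Module.finrank F⟮x⟯ K : F) * (-(u * (minpoly F x).nextCoeff) -
        v * ((minpoly F x).coeff 1 / (minpoly F x).coeff 0)) := by
  have h1 : Algebra.trace F K x = (Module.finrank F⟮x⟯ K : F) * -(minpoly F x).nextCoeff :=
    trace_eq_finrank_mul_minpoly_nextCoeff F x
  have h2 : Algebra.trace F K x⁻¹ = (Module.finrank F⟮x⁻¹⟯ K : F) * -(minpoly F x⁻¹).nextCoeff :=
    trace_eq_finrank_mul_minpoly_nextCoeff F x⁻¹
  rw [adjoin_inv, nextCoeff_minpoly_inv hx] at h2
  rw [map_add, ← Algebra.smul_def, ← Algebra.smul_def, map_smul, map_smul, h1, h2, smul_eq_mul,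
    smul_eq_mul]
  ring

theorem finrank_adjoin_top (x : K) :
    Module.finrank F⟮x⟯ K = Module.finrank F K / (minpoly F x).natDegree := by
  have hint : IsIntegral F x := IsIntegral.of_finite F x
  have h1 := Module.finrank_mul_finrank F F⟮x⟯ K
  rw [IntermediateField.adjoin.finrank hint] at h1
  rw [← h1, Nat.mul_div_cancel_left _ (minpoly.natDegree_pos hint)]

theorem natDegree_dvd_finrank (x : K) : (minpoly F x).natDegree ∣ Module.finrank F K := by
  have hint : IsIntegral F x := IsIntegral.of_finite F x
  have h1 := Module.finrank_mul_finrank F F⟮x⟯ K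
  rw [IntermediateField.adjoin.finrank hint] at h1
  exact ⟨_, h1.symm⟩

end general

theorem card_roots {p : ℕ} [Fact p.Prime] {r : ℕ} (hr : r ≠ 0) {P : (ZMod p)[X]}
    (hirr : Irreducible P) (hmon : P.Monic) (hdeg : P.natDegree ∣ r) (h0 : P.coeff 0 ≠ 0)
    [Fintype (GaloisField p r)ˣ] [DecidableEq (ZMod p)[X]] :
    ((Finset.univ : Finset (GaloisField p r)ˣ).filter
      (fun x : (GaloisField p r)ˣ => minpoly (ZMod p) (x : GaloisField p r) = P)).card =
      P.natDegree := by
  classical
  have hfin : Fintype (GaloisField p r) := Fintype.ofFinite _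
  have hdvd : P ∣ X ^ (Nat.card (ZMod p)) ^ r - X :=
    hirr.natDegree_dvd_iff_dvd_X_pow_card_pow_sub_X.1 hdeg
  have hcard : Nat.card (ZMod p) ^ r = Nat.card (GaloisField p r) := by
    rw [GaloisField.card p r hr, Nat.card_zmod]
  rw [hcard] at hdvd
  have hspl : Splits (P.map (algebraMap (ZMod p) (GaloisField p r))) := by
    refine Splits.of_dvd (g := (X ^ Nat.card (GaloisField p r) - X : (GaloisField p r)[X])) ?_ ?_ ?_
    · exact Polynomial.splits_X_pow_nat_card_sub_X
    · exact FiniteField.X_pow_card_sub_X_ne_zero _ Finite.one_lt_card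
    · have := Polynomial.map_dvd (algebraMap (ZMod p) (GaloisField p r)) hdvd
      simpa using this
  have hsep : P.Separable := PerfectField.separable_of_irreducible hirr
  have hroot := card_rootSet_eq_natDegree hsep hspl
  rw [← hroot, ← Fintype.card_coe]
  refine Fintype.card_congr ?_
  refine
    { toFun := fun x => ⟨(x.1 : GaloisField p r), ?_⟩
      invFun := fun y => ⟨Units.mk0 y.1 ?_, ?_⟩
      left_inv := ?_
      right_inv := ?_ }
  · rw [mem_rootSet]
    refine ⟨hirr.ne_zero, ?_⟩
    have key : ∀ y : (GaloisField p r)ˣ, minpoly (ZMod p) (y : GaloisField p r) = P →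
        aeval (y : GaloisField p r) P = 0 := by
      intro y hy
      rw [← hy]
      exact minpoly.aeval _ _
    exact key x.1 (Finset.mem_filter.1 x.2).2
  · intro h
    have hy := (mem_rootSet.1 y.2).2
    rw [h, ← coeff_zero_eq_aeval_zero' ] at hy
    exact h0 ((map_eq_zero _).1 hy)
  · rw [Finset.mem_filter]
    refine ⟨Finset.mem_univ _, ?_⟩
    have hy := (mem_rootSet.1 y.2).2
    exact (minpoly.eq_of_irreducible_of_monic hirr hy hmon).symm
  · intro x
    ext
    rfl
  · intro y
    rfl

end KrKfAux

open KrKfAux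

theorem kr_eq_kf {p : ℕ} [Fact p.Prime] (u v : ZMod p) {r : ℕ} (hr : 1 ≤ r) : Kr p u v r = KF p r u v := by
  classical
  have hr0 : r ≠ 0 := by omega
  have hfin : Fintype (GaloisField p r) := Fintype.ofFinite _
  have hfinu : Fintype (GaloisField p r)ˣ := Fintype.ofFinite _
  unfold KF Kr
  rw [finsum_eq_sum_of_fintype]
  have hterm : ∀ x : (GaloisField p r)ˣ,
      ZMod.stdAddChar (Algebra.trace (ZMod p) (GaloisField p r)
        (algebraMap (ZMod p) (GaloisField p r) u * (x : GaloisField p r) +
          algebraMap (ZMod p) (GaloisField p r) v * ((x⁻¹ : (GaloisField p r)ˣ) : GaloisField p r))) =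
      Lam u v (minpoly (ZMod p) (x : GaloisField p r)) ^
        (r / (minpoly (ZMod p) (x : GaloisField p r)).natDegree) := by
    intro x
    rw [Units.val_inv_eq_inv_val, trace_lin u v x.ne_zero, finrank_adjoin_top,
      GaloisField.finrank p hr0, ← nsmul_eq_mul, AddChar.map_nsmul_eq_pow]
    rfl
  set T : Finset (ZMod p)[X] := r.divisors.biUnion
    (fun n => (mp p n).filter (fun P => Irreducible P)) with hT
  have hmaps : ∀ x ∈ (Finset.univ : Finset (GaloisField p r)ˣ),
      minpoly (ZMod p) (x : GaloisField p r) ∈ T := by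
    intro x _
    have hint : IsIntegral (ZMod p) (x : GaloisField p r) := IsIntegral.of_finite _ _
    rw [hT, Finset.mem_biUnion]
    refine ⟨(minpoly (ZMod p) (x : GaloisField p r)).natDegree, ?_, ?_⟩
    · rw [Nat.mem_divisors]
      refine ⟨?_, hr0⟩
      have := natDegree_dvd_finrank (F := ZMod p) (x : GaloisField p r)
      rwa [GaloisField.finrank p hr0] at this
    · rw [Finset.mem_filter, mem_mp]
      exact ⟨⟨minpoly.monic hint, rfl, minpoly.coeff_zero_ne_zero hint x.ne_zero⟩,
        minpoly.irreducible hint⟩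
  rw [← Finset.sum_fiberwise_of_maps_to hmaps]
  rw [hT, Finset.sum_biUnion]
  · refine Finset.sum_congr rfl fun n hn => Finset.sum_congr rfl fun P hP => ?_
    rw [Finset.mem_filter, mem_mp] at hP
    obtain ⟨⟨hmon, hdeg, h0⟩, hirr⟩ := hP
    have hc := card_roots hr0 hirr hmon (by rw [hdeg]; exact Nat.dvd_of_mem_divisors hn) h0
    have hs : ∀ x ∈ (Finset.univ : Finset (GaloisField p r)ˣ).filter
        (fun x : (GaloisField p r)ˣ => minpoly (ZMod p) (x : GaloisField p r) = P),
        ZMod.stdAddChar (Algebra.trace (ZMod p) (GaloisField p r)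
          (algebraMap (ZMod p) (GaloisField p r) u * (x : GaloisField p r) +
            algebraMap (ZMod p) (GaloisField p r) v *
              ((x⁻¹ : (GaloisField p r)ˣ) : GaloisField p r))) = Lam u v P ^ (r / n) := by
      intro x hx
      rw [hterm, (Finset.mem_filter.1 hx).2, hdeg]
    rw [Finset.sum_congr rfl hs, Finset.sum_const, hc, hdeg, nsmul_eq_mul]
  · intro a _ b _ hab
    rw [Function.onFun, Finset.disjoint_left]
    intro P hPa hPb
    rw [Finset.mem_filter, mem_mp] at hPa hPb
    exact hab (hPa.1.2.1.symm.trans hPb.1.2.1)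

end Pool.Agent.P07318w
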