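import Pool.Agent.Lib.P07318w.KDefs

/-!
# P07318w.MpMem: monic polynomials with nonzero constant term, and the first values of `Ls`

`mp p d`, `Lam`, `Ls` are in `KDefs`; nothing else is used.

PROOFS.
`mem_mp`: `mpoly p d c` is monic of degree `d` (`Polynomial.monic_X_pow_add`, degree of the sum `< d`: `Polynomial.degree_sum_fin_lt`), and a monic polynomial of degree `d` is
`X^d + ∑_{i<d} C (h.coeff i) X^i` (`Polynomial.as_sum_range`, `Finset.sum_range_succ`, `Fin.sum_univ_eq_sum_range`). `mpoly` is injective (compare coefficients).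
`lam_one`: `nextCoeff 1 = 0`, `coeff 1 = 0`. `lam_mul`: `Polynomial.Monic.nextCoeff_mul`; `(f g).coeff 0 = f_0 g_0`, `(f g).coeff 1 = f_0 g_1 + f_1 g_0`, so the quotients
`coeff 1 / coeff 0` add; `AddChar.map_add_eq_mul`. `norm_lam`: the standard character has absolute value one.
`ls_zero`: `mp p 0 = {1}`. `ls_one`: `mp p 1 = {X + C c, c ≠ 0}`; with `c = - x`: `nextCoeff = -x` (`nextCoeff` of `X + C c` is `c`), `coeff 1 / coeff 0 = -1/x`, so the term is
`stdAddChar (u x + v x⁻¹)`.
`ls_two`: the polynomials `X^2 + c1 X + c0`, `c0 ≠ 0`: the term is `stdAddChar (-(u + v / c0) c1)`; the sum over `c1` is `p` if `u + v / c0 = 0`, that is `c0 = - v / u` (nonzero, exactly one value), and `0`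
otherwise. `ls_ge`: for `d ≥ 3` the coefficients `c_{d-1}` (which is `nextCoeff`) and `c_1, c_0` are different coordinates; the sum over `c_{d-1} ∈ ZMod p` of `stdAddChar (-(u c_{d-1}))` is
`0` as `u ≠ 0`, the rest does not depend on `c_{d-1}` (write the sum over `Fin d → ZMod p` with `Fin.sum_univ_castSucc`-type equivalences (`Fin.snocEquiv`/`Fin.consEquiv`), or use the involution-free
trick: replacing `c_{d-1}` by `c_{d-1} + 1` is a bijection of the index set multiplying each term by `stdAddChar (-u) ≠ 1`, so the sum `S` satisfies `S = stdAddChar (-u) S`, hence `S = 0`).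
-/

set_option autoImplicit false

open Polynomial

namespace Pool.Agent.P07318w

variable {p : ℕ} [Fact p.Prime]

namespace MpMemAux

theorem mpoly_coeff_lt {d : ℕ} (c : Fin d → ZMod p) (i : Fin d) :
    (mpoly p d c).coeff (i : ℕ) = c i := by
  unfold mpoly
  rw [coeff_add, coeff_X_pow, if_neg (Nat.ne_of_lt i.2), zero_add, finset_sum_coeff]
  rw [Finset.sum_eq_single i]
  · rw [coeff_C_mul_X_pow, if_pos rfl]
  · intro j _ hj
    rw [coeff_C_mul_X_pow, if_neg fun h => hj (Fin.ext h.symm)]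
  · intro h
    exact absurd (Finset.mem_univ i) h

theorem mpoly_monic {d : ℕ} (c : Fin d → ZMod p) : (mpoly p d c).Monic :=
  monic_X_pow_add (degree_sum_fin_lt c)

theorem mpoly_natDegree {d : ℕ} (c : Fin d → ZMod p) : (mpoly p d c).natDegree = d :=
  natDegree_eq_of_degree_eq_some (by
    unfold mpoly
    rw [degree_add_eq_left_of_degree_lt (by rw [degree_X_pow]; exact degree_sum_fin_lt c),
      degree_X_pow])

theorem mpoly_self {d : ℕ} {h : (ZMod p)[X]} (hm : h.Monic) (hd : h.natDegree = d) :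
    mpoly p d (fun i => h.coeff (i : ℕ)) = h := by
  ext k
  rcases lt_trichotomy k d with hk | hk | hk
  · exact mpoly_coeff_lt (fun i : Fin d => h.coeff (i : ℕ)) ⟨k, hk⟩
  · subst hk
    have h1 := (mpoly_monic (fun i : Fin k => h.coeff (i : ℕ))).coeff_natDegree
    rw [mpoly_natDegree] at h1
    have h2 := hm.coeff_natDegree
    rw [hd] at h2
    rw [h1, h2]
  · rw [coeff_eq_zero_of_natDegree_lt (by rw [mpoly_natDegree]; exact hk),
      coeff_eq_zero_of_natDegree_lt (by rw [hd]; exact hk)]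

theorem mpoly_injective (d : ℕ) : Function.Injective (mpoly p d) := by
  intro c c' h
  funext i
  rw [← mpoly_coeff_lt c i, ← mpoly_coeff_lt c' i, h]

theorem ls_eq (u v : ZMod p) (d : ℕ) : Ls p u v d =
    ∑ c : Fin d → ZMod p, if (mpoly p d c).coeff 0 ≠ 0 then Lam u v (mpoly p d c) else 0 := by
  classical
  unfold Ls mp
  rw [Finset.sum_filter, Finset.sum_image fun c _ c' _ h => mpoly_injective d h]

theorem nextCoeff_mpoly {d : ℕ} (c : Fin (d + 1) → ZMod p) :
    (mpoly p (d + 1) c).nextCoeff = c (Fin.last d) := by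
  rw [nextCoeff_of_natDegree_pos (by rw [mpoly_natDegree]; omega), mpoly_natDegree]
  exact mpoly_coeff_lt c (Fin.last d)

theorem sum_units (g : ZMod p → ℂ) :
    ∑ x : (ZMod p)ˣ, g (x : ZMod p) = ∑ t : ZMod p, if t ≠ 0 then g t else 0 := by
  classical
  rw [← Finset.sum_filter, Finset.sum_subtype (p := fun t : ZMod p => t ≠ 0)
    (Finset.univ.filter fun t : ZMod p => t ≠ 0) (by simp)]
  exact Fintype.sum_equiv unitsEquivNeZero _ _ fun x => rfl

end MpMemAux

open MpMemAux

theorem mem_mp {d : ℕ} {h : (ZMod p)[X]} : h ∈ mp p d ↔ h.Monic ∧ h.natDegree = d ∧ h.coeff 0 ≠ 0 := by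
  classical
  unfold mp
  rw [Finset.mem_filter, Finset.mem_image]
  constructor
  · rintro ⟨⟨c, _, rfl⟩, h0⟩
    exact ⟨mpoly_monic c, mpoly_natDegree c, h0⟩
  · rintro ⟨h1, h2, h3⟩
    exact ⟨⟨_, Finset.mem_univ _, mpoly_self h1 h2⟩, h3⟩

theorem lam_one (u v : ZMod p) : Lam u v (1 : (ZMod p)[X]) = 1 := by
  unfold Lam
  have h1 : (1 : (ZMod p)[X]).nextCoeff = 0 := by
    rw [← C_1, nextCoeff_C_eq_zero]
  have h2 : (1 : (ZMod p)[X]).coeff 1 = 0 := by
    rw [coeff_one]
    simp
  rw [h1, h2]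
  simp

theorem lam_mul (u v : ZMod p) {f g : (ZMod p)[X]} (hf : f.Monic) (hg : g.Monic) (hf0 : f.coeff 0 ≠ 0)
    (hg0 : g.coeff 0 ≠ 0) : Lam u v (f * g) = Lam u v f * Lam u v g := by
  unfold Lam
  rw [← AddChar.map_add_eq_mul, hf.nextCoeff_mul hg, mul_coeff_zero, mul_coeff_one]
  congr 1
  field_simp
  ring

theorem ls_zero (u v : ZMod p) : Ls p u v 0 = 1 := by
  rw [ls_eq]
  have h1 : ∀ c : Fin 0 → ZMod p, mpoly p 0 c = 1 := by
    intro c
    unfold mpoly
    simp
  rw [Fintype.sum_congr _ (fun _ => (1 : ℂ)) (fun c => by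
    rw [h1, lam_one, if_pos (by simp)])]
  simp

theorem ls_one (u v : ZMod p) : Ls p u v 1 = Kloo p u v := by
  rw [ls_eq]
  unfold Kloo
  have h1 : ∀ c : Fin 1 → ZMod p, (if (mpoly p 1 c).coeff 0 ≠ 0 then Lam u v (mpoly p 1 c) else 0) =
      if c 0 ≠ 0 then ZMod.stdAddChar (-(u * c 0) - v * (1 / c 0)) else (0 : ℂ) := by
    intro c
    have e0 : (mpoly p 1 c).coeff 0 = c 0 := mpoly_coeff_lt c 0
    have e1 : (mpoly p 1 c).coeff 1 = 1 := by
      have := (mpoly_monic c).coeff_natDegree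
      rwa [mpoly_natDegree] at this
    have e2 : (mpoly p 1 c).nextCoeff = c 0 := nextCoeff_mpoly c
    unfold Lam
    rw [e0, e1, e2]
  rw [Fintype.sum_congr _ _ h1]
  refine (Fintype.sum_equiv (Equiv.funUnique (Fin 1) (ZMod p)) _
    (fun t => if t ≠ 0 then ZMod.stdAddChar (-(u * t) - v * (1 / t)) else (0 : ℂ))
    (fun c => rfl)).trans ?_
  rw [← Equiv.sum_comp (Equiv.neg (ZMod p))]
  have h2 : ∀ x : (ZMod p)ˣ, ZMod.stdAddChar (u * (x : ZMod p) + v * ((x⁻¹ : (ZMod p)ˣ) : ZMod p)) =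
      (fun t : ZMod p => (ZMod.stdAddChar (u * t + v * t⁻¹) : ℂ)) (x : ZMod p) := by
    intro x
    simp only [Units.val_inv_eq_inv_val]
  rw [Fintype.sum_congr _ _ h2, sum_units (fun t : ZMod p => ZMod.stdAddChar (u * t + v * t⁻¹))]
  refine Fintype.sum_congr _ _ fun t => ?_
  simp only [Equiv.neg_apply]
  by_cases ht : t = 0
  · rw [ht]
    simp
  · rw [if_pos ht, if_pos (neg_ne_zero.mpr ht)]
    congr 1
    field_simp
    ring

theorem ls_two {u v : ZMod p} (hu : u ≠ 0) (hv : v ≠ 0) : Ls p u v 2 = p := by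
  classical
  rw [ls_eq]
  have h1 : ∀ c : Fin 2 → ZMod p, (if (mpoly p 2 c).coeff 0 ≠ 0 then Lam u v (mpoly p 2 c) else 0) =
      if c 0 ≠ 0 then ZMod.stdAddChar (c 1 * (-(u + v / c 0))) else (0 : ℂ) := by
    intro c
    have e0 : (mpoly p 2 c).coeff 0 = c 0 := mpoly_coeff_lt c 0
    have e1 : (mpoly p 2 c).coeff 1 = c 1 := mpoly_coeff_lt c 1
    have e2 : (mpoly p 2 c).nextCoeff = c 1 := nextCoeff_mpoly c
    unfold Lam
    rw [e0, e1, e2]
    by_cases hc : c 0 = 0
    · rw [if_neg (by simpa using hc), if_neg (by simpa using hc)]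
    · rw [if_pos hc, if_pos hc]
      congr 1
      field_simp
      ring
  rw [Fintype.sum_congr _ _ h1]
  refine (Fintype.sum_equiv (finTwoArrowEquiv (ZMod p)) _
    (fun t : ZMod p × ZMod p =>
      if t.1 ≠ 0 then ZMod.stdAddChar (t.2 * (-(u + v / t.1))) else (0 : ℂ))
      (fun c => rfl)).trans ?_
  rw [Fintype.sum_prod_type]
  have h2 : ∀ a : ZMod p, (∑ b : ZMod p,
      if a ≠ 0 then ZMod.stdAddChar (b * (-(u + v / a))) else (0 : ℂ)) =
      if a = -v / u then (p : ℂ) else 0 := by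
    intro a
    by_cases ha : a = 0
    · rw [Finset.sum_eq_zero fun b _ => if_neg (not_not.mpr ha), if_neg]
      rw [ha]
      intro h
      have := div_ne_zero (neg_ne_zero.mpr hv) hu
      exact this h.symm
    · rw [Finset.sum_congr rfl fun b _ => if_pos ha]
      rw [AddChar.sum_mulShift _ (ZMod.isPrimitive_stdAddChar p), ZMod.card]
      have h3 : (-(u + v / a) = 0) ↔ a = -v / u := by
        rw [neg_eq_zero, eq_div_iff hu]
        constructor
        · intro h
          have h4 : u * a + v = 0 := by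
            have := congrArg (fun z => z * a) h
            simp only [zero_mul, add_mul, div_mul_cancel₀ _ ha] at this
            exact this
          linear_combination h4
        · intro h
          field_simp
          linear_combination h
      by_cases h5 : a = -v / u
      · rw [if_pos h5, if_pos (h3.mpr h5)]
      · rw [if_neg h5, if_neg fun h => h5 (h3.mp h)]
        simp
  simp only
  rw [Finset.sum_congr rfl fun a _ => h2 a]
  simp

theorem ls_ge {u v : ZMod p} (hu : u ≠ 0) {d : ℕ} (hd : 3 ≤ d) : Ls p u v d = 0 := by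
  classical
  obtain ⟨n, rfl⟩ : ∃ n, d = n + 3 := ⟨d - 3, by omega⟩
  rw [ls_eq]
  set f : (Fin (n + 3) → ZMod p) → ℂ := fun c =>
    if (mpoly p (n + 3) c).coeff 0 ≠ 0 then Lam u v (mpoly p (n + 3) c) else 0 with hf
  have h1 : ∀ c, f c = if c 0 ≠ 0 then
      ZMod.stdAddChar (-(u * c (Fin.last (n + 2))) - v * (c 1 / c 0)) else (0 : ℂ) := by
    intro c
    have e0 : (mpoly p (n + 3) c).coeff 0 = c 0 := mpoly_coeff_lt c 0
    have e1 : (mpoly p (n + 3) c).coeff 1 = c 1 := mpoly_coeff_lt c 1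
    have e2 : (mpoly p (n + 3) c).nextCoeff = c (Fin.last (n + 2)) := nextCoeff_mpoly c
    simp only [hf]
    unfold Lam
    rw [e0, e1, e2]
  have h2 : ∀ c, f (c + Pi.single (Fin.last (n + 2)) 1) = ZMod.stdAddChar (-u) * f c := by
    intro c
    rw [h1, h1]
    have e0 : (c + Pi.single (Fin.last (n + 2)) 1 : Fin (n + 3) → ZMod p) 0 = c 0 := by
      rw [Pi.add_apply, Pi.single_eq_of_ne, add_zero]
      exact fun h => absurd (congrArg Fin.val h) (by simp)
    have e1 : (c + Pi.single (Fin.last (n + 2)) 1 : Fin (n + 3) → ZMod p) 1 = c 1 := by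
      rw [Pi.add_apply, Pi.single_eq_of_ne, add_zero]
      exact fun h => absurd (congrArg Fin.val h) (by simp)
    have e2 : (c + Pi.single (Fin.last (n + 2)) 1 : Fin (n + 3) → ZMod p) (Fin.last (n + 2)) =
        c (Fin.last (n + 2)) + 1 := by
      rw [Pi.add_apply, Pi.single_eq_same]
    rw [e0, e1, e2]
    by_cases hc : c 0 = 0
    · rw [if_neg (by simpa using hc), if_neg (by simpa using hc), mul_zero]
    · rw [if_pos hc, if_pos hc, ← AddChar.map_add_eq_mul]
      congr 1
      ring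
  have h3 : ∑ c, f c = ZMod.stdAddChar (-u) * ∑ c, f c := by
    conv_lhs => rw [← Equiv.sum_comp (Equiv.addRight (Pi.single (Fin.last (n + 2)) 1)) f]
    rw [Finset.mul_sum]
    exact Finset.sum_congr rfl fun c _ => h2 c
  have h4 : (ZMod.stdAddChar (-u) : ℂ) ≠ 1 := by
    intro h
    have h5 : (ZMod.stdAddChar (-u) : ℂ) = ZMod.stdAddChar (0 : ZMod p) := by
      rw [h, AddChar.map_zero_eq_one]
    have h6 := ZMod.injective_stdAddChar h5
    exact hu (neg_eq_zero.mp h6)
  have h5 : (1 - (ZMod.stdAddChar (-u) : ℂ)) * ∑ c, f c = 0 := by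
    rw [sub_mul, one_mul]
    exact sub_eq_zero.mpr h3
  rcases mul_eq_zero.mp h5 with h6 | h6
  · exact absurd (sub_eq_zero.mp h6).symm h4
  · exact h6

end Pool.Agent.P07318w
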