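import Pool.Agent.Lib.P07318w.NewDefs
import Pool.Agent.Lib.P07318w.BRange
import Pool.Agent.Lib.P07318m.ESum
import Pool.Agent.Lib.P07318m.DAux

/-!
# P07318w.NewB: the sum over `b` in the second region

Black boxes: `b_range`; `e_sum` of `P07318m.ESum` (`∑_{a ≤ x} hh(a)^2/a (1 + Ea a + dl a) ≤ C (1 + log x)^4`), `sg_le`, `sg_nonneg`, `one_le_hh`, `dl_nonneg` of `P07318m.DAux`.

PROOF. Let `L = log Y`, `ℓ = log a`. A pair `(a, b)` of natural numbers `≥ 1` is in `RN M Y` if and only if `a ∈ AN M Y`, `(a,b) = 1` and `X0 ≤ b ≤ X1` with `X0 = a/√Y`, `X1 = Y a^(-3/2)` (`a^2 ≤ b^2 Y` is `X0 ≤ b`, `a^3 b^2 ≤ Y^2` is `b ≤ X1`;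
both imply `a^5 ≤ Y^3`, `b ≤ Y`, and `a ≤ Y`; conversely for `a ∈ AN`: `1 < X0 ≤ X1 ≤ Y`). With `E = L - ℓ/2` and `w_b = E - log b`:
`Qn = (w_b^2 - 3/20 ℓ^2)/2`, `KY = (w_b^2 - 3/4 sg a)/2`, so `Qn^2 = (w^4 - 3/10 ℓ^2 w^2 + 9/400 ℓ^4)/4`,
`Qn KY = (w^4 - 3/20 ℓ^2 w^2)/4 - sg(a) (3/16) (w^2 - 3/20 ℓ^2)`.
For fixed `a` the sum over `X0 ≤ b ≤ X1` is the difference of the sums over `b ≤ X1` and `b ≤ X0`, up to the term `b = X0` if `X0` is an integer (`≤ C (1+L)^4`). By `b_range` (`j = 0, 2, 4`, `M = 1 + L + ...`, say `M = 2 (1 + L)`; `0 ≤ ℓ ≤ L`,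
`E - log X1 = ℓ`, `E - log X0 = 3/2 (L - ℓ)`): `∑_{X0 ≤ b ≤ X1} (1/b) w_b^j = φ(a)/a ((3/2 (L-ℓ))^(j+1) - ℓ^(j+1))/(j+1) + O(Ea(a) (1+L)^j)`. Multiply by `hh(a)^2/a` and the polynomials in `ℓ`, `sg(a) ≤ ℓ^2 ≤ L^2`, and sum over `a`:
the error is at most `C (1+L)^4 ∑_{a ≤ Y} hh(a)^2/a Ea(a) ≤ C (1 + L)^8` (`e_sum`; `Ea ≥ 1`).
-/

set_option autoImplicit false

namespace Pool.Agent.P07318w

open Pool.Agent.P07318m (hh sg)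

namespace NewBAux

open Pool.Agent.P07318m (Ea dl)

theorem one_le_Ea {a : ℕ} (ha : 1 ≤ a) : 1 ≤ Ea a := by
  unfold Ea
  have h1 : (1 + Real.log ((1 : ℕ) : ℝ)) / ((1 : ℕ) : ℝ) = 1 := by simp
  calc (1 : ℝ) = (1 + Real.log ((1 : ℕ) : ℝ)) / ((1 : ℕ) : ℝ) := h1.symm
    _ ≤ ∑ d ∈ a.divisors, (1 + Real.log d) / d := by
        refine Finset.single_le_sum (f := fun d : ℕ => (1 + Real.log (d : ℝ)) / (d : ℝ))
          (fun d _ => ?_) (Nat.one_mem_divisors.2 (by omega))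
        have := Real.log_natCast_nonneg d
        positivity

open Classical in
/-- The range of `b`. -/
noncomputable def BB (a : ℕ) (Y : ℝ) : Finset ℕ :=
  (Finset.Icc 1 ⌊Y⌋₊).filter (fun b => a.Coprime b ∧ (a : ℝ) ^ 2 ≤ (b : ℝ) ^ 2 * Y ∧
    (a : ℝ) ^ 3 * (b : ℝ) ^ 2 ≤ Y ^ 2)

theorem mem_BB {a b : ℕ} {Y : ℝ} : b ∈ BB a Y ↔ (1 ≤ b ∧ b ≤ ⌊Y⌋₊) ∧ a.Coprime b ∧
    (a : ℝ) ^ 2 ≤ (b : ℝ) ^ 2 * Y ∧ (a : ℝ) ^ 3 * (b : ℝ) ^ 2 ≤ Y ^ 2 := by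
  unfold BB
  rw [Finset.mem_filter, Finset.mem_Icc]

open Classical in
theorem mem_AN {M a : ℕ} {Y : ℝ} : a ∈ AN M Y ↔ (1 ≤ a ∧ a ≤ ⌊Y⌋₊) ∧ Y < (a : ℝ) ^ 2 ∧
    (a : ℝ) ^ 5 ≤ Y ^ 3 ∧ Sfl M a := by
  unfold AN
  rw [Finset.mem_filter, Finset.mem_Icc]

open Classical in
theorem sum_RN (M : ℕ) {Y : ℝ} (hY : 1 ≤ Y) (g : ℕ × ℕ → ℝ) :
    ∑ p ∈ RN M Y, g p = ∑ a ∈ AN M Y, ∑ b ∈ BB a Y, g (a, b) := by
  refine Finset.sum_finset_product _ _ _ fun p => ?_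
  rw [mem_AN, mem_BB]
  unfold RN
  rw [Finset.mem_filter, Finset.mem_product, Finset.mem_Icc, Finset.mem_Icc]
  constructor
  · rintro ⟨⟨h1, h2⟩, h3, h4, h5, h6, h7⟩
    refine ⟨⟨h1, h4, ?_, h7⟩, h2, h3, h5, h6⟩
    have hb : (1 : ℝ) ≤ p.2 := by exact_mod_cast h2.1
    have hb2 : (0 : ℝ) < (p.2 : ℝ) ^ 2 := by positivity
    refine le_of_mul_le_mul_right ?_ hb2
    calc (p.1 : ℝ) ^ 5 * (p.2 : ℝ) ^ 2 = (p.1 : ℝ) ^ 2 * ((p.1 : ℝ) ^ 3 * (p.2 : ℝ) ^ 2) := by ring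
      _ ≤ ((p.2 : ℝ) ^ 2 * Y) * Y ^ 2 := by gcongr
      _ = Y ^ 3 * (p.2 : ℝ) ^ 2 := by ring
  · rintro ⟨⟨h1, h4, _, h7⟩, h2, h3, h5, h6⟩
    exact ⟨⟨h1, h2⟩, h3, h4, h5, h6, h7⟩

theorem logs {M a : ℕ} {Y : ℝ} (hY : 1 ≤ Y) (ha : a ∈ AN M Y) :
    0 ≤ Real.log a ∧ Real.log Y < 2 * Real.log a ∧ 5 * Real.log a ≤ 3 * Real.log Y := by
  obtain ⟨⟨h1, h2⟩, h3, h4, -⟩ := mem_AN.1 ha
  have ha0 : (0 : ℝ) < a := by exact_mod_cast h1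
  refine ⟨Real.log_natCast_nonneg a, ?_, ?_⟩
  · have h5 := Real.log_lt_log (by linarith) h3
    rw [Real.log_pow] at h5
    push_cast at h5
    exact h5
  · have h5 := Real.log_le_log (by positivity) h4
    rw [Real.log_pow, Real.log_pow] at h5
    push_cast at h5
    exact h5

theorem range (j : ℕ) : ∃ C : ℝ, 0 < C ∧ ∀ (M : ℕ) (Y : ℝ), 1 ≤ Y → ∀ a ∈ AN M Y,
    |∑ b ∈ BB a Y, (1 / (b : ℝ)) * (Real.log Y - Real.log a / 2 - Real.log b) ^ j -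
      (a.totient : ℝ) / a * (((3 / 2 * (Real.log Y - Real.log a)) ^ (j + 1) -
        Real.log a ^ (j + 1)) / (j + 1))| ≤ C * Ea a * (1 + Real.log Y) ^ j := by
  obtain ⟨C, hC, hb⟩ := b_range j
  refine ⟨2 * C + 1, by positivity, fun M Y hY a ha => ?_⟩
  obtain ⟨hl0, hl1, hl2⟩ := logs hY ha
  obtain ⟨⟨ha1, haY⟩, h3, h4, -⟩ := mem_AN.1 ha
  have ha0 : (0 : ℝ) < a := by exact_mod_cast ha1
  have hY0 : (0 : ℝ) < Y := by linarith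
  have hL0 : 0 ≤ Real.log Y := Real.log_nonneg hY
  obtain ⟨L, hL⟩ : ∃ L, L = Real.log Y := ⟨_, rfl⟩
  obtain ⟨l, hl⟩ : ∃ l, l = Real.log a := ⟨_, rfl⟩
  rw [← hL] at hl1 hl2 hL0
  rw [← hl] at hl0 hl1 hl2
  -- the end points
  obtain ⟨X0, hX0⟩ : ∃ X0 : ℝ, X0 = a / Real.sqrt Y := ⟨_, rfl⟩
  obtain ⟨X1, hX1⟩ : ∃ X1 : ℝ, X1 = Y / (a * Real.sqrt a) := ⟨_, rfl⟩
  have hsY : 0 < Real.sqrt Y := Real.sqrt_pos.2 hY0
  have hsa : 0 < Real.sqrt a := Real.sqrt_pos.2 ha0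
  have hX0p : 0 < X0 := by rw [hX0]; positivity
  have hX1p : 0 < X1 := by rw [hX1]; positivity
  have hlX0 : Real.log X0 = l - L / 2 := by
    rw [hX0, Real.log_div ha0.ne' hsY.ne', Real.log_sqrt hY0.le, hl, hL]
  have hlX1 : Real.log X1 = L - 3 / 2 * l := by
    rw [hX1, Real.log_div hY0.ne' (mul_pos ha0 hsa).ne', Real.log_mul ha0.ne' hsa.ne',
      Real.log_sqrt ha0.le, hl, hL]
    ring
  have hX01 : 1 ≤ X0 := by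
    rw [← Real.log_nonneg_iff hX0p, hlX0]
    linarith
  have hX11 : 1 ≤ X1 := by
    rw [← Real.log_nonneg_iff hX1p, hlX1]
    linarith
  have hX : X0 ≤ X1 := by
    rw [← Real.log_le_log_iff hX0p hX1p, hlX0, hlX1]
    linarith
  have hX1Y : X1 ≤ Y := by
    rw [← Real.log_le_log_iff hX1p hY0, hlX1, ← hL]
    linarith
  have c0 : ∀ b : ℕ, (a : ℝ) ^ 2 ≤ (b : ℝ) ^ 2 * Y ↔ X0 ≤ b := by
    intro b
    rw [hX0, div_le_iff₀ hsY]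
    have e : (b : ℝ) ^ 2 * Y = ((b : ℝ) * Real.sqrt Y) ^ 2 := by
      rw [mul_pow, Real.sq_sqrt hY0.le]
    rw [e]
    exact pow_le_pow_iff_left₀ ha0.le (by positivity) (by norm_num)
  have c1 : ∀ b : ℕ, (a : ℝ) ^ 3 * (b : ℝ) ^ 2 ≤ Y ^ 2 ↔ (b : ℝ) ≤ X1 := by
    intro b
    rw [hX1, le_div_iff₀ (mul_pos ha0 hsa)]
    have e : (a : ℝ) ^ 3 * (b : ℝ) ^ 2 = ((b : ℝ) * (a * Real.sqrt a)) ^ 2 := by
      rw [mul_pow, mul_pow, Real.sq_sqrt ha0.le]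
      ring
    rw [e]
    exact pow_le_pow_iff_left₀ (by positivity) hY0.le (by norm_num)
  -- the sets
  obtain ⟨S0, hS0⟩ : ∃ S0 : Finset ℕ, S0 = (Finset.Icc 1 ⌊X0⌋₊).filter (fun b => b.Coprime a) :=
    ⟨_, rfl⟩
  obtain ⟨S1, hS1⟩ : ∃ S1 : Finset ℕ, S1 = (Finset.Icc 1 ⌊X1⌋₊).filter (fun b => b.Coprime a) :=
    ⟨_, rfl⟩
  have m0 : ∀ b : ℕ, b ∈ S0 ↔ 1 ≤ b ∧ (b : ℝ) ≤ X0 ∧ b.Coprime a := by
    intro b
    rw [hS0, Finset.mem_filter, Finset.mem_Icc, Nat.le_floor_iff hX0p.le, and_assoc]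
  have m1 : ∀ b : ℕ, b ∈ S1 ↔ 1 ≤ b ∧ (b : ℝ) ≤ X1 ∧ b.Coprime a := by
    intro b
    rw [hS1, Finset.mem_filter, Finset.mem_Icc, Nat.le_floor_iff hX1p.le, and_assoc]
  have mB : ∀ b : ℕ, b ∈ BB a Y ↔ 1 ≤ b ∧ X0 ≤ b ∧ (b : ℝ) ≤ X1 ∧ b.Coprime a := by
    intro b
    rw [mem_BB, c0, c1, Nat.le_floor_iff hY0.le]
    constructor
    · rintro ⟨⟨h5, _⟩, h7, h8, h9⟩
      exact ⟨h5, h8, h9, h7.symm⟩
    · rintro ⟨h5, h8, h9, h7⟩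
      exact ⟨⟨h5, h9.trans hX1Y⟩, h7.symm, h8, h9⟩
  have hunion : S0 ∪ BB a Y = S1 := by
    ext b
    rw [Finset.mem_union, m0, m1, mB]
    constructor
    · rintro (⟨h5, h6, h7⟩ | ⟨h5, h6, h7, h8⟩)
      · exact ⟨h5, h6.trans hX, h7⟩
      · exact ⟨h5, h7, h8⟩
    · rintro ⟨h5, h6, h7⟩
      rcases le_total (b : ℝ) X0 with h | h
      · exact Or.inl ⟨h5, h, h7⟩
      · exact Or.inr ⟨h5, h, h6, h7⟩
  have hcard : (S0 ∩ BB a Y).card ≤ 1 := by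
    rw [Finset.card_le_one]
    intro x hx y hy
    rw [Finset.mem_inter, m0, mB] at hx hy
    have e1 : (x : ℝ) = X0 := le_antisymm hx.1.2.1 hx.2.2.1
    have e2 : (y : ℝ) = X0 := le_antisymm hy.1.2.1 hy.2.2.1
    exact_mod_cast e1.trans e2.symm
  obtain ⟨f, hf⟩ : ∃ f : ℕ → ℝ, f = fun b : ℕ => (1 / (b : ℝ)) * (L - l / 2 - Real.log b) ^ j :=
    ⟨_, rfl⟩
  have hsum : ∑ b ∈ BB a Y, f b = ∑ b ∈ S1, f b - ∑ b ∈ S0, f b + ∑ b ∈ S0 ∩ BB a Y, f b := by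
    have h5 := Finset.sum_union_inter (s₁ := S0) (s₂ := BB a Y) (f := f)
    rw [hunion] at h5
    linarith
  have hM1 : (1 : ℝ) ≤ 1 + L := by linarith
  have hE : |L - l / 2| ≤ 1 + L := by
    rw [abs_le]
    constructor <;> linarith
  have hE1 : |L - l / 2 - Real.log X1| ≤ 1 + L := by
    rw [hlX1, abs_le]
    constructor <;> linarith
  have hE0 : |L - l / 2 - Real.log X0| ≤ 1 + L := by
    rw [hlX0, abs_le]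
    constructor <;> linarith
  have b1 := hb a X1 (L - l / 2) (1 + L) ha1 hX11 hM1 hE hE1
  have b0 := hb a X0 (L - l / 2) (1 + L) ha1 hX01 hM1 hE hE0
  rw [← hS1] at b1
  rw [← hS0] at b0
  have b2 : |∑ b ∈ S0 ∩ BB a Y, f b| ≤ (1 + L) ^ j := by
    have h5 : ∀ b ∈ S0 ∩ BB a Y, |f b| ≤ (1 + L) ^ j := by
      intro b hb'
      rw [Finset.mem_inter, m0, mB] at hb'
      have e1 : (b : ℝ) = X0 := le_antisymm hb'.1.2.1 hb'.2.2.1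
      have hb1 : (1 : ℝ) ≤ b := by exact_mod_cast hb'.1.1
      rw [hf]
      simp only
      rw [abs_mul, abs_pow, e1]
      have h6 : |1 / X0| ≤ 1 := by
        rw [abs_of_pos (by positivity), div_le_one hX0p]
        exact hX01
      calc |1 / X0| * |L - l / 2 - Real.log X0| ^ j ≤ 1 * (1 + L) ^ j := by
            gcongr
        _ = (1 + L) ^ j := one_mul _
    calc |∑ b ∈ S0 ∩ BB a Y, f b| ≤ ∑ b ∈ S0 ∩ BB a Y, |f b| := Finset.abs_sum_le_sum_abs _ _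
      _ ≤ (S0 ∩ BB a Y).card • (1 + L) ^ j := Finset.sum_le_card_nsmul _ _ _ h5
      _ ≤ 1 • (1 + L) ^ j := by
          refine nsmul_le_nsmul_left (by positivity) hcard
      _ = (1 + L) ^ j := one_smul _ _
  have hEa := one_le_Ea ha1
  have e1 : L - l / 2 - Real.log X1 = l := by rw [hlX1]; ring
  have e0 : L - l / 2 - Real.log X0 = 3 / 2 * (L - l) := by rw [hlX0]; ring
  rw [e1] at b1
  rw [e0] at b0
  have hgoal : ∑ b ∈ BB a Y, (1 / (b : ℝ)) * (Real.log Y - Real.log a / 2 - Real.log b) ^ j -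
      (a.totient : ℝ) / a * (((3 / 2 * (Real.log Y - Real.log a)) ^ (j + 1) -
        Real.log a ^ (j + 1)) / (j + 1)) =
      (∑ b ∈ S1, f b - (a.totient : ℝ) / a * (((L - l / 2) ^ (j + 1) - l ^ (j + 1)) / (j + 1))) -
      (∑ b ∈ S0, f b - (a.totient : ℝ) / a *
        (((L - l / 2) ^ (j + 1) - (3 / 2 * (L - l)) ^ (j + 1)) / (j + 1))) +
      ∑ b ∈ S0 ∩ BB a Y, f b := by
    have h5 : ∑ b ∈ BB a Y, (1 / (b : ℝ)) * (Real.log Y - Real.log a / 2 - Real.log b) ^ j =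
        ∑ b ∈ BB a Y, f b := by
      rw [hf, hL, hl]
    rw [h5, hsum, ← hL, ← hl]
    ring
  rw [hgoal, ← hL]
  have b1' : |∑ b ∈ S1, f b - (a.totient : ℝ) / a *
      (((L - l / 2) ^ (j + 1) - l ^ (j + 1)) / (j + 1))| ≤ C * Ea a * (1 + L) ^ j := by
    rw [hf]; exact b1
  have b0' : |∑ b ∈ S0, f b - (a.totient : ℝ) / a *
      (((L - l / 2) ^ (j + 1) - (3 / 2 * (L - l)) ^ (j + 1)) / (j + 1))| ≤
      C * Ea a * (1 + L) ^ j := by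
    rw [hf]; exact b0
  have hp : (0 : ℝ) ≤ (1 + L) ^ j := by positivity
  calc _ ≤ |(∑ b ∈ S1, f b - (a.totient : ℝ) / a *
        (((L - l / 2) ^ (j + 1) - l ^ (j + 1)) / (j + 1))) -
      (∑ b ∈ S0, f b - (a.totient : ℝ) / a *
        (((L - l / 2) ^ (j + 1) - (3 / 2 * (L - l)) ^ (j + 1)) / (j + 1)))| +
      |∑ b ∈ S0 ∩ BB a Y, f b| := abs_add_le _ _
    _ ≤ (C * Ea a * (1 + L) ^ j + C * Ea a * (1 + L) ^ j) + (1 + L) ^ j :=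
        add_le_add ((abs_sub _ _).trans (add_le_add b1' b0')) b2
    _ ≤ (2 * C + 1) * Ea a * (1 + L) ^ j := by
        nlinarith [mul_le_mul_of_nonneg_right hEa hp]

/-- the sum over `a` of the error terms -/
theorem sum_err : ∃ C : ℝ, 0 < C ∧ ∀ (M : ℕ) (Y : ℝ), 1 ≤ Y →
    ∑ a ∈ AN M Y, hh a ^ 2 / a * Ea a ≤ C * (1 + Real.log Y) ^ 4 := by
  obtain ⟨C, hC, h⟩ := Pool.Agent.P07318m.e_sum
  refine ⟨C, hC, fun M Y hY => le_trans ?_ (h Y hY)⟩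
  have hsub : AN M Y ⊆ Finset.Icc 1 ⌊Y⌋₊ := by
    intro a ha
    rw [Finset.mem_Icc]
    exact (mem_AN.1 ha).1
  have hnn : ∀ a ∈ Finset.Icc 1 ⌊Y⌋₊, 0 ≤ hh a ^ 2 / (a : ℝ) * (1 + Ea a + dl a) := by
    intro a ha
    have h1 := one_le_Ea (Finset.mem_Icc.1 ha).1
    have h2 := Pool.Agent.P07318m.dl_nonneg a
    positivity
  refine (Finset.sum_le_sum fun a ha => ?_).trans
    (Finset.sum_le_sum_of_subset_of_nonneg hsub fun a ha _ => hnn a ha)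
  have h2 := Pool.Agent.P07318m.dl_nonneg a
  refine mul_le_mul_of_nonneg_left ?_ (by positivity)
  linarith

/-- summation over `a` -/
theorem assemble {K C : ℝ} (hK : 0 < K) (_hC : 0 < C) {M : ℕ} {Y : ℝ} (hY : 1 ≤ Y)
    (hsum : ∑ a ∈ AN M Y, hh a ^ 2 / a * Ea a ≤ C * (1 + Real.log Y) ^ 4)
    (u v : ℕ → ℝ) (huv : ∀ a ∈ AN M Y, |u a - v a| ≤
      hh a ^ 2 / a * (K * Ea a * (1 + Real.log Y) ^ 4)) :
    |∑ a ∈ AN M Y, u a - ∑ a ∈ AN M Y, v a| ≤ K * C * (1 + Real.log Y) ^ 8 := by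
  have hL0 : 0 ≤ Real.log Y := Real.log_nonneg hY
  rw [← Finset.sum_sub_distrib]
  calc |∑ a ∈ AN M Y, (u a - v a)| ≤ ∑ a ∈ AN M Y, |u a - v a| := Finset.abs_sum_le_sum_abs _ _
    _ ≤ ∑ a ∈ AN M Y, hh a ^ 2 / a * (K * Ea a * (1 + Real.log Y) ^ 4) := Finset.sum_le_sum huv
    _ = (K * (1 + Real.log Y) ^ 4) * ∑ a ∈ AN M Y, hh a ^ 2 / a * Ea a := by
        rw [Finset.mul_sum]
        exact Finset.sum_congr rfl fun a _ => by ring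
    _ ≤ (K * (1 + Real.log Y) ^ 4) * (C * (1 + Real.log Y) ^ 4) :=
        mul_le_mul_of_nonneg_left hsum (by positivity)
    _ = K * C * (1 + Real.log Y) ^ 8 := by ring

end NewBAux

open NewBAux
open Pool.Agent.P07318m (Ea)

theorem new_b2 : ∃ C : ℝ, 0 < C ∧ ∀ (M : ℕ) (Y : ℝ), 1 ≤ Y →
    |Sn2 M Y - ∑ a ∈ AN M Y, ga2 a * B2 (Real.log Y) (Real.log a)| ≤ C * (1 + Real.log Y) ^ 8 := by
  obtain ⟨K0, hK0, r0⟩ := range 0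
  obtain ⟨K2, hK2, r2⟩ := range 2
  obtain ⟨K4, hK4, r4⟩ := range 4
  obtain ⟨C, hC, hsum⟩ := sum_err
  refine ⟨(K4 + K2 + K0) * C, by positivity, fun M Y hY => ?_⟩
  unfold Sn2
  rw [sum_RN M hY]
  refine assemble (K := K4 + K2 + K0) (by positivity) hC hY (hsum M Y hY) _ _ fun a ha => ?_
  have q0 := r0 M Y hY a ha
  have q2 := r2 M Y hY a ha
  have q4 := r4 M Y hY a ha
  obtain ⟨hl0, hl1, hl2⟩ := logs hY ha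
  obtain ⟨⟨ha1, -⟩, -, -, -⟩ := mem_AN.1 ha
  have ha0 : (0 : ℝ) < a := by exact_mod_cast ha1
  have hY0 : (0 : ℝ) < Y := by linarith
  have hEa := one_le_Ea ha1
  have hL0 : 0 ≤ Real.log Y := Real.log_nonneg hY
  obtain ⟨R0, hR0⟩ : ∃ R, R = ∑ b ∈ BB a Y, (1 / (b : ℝ)) *
      (Real.log Y - Real.log a / 2 - Real.log b) ^ 0 := ⟨_, rfl⟩
  obtain ⟨R2, hR2⟩ : ∃ R, R = ∑ b ∈ BB a Y, (1 / (b : ℝ)) *
      (Real.log Y - Real.log a / 2 - Real.log b) ^ 2 := ⟨_, rfl⟩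
  obtain ⟨R4, hR4⟩ : ∃ R, R = ∑ b ∈ BB a Y, (1 / (b : ℝ)) *
      (Real.log Y - Real.log a / 2 - Real.log b) ^ 4 := ⟨_, rfl⟩
  have hS : ∑ b ∈ BB a Y, hh (a, b).1 ^ 2 / (((a, b).1 : ℝ) * ((a, b).2 : ℝ)) *
      Qn Y (a, b).1 (a, b).2 ^ 2 =
      hh a ^ 2 / a * ((R4 - 3 / 10 * Real.log a ^ 2 * R2 + 9 / 400 * Real.log a ^ 4 * R0) / 4) := by
    rw [hR0, hR2, hR4, Finset.mul_sum, Finset.mul_sum, ← Finset.sum_sub_distrib,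
      ← Finset.sum_add_distrib, Finset.sum_div, Finset.mul_sum]
    refine Finset.sum_congr rfl fun b hb => ?_
    obtain ⟨⟨hb1, -⟩, -, -, -⟩ := mem_BB.1 hb
    have hb0 : (0 : ℝ) < b := by exact_mod_cast hb1
    unfold Qn
    simp only
    rw [Real.log_div hY0.ne' hb0.ne']
    field_simp
    ring
  rw [hS]
  rw [← hR0] at q0
  rw [← hR2] at q2
  rw [← hR4] at q4
  obtain ⟨L, hL⟩ : ∃ L, L = Real.log Y := ⟨_, rfl⟩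
  obtain ⟨l, hl⟩ : ∃ l, l = Real.log a := ⟨_, rfl⟩
  obtain ⟨φ, hφ⟩ : ∃ φ, φ = (a.totient : ℝ) / a := ⟨_, rfl⟩
  unfold ga2 B2
  rw [← hL, ← hl, ← hφ] at q0 q2 q4
  rw [← hL] at hl1 hl2 hL0
  rw [← hl] at hl0 hl1 hl2
  rw [← hL, ← hl]
  have hll : l ≤ 1 + L := by linarith
  have e : hh a ^ 2 / a * ((R4 - 3 / 10 * l ^ 2 * R2 + 9 / 400 * l ^ 4 * R0) / 4) -
      hh a ^ 2 * (a.totient : ℝ) / (a : ℝ) ^ 2 *
        ((((3 / 2 * (L - l)) ^ 5 - l ^ 5) / 5 - 1 / 10 * l ^ 2 * ((3 / 2 * (L - l)) ^ 3 - l ^ 3) +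
          9 / 400 * l ^ 4 * (3 / 2 * (L - l) - l)) / 4) =
      hh a ^ 2 / a * (((R4 - φ * (((3 / 2 * (L - l)) ^ (4 + 1) - l ^ (4 + 1)) / ((4 : ℕ) + 1))) -
        3 / 10 * l ^ 2 * (R2 - φ * (((3 / 2 * (L - l)) ^ (2 + 1) - l ^ (2 + 1)) / ((2 : ℕ) + 1))) +
        9 / 400 * l ^ 4 * (R0 - φ * (((3 / 2 * (L - l)) ^ (0 + 1) - l ^ (0 + 1)) / ((0 : ℕ) + 1))))
        / 4) := by
    rw [hφ]
    push_cast
    field_simp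
    ring
  rw [e, abs_mul, abs_of_nonneg (show 0 ≤ hh a ^ 2 / (a : ℝ) by positivity)]
  refine mul_le_mul_of_nonneg_left ?_ (by positivity)
  obtain ⟨e4, he4⟩ : ∃ e4, e4 = R4 - φ * (((3 / 2 * (L - l)) ^ (4 + 1) - l ^ (4 + 1)) /
    ((4 : ℕ) + 1)) := ⟨_, rfl⟩
  obtain ⟨e2, he2⟩ : ∃ e2, e2 = R2 - φ * (((3 / 2 * (L - l)) ^ (2 + 1) - l ^ (2 + 1)) /
    ((2 : ℕ) + 1)) := ⟨_, rfl⟩
  obtain ⟨e0, he0⟩ : ∃ e0, e0 = R0 - φ * (((3 / 2 * (L - l)) ^ (0 + 1) - l ^ (0 + 1)) /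
    ((0 : ℕ) + 1)) := ⟨_, rfl⟩
  rw [← he4] at q4 ⊢
  rw [← he2] at q2 ⊢
  rw [← he0] at q0 ⊢
  have hM0 : 0 ≤ 1 + L := by linarith
  have t2 : |3 / 10 * l ^ 2 * e2| ≤ K2 * Ea a * (1 + L) ^ 4 := by
    rw [abs_mul, abs_of_nonneg (show 0 ≤ 3 / 10 * l ^ 2 by positivity)]
    calc 3 / 10 * l ^ 2 * |e2| ≤ 1 * (1 + L) ^ 2 * (K2 * Ea a * (1 + L) ^ 2) := by
          gcongr
          norm_num
      _ = K2 * Ea a * (1 + L) ^ 4 := by ring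
  have t0 : |9 / 400 * l ^ 4 * e0| ≤ K0 * Ea a * (1 + L) ^ 4 := by
    rw [abs_mul, abs_of_nonneg (show 0 ≤ 9 / 400 * l ^ 4 by positivity)]
    calc 9 / 400 * l ^ 4 * |e0| ≤ 1 * (1 + L) ^ 4 * (K0 * Ea a * (1 + L) ^ 0) := by
          gcongr
          norm_num
      _ = K0 * Ea a * (1 + L) ^ 4 := by ring
  have t : |e4 - 3 / 10 * l ^ 2 * e2 + 9 / 400 * l ^ 4 * e0| ≤
      K4 * Ea a * (1 + L) ^ 4 + K2 * Ea a * (1 + L) ^ 4 + K0 * Ea a * (1 + L) ^ 4 :=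
    (abs_add_le _ _).trans (add_le_add ((abs_sub _ _).trans (add_le_add q4 t2)) t0)
  rw [abs_div, abs_of_pos (show (0 : ℝ) < 4 by norm_num)]
  have hp : 0 ≤ |e4 - 3 / 10 * l ^ 2 * e2 + 9 / 400 * l ^ 4 * e0| := abs_nonneg _
  linarith [t]

theorem new_b1 : ∃ C : ℝ, 0 < C ∧ ∀ (M : ℕ) (Y : ℝ), 1 ≤ Y →
    |Sn1 M Y - ∑ a ∈ AN M Y, ga2 a * (B1 (Real.log Y) (Real.log a) - sg a * B0 (Real.log Y) (Real.log a))| ≤
      C * (1 + Real.log Y) ^ 8 := by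
  obtain ⟨K0, hK0, r0⟩ := range 0
  obtain ⟨K2, hK2, r2⟩ := range 2
  obtain ⟨K4, hK4, r4⟩ := range 4
  obtain ⟨C, hC, hsum⟩ := sum_err
  refine ⟨(K4 + 2 * K2 + K0) * C, by positivity, fun M Y hY => ?_⟩
  unfold Sn1
  rw [sum_RN M hY]
  refine assemble (K := K4 + 2 * K2 + K0) (by positivity) hC hY (hsum M Y hY) _ _ fun a ha => ?_
  have q0 := r0 M Y hY a ha
  have q2 := r2 M Y hY a ha
  have q4 := r4 M Y hY a ha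
  obtain ⟨hl0, hl1, hl2⟩ := logs hY ha
  obtain ⟨⟨ha1, -⟩, -, -, -⟩ := mem_AN.1 ha
  have ha0 : (0 : ℝ) < a := by exact_mod_cast ha1
  have hY0 : (0 : ℝ) < Y := by linarith
  have hEa := one_le_Ea ha1
  have hL0 : 0 ≤ Real.log Y := Real.log_nonneg hY
  have hsg0 := Pool.Agent.P07318m.sg_nonneg a
  have hsg1 := Pool.Agent.P07318m.sg_le a ha1
  obtain ⟨R0, hR0⟩ : ∃ R, R = ∑ b ∈ BB a Y, (1 / (b : ℝ)) *
      (Real.log Y - Real.log a / 2 - Real.log b) ^ 0 := ⟨_, rfl⟩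
  obtain ⟨R2, hR2⟩ : ∃ R, R = ∑ b ∈ BB a Y, (1 / (b : ℝ)) *
      (Real.log Y - Real.log a / 2 - Real.log b) ^ 2 := ⟨_, rfl⟩
  obtain ⟨R4, hR4⟩ : ∃ R, R = ∑ b ∈ BB a Y, (1 / (b : ℝ)) *
      (Real.log Y - Real.log a / 2 - Real.log b) ^ 4 := ⟨_, rfl⟩
  have hS : ∑ b ∈ BB a Y, hh (a, b).1 ^ 2 / (((a, b).1 : ℝ) * ((a, b).2 : ℝ)) *
      Qn Y (a, b).1 (a, b).2 * KY Y (a, b).1 (a, b).2 =
      hh a ^ 2 / a * ((R4 - 3 / 20 * Real.log a ^ 2 * R2) / 4 -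
        sg a * (3 / 16 * (R2 - 3 / 20 * Real.log a ^ 2 * R0))) := by
    rw [hR0, hR2, hR4, Finset.mul_sum, Finset.mul_sum, ← Finset.sum_sub_distrib,
      ← Finset.sum_sub_distrib, Finset.sum_div, Finset.mul_sum, Finset.mul_sum,
      ← Finset.sum_sub_distrib, Finset.mul_sum]
    refine Finset.sum_congr rfl fun b hb => ?_
    obtain ⟨⟨hb1, -⟩, -, -, -⟩ := mem_BB.1 hb
    have hb0 : (0 : ℝ) < b := by exact_mod_cast hb1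
    unfold Qn KY
    simp only
    rw [Real.log_div hY0.ne' hb0.ne']
    field_simp
    ring
  rw [hS]
  rw [← hR0] at q0
  rw [← hR2] at q2
  rw [← hR4] at q4
  obtain ⟨L, hL⟩ : ∃ L, L = Real.log Y := ⟨_, rfl⟩
  obtain ⟨l, hl⟩ : ∃ l, l = Real.log a := ⟨_, rfl⟩
  obtain ⟨φ, hφ⟩ : ∃ φ, φ = (a.totient : ℝ) / a := ⟨_, rfl⟩
  obtain ⟨g, hg⟩ : ∃ g, g = sg a := ⟨_, rfl⟩
  unfold ga2 B1 B0
  rw [← hL, ← hl, ← hφ] at q0 q2 q4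
  rw [← hL] at hl1 hl2 hL0
  rw [← hl] at hl0 hl1 hl2
  rw [← hg] at hsg0 hsg1
  rw [← hl] at hsg1
  rw [← hL, ← hl, ← hg]
  have hll : l ≤ 1 + L := by linarith
  have e : hh a ^ 2 / a * ((R4 - 3 / 20 * l ^ 2 * R2) / 4 -
        g * (3 / 16 * (R2 - 3 / 20 * l ^ 2 * R0))) -
      hh a ^ 2 * (a.totient : ℝ) / (a : ℝ) ^ 2 *
        ((((3 / 2 * (L - l)) ^ 5 - l ^ 5) / 5 - 1 / 20 * l ^ 2 * ((3 / 2 * (L - l)) ^ 3 - l ^ 3)) / 4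
          - g * (3 / 16 * (((3 / 2 * (L - l)) ^ 3 - l ^ 3) / 3 -
            3 / 20 * l ^ 2 * (3 / 2 * (L - l) - l)))) =
      hh a ^ 2 / a * (((R4 - φ * (((3 / 2 * (L - l)) ^ (4 + 1) - l ^ (4 + 1)) / ((4 : ℕ) + 1))) -
        3 / 20 * l ^ 2 * (R2 - φ * (((3 / 2 * (L - l)) ^ (2 + 1) - l ^ (2 + 1)) / ((2 : ℕ) + 1)))) / 4
        - g * (3 / 16 * ((R2 - φ * (((3 / 2 * (L - l)) ^ (2 + 1) - l ^ (2 + 1)) / ((2 : ℕ) + 1))) -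
        3 / 20 * l ^ 2 *
          (R0 - φ * (((3 / 2 * (L - l)) ^ (0 + 1) - l ^ (0 + 1)) / ((0 : ℕ) + 1)))))) := by
    rw [hφ]
    push_cast
    field_simp
    ring
  rw [e, abs_mul, abs_of_nonneg (show 0 ≤ hh a ^ 2 / (a : ℝ) by positivity)]
  refine mul_le_mul_of_nonneg_left ?_ (by positivity)
  obtain ⟨e4, he4⟩ : ∃ e4, e4 = R4 - φ * (((3 / 2 * (L - l)) ^ (4 + 1) - l ^ (4 + 1)) /
    ((4 : ℕ) + 1)) := ⟨_, rfl⟩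
  obtain ⟨e2, he2⟩ : ∃ e2, e2 = R2 - φ * (((3 / 2 * (L - l)) ^ (2 + 1) - l ^ (2 + 1)) /
    ((2 : ℕ) + 1)) := ⟨_, rfl⟩
  obtain ⟨e0, he0⟩ : ∃ e0, e0 = R0 - φ * (((3 / 2 * (L - l)) ^ (0 + 1) - l ^ (0 + 1)) /
    ((0 : ℕ) + 1)) := ⟨_, rfl⟩
  rw [← he4] at q4 ⊢
  rw [← he2] at q2 ⊢
  rw [← he0] at q0 ⊢
  have hM0 : 0 ≤ 1 + L := by linarith
  have hl2' : l ^ 2 ≤ (1 + L) ^ 2 := by gcongr
  have hg2 : g ≤ (1 + L) ^ 2 := hsg1.trans hl2'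
  have t2 : |3 / 20 * l ^ 2 * e2| ≤ K2 * Ea a * (1 + L) ^ 4 := by
    rw [abs_mul, abs_of_nonneg (show 0 ≤ 3 / 20 * l ^ 2 by positivity)]
    calc 3 / 20 * l ^ 2 * |e2| ≤ 1 * (1 + L) ^ 2 * (K2 * Ea a * (1 + L) ^ 2) := by
          gcongr
          norm_num
      _ = K2 * Ea a * (1 + L) ^ 4 := by ring
  have t3 : |g * e2| ≤ K2 * Ea a * (1 + L) ^ 4 := by
    rw [abs_mul, abs_of_nonneg hsg0]
    calc g * |e2| ≤ (1 + L) ^ 2 * (K2 * Ea a * (1 + L) ^ 2) := by gcongr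
      _ = K2 * Ea a * (1 + L) ^ 4 := by ring
  have t0 : |3 / 20 * g * l ^ 2 * e0| ≤ K0 * Ea a * (1 + L) ^ 4 := by
    rw [abs_mul, abs_of_nonneg (show 0 ≤ 3 / 20 * g * l ^ 2 by positivity)]
    calc 3 / 20 * g * l ^ 2 * |e0| ≤
        1 * (1 + L) ^ 2 * (1 + L) ^ 2 * (K0 * Ea a * (1 + L) ^ 0) := by
          gcongr
          norm_num
      _ = K0 * Ea a * (1 + L) ^ 4 := by ring
  have q4' := abs_le.1 q4
  have t2' := abs_le.1 t2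
  have t3' := abs_le.1 t3
  have t0' := abs_le.1 t0
  have hP4 : 0 ≤ K4 * Ea a * (1 + L) ^ 4 := by positivity
  have hP2 : 0 ≤ K2 * Ea a * (1 + L) ^ 4 := by positivity
  have hP0 : 0 ≤ K0 * Ea a * (1 + L) ^ 4 := by positivity
  have e5 : (e4 - 3 / 20 * l ^ 2 * e2) / 4 - g * (3 / 16 * (e2 - 3 / 20 * l ^ 2 * e0)) =
      e4 / 4 - (3 / 20 * l ^ 2 * e2) / 4 - 3 / 16 * (g * e2) + 3 / 16 * (3 / 20 * g * l ^ 2 * e0) := by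
    ring
  rw [e5, abs_le]
  have e6 : (K4 + 2 * K2 + K0) * Ea a * (1 + L) ^ 4 = K4 * Ea a * (1 + L) ^ 4 +
      2 * (K2 * Ea a * (1 + L) ^ 4) + K0 * Ea a * (1 + L) ^ 4 := by ring
  rw [e6]
  constructor <;> linarith [q4'.1, q4'.2, t2'.1, t2'.2, t3'.1, t3'.2, t0'.1, t0'.2]

end Pool.Agent.P07318w
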