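import Pool.Agent.Lib.P07318w.Defs

/-!
# The sums over the second region, after summation over `b`
-/

set_option autoImplicit false

namespace Pool.Agent.P07318w

open Pool.Agent.P07318m (hh sg)

/-- `∫ of (x²/2 - 3/40 ℓ²)²` over `ℓ ≤ x ≤ w`, `w = 3/2 (L - ℓ)`. -/
noncomputable def B2 (L l : ℝ) : ℝ :=
  (((3 / 2 * (L - l)) ^ 5 - l ^ 5) / 5 - 1 / 10 * l ^ 2 * ((3 / 2 * (L - l)) ^ 3 - l ^ 3) +
    9 / 400 * l ^ 4 * (3 / 2 * (L - l) - l)) / 4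

/-- The main part of the numerator. -/
noncomputable def B1 (L l : ℝ) : ℝ :=
  (((3 / 2 * (L - l)) ^ 5 - l ^ 5) / 5 - 1 / 20 * l ^ 2 * ((3 / 2 * (L - l)) ^ 3 - l ^ 3)) / 4

/-- The coefficient of `sg` in the numerator (to be subtracted). -/
noncomputable def B0 (L l : ℝ) : ℝ :=
  3 / 16 * (((3 / 2 * (L - l)) ^ 3 - l ^ 3) / 3 - 3 / 20 * l ^ 2 * (3 / 2 * (L - l) - l))

/-- `hh(a)^2 φ(a) / a^2`. -/
noncomputable def ga2 (a : ℕ) : ℝ := hh a ^ 2 * (a.totient : ℝ) / (a : ℝ) ^ 2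

open Classical in
/-- The moduli of the second region. -/
noncomputable def AN (M : ℕ) (Y : ℝ) : Finset ℕ :=
  (Finset.Icc 1 ⌊Y⌋₊).filter (fun a => Y < (a : ℝ) ^ 2 ∧ (a : ℝ) ^ 5 ≤ Y ^ 3 ∧ Sfl M a)

open Classical in
/-- The same without the arithmetic condition. -/
noncomputable def AF (Y : ℝ) : Finset ℕ :=
  (Finset.Icc 1 ⌊Y⌋₊).filter (fun a => Y < (a : ℝ) ^ 2 ∧ (a : ℝ) ^ 5 ≤ Y ^ 3)

end Pool.Agent.P07318w
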