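import Pool.Agent.Lib.P07318w.MpMem

/-!
# P07318w.Newton: the logarithmic derivative of the Euler product

`mem_mp`, `lam_mul` of `MpMem` are black boxes.

PROOF of `newton`: for `h ∈ mp p d` write `d = deg h = ∑_{P | h irreducible monic} (deg P) v_P(h) = ∑_P (deg P) #{j ≥ 1 : P^j | h}` (`h` is the product of the `normalizedFactors`:
`UniqueFactorizationMonoid`, `Polynomial.Monic`; `multiplicity`/`emultiplicity`; e.g. `(normalizedFactors h).prod = h` for monic `h` and `natDegree_multiset_prod`, the number of occurrences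
of `P` being the number of `j ≥ 1` with `P^j ∣ h`, `le_emultiplicity_iff_replicate_le_normalizedFactors`). So
`d Ls d = ∑_{h ∈ mp d} Lam h ∑_{P, j ≥ 1, P^j | h} deg P = ∑_{n ≥ 1} ∑_{P ∈ mp n irreducible} ∑_{j ≥ 1, n j ≤ d} n ∑_{h' ∈ mp (d - n j)} Lam (P^j h')`
(`h = P^j h'`, a bijection between the `h ∈ mp d` divisible by `P^j` and `mp (d - n j)`; the polynomial `h'` is monic with nonzero constant term, `P(0) ≠ 0` because `P | h`, and conversely)
`= ∑_n ∑_P ∑_j n Lam(P)^j Ls (d - n j) = ∑_{r=1}^d (∑_{n | r} ∑_P n Lam(P)^(r/n)) Ls (d - r)` with `r = n j`.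
-/

set_option autoImplicit false

open Polynomial

namespace Pool.Agent.P07318w

namespace NewtonAux

variable {p : ℕ} [Fact p.Prime]

theorem pow_coeff_zero {P : (ZMod p)[X]} (h0 : P.coeff 0 ≠ 0) (j : ℕ) : (P ^ j).coeff 0 ≠ 0 := by
  rw [coeff_zero_eq_eval_zero, eval_pow, ← coeff_zero_eq_eval_zero]
  exact pow_ne_zero _ h0

theorem lam_pow (u v : ZMod p) {P : (ZMod p)[X]} (hP : P.Monic) (h0 : P.coeff 0 ≠ 0) (j : ℕ) :
    Lam u v (P ^ j) = Lam u v P ^ j := by
  induction j with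
  | zero => rw [pow_zero, pow_zero, lam_one]
  | succ j ih =>
    rw [pow_succ, lam_mul u v (hP.pow j) hP (pow_coeff_zero h0 j) h0, ih, pow_succ]

open Classical in
theorem sum_mult (u v : ZMod p) {n j d : ℕ} {P : (ZMod p)[X]} (hP : P ∈ mp p n)
    (hj : n * j ≤ d) :
    ∑ h ∈ (mp p d).filter (fun h => P ^ j ∣ h), Lam u v h =
      Lam u v P ^ j * Ls p u v (d - n * j) := by
  obtain ⟨hm, hn, h0⟩ := mem_mp.mp hP
  unfold Ls
  rw [Finset.mul_sum]
  symm
  apply Finset.sum_bij (fun h' _ => P ^ j * h')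
  · intro h' hh
    obtain ⟨hm', hn', h0'⟩ := mem_mp.mp hh
    rw [Finset.mem_filter, mem_mp]
    refine ⟨⟨(hm.pow j).mul hm', ?_, ?_⟩, Dvd.intro _ rfl⟩
    · rw [(hm.pow j).natDegree_mul hm', hm.natDegree_pow, hn, hn']
      rw [mul_comm j n]
      omega
    · rw [mul_coeff_zero]
      exact mul_ne_zero (pow_coeff_zero h0 j) h0'
  · intro a _ b _ hab
    exact mul_left_cancel₀ (hm.pow j).ne_zero hab
  · intro h hh
    rw [Finset.mem_filter, mem_mp] at hh
    obtain ⟨⟨hm', hn', h0'⟩, ⟨g, hg⟩⟩ := hh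
    rw [hg] at hm' hn' h0'
    have hgm : g.Monic := (hm.pow j).of_mul_monic_left hm'
    refine ⟨g, ?_, hg.symm⟩
    rw [mem_mp]
    refine ⟨hgm, ?_, ?_⟩
    · rw [(hm.pow j).natDegree_mul hgm, hm.natDegree_pow, hn, mul_comm j n] at hn'
      omega
    · rw [mul_coeff_zero] at h0'
      exact right_ne_zero_of_mul h0'
  · intro h' hh
    obtain ⟨hm', hn', h0'⟩ := mem_mp.mp hh
    rw [lam_mul u v (hm.pow j) hm' (pow_coeff_zero h0 j) h0', lam_pow u v hm h0]

open Classical in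
theorem filter_empty {n j d : ℕ} {P : (ZMod p)[X]} (hP : P ∈ mp p n) (hj : d < n * j) :
    (mp p d).filter (fun h => P ^ j ∣ h) = ∅ := by
  obtain ⟨hm, hn, h0⟩ := mem_mp.mp hP
  rw [Finset.filter_eq_empty_iff]
  intro h hh hdvd
  obtain ⟨hm', hn', h0'⟩ := mem_mp.mp hh
  have h1 := natDegree_le_of_dvd hdvd hm'.ne_zero
  rw [hm.natDegree_pow, hn, hn', mul_comm j n] at h1
  omega

open Classical in
theorem count_eq {h P : (ZMod p)[X]} (hh : h ≠ 0) (hP : Irreducible P) (hPm : P.Monic) {d : ℕ}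
    (hd : h.natDegree = d) :
    ((Finset.Icc 1 d).filter (fun j => P ^ j ∣ h)).card =
      (UniqueFactorizationMonoid.normalizedFactors h).count P := by
  have h1 := UniqueFactorizationMonoid.emultiplicity_eq_count_normalizedFactors hP hh
  rw [hPm.normalize_eq_self] at h1
  obtain ⟨c, hc⟩ : ∃ c : ℕ, c = (UniqueFactorizationMonoid.normalizedFactors h).count P := ⟨_, rfl⟩
  rw [← hc] at h1 ⊢
  have h2 : ∀ j : ℕ, P ^ j ∣ h ↔ j ≤ c := by
    intro j
    rw [pow_dvd_iff_le_emultiplicity, h1]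
    exact Nat.cast_le
  have hP1 : 1 ≤ P.natDegree := by
    have := hP.natDegree_pos
    exact this
  have h3 : c ≤ d := by
    have h4 := natDegree_le_of_dvd ((h2 c).mpr le_rfl) hh
    rw [hPm.natDegree_pow, hd] at h4
    nlinarith
  have h5 : (Finset.Icc 1 d).filter (fun j => P ^ j ∣ h) = Finset.Icc 1 c := by
    ext j
    rw [Finset.mem_filter, Finset.mem_Icc, Finset.mem_Icc, h2]
    omega
  rw [h5, Nat.card_Icc, Nat.add_sub_cancel]

open Classical in
theorem deg_eq {d : ℕ} {h : (ZMod p)[X]} (hh : h ∈ mp p d) :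
    d = ∑ n ∈ Finset.Icc 1 d, ∑ P ∈ (mp p n).filter (fun P => Irreducible P),
      n * ((Finset.Icc 1 d).filter (fun j => P ^ j ∣ h)).card := by
  obtain ⟨hm, hn, h0⟩ := mem_mp.mp hh
  obtain ⟨M, hM⟩ : ∃ M : Multiset (ZMod p)[X],
    M = UniqueFactorizationMonoid.normalizedFactors h := ⟨_, rfl⟩
  have hirr : ∀ P ∈ M, Irreducible P := fun P hP =>
    UniqueFactorizationMonoid.irreducible_of_normalized_factor P (hM ▸ hP)
  have hmon : ∀ P ∈ M, P.Monic := by
    intro P hP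
    have h1 := UniqueFactorizationMonoid.normalize_normalized_factor P (hM ▸ hP)
    rw [← h1]
    exact Polynomial.monic_normalize (hirr P hP).ne_zero
  have hdvd : ∀ P ∈ M, P ∣ h := fun P hP =>
    UniqueFactorizationMonoid.dvd_of_mem_normalizedFactors (hM ▸ hP)
  have hprod : M.prod = h := by
    have h1 := UniqueFactorizationMonoid.prod_normalizedFactors hm.ne_zero
    rw [← hM] at h1
    exact Polynomial.eq_of_monic_of_associated (monic_multiset_prod_of_monic M id (by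
      intro P hP
      exact hmon P hP) |> fun h2 => by simpa using h2) hm h1
  have hdeg : d = ∑ P ∈ M.toFinset, M.count P * P.natDegree := by
    rw [← hn]
    conv_lhs => rw [← hprod]
    rw [natDegree_multiset_prod_of_monic M hmon, Finset.sum_multiset_map_count]
    simp only [smul_eq_mul]
  have hmaps : ∀ P ∈ M.toFinset, P.natDegree ∈ Finset.Icc 1 d := by
    intro P hP
    rw [Multiset.mem_toFinset] at hP
    rw [Finset.mem_Icc]
    refine ⟨(hirr P hP).natDegree_pos, ?_⟩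
    rw [← hn]
    exact natDegree_le_of_dvd (hdvd P hP) hm.ne_zero
  rw [← Finset.sum_fiberwise_of_maps_to hmaps] at hdeg
  conv_lhs => rw [hdeg]
  refine Finset.sum_congr rfl fun n hn1 => ?_
  apply Finset.sum_subset_zero_on_sdiff
  · intro P hP
    rw [Finset.mem_filter, Multiset.mem_toFinset] at hP
    obtain ⟨hP1, hP2⟩ := hP
    rw [Finset.mem_filter, mem_mp]
    refine ⟨⟨hmon P hP1, hP2, ?_⟩, hirr P hP1⟩
    intro h3
    obtain ⟨g, hg⟩ := hdvd P hP1
    apply h0
    rw [hg, mul_coeff_zero, h3, zero_mul]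
  · intro P hP
    rw [Finset.mem_sdiff, Finset.mem_filter, Finset.mem_filter, mem_mp, Multiset.mem_toFinset] at hP
    obtain ⟨⟨⟨hP1, hP2, hP3⟩, hP4⟩, hP5⟩ := hP
    rw [count_eq hm.ne_zero hP4 hP1 hn, ← hM]
    have : P ∉ M := fun h6 => hP5 ⟨h6, hP2⟩
    rw [Multiset.count_eq_zero_of_notMem this, mul_zero]
  · intro P hP
    rw [Finset.mem_filter, Multiset.mem_toFinset] at hP
    obtain ⟨hP1, hP2⟩ := hP
    rw [count_eq hm.ne_zero (hirr P hP1) (hmon P hP1) hn, ← hM, hP2, mul_comm]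

theorem sum_div {d : ℕ} (G : ℕ → ℕ → ℂ) (hG : ∀ n j, d < n * j → G n j = 0) :
    ∑ r ∈ Finset.Icc 1 d, ∑ n ∈ r.divisors, G n (r / n) =
      ∑ n ∈ Finset.Icc 1 d, ∑ j ∈ Finset.Icc 1 d, G n j := by
  rw [← Finset.sum_product' (s := Finset.Icc 1 d) (t := Finset.Icc 1 d) (f := G)]
  have h1 : ∑ x ∈ Finset.Icc 1 d ×ˢ Finset.Icc 1 d, G x.1 x.2 =
      ∑ x ∈ (Finset.Icc 1 d ×ˢ Finset.Icc 1 d).filter (fun x => x.1 * x.2 ≤ d), G x.1 x.2 := by
    symm
    apply Finset.sum_filter_of_ne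
    intro x _ hx
    by_contra hcon
    push Not at hcon
    exact hx (hG _ _ hcon)
  have hmaps : ∀ x ∈ (Finset.Icc 1 d ×ˢ Finset.Icc 1 d).filter (fun x : ℕ × ℕ => x.1 * x.2 ≤ d),
      x.1 * x.2 ∈ Finset.Icc 1 d := by
    intro x hx
    rw [Finset.mem_filter, Finset.mem_product, Finset.mem_Icc, Finset.mem_Icc] at hx
    rw [Finset.mem_Icc]
    exact ⟨Nat.mul_pos hx.1.1.1 hx.1.2.1, hx.2⟩
  rw [h1, ← Finset.sum_fiberwise_of_maps_to hmaps]
  refine Finset.sum_congr rfl fun r hr => ?_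
  rw [Finset.mem_Icc] at hr
  apply Finset.sum_bij (fun n _ => (n, r / n))
  · intro n hn
    rw [Nat.mem_divisors] at hn
    obtain ⟨⟨k, hk⟩, hr0⟩ := hn
    have hn0 : 0 < n := by
      rcases Nat.eq_zero_or_pos n with h2 | h2
      · rw [h2, zero_mul] at hk
        exact absurd hk hr0
      · exact h2
    have hk0 : 0 < k := by
      rcases Nat.eq_zero_or_pos k with h2 | h2
      · rw [h2, mul_zero] at hk
        exact absurd hk hr0
      · exact h2
    have hdiv : r / n = k := by rw [hk, Nat.mul_div_cancel_left _ hn0]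
    rw [hdiv, Finset.mem_filter, Finset.mem_filter, Finset.mem_product, Finset.mem_Icc,
      Finset.mem_Icc]
    have h3 : n ≤ r := by rw [hk]; exact Nat.le_mul_of_pos_right _ hk0
    have h4 : k ≤ r := by rw [hk]; exact Nat.le_mul_of_pos_left _ hn0
    refine ⟨⟨⟨⟨hn0, by omega⟩, ⟨hk0, by omega⟩⟩, ?_⟩, ?_⟩
    · show n * k ≤ d
      omega
    · show n * k = r
      omega
  · intro a _ b _ hab
    exact (Prod.mk.inj hab).1
  · intro x hx
    rw [Finset.mem_filter, Finset.mem_filter, Finset.mem_product, Finset.mem_Icc,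
      Finset.mem_Icc] at hx
    obtain ⟨⟨⟨⟨h2, h3⟩, h4, h5⟩, h6⟩, h7⟩ := hx
    refine ⟨x.1, ?_, ?_⟩
    · rw [Nat.mem_divisors]
      exact ⟨⟨x.2, h7.symm⟩, by omega⟩
    · show (x.1, r / x.1) = x
      rw [← h7, Nat.mul_div_cancel_left _ (by omega)]
  · intro n _
    rfl

end NewtonAux

open NewtonAux

theorem newton {p : ℕ} [Fact p.Prime] (u v : ZMod p) (d : ℕ) :
    (d : ℂ) * Ls p u v d = ∑ r ∈ Finset.Icc 1 d, Kr p u v r * Ls p u v (d - r) := by
  classical
  obtain ⟨G, hG⟩ : ∃ G : ℕ → ℕ → ℂ, G = fun n j =>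
    ∑ P ∈ (mp p n).filter (fun P => Irreducible P), (n : ℂ) *
      ∑ h ∈ (mp p d).filter (fun h => P ^ j ∣ h), Lam u v h := ⟨_, rfl⟩
  have hG0 : ∀ n j, d < n * j → G n j = 0 := by
    intro n j hj
    rw [hG]
    refine Finset.sum_eq_zero fun P hP => ?_
    rw [filter_empty (Finset.mem_filter.mp hP).1 hj, Finset.sum_empty, mul_zero]
  have hR : ∑ r ∈ Finset.Icc 1 d, Kr p u v r * Ls p u v (d - r) =
      ∑ r ∈ Finset.Icc 1 d, ∑ n ∈ r.divisors, G n (r / n) := by
    refine Finset.sum_congr rfl fun r hr => ?_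
    rw [Finset.mem_Icc] at hr
    unfold Kr
    rw [Finset.sum_mul]
    refine Finset.sum_congr rfl fun n hn => ?_
    rw [Nat.mem_divisors] at hn
    have h1 : n * (r / n) = r := Nat.mul_div_cancel' hn.1
    rw [hG, Finset.sum_mul]
    refine Finset.sum_congr rfl fun P hP => ?_
    rw [sum_mult u v (Finset.mem_filter.mp hP).1 (by omega), h1]
    ring
  rw [hR, sum_div G hG0]
  have hL : (d : ℂ) * Ls p u v d = ∑ h ∈ mp p d, ∑ n ∈ Finset.Icc 1 d,
      ∑ P ∈ (mp p n).filter (fun P => Irreducible P), ∑ j ∈ Finset.Icc 1 d,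
        if P ^ j ∣ h then (n : ℂ) * Lam u v h else 0 := by
    unfold Ls
    rw [Finset.mul_sum]
    refine Finset.sum_congr rfl fun h hh => ?_
    have h1 := deg_eq hh
    have h2 : (d : ℂ) = ∑ n ∈ Finset.Icc 1 d, ∑ P ∈ (mp p n).filter (fun P => Irreducible P),
        (n : ℂ) * (((Finset.Icc 1 d).filter (fun j => P ^ j ∣ h)).card : ℂ) := by
      exact_mod_cast h1
    conv_lhs => rw [h2]
    rw [Finset.sum_mul]
    refine Finset.sum_congr rfl fun n _ => ?_
    rw [Finset.sum_mul]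
    refine Finset.sum_congr rfl fun P _ => ?_
    rw [← Finset.sum_filter, Finset.sum_const, nsmul_eq_mul]
    ring
  rw [hL, Finset.sum_comm]
  refine Finset.sum_congr rfl fun n _ => ?_
  rw [hG]
  show _ = ∑ j ∈ Finset.Icc 1 d, ∑ P ∈ (mp p n).filter (fun P => Irreducible P), (n : ℂ) *
      ∑ h ∈ (mp p d).filter (fun h => P ^ j ∣ h), Lam u v h
  rw [Finset.sum_comm]
  conv_rhs => rw [Finset.sum_comm]
  refine Finset.sum_congr rfl fun P _ => ?_
  rw [Finset.sum_comm]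
  refine Finset.sum_congr rfl fun j _ => ?_
  rw [Finset.mul_sum, Finset.sum_filter]

end Pool.Agent.P07318w
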