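import Pool.Agent.Lib.P07318w.Defs
import Pool.Agent.Lib.P07318m.GaussChar

/-!
# P07318w.RhoAvg: the deviation `ff`

Black boxes of `P07318m.GaussChar`: `gauss_one` (Ramanujan sum for the trivial character at `1`: `gaussSum 1 stdAddChar = μ(q)`), `gauss_ee`, `gauss_mult`, `gauss_sum_range`.

PROOFS. `ff_eq`: `stdAddChar (-(b n)) = ee (-(n b / a))` (`ZMod.stdAddChar_coe`, or `gauss_ee` for the natural number `b n`). The average over the units `u` of `stdAddChar (-(u n))` is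
`c_a(n)/φ(a) = μ(a/g)/φ(a/g)`, `g = gcd(n, a)`: with `n = g n'`, `a = g q`, `stdAddChar_a (-(u g n')) = stdAddChar_q (-(u n'))`, the units of `ZMod a` map onto the units of `ZMod q`
with fibres of equal size (`ZMod.unitsMap`, `ZMod.unitsMap_surjective`, the map is a group homomorphism so the fibres have `φ(a)/φ(q)` elements), and `n'` is a unit mod `q`, so the average is
`(1/φ(q)) ∑_{u mod q} stdAddChar_q (u) = μ(q)/φ(q)` by `gauss_one`. (Alternatively by Möbius: `∑_{u unit} f(u) = ∑_{d | a} μ(d) ∑_{d | k} f(k)`, and `gauss_mult`.)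
`ff_sum`: `∑_r stdAddChar (-(u r s t)) = a` if `s t = 0` and `0` otherwise, for every unit `u` (`AddChar.sum_mulShift`, `ZMod.isPrimitive_stdAddChar`); apply this to `b` and to all the units `u`.
`ff_norm`: each of the two terms has norm at most one.
-/

set_option autoImplicit false

open Complex

namespace Pool.Agent.P07318w

open Pool.Agent.P07318m (ee rho)

namespace RhoAvgAux

theorem norm_std {a : ℕ} [NeZero a] (x : ZMod a) : ‖(ZMod.stdAddChar x : ℂ)‖ = 1 :=
  AddChar.norm_apply _ x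

theorem sum_std {a : ℕ} [NeZero a] {u : ZMod a} (hu : IsUnit u) (s t : ZMod a) :
    ∑ r : ZMod a, (ZMod.stdAddChar (-(u * (r * s * t))) : ℂ) = if s * t = 0 then (a : ℂ) else 0 := by
  classical
  have h := AddChar.sum_mulShift (-(u * (s * t))) (ZMod.isPrimitive_stdAddChar a)
  have h1 : ∑ r : ZMod a, (ZMod.stdAddChar (-(u * (r * s * t))) : ℂ) =
      ∑ r : ZMod a, ZMod.stdAddChar (r * -(u * (s * t))) := by
    refine Finset.sum_congr rfl fun r _ => ?_
    congr 1
    ring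
  rw [h1, h, ZMod.card]
  by_cases hst : s * t = 0
  · rw [if_pos hst, if_pos (by rw [hst]; ring)]
  · rw [if_neg hst, if_neg]
    · norm_num
    · intro h0
      rw [neg_eq_zero] at h0
      exact hst ((hu.mul_right_eq_zero).1 h0)

/-- the sum over the units is the Moebius function -/
theorem sum_units {q : ℕ} [NeZero q] :
    ∑ u : (ZMod q)ˣ, (ZMod.stdAddChar (u : ZMod q) : ℂ) = ((ArithmeticFunction.moebius q : ℤ) : ℂ) := by
  classical
  rw [← Pool.Agent.P07318m.gauss_one (q := q)]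
  unfold gaussSum
  refine Finset.sum_of_injOn (fun u : (ZMod q)ˣ => (u : ZMod q)) ?_ ?_ ?_ ?_
  · intro u _ v _ h
    exact Units.ext h
  · intro u _
    exact Finset.mem_coe.2 (Finset.mem_univ _)
  · intro x _ hx
    have hnu : ¬ IsUnit x := by
      rintro ⟨u, rfl⟩
      exact hx ⟨u, Finset.mem_coe.2 (Finset.mem_univ _), rfl⟩
    rw [MulChar.map_nonunit _ hnu, zero_mul]
  · intro u _
    rw [MulChar.one_apply_coe, one_mul]

theorem sum_units_mul {q : ℕ} [NeZero q] (w : (ZMod q)ˣ) :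
    ∑ u : (ZMod q)ˣ, (ZMod.stdAddChar (-((u : ZMod q) * (w : ZMod q))) : ℂ) =
      ((ArithmeticFunction.moebius q : ℤ) : ℂ) := by
  rw [← sum_units (q := q), ← Equiv.sum_comp (Equiv.mulRight (-w))
    (fun u : (ZMod q)ˣ => (ZMod.stdAddChar (u : ZMod q) : ℂ))]
  refine Finset.sum_congr rfl fun u _ => ?_
  congr 1
  rw [Equiv.coe_mulRight, Units.val_mul, Units.val_neg, mul_neg]

/-- sums of functions of the reduction of a unit -/
theorem sum_unitsMap {a q : ℕ} [NeZero a] [NeZero q] (h : q ∣ a) (G : (ZMod q)ˣ → ℂ) :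
    (q.totient : ℂ) * ∑ u : (ZMod a)ˣ, G (ZMod.unitsMap h u) =
      (a.totient : ℂ) * ∑ w : (ZMod q)ˣ, G w := by
  have h1 : ∀ w : (ZMod q)ˣ, ∑ u : (ZMod a)ˣ, G (ZMod.unitsMap h u * w) =
      ∑ u : (ZMod a)ˣ, G (ZMod.unitsMap h u) := by
    intro w
    obtain ⟨w', rfl⟩ := ZMod.unitsMap_surjective h w
    rw [← Equiv.sum_comp (Equiv.mulRight w') (fun u => G (ZMod.unitsMap h u))]
    refine Finset.sum_congr rfl fun u _ => ?_
    rw [Equiv.coe_mulRight, map_mul]
  have h2 : ∑ w : (ZMod q)ˣ, ∑ u : (ZMod a)ˣ, G (ZMod.unitsMap h u * w) =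
      (q.totient : ℂ) * ∑ u : (ZMod a)ˣ, G (ZMod.unitsMap h u) := by
    rw [Finset.sum_congr rfl fun w _ => h1 w, Finset.sum_const, Finset.card_univ,
      ZMod.card_units_eq_totient, nsmul_eq_mul]
  have h3 : ∑ w : (ZMod q)ˣ, ∑ u : (ZMod a)ˣ, G (ZMod.unitsMap h u * w) =
      (a.totient : ℂ) * ∑ w : (ZMod q)ˣ, G w := by
    rw [Finset.sum_comm]
    have h4 : ∀ u : (ZMod a)ˣ, ∑ w : (ZMod q)ˣ, G (ZMod.unitsMap h u * w) =
        ∑ w : (ZMod q)ˣ, G w := fun u =>
      Equiv.sum_comp (Equiv.mulLeft (ZMod.unitsMap h u)) G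
    rw [Finset.sum_congr rfl fun u _ => h4 u, Finset.sum_const, Finset.card_univ,
      ZMod.card_units_eq_totient, nsmul_eq_mul]
  rw [← h2, h3]

theorem std_red {a q g n' : ℕ} [NeZero a] [NeZero q] (haq : a = g * q) (hg : 0 < g) (x : ℕ) :
    (ZMod.stdAddChar (-((x : ZMod a) * ((g * n' : ℕ) : ZMod a))) : ℂ) =
      ZMod.stdAddChar (-((x : ZMod q) * (n' : ZMod q))) := by
  have h1 := Pool.Agent.P07318m.gauss_ee (q := a) (x * (g * n'))
  have h2 := Pool.Agent.P07318m.gauss_ee (q := q) (x * n')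
  rw [← Nat.cast_mul, h1, ← Nat.cast_mul, h2]
  congr 1
  have hg' : (g : ℝ) ≠ 0 := by exact_mod_cast hg.ne'
  have hq' : (q : ℝ) ≠ 0 := by exact_mod_cast NeZero.ne q
  rw [haq]
  push_cast
  field_simp

theorem avg_eq {a : ℕ} [NeZero a] (n : ℕ) :
    (1 / (a.totient : ℂ)) * ∑ u : (ZMod a)ˣ, (ZMod.stdAddChar (-((u : ZMod a) * (n : ZMod a))) : ℂ) =
      (rho a n : ℂ) := by
  have ha : 0 < a := Nat.pos_of_ne_zero (NeZero.ne a)
  have hg : 0 < n.gcd a := Nat.gcd_pos_of_pos_right n ha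
  set g := n.gcd a with hgdef
  set q := a / g with hqdef
  have haq : a = g * q := (Nat.mul_div_cancel' (Nat.gcd_dvd_right n a)).symm
  have hn : n = g * (n / g) := (Nat.mul_div_cancel' (Nat.gcd_dvd_left n a)).symm
  have hq : 0 < q := Nat.div_pos (Nat.le_of_dvd ha (Nat.gcd_dvd_right n a)) hg
  have : NeZero q := ⟨hq.ne'⟩
  have hcop : (n / g).Coprime q := Nat.coprime_div_gcd_div_gcd hg
  have hdvd : q ∣ a := ⟨g, by rw [mul_comm]; exact haq⟩
  set w : (ZMod q)ˣ := ZMod.unitOfCoprime (n / g) hcop with hw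
  have h1 : ∀ u : (ZMod a)ˣ, (ZMod.stdAddChar (-((u : ZMod a) * (n : ZMod a))) : ℂ) =
      ZMod.stdAddChar (-(((ZMod.unitsMap hdvd u : (ZMod q)ˣ) : ZMod q) * (w : ZMod q))) := by
    intro u
    have hu1 : (u : ZMod a) = (((u : ZMod a).val : ℕ) : ZMod a) := (ZMod.natCast_zmod_val _).symm
    have hu2 : ((ZMod.unitsMap hdvd u : (ZMod q)ˣ) : ZMod q) = (((u : ZMod a).val : ℕ) : ZMod q) := by
      rw [ZMod.unitsMap_def, Units.coe_map]
      change ZMod.castHom hdvd (ZMod q) (u : ZMod a) = _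
      conv_lhs => rw [hu1]
      rw [map_natCast]
    rw [hu2, hw, ZMod.coe_unitOfCoprime]
    have h := std_red (a := a) (q := q) (g := g) (n' := n / g) haq hg (u : ZMod a).val
    rw [← hn, ← hu1] at h
    exact h
  rw [Finset.sum_congr rfl fun u _ => h1 u]
  have h2 := sum_unitsMap hdvd
    (fun v => (ZMod.stdAddChar (-((v : ZMod q) * (w : ZMod q))) : ℂ))
  rw [sum_units_mul] at h2
  have hφa : (a.totient : ℂ) ≠ 0 := by exact_mod_cast (Nat.totient_pos.2 ha).ne'
  have hφq : (q.totient : ℂ) ≠ 0 := by exact_mod_cast (Nat.totient_pos.2 hq).ne'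
  have h3 : (rho a n : ℂ) = ((ArithmeticFunction.moebius q : ℤ) : ℂ) / (q.totient : ℂ) := by
    unfold rho
    push_cast
    rfl
  rw [h3, eq_div_iff hφq, one_div, mul_assoc, mul_comm _ (q.totient : ℂ), h2, ← mul_assoc,
    inv_mul_cancel₀ hφa, one_mul]

end RhoAvgAux

open RhoAvgAux

theorem ff_eq {a : ℕ} [NeZero a] (b n : ℕ) :
    ff a (b : ZMod a) (n : ZMod a) = ee (-((n : ℝ) * b / a)) - (rho a n : ℂ) := by
  unfold ff
  rw [avg_eq, ← Nat.cast_mul, Pool.Agent.P07318m.gauss_ee]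
  congr 2
  push_cast
  ring

theorem ff_sum {a : ℕ} [NeZero a] {b : ZMod a} (hb : IsUnit b) (s t : ZMod a) : ∑ r : ZMod a, ff a b (r * s * t) = 0 := by
  have ha : 0 < a := Nat.pos_of_ne_zero (NeZero.ne a)
  have hφa : (a.totient : ℂ) ≠ 0 := by exact_mod_cast (Nat.totient_pos.2 ha).ne'
  unfold ff
  rw [Finset.sum_sub_distrib, sum_std hb, ← Finset.mul_sum, Finset.sum_comm,
    Finset.sum_congr rfl fun u _ => sum_std (u.isUnit : IsUnit ((u : (ZMod a)ˣ) : ZMod a)) s t,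
    Finset.sum_const, Finset.card_univ, ZMod.card_units_eq_totient, nsmul_eq_mul, ← mul_assoc,
    one_div, inv_mul_cancel₀ hφa, one_mul, sub_self]

theorem ff_norm {a : ℕ} [NeZero a] (b n : ZMod a) : ‖ff a b n‖ ≤ 2 := by
  have ha : 0 < a := Nat.pos_of_ne_zero (NeZero.ne a)
  have hφa : (0 : ℝ) < (a.totient : ℝ) := by exact_mod_cast Nat.totient_pos.2 ha
  unfold ff
  refine (norm_sub_le _ _).trans ?_
  have h1 : ‖(1 / (a.totient : ℂ)) * ∑ u : (ZMod a)ˣ,
      (ZMod.stdAddChar (-((u : ZMod a) * n)) : ℂ)‖ ≤ 1 := by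
    rw [norm_mul, norm_div, norm_one, Complex.norm_natCast, one_div, inv_mul_le_iff₀ hφa, mul_one]
    refine (norm_sum_le _ _).trans ?_
    rw [Finset.sum_congr rfl fun u _ => norm_std _, Finset.sum_const, Finset.card_univ,
      ZMod.card_units_eq_totient, nsmul_eq_mul, mul_one]
  rw [norm_std]
  linarith

end Pool.Agent.P07318w
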