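import Pool.Agent.Lib.P07318w.Weil

/-!
# P07318w.TTPrime: the ternary sum modulo a prime
-/

set_option autoImplicit false

namespace Pool.Agent.P07318w

theorem norm_stdAddChar {p : ℕ} [NeZero p] (x : ZMod p) : ‖ZMod.stdAddChar x‖ = 1 := by
  exact AddChar.norm_apply _ _

theorem tt_reduce {p : ℕ} [Fact p.Prime] (b k l m : ZMod p) :
    TT p b k l m = p * ∑ s : ZMod p, ∑ t : ZMod p,
      if k = b * s * t then ZMod.stdAddChar (l * s + m * t) else 0 := by
  classical
  have h0 : ∀ r s t : ZMod p, (ZMod.stdAddChar (-(b * r * s * t) + k * r + l * s + m * t) : ℂ) =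
      ZMod.stdAddChar (l * s + m * t) * ZMod.stdAddChar (r * (k - b * s * t)) := by
    intro r s t
    rw [← AddChar.map_add_eq_mul]
    congr 1
    ring
  unfold TT
  simp only [h0]
  rw [Finset.sum_comm, Finset.mul_sum]
  apply Finset.sum_congr rfl
  intro s _
  rw [Finset.sum_comm, Finset.mul_sum]
  apply Finset.sum_congr rfl
  intro t _
  rw [← Finset.mul_sum, AddChar.sum_mulShift (k - b * s * t) (ZMod.isPrimitive_stdAddChar p)]
  by_cases h : k = b * s * t
  · rw [if_pos h, if_pos (by rw [h, sub_self]), ZMod.card]
    ring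
  · rw [if_neg h, if_neg (sub_ne_zero.mpr h)]
    simp

theorem tt_prime {p : ℕ} [Fact p.Prime] {b : ZMod p} (hb : b ≠ 0) (k l m : ZMod p) :
    ‖TT p b k l m‖ ≤ 2 * (p : ℝ) ^ (3 / 2 : ℝ) * (if k = 0 ∨ l = 0 ∨ m = 0 then Real.sqrt p else 1) := by
  classical
  have hp1 : (1 : ℝ) ≤ p := by exact_mod_cast (Fact.out : p.Prime).one_lt.le
  have hp0 : (0 : ℝ) < p := by linarith
  have hp32 : (p : ℝ) ^ (3 / 2 : ℝ) * Real.sqrt p = (p : ℝ) ^ 2 := by
    rw [Real.sqrt_eq_rpow, ← Real.rpow_add hp0]
    norm_num
  have hp32' : (p : ℝ) ^ (3 / 2 : ℝ) = p * Real.sqrt p := by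
    rw [Real.sqrt_eq_rpow]
    nth_rewrite 2 [← Real.rpow_one (p : ℝ)]
    rw [← Real.rpow_add hp0]
    norm_num
  rw [tt_reduce, norm_mul, Complex.norm_natCast]
  by_cases hk : k = 0
  · -- `k = 0`
    rw [if_pos (Or.inl hk), mul_assoc, hp32]
    have h1 : ‖∑ s : ZMod p, ∑ t : ZMod p,
        if k = b * s * t then (ZMod.stdAddChar (l * s + m * t) : ℂ) else 0‖ ≤ 2 * p := by
      calc ‖∑ s : ZMod p, ∑ t : ZMod p,
          if k = b * s * t then (ZMod.stdAddChar (l * s + m * t) : ℂ) else 0‖
          ≤ ∑ s : ZMod p, ∑ t : ZMod p, ((if s = 0 then (1 : ℝ) else 0) +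
            (if t = 0 then (1 : ℝ) else 0)) := by
            refine (norm_sum_le _ _).trans (Finset.sum_le_sum fun s _ => ?_)
            refine (norm_sum_le _ _).trans (Finset.sum_le_sum fun t _ => ?_)
            by_cases h : k = b * s * t
            · rw [if_pos h, norm_stdAddChar]
              rw [hk] at h
              have h2 : s = 0 ∨ t = 0 := by
                rcases mul_eq_zero.mp h.symm with h3 | h3
                · rcases mul_eq_zero.mp h3 with h4 | h4
                  · exact absurd h4 hb
                  · exact Or.inl h4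
                · exact Or.inr h3
              rcases h2 with h3 | h3
              · rw [if_pos h3]
                have : (0 : ℝ) ≤ if t = 0 then 1 else 0 := by positivity
                linarith
              · rw [if_pos h3]
                have : (0 : ℝ) ≤ if s = 0 then 1 else 0 := by positivity
                linarith
            · rw [if_neg h, norm_zero]
              positivity
        _ = 2 * p := by
            simp only [Finset.sum_add_distrib, Finset.sum_const, Finset.card_univ, ZMod.card,
              Finset.sum_ite_eq', Finset.mem_univ, if_true, nsmul_eq_mul]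
            rw [← Finset.mul_sum, Finset.sum_ite_eq' Finset.univ (0 : ZMod p)]
            simp
            ring
    calc (p : ℝ) * _ ≤ p * (2 * p) := mul_le_mul_of_nonneg_left h1 hp0.le
      _ = 2 * (p : ℝ) ^ 2 := by ring
  · -- `k ≠ 0`
    have hsum : ∑ s : ZMod p, ∑ t : ZMod p,
        (if k = b * s * t then (ZMod.stdAddChar (l * s + m * t) : ℂ) else 0) =
        Kloo p l (m * k * b⁻¹) := by
      unfold Kloo
      have h1 : ∀ s : ZMod p, ∑ t : ZMod p,
          (if k = b * s * t then (ZMod.stdAddChar (l * s + m * t) : ℂ) else 0) =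
          if s = 0 then 0 else ZMod.stdAddChar (l * s + m * k * b⁻¹ * s⁻¹) := by
        intro s
        by_cases hs : s = 0
        · rw [if_pos hs]
          apply Finset.sum_eq_zero
          intro t _
          rw [if_neg]
          rw [hs]
          simpa using hk
        · rw [if_neg hs]
          rw [Finset.sum_eq_single (k * b⁻¹ * s⁻¹)]
          · rw [if_pos]
            · congr 1
              ring
            · field_simp
          · intro t _ ht
            rw [if_neg]
            intro h
            apply ht
            rw [h]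
            field_simp
          · intro h
            exact absurd (Finset.mem_univ _) h
      simp only [h1]
      rw [← Finset.sum_filter_add_sum_filter_not Finset.univ (fun s : ZMod p => s = 0)]
      have h2 : ∑ x : ZMod p with x = 0,
          (if x = 0 then (0 : ℂ) else ZMod.stdAddChar (l * x + m * k * b⁻¹ * x⁻¹)) = 0 := by
        apply Finset.sum_eq_zero
        intro x hx
        rw [Finset.mem_filter] at hx
        rw [if_pos hx.2]
      rw [h2, zero_add]
      symm
      apply Finset.sum_bij (fun (x : (ZMod p)ˣ) _ => (x : ZMod p))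
      · intro x _
        rw [Finset.mem_filter]
        exact ⟨Finset.mem_univ _, x.ne_zero⟩
      · intro x _ y _ h
        exact Units.ext h
      · intro y hy
        rw [Finset.mem_filter] at hy
        exact ⟨Units.mk0 y hy.2, Finset.mem_univ _, rfl⟩
      · intro x _
        rw [if_neg x.ne_zero]
        congr 1
        rw [← Units.val_inv_eq_inv_val]
    rw [hsum]
    by_cases hlm : l = 0 ∨ m = 0
    · rw [if_pos (Or.inr hlm), mul_assoc 2 ((p : ℝ) ^ (3 / 2 : ℝ)) (Real.sqrt p), hp32]
      have h1 : ‖Kloo p l (m * k * b⁻¹)‖ ≤ p := by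
        unfold Kloo
        refine (norm_sum_le _ _).trans ?_
        simp only [norm_stdAddChar, Finset.sum_const, Finset.card_univ, nsmul_eq_mul, mul_one]
        rw [ZMod.card_units_eq_totient, Nat.totient_prime Fact.out]
        have : p - 1 ≤ p := Nat.sub_le _ _
        exact_mod_cast this
      calc (p : ℝ) * ‖Kloo p l (m * k * b⁻¹)‖ ≤ p * p := mul_le_mul_of_nonneg_left h1 hp0.le
        _ ≤ 2 * (p : ℝ) ^ 2 := by nlinarith
    · push Not at hlm
      rw [if_neg (by
        rintro (h | h | h)
        · exact hk h
        · exact hlm.1 h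
        · exact hlm.2 h), mul_one, hp32']
      have h1 := weil (p := p) hlm.1 (v := m * k * b⁻¹)
        (mul_ne_zero (mul_ne_zero hlm.2 hk) (inv_ne_zero hb))
      calc (p : ℝ) * ‖Kloo p l (m * k * b⁻¹)‖ ≤ p * (2 * Real.sqrt p) :=
            mul_le_mul_of_nonneg_left h1 hp0.le
        _ = 2 * (p * Real.sqrt p) := by ring

end Pool.Agent.P07318w
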