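import Pool.Agent.Lib.P07318w.KfBound
import Pool.Agent.Lib.P07318w.Newton
import Pool.Agent.Lib.P07318w.KrKf

/-!
# P07318w.Weil: Weil's bound for Kloosterman sums modulo a prime
-/

set_option autoImplicit false

namespace Pool.Agent.P07318w

theorem kloo_conj {p : ℕ} [Fact p.Prime] (u v : ZMod p) :
    (starRingEnd ℂ) (Kloo p u v) = Kloo p u v := by
  unfold Kloo
  rw [map_sum]
  refine Fintype.sum_equiv (Equiv.neg (ZMod p)ˣ) _ _ ?_
  intro x
  rw [← AddChar.map_neg_eq_conj]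
  congr 1
  simp only [Equiv.neg_apply, Units.val_neg, inv_neg]
  ring

theorem kr_one {p : ℕ} [Fact p.Prime] (u v : ZMod p) : Kr p u v 1 = Kloo p u v := by
  have h := newton (p := p) u v 1
  rw [Finset.Icc_self, Finset.sum_singleton, Nat.cast_one, one_mul, ls_one, Nat.sub_self, ls_zero,
    mul_one] at h
  exact h.symm

theorem kr_two {p : ℕ} [Fact p.Prime] {u v : ZMod p} (hu : u ≠ 0) (hv : v ≠ 0) :
    Kr p u v 2 = 2 * p - Kloo p u v * Kloo p u v := by
  have h := newton (p := p) u v 2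
  have h2 : Finset.Icc 1 2 = ({1, 2} : Finset ℕ) := by decide
  rw [h2, Finset.sum_pair (by norm_num), ls_two hu hv, kr_one, Nat.sub_self, ls_zero, mul_one] at h
  have h3 : (2 : ℕ) - 1 = 1 := rfl
  rw [h3, ls_one] at h
  push_cast at h
  linear_combination -h

theorem kr_rec {p : ℕ} [Fact p.Prime] {u v : ZMod p} (hu : u ≠ 0) (hv : v ≠ 0) (m : ℕ) :
    Kr p u v (m + 3) = -(Kr p u v (m + 2) * Kloo p u v) - Kr p u v (m + 1) * p := by
  have h := newton (p := p) u v (m + 3)
  rw [ls_ge hu (by omega : 3 ≤ m + 3), mul_zero] at h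
  have hs : ∑ r ∈ Finset.Icc 1 (m + 3), Kr p u v r * Ls p u v (m + 3 - r) =
      Kr p u v (m + 3) + Kr p u v (m + 2) * Kloo p u v + Kr p u v (m + 1) * p := by
    have h1 : Finset.Icc 1 (m + 3) = insert (m + 3) (insert (m + 2) (insert (m + 1)
        (Finset.Icc 1 m))) := by
      ext r
      simp only [Finset.mem_Icc, Finset.mem_insert]
      omega
    rw [h1, Finset.sum_insert, Finset.sum_insert, Finset.sum_insert]
    · have h4 : ∑ r ∈ Finset.Icc 1 m, Kr p u v r * Ls p u v (m + 3 - r) = 0 := by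
        apply Finset.sum_eq_zero
        intro r hr
        rw [Finset.mem_Icc] at hr
        rw [ls_ge hu (by omega), mul_zero]
      have e0 : m + 3 - (m + 3) = 0 := by omega
      have e1 : m + 3 - (m + 2) = 1 := by omega
      have e2 : m + 3 - (m + 1) = 2 := by omega
      rw [h4, e0, e1, e2, ls_zero, ls_one, ls_two hu hv]
      ring
    · simp only [Finset.mem_Icc]; omega
    · simp only [Finset.mem_insert, Finset.mem_Icc]; omega
    · simp only [Finset.mem_insert, Finset.mem_Icc]; omega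
  rw [hs] at h
  linear_combination -h

theorem weil {p : ℕ} [Fact p.Prime] {u v : ZMod p} (hu : u ≠ 0) (hv : v ≠ 0) : ‖Kloo p u v‖ ≤ 2 * Real.sqrt p := by
  by_contra hcon
  push Not at hcon
  have hp0 : (0 : ℝ) < p := by exact_mod_cast (Fact.out : p.Prime).pos
  obtain ⟨k', hk'⟩ := Complex.conj_eq_iff_real.mp (kloo_conj u v)
  set k : ℝ := -k' with hk
  have hK : Kloo p u v = -(k : ℂ) := by
    rw [hk', hk]
    push_cast
    ring
  have hnorm : ‖Kloo p u v‖ = |k| := by
    rw [hK, norm_neg, Complex.norm_real, Real.norm_eq_abs]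
  rw [hnorm] at hcon
  have hk2 : 4 * p < k ^ 2 := by
    have h1 : (2 * Real.sqrt p) ^ 2 < |k| ^ 2 :=
      pow_lt_pow_left₀ hcon (by positivity) two_ne_zero
    rw [mul_pow, Real.sq_sqrt hp0.le, sq_abs] at h1
    linarith
  set D : ℝ := Real.sqrt (k ^ 2 - 4 * p) with hD
  have hD2 : D ^ 2 = k ^ 2 - 4 * p := Real.sq_sqrt (by linarith)
  have hDpos : 0 < D := Real.sqrt_pos.mpr (by linarith)
  set α : ℝ := (k + D) / 2 with hα
  set β : ℝ := (k - D) / 2 with hβ
  have hsum : α + β = k := by rw [hα, hβ]; ring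
  have hprod : α * β = p := by
    have : α * β = (k ^ 2 - D ^ 2) / 4 := by rw [hα, hβ]; ring
    rw [this, hD2]; ring
  have hrecα : ∀ m : ℕ, α ^ (m + 2) = k * α ^ (m + 1) - p * α ^ m := by
    intro m
    rw [← hsum, ← hprod]; ring
  have hrecβ : ∀ m : ℕ, β ^ (m + 2) = k * β ^ (m + 1) - p * β ^ m := by
    intro m
    rw [← hsum, ← hprod]; ring
  have key : ∀ m : ℕ, Kr p u v (m + 1) = -((α ^ (m + 1) + β ^ (m + 1) : ℝ) : ℂ) ∧
      Kr p u v (m + 2) = -((α ^ (m + 2) + β ^ (m + 2) : ℝ) : ℂ) := by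
    intro m
    induction m with
    | zero =>
      constructor
      · rw [zero_add, kr_one, hK, pow_one, pow_one, hsum]
      · rw [zero_add, kr_two hu hv, hK]
        have h1 : α ^ 2 + β ^ 2 = k ^ 2 - 2 * p := by
          rw [← hsum, ← hprod]; ring
        rw [h1]
        push_cast
        ring
    | succ m ih =>
      refine ⟨ih.2, ?_⟩
      have h1 : m + 1 + 2 = m + 3 := rfl
      rw [h1, kr_rec hu hv, ih.1, ih.2, hK]
      have h2 : α ^ (m + 3) + β ^ (m + 3) = k * (α ^ (m + 2) + β ^ (m + 2)) -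
          p * (α ^ (m + 1) + β ^ (m + 1)) := by
        have h3 := hrecα (m + 1)
        have h4 := hrecβ (m + 1)
        have e1 : m + 1 + 2 = m + 3 := rfl
        have e2 : m + 1 + 1 = m + 2 := rfl
        rw [e1, e2] at h3 h4
        rw [h3, h4]; ring
      rw [h2]
      push_cast
      ring
  -- the larger root
  set A : ℝ := max (α ^ 2) (β ^ 2) with hA
  have hAp : (p : ℝ) < A := by
    by_contra hle
    push Not at hle
    have h1 : α ^ 2 ≤ p := (le_max_left _ _).trans hle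
    have h2 : β ^ 2 ≤ p := (le_max_right _ _).trans hle
    have h3 : (α + β) ^ 2 ≤ 4 * p := by nlinarith [hprod]
    rw [hsum] at h3
    linarith
  have hbound : ∀ μ : ℕ, 3 ≤ μ → A ^ μ ≤ 3 * p * (p : ℝ) ^ μ := by
    intro μ hμ
    have h1 := kf_bound hu hv hμ
    rw [← kr_eq_kf u v (by omega : 1 ≤ 2 * μ)] at h1
    obtain ⟨m, hm⟩ : ∃ m, 2 * μ = m + 1 := ⟨2 * μ - 1, by omega⟩
    have h2 : ‖Kr p u v (2 * μ)‖ = α ^ (2 * μ) + β ^ (2 * μ) := by
      rw [hm, (key m).1, norm_neg, Complex.norm_real, Real.norm_eq_abs, ← hm, abs_of_nonneg]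
      rw [pow_mul, pow_mul]
      positivity
    rw [h2, pow_mul, pow_mul] at h1
    have h3 : A ^ μ ≤ (α ^ 2) ^ μ + (β ^ 2) ^ μ := by
      rcases max_choice (α ^ 2) (β ^ 2) with h | h
      · rw [hA, h]
        have : 0 ≤ (β ^ 2) ^ μ := by positivity
        linarith
      · rw [hA, h]
        have : 0 ≤ (α ^ 2) ^ μ := by positivity
        linarith
    have h4 : (1 : ℝ) ≤ p * (p : ℝ) ^ μ := by
      have hp1 : (1 : ℝ) ≤ p := by exact_mod_cast (Fact.out : p.Prime).one_lt.le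
      have := one_le_pow₀ hp1 (n := μ)
      nlinarith
    linarith
  have hr1 : 1 < A / p := by rwa [one_lt_div hp0]
  obtain ⟨μ, hμ⟩ := pow_unbounded_of_one_lt (3 * (p : ℝ)) hr1
  have h5 : (A / p) ^ (μ + 3) ≤ 3 * p := by
    rw [div_pow, div_le_iff₀ (by positivity)]
    exact hbound (μ + 3) (by omega)
  have h6 : (A / p) ^ μ ≤ (A / p) ^ (μ + 3) := pow_le_pow_right₀ hr1.le (by omega)
  linarith

end Pool.Agent.P07318w
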